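import Pool.Agent.Lib.MP_171f82_an.Basic

set_option autoImplicit false

open Set Filter Topology
open scoped ContDiff

namespace Pool.Agent.Lib.MP_171f82_an

/-- unit vector of angle `θ` -/
noncomputable def ee (θ : ℝ) : ℝ × ℝ := (Real.cos θ, Real.sin θ)

lemma periodic_deriv {E : Type*} [NormedAddCommGroup E] [NormedSpace ℝ E] {f : ℝ → E} {c : ℝ}
    (h : Function.Periodic f c) : Function.Periodic (deriv f) c := by
  intro x
  have e : (fun y => f (y + c)) = f := funext h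
  rw [← deriv_comp_add_const, e]

lemma exists_inverse {κ : ℝ → ℝ} (hκ : ContDiff ℝ ∞ κ) (hpos : ∀ t, 0 < κ t)
    (hper : Function.Periodic κ 1) (θ0 : ℝ) :
    ∃ Θ ι : ℝ → ℝ, Θ 0 = θ0 ∧ (∀ t, HasDerivAt Θ (κ t) t) ∧ ContDiff ℝ ∞ Θ ∧ ContDiff ℝ ∞ ι ∧
      (∀ θ, Θ (ι θ) = θ) ∧ (∀ t, ι (Θ t) = t) ∧ ∀ θ, HasDerivAt ι (κ (ι θ))⁻¹ θ := by
  have hc : Continuous κ := hκ.continuous
  set Θ : ℝ → ℝ := fun t => θ0 + ∫ x in (0 : ℝ)..t, κ x with hΘ
  have hd : ∀ t, HasDerivAt Θ (κ t) t := fun t =>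
    (hc.integral_hasStrictDerivAt 0 t).hasDerivAt.const_add θ0
  have hdiff : Differentiable ℝ Θ := fun t => (hd t).differentiableAt
  have hder : deriv Θ = κ := funext fun t => (hd t).deriv
  have hsm : ContDiff ℝ ∞ Θ := contDiff_infty_iff_deriv.2 ⟨hdiff, hder ▸ hκ⟩
  obtain ⟨t1, -, ht1⟩ := (isCompact_Icc (a := (0 : ℝ)) (b := 1)).exists_isMinOn
    (nonempty_Icc.2 zero_le_one) hc.continuousOn
  have hm : ∀ t, κ t1 ≤ deriv Θ t := fun t => by
    obtain ⟨y, hy, e⟩ := hper.exists_mem_Ico₀ one_pos t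
    rw [hder, e]
    exact ht1 (Ico_subset_Icc_self hy)
  have hm0 := hpos t1
  have hlow := mul_sub_le_image_sub_of_le_deriv hdiff hm
  have hmono : StrictMono Θ := strictMono_of_deriv_pos fun t => by rw [hder]; exact hpos t
  have hsurj : Function.Surjective Θ := by
    intro p
    refine mem_range_of_exists_le_of_exists_ge hdiff.continuous
      ⟨-(|p - Θ 0| / κ t1), ?_⟩ ⟨|p - Θ 0| / κ t1, ?_⟩
    · have h1 := hlow (x := -(|p - Θ 0| / κ t1)) (y := 0)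
        (neg_nonpos.2 (div_nonneg (abs_nonneg _) hm0.le))
      rw [sub_neg_eq_add, zero_add, mul_div_cancel₀ _ hm0.ne'] at h1
      have := neg_abs_le (p - Θ 0)
      linarith
    · have h1 := hlow (x := 0) (y := |p - Θ 0| / κ t1) (div_nonneg (abs_nonneg _) hm0.le)
      rw [sub_zero, mul_div_cancel₀ _ hm0.ne'] at h1
      have := le_abs_self (p - Θ 0)
      linarith
  set H : ℝ ≃ₜ ℝ := (hmono.orderIsoOfSurjective Θ hsurj).toHomeomorph with hH
  have hHΘ : (H : ℝ → ℝ) = Θ := rfl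
  have hι : ContDiff ℝ ∞ (H.symm : ℝ → ℝ) :=
    H.contDiff_symm_deriv (f' := κ) (fun t => (hpos t).ne') hd hsm
  have h1 : ∀ θ, Θ (H.symm θ) = θ := fun θ => H.apply_symm_apply θ
  refine ⟨Θ, H.symm, by simp [hΘ], hd, hsm, hι, h1, fun t => H.symm_apply_apply t, fun θ => ?_⟩
  exact HasDerivAt.of_local_left_inverse H.symm.continuous.continuousAt (hd _) (hpos _).ne'
    (Filter.Eventually.of_forall h1)

theorem exists_angle_param {γ : ℝ → ℝ × ℝ} (hγ : ContDiff ℝ ∞ γ) (hper : Function.Periodic γ 1)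
    (hg : ∀ t, deriv γ t ≠ 0) (hcurv : ∀ t, 0 < dt (deriv γ t) (deriv (deriv γ) t)) :
    ∃ (Γ : ℝ → ℝ × ℝ) (r : ℝ → ℝ), ContDiff ℝ ∞ r ∧ (∀ θ, 0 < r θ) ∧
      (∀ θ, HasDerivAt Γ (r θ • ee θ) θ) ∧ range Γ = range γ ∧
      ∀ θ, ∃ (t a : ℝ), 0 ≤ a ∧ Γ θ = γ t ∧ ee θ = a • deriv γ t := by
  set γ1 := deriv γ with hγ1
  set γ2 := deriv γ1 with hγ2
  have hs1 : ContDiff ℝ ∞ γ1 := (contDiff_infty_iff_deriv.1 hγ).2
  have hs2 : ContDiff ℝ ∞ γ2 := (contDiff_infty_iff_deriv.1 hs1).2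
  have hd : ∀ t, HasDerivAt γ (γ1 t) t := fun t =>
    ((contDiff_infty_iff_deriv.1 hγ).1 t).hasDerivAt
  have hd1 : ∀ t, HasDerivAt γ1 (γ2 t) t := fun t =>
    ((contDiff_infty_iff_deriv.1 hs1).1 t).hasDerivAt
  have hp1 : Function.Periodic γ1 1 := periodic_deriv hper
  have hp2 : Function.Periodic γ2 1 := periodic_deriv hp1
  set N : ℝ → ℝ := fun t => (γ1 t).1 ^ 2 + (γ1 t).2 ^ 2 with hN
  have hNpos : ∀ t, 0 < N t := fun t => by
    by_contra hcon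
    simp only [hN] at hcon
    have h4 : (γ1 t).1 = 0 := by nlinarith [sq_nonneg (γ1 t).1, sq_nonneg (γ1 t).2]
    have h5 : (γ1 t).2 = 0 := by nlinarith [sq_nonneg (γ1 t).1, sq_nonneg (γ1 t).2]
    exact hg t (Prod.ext h4 h5)
  have hNs : ContDiff ℝ ∞ N := by simp only [hN]; fun_prop
  set κ : ℝ → ℝ := fun t => dt (γ1 t) (γ2 t) / N t with hκ
  have hκs : ContDiff ℝ ∞ κ := by
    refine ContDiff.div ?_ hNs fun t => (hNpos t).ne'
    unfold dt; fun_prop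
  have hκpos : ∀ t, 0 < κ t := fun t => div_pos (hcurv t) (hNpos t)
  have hκper : Function.Periodic κ 1 := fun t => by simp only [hκ, hN, hp1 t, hp2 t]
  obtain ⟨Θ, ι, h0, hΘd, hΘs, hιs, hΘι, hιΘ, hιd⟩ :=
    exists_inverse hκs hκpos hκper (Complex.arg ⟨(γ1 0).1, (γ1 0).2⟩)
  set B : ℝ → ℝ := fun t => Real.cos (Θ t) * (γ1 t).1 + Real.sin (Θ t) * (γ1 t).2 with hB
  have hBs : ContDiff ℝ ∞ B := by simp only [hB]; fun_prop
  have hJ : ∀ t, HasDerivAt (fun t => B t / Real.sqrt (N t)) 0 t := by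
    intro t
    have a1 : HasDerivAt (fun t => (γ1 t).1) (γ2 t).1 t := (hd1 t).fst
    have a2 : HasDerivAt (fun t => (γ1 t).2) (γ2 t).2 t := (hd1 t).snd
    have a3 := ((hΘd t).cos.fun_mul a1).fun_add ((hΘd t).sin.fun_mul a2)
    have a4 := ((a1.fun_pow 2).fun_add (a2.fun_pow 2)).sqrt (hNpos t).ne'
    have hs : 0 < Real.sqrt (N t) := Real.sqrt_pos.2 (hNpos t)
    have a5 := a3.fun_div a4 hs.ne'
    refine HasDerivAt.congr_deriv a5 ?_
    have hsq : Real.sqrt (N t) * Real.sqrt (N t) = N t := Real.mul_self_sqrt (hNpos t).le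
    have hNe : (γ1 t).1 ^ 2 + (γ1 t).2 ^ 2 = N t := rfl
    have hN0 := (hNpos t).ne'
    rw [hNe, div_eq_zero_iff]
    left
    simp only [hκ, dt]
    set s := Real.sqrt (N t)
    have hs0 := hs.ne'
    rw [← hsq]
    field_simp
    rw [← hNe] at hsq
    push_cast
    linear_combination 2 * (Real.cos (Θ t) * (γ2 t).1 + Real.sin (Θ t) * (γ2 t).2) * hsq
  have hJ1 : ∀ t, B t = Real.sqrt (N t) := by
    intro t
    have hc := is_const_of_deriv_eq_zero (f := fun t => B t / Real.sqrt (N t))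
      (fun t => (hJ t).differentiableAt) (fun t => (hJ t).deriv) t 0
    have hz : ‖(⟨(γ1 0).1, (γ1 0).2⟩ : ℂ)‖ = Real.sqrt (N 0) := by
      rw [Complex.norm_eq_sqrt_sq_add_sq]
    have c1 := Complex.norm_mul_cos_arg ⟨(γ1 0).1, (γ1 0).2⟩
    have c2 := Complex.norm_mul_sin_arg ⟨(γ1 0).1, (γ1 0).2⟩
    rw [hz, ← h0] at c1 c2
    have hs0 : 0 < Real.sqrt (N 0) := Real.sqrt_pos.2 (hNpos 0)
    have hB0 : B 0 = Real.sqrt (N 0) := by
      simp only [hB]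
      simp only at c1 c2
      rw [← c1, ← c2]
      linear_combination Real.sqrt (N 0) * Real.cos_sq_add_sin_sq (Θ 0)
    have hs : 0 < Real.sqrt (N t) := Real.sqrt_pos.2 (hNpos t)
    rw [hB0, div_self hs0.ne', div_eq_one_iff_eq hs.ne'] at hc
    exact hc
  have hBpos : ∀ t, 0 < B t := fun t => by rw [hJ1]; exact Real.sqrt_pos.2 (hNpos t)
  have hdir : ∀ t, γ1 t = B t • ee (Θ t) := by
    intro t
    have hsq : B t ^ 2 = (γ1 t).1 ^ 2 + (γ1 t).2 ^ 2 := by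
      rw [hJ1, Real.sq_sqrt (hNpos t).le]
    have hcs := Real.cos_sq_add_sin_sq (Θ t)
    have hA : (Real.cos (Θ t) * (γ1 t).2 - Real.sin (Θ t) * (γ1 t).1) ^ 2 = 0 := by
      simp only [hB] at hsq
      linear_combination (-1 : ℝ) * hsq + ((γ1 t).1 ^ 2 + (γ1 t).2 ^ 2) * hcs
    have hA0 := pow_eq_zero_iff (two_ne_zero) |>.1 hA
    ext
    · simp only [ee, hB, Prod.smul_fst, smul_eq_mul]
      linear_combination (-(γ1 t).1) * hcs - Real.sin (Θ t) * hA0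
    · simp only [ee, hB, Prod.smul_snd, smul_eq_mul]
      linear_combination (-(γ1 t).2) * hcs + Real.cos (Θ t) * hA0
  refine ⟨fun θ => γ (ι θ), fun θ => B (ι θ) / κ (ι θ), ?_, fun θ => div_pos (hBpos _) (hκpos _),
    fun θ => ?_, ?_, fun θ => ⟨ι θ, (B (ι θ))⁻¹, (inv_pos.2 (hBpos _)).le, rfl, ?_⟩⟩
  · exact (hBs.comp hιs).div (hκs.comp hιs) fun θ => (hκpos _).ne'
  · have := (hd (ι θ)).scomp θ (hιd θ)
    refine HasDerivAt.congr_deriv this ?_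
    rw [hdir, hΘι, smul_smul]
    congr 1
    exact (div_eq_inv_mul _ _).symm
  · ext x
    constructor
    · rintro ⟨θ, rfl⟩; exact ⟨_, rfl⟩
    · rintro ⟨t, rfl⟩; exact ⟨Θ t, by simp only [hιΘ]⟩
  · rw [hdir, hΘι, smul_smul, inv_mul_cancel₀ (hBpos _).ne', one_smul]

end Pool.Agent.Lib.MP_171f82_an
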