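import Pool.Agent.Lib.MP_171f82_an.Taylor

set_option autoImplicit false

open Set Filter Topology Asymptotics

namespace Pool.Agent.Lib.MP_171f82_an

lemma arc_taylor {ω k k1 k2 k3 G G1 : ℝ → ℝ} {n c Γ : ℝ → ℝ × ℝ} (a : ℝ)
    (hΓ : ∀ t, HasDerivAt Γ ((ω t / k t) • n t) t)
    (hn : ∀ t, HasDerivAt n (ω t • c t) t)
    (hc : ∀ t, HasDerivAt c ((-(ω t * G t)) • n t) t)
    (hk : ∀ t, HasDerivAt k (ω t * k1 t) t) (hk1 : ∀ t, HasDerivAt k1 (ω t * k2 t) t)
    (hk2 : ∀ t, HasDerivAt k2 (ω t * k3 t) t) (hG : ∀ t, HasDerivAt G (ω t * G1 t) t)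
    (hω : Continuous ω) (hk3 : Continuous k3) (hG1 : Continuous G1)
    (hnc : ∀ t, dt (n t) (c t) = 1) (hk0 : ∀ t, k t ≠ 0) :
    HasStrictDerivAt (fun t => dt (Γ t - Γ a) (c a)) (ω a / k a) a ∧
    (fun t => dt (n a) (Γ t - Γ a) -
      (k a / 2 * dt (Γ t - Γ a) (c a) ^ 2 + k a * k1 a / 6 * dt (Γ t - Γ a) (c a) ^ 3 +
        k a * (k1 a ^ 2 + k a * k2 a + 3 * k a ^ 2 * G a) / 24 * dt (Γ t - Γ a) (c a) ^ 4 +
        k a * (k1 a ^ 3 + 4 * k a * k1 a * k2 a + k a ^ 2 * k3 a + 19 * k a ^ 2 * k1 a * G a +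
          3 * k a ^ 3 * G1 a) / 120 * dt (Γ t - Γ a) (c a) ^ 5)) =o[𝓝 a]
      fun t => (t - a) ^ 5 := by
  have cn : Continuous n := continuous_iff_continuousAt.2 fun t => (hn t).continuousAt
  have cc : Continuous c := continuous_iff_continuousAt.2 fun t => (hc t).continuousAt
  have ck : Continuous k := continuous_iff_continuousAt.2 fun t => (hk t).continuousAt
  have ck1 : Continuous k1 := continuous_iff_continuousAt.2 fun t => (hk1 t).continuousAt
  have ck2 : Continuous k2 := continuous_iff_continuousAt.2 fun t => (hk2 t).continuousAt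
  have cG : Continuous G := continuous_iff_continuousAt.2 fun t => (hG t).continuousAt
  set β : ℝ → ℝ := fun t => dt (n t) (c a) with hβ
  set β1 : ℝ → ℝ := fun t => dt (c t) (c a) with hβ1
  have cβ : Continuous β := by simp only [hβ]; unfold dt; fun_prop
  have βa : β a = 1 := hnc a
  have β1a : β1 a = 0 := dt_self _
  have dβ : ∀ t, HasDerivAt β (ω t * β1 t) t := fun t => by
    have := hasDerivAt_dt (hn t) (hasDerivAt_const t (c a))
    rwa [dt_zero_right, add_zero, dt_smul_left] at this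
  have dβ1 : ∀ t, HasDerivAt β1 (-(ω t * G t) * β t) t := fun t => by
    have := hasDerivAt_dt (hc t) (hasDerivAt_const t (c a))
    rwa [dt_zero_right, add_zero, dt_smul_left] at this
  have hβne : ∀ᶠ t in 𝓝 a, β t ≠ 0 :=
    cβ.continuousAt.eventually_ne (by rw [βa]; exact one_ne_zero)
  set b : ℝ → ℝ := fun t => (β t)⁻¹ with hb
  set g : ℝ → ℝ := fun t => β1 t * (β t)⁻¹ with hg
  have ba : b a = 1 := by simp only [hb, βa, inv_one]
  have ga : g a = 0 := by simp only [hg, β1a, zero_mul]
  have db : ∀ t, β t ≠ 0 → HasDerivAt b (ω t * (-(g t * b t))) t := fun t ht => by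
    refine HasDerivAt.congr_deriv ((dβ t).fun_inv ht) ?_
    simp only [hb, hg]; field_simp
  have dg : ∀ t, β t ≠ 0 → HasDerivAt g (ω t * (-G t - g t ^ 2)) t := fun t ht => by
    refine HasDerivAt.congr_deriv ((dβ1 t).fun_mul ((dβ t).fun_inv ht)) ?_
    simp only [hg]; field_simp; ring
  have cb : ContinuousAt b a := (db a (by rw [βa]; exact one_ne_zero)).continuousAt
  have cg : ContinuousAt g a := (dg a (by rw [βa]; exact one_ne_zero)).continuousAt
  set X1 : ℝ → ℝ := fun t => ω t / k t * β t with hX1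
  have cX1 : Continuous X1 := (hω.div ck hk0).mul cβ
  have dX : ∀ t, HasDerivAt (fun t => dt (Γ t - Γ a) (c a)) (X1 t) t := fun t => by
    have := hasDerivAt_dt ((hΓ t).sub_const (Γ a)) (hasDerivAt_const t (c a))
    rwa [dt_zero_right, add_zero, dt_smul_left] at this
  have conv : ∀ t, β t ≠ 0 → ∀ D : ℝ, X1 t * (k t * b t * D) = ω t * D := fun t ht D => by
    have := hk0 t
    simp only [hX1, hb]; field_simp
  constructor
  · have := hasStrictDerivAt_of_hasDerivAt_of_continuousAt (x := a)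
      (Filter.Eventually.of_forall dX) cX1.continuousAt
    simpa only [hX1, βa, mul_one] using this
  have key := gen_taylor (X := fun t => dt (Γ t - Γ a) (c a)) (X1 := X1)
    (F0 := fun t => dt (n a) (Γ t - Γ a)) (F1 := fun t => dt (n a) (n t) * b t)
    (F2 := fun t => k t * b t * b t ^ 2)
    (F3 := fun t => k t * b t * (b t ^ 3 * (k1 t - 3 * k t * g t)))
    (F4 := fun t => k t * b t * (b t ^ 4 * (k1 t ^ 2 + k t * k2 t - 10 * k t * k1 t * g t +
      15 * k t ^ 2 * g t ^ 2 + 3 * k t ^ 2 * G t)))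
    (F5 := fun t => k t * b t * (b t ^ 5 * ((k1 t - 5 * k t * g t) *
      (k1 t ^ 2 + k t * k2 t - 10 * k t * k1 t * g t + 15 * k t ^ 2 * g t ^ 2 +
        3 * k t ^ 2 * G t) +
      k t * (3 * k1 t * k2 t + k t * k3 t -
        10 * (k1 t ^ 2 * g t + k t * k2 t * g t + k t * k1 t * (-G t - g t ^ 2)) +
        30 * k t * k1 t * g t ^ 2 + 30 * k t ^ 2 * g t * (-G t - g t ^ 2) +
        6 * k t * k1 t * G t + 3 * k t ^ 2 * G1 t))))
    (a := a) (Filter.Eventually.of_forall dX) cX1.continuousAt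
    (by simp only [sub_self, dt_zero_left]) ?_ ?_ ?_ ?_ ?_ ?_
    (by simp only [sub_self, dt_zero_right]) (by simp only [dt_self, zero_mul])
  · refine key.congr_left fun t => ?_
    simp only [ba, ga]
    ring
  · filter_upwards [hβne] with t ht
    have := hasDerivAt_dt (hasDerivAt_const t (n a)) ((hΓ t).sub_const (Γ a))
    rw [dt_zero_left, zero_add, dt_smul_right] at this
    refine HasDerivAt.congr_deriv this ?_
    have := hk0 t
    simp only [hX1, hb]; field_simp
  · filter_upwards [hβne] with t ht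
    have h1 := hasDerivAt_dt (hasDerivAt_const t (n a)) (hn t)
    rw [dt_zero_left, zero_add, dt_smul_right] at h1
    refine HasDerivAt.congr_deriv (h1.fun_mul (db t ht)) ?_
    rw [conv t ht]
    have hpl : dt (n a) (c t) * β t - dt (n a) (n t) * β1 t = 1 := by
      have e1 := hnc a
      have e2 := hnc t
      simp only [hβ, hβ1]
      unfold dt at *
      linear_combination ((n t).1 * (c t).2 - (n t).2 * (c t).1) * e1 + e2
    simp only [hb, hg]
    field_simp
    linear_combination ω t * hpl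
  · filter_upwards [hβne] with t ht
    refine HasDerivAt.congr_deriv (((hk t).fun_mul (db t ht)).fun_mul ((db t ht).fun_pow 2)) ?_
    rw [conv t ht]; push_cast; ring
  · filter_upwards [hβne] with t ht
    refine HasDerivAt.congr_deriv (((hk t).fun_mul (db t ht)).fun_mul
      (((db t ht).fun_pow 3).fun_mul ((hk1 t).fun_sub
        (((hk t).const_mul 3).fun_mul (dg t ht))))) ?_
    rw [conv t ht]; push_cast; ring
  · filter_upwards [hβne] with t ht
    refine HasDerivAt.congr_deriv (((hk t).fun_mul (db t ht)).fun_mul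
      (((db t ht).fun_pow 4).fun_mul ((((((hk1 t).fun_pow 2).fun_add
        ((hk t).fun_mul (hk2 t))).fun_sub
        ((((hk t).const_mul 10).fun_mul (hk1 t)).fun_mul (dg t ht))).fun_add
        ((((hk t).fun_pow 2).const_mul 15).fun_mul ((dg t ht).fun_pow 2))).fun_add
        ((((hk t).fun_pow 2).const_mul 3).fun_mul (hG t))))) ?_
    rw [conv t ht]; push_cast; ring
  · have c1 := ck.continuousAt (x := a)
    have c2 := ck1.continuousAt (x := a)
    have c3 := ck2.continuousAt (x := a)
    have c4 := hk3.continuousAt (x := a)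
    have c5 := cG.continuousAt (x := a)
    have c6 := hG1.continuousAt (x := a)
    fun_prop

end Pool.Agent.Lib.MP_171f82_an
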