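import Mathlib

set_option autoImplicit false

open Set Filter Topology

namespace Pool.Agent.Lib.MP_171f82_an

/-- The planar determinant. -/
def dt (a b : ℝ × ℝ) : ℝ := a.1 * b.2 - a.2 * b.1

lemma dt_add_right (a b c : ℝ × ℝ) : dt a (b + c) = dt a b + dt a c := by
  simp only [dt, Prod.fst_add, Prod.snd_add]; ring

lemma dt_sub_right (a b c : ℝ × ℝ) : dt a (b - c) = dt a b - dt a c := by
  simp only [dt, Prod.fst_sub, Prod.snd_sub]; ring

lemma dt_smul_right (a b : ℝ × ℝ) (t : ℝ) : dt a (t • b) = t * dt a b := by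
  simp only [dt, Prod.smul_fst, Prod.smul_snd, smul_eq_mul]; ring

lemma dt_add_left (a b c : ℝ × ℝ) : dt (a + b) c = dt a c + dt b c := by
  simp only [dt, Prod.fst_add, Prod.snd_add]; ring

lemma dt_sub_left (a b c : ℝ × ℝ) : dt (a - b) c = dt a c - dt b c := by
  simp only [dt, Prod.fst_sub, Prod.snd_sub]; ring

lemma dt_smul_left (a b : ℝ × ℝ) (t : ℝ) : dt (t • a) b = t * dt a b := by
  simp only [dt, Prod.smul_fst, Prod.smul_snd, smul_eq_mul]; ring

lemma dt_neg_left (a b : ℝ × ℝ) : dt (-a) b = - dt a b := by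
  simp only [dt, Prod.fst_neg, Prod.snd_neg]; ring

lemma dt_neg_right (a b : ℝ × ℝ) : dt a (-b) = - dt a b := by
  simp only [dt, Prod.fst_neg, Prod.snd_neg]; ring

lemma dt_self (a : ℝ × ℝ) : dt a a = 0 := by
  simp only [dt]; ring

lemma dt_zero_right (a : ℝ × ℝ) : dt a 0 = 0 := by
  simp [dt]

lemma dt_zero_left (a : ℝ × ℝ) : dt 0 a = 0 := by
  simp [dt]

lemma dt_swap (a b : ℝ × ℝ) : dt a b = - dt b a := by
  simp only [dt]; ring

lemma continuous_dt : Continuous (fun p : (ℝ × ℝ) × (ℝ × ℝ) => dt p.1 p.2) := by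
  unfold dt; fun_prop

lemma continuous_dt_right (u : ℝ × ℝ) : Continuous (fun y : ℝ × ℝ => dt u y) := by
  unfold dt; fun_prop

lemma hasDerivAt_dt {f g : ℝ → ℝ × ℝ} {f' g' : ℝ × ℝ} {x : ℝ}
    (hf : HasDerivAt f f' x) (hg : HasDerivAt g g' x) :
    HasDerivAt (fun t => dt (f t) (g t)) (dt f' (g x) + dt (f x) g') x := by
  have h1 : HasDerivAt (fun t => (f t).1) f'.1 x := hf.fst
  have h2 : HasDerivAt (fun t => (f t).2) f'.2 x := hf.snd
  have h3 : HasDerivAt (fun t => (g t).1) g'.1 x := hg.fst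
  have h4 : HasDerivAt (fun t => (g t).2) g'.2 x := hg.snd
  have := (h1.fun_mul h4).fun_sub (h2.fun_mul h3)
  have e : dt f' (g x) + dt (f x) g' =
      f'.1 * (g x).2 + (f x).1 * g'.2 - (f'.2 * (g x).1 + (f x).2 * g'.1) := by
    unfold dt; ring
  rw [e]
  exact this

/-- decomposition of a vector in a basis -/
lemma dt_decomp (u v z : ℝ × ℝ) : dt u v • z = dt z v • u + dt u z • v := by
  ext <;> simp only [dt, Prod.smul_fst, Prod.smul_snd, smul_eq_mul, Prod.fst_add, Prod.snd_add]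
    <;> ring

lemma exists_smul_of_dt_eq_zero {u z : ℝ × ℝ} (hu : u ≠ 0) (h : dt u z = 0) :
    ∃ t : ℝ, z = t • u := by
  by_cases h1 : u.1 = 0
  · have h2 : u.2 ≠ 0 := by
      intro h2; exact hu (Prod.ext h1 h2)
    refine ⟨z.2 / u.2, ?_⟩
    have : z.1 = 0 := by
      simp only [dt, h1, zero_mul, zero_sub, neg_eq_zero, mul_eq_zero] at h
      exact h.resolve_left h2
    ext
    · simp [this, h1]
    · simp only [Prod.smul_snd, smul_eq_mul]; field_simp
  · refine ⟨z.1 / u.1, ?_⟩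
    ext
    · simp only [Prod.smul_fst, smul_eq_mul]; field_simp
    · simp only [Prod.smul_snd, smul_eq_mul]; unfold dt at h; field_simp; linarith

/-- `x` minimises `dt u` on `K`. -/
def Supp (K : Set (ℝ × ℝ)) (u x : ℝ × ℝ) : Prop := x ∈ K ∧ ∀ y ∈ K, dt u x ≤ dt u y

lemma exists_supp {K : Set (ℝ × ℝ)} (hK : IsCompact K) (hne : K.Nonempty) (u : ℝ × ℝ) :
    ∃ x, Supp K u x := by
  obtain ⟨x, hx, h⟩ := hK.exists_isMinOn hne (continuous_dt_right u).continuousOn
  exact ⟨x, hx, fun y hy => h hy⟩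

lemma Supp.smul {K : Set (ℝ × ℝ)} {u x : ℝ × ℝ} (h : Supp K u x) {a : ℝ} (ha : 0 ≤ a) :
    Supp K (a • u) x :=
  ⟨h.1, fun y hy => by
    rw [dt_smul_left, dt_smul_left]; exact mul_le_mul_of_nonneg_left (h.2 y hy) ha⟩

lemma Supp.not_mem_interior {K : Set (ℝ × ℝ)} {u x : ℝ × ℝ} (h : Supp K u x) (hu : u ≠ 0) :
    x ∉ interior K := by
  intro hx
  have hc : Continuous (fun t : ℝ => x + t • ((u.2, -u.1) : ℝ × ℝ)) := by fun_prop
  have h0 : (fun t : ℝ => x + t • ((u.2, -u.1) : ℝ × ℝ)) ⁻¹' (interior K) ∈ 𝓝 (0 : ℝ) :=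
    hc.continuousAt.preimage_mem_nhds (by simpa using isOpen_interior.mem_nhds hx)
  obtain ⟨t, ht, htpos⟩ : ∃ t : ℝ, x + t • ((u.2, -u.1) : ℝ × ℝ) ∈ interior K ∧ 0 < t := by
    have h1 : ∀ᶠ t in 𝓝[>] (0 : ℝ), x + t • ((u.2, -u.1) : ℝ × ℝ) ∈ interior K :=
      nhdsWithin_le_nhds h0
    exact (h1.and self_mem_nhdsWithin).exists
  have h2 := h.2 _ (interior_subset ht)
  rw [dt_add_right, dt_smul_right] at h2
  have h3 : 0 < u.1 ^ 2 + u.2 ^ 2 := by
    by_contra hcon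
    have h4 : u.1 = 0 := by nlinarith [sq_nonneg u.1, sq_nonneg u.2]
    have h5 : u.2 = 0 := by nlinarith [sq_nonneg u.1, sq_nonneg u.2]
    exact hu (Prod.ext h4 h5)
  have h4 : dt u ((u.2, -u.1) : ℝ × ℝ) = -(u.1 ^ 2 + u.2 ^ 2) := by simp only [dt]; ring
  rw [h4] at h2
  nlinarith

lemma Supp.mem_frontier {K : Set (ℝ × ℝ)} {u x : ℝ × ℝ} (h : Supp K u x) (hu : u ≠ 0) :
    x ∈ frontier K :=
  ⟨subset_closure h.1, h.not_mem_interior hu⟩

lemma Supp.lt {K : Set (ℝ × ℝ)} (hs : StrictConvex ℝ K) {u x : ℝ × ℝ} (h : Supp K u x)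
    (hu : u ≠ 0) {y : ℝ × ℝ} (hy : y ∈ K) (hne : y ≠ x) : dt u x < dt u y := by
  rcases (h.2 y hy).lt_or_eq with h1 | h1
  · exact h1
  · exfalso
    have hm : (1 / 2 : ℝ) • y + (1 / 2 : ℝ) • x ∈ interior K :=
      hs hy h.1 hne (by norm_num) (by norm_num) (by norm_num)
    have : Supp K u ((1 / 2 : ℝ) • y + (1 / 2 : ℝ) • x) := by
      refine ⟨interior_subset hm, fun z hz => ?_⟩
      rw [dt_add_right, dt_smul_right, dt_smul_right, ← h1]
      have := h.2 z hz
      linarith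
    exact this.not_mem_interior hu hm

lemma Supp.unique {K : Set (ℝ × ℝ)} (hs : StrictConvex ℝ K) {u x y : ℝ × ℝ} (h : Supp K u x)
    (h' : Supp K u y) (hu : u ≠ 0) : y = x := by
  by_contra hne
  have h1 := h.lt hs hu h'.1 hne
  have h2 := h'.2 x h.1
  linarith

lemma Supp.line {K : Set (ℝ × ℝ)} (hs : StrictConvex ℝ K) {u x : ℝ × ℝ} (h : Supp K u x)
    (hu : u ≠ 0) {t : ℝ} (ht : x + t • u ∈ K) : t = 0 := by
  by_contra hne
  have h1 : x + t • u ≠ x := by
    intro h2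
    have : t • u = 0 := by simpa using h2
    rcases smul_eq_zero.1 this with h3 | h3
    · exact hne h3
    · exact hu h3
  have := h.lt hs hu ht h1
  rw [dt_add_right, dt_smul_right, dt_self] at this
  linarith

lemma Supp.line_neg {K : Set (ℝ × ℝ)} (hs : StrictConvex ℝ K) {u x : ℝ × ℝ} (h : Supp K (-u) x)
    (hu : u ≠ 0) {t : ℝ} (ht : x + t • u ∈ K) : t = 0 := by
  have := h.line hs (neg_ne_zero.2 hu) (t := -t) (by simpa using ht)
  linarith

lemma between_interior {K : Set (ℝ × ℝ)} (hs : StrictConvex ℝ K) {x u : ℝ × ℝ} (hu : u ≠ 0)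
    {p q r : ℝ} (hpq : p < q) (hqr : q < r) (hp : x + p • u ∈ K) (hr : x + r • u ∈ K) :
    x + q • u ∈ interior K := by
  have hne : x + p • u ≠ x + r • u := by
    intro h
    have h1 : (p - r) • u = 0 := by
      rw [sub_smul]; exact sub_eq_zero.2 (add_left_cancel h)
    rcases smul_eq_zero.1 h1 with h2 | h2
    · linarith
    · exact hu h2
  have hrp : 0 < r - p := by linarith
  have := hs hp hr hne (a := (r - q) / (r - p)) (b := (q - p) / (r - p))
    (div_pos (by linarith) hrp) (div_pos (by linarith) hrp) (by field_simp; ring)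
  convert this using 1
  ext
  · simp only [Prod.fst_add, Prod.smul_fst, smul_eq_mul]; field_simp; ring
  · simp only [Prod.snd_add, Prod.smul_snd, smul_eq_mul]; field_simp; ring

lemma three_points {K : Set (ℝ × ℝ)} (hc : IsClosed K) (hs : StrictConvex ℝ K) {x u : ℝ × ℝ}
    (hu : u ≠ 0) {a b : ℝ} (ha : a ≠ 0) (hb : b ≠ 0) (hx : x ∈ frontier K)
    (hxa : x + a • u ∈ frontier K) (hxb : x + b • u ∈ frontier K) : a = b := by
  have hx0 : x + (0 : ℝ) • u ∈ frontier K := by simpa using hx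
  have key : ∀ p q r : ℝ, p < q → q < r → x + p • u ∈ frontier K → x + q • u ∈ frontier K →
      x + r • u ∈ frontier K → False := fun p q r hpq hqr hp hq hr =>
    hq.2 (between_interior hs hu hpq hqr (hc.frontier_subset hp) (hc.frontier_subset hr))
  by_contra hab
  rcases lt_or_gt_of_ne ha with ha | ha <;> rcases lt_or_gt_of_ne hb with hb | hb <;>
    rcases lt_or_gt_of_ne hab with hab | hab
  · exact key _ _ _ hab hb hxa hxb hx0
  · exact key _ _ _ hab ha hxb hxa hx0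
  · exact key _ _ _ ha hb hxa hx0 hxb
  · exact key _ _ _ ha hb hxa hx0 hxb
  · exact key _ _ _ hb ha hxb hx0 hxa
  · exact key _ _ _ hb ha hxb hx0 hxa
  · exact key _ _ _ ha hab hx0 hxa hxb
  · exact key _ _ _ hb hab hx0 hxb hxa

/-- a ray from a point of `K` leaves `K` through the frontier -/
lemma exit_point {K : Set (ℝ × ℝ)} (hK : IsCompact K) {z v : ℝ × ℝ} (hv : v ≠ 0) (hz : z ∈ K) :
    ∃ s : ℝ, 0 ≤ s ∧ z + s • v ∈ frontier K := by
  have hc : Continuous (fun s : ℝ => z + s • v) := by fun_prop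
  have hcl : IsClosed {s : ℝ | z + s • v ∈ K} := hK.isClosed.preimage hc
  obtain ⟨C, hC⟩ := hK.isBounded.exists_norm_le
  have hvpos : 0 < ‖v‖ := norm_pos_iff.2 hv
  have hbdd : BddAbove {s : ℝ | z + s • v ∈ K} := by
    refine ⟨2 * C / ‖v‖, fun s hs => ?_⟩
    have h1 : ‖z + s • v‖ ≤ C := hC _ hs
    have h2 : ‖z‖ ≤ C := hC _ hz
    have h3 : ‖s • v‖ ≤ ‖z + s • v‖ + ‖z‖ := by
      have := norm_sub_le (z + s • v) z
      simpa using this
    rw [norm_smul, Real.norm_eq_abs] at h3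
    rw [le_div_iff₀ hvpos]
    have h4 : s * ‖v‖ ≤ |s| * ‖v‖ := mul_le_mul_of_nonneg_right (le_abs_self s) hvpos.le
    linarith
  have hne : {s : ℝ | z + s • v ∈ K}.Nonempty := ⟨0, by simpa using hz⟩
  have hmem := hcl.csSup_mem hne hbdd
  refine ⟨sSup {s : ℝ | z + s • v ∈ K}, le_csSup hbdd (by simpa using hz),
    subset_closure hmem, fun hint => ?_⟩
  have h0 : (fun s : ℝ => z + s • v) ⁻¹' (interior K) ∈ 𝓝 (sSup {s : ℝ | z + s • v ∈ K}) :=
    hc.continuousAt.preimage_mem_nhds (isOpen_interior.mem_nhds hint)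
  have h1 : ∀ᶠ t in 𝓝[>] (sSup {s : ℝ | z + s • v ∈ K}), z + t • v ∈ interior K :=
    nhdsWithin_le_nhds h0
  obtain ⟨t, ht, htpos⟩ := (h1.and self_mem_nhdsWithin).exists
  have h2 : t ≤ sSup {s : ℝ | z + s • v ∈ K} :=
    le_csSup hbdd (show z + t • v ∈ K from interior_subset ht)
  exact absurd htpos (not_lt.2 h2)

lemma supp_of_line {K : Set (ℝ × ℝ)} (hK : IsCompact K) (hs : StrictConvex ℝ K) {x v : ℝ × ℝ}
    (hv : v ≠ 0) (hx : x ∈ frontier K) (h : ∀ t : ℝ, x + t • v ∈ frontier K → t = 0) :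
    Supp K v x ∨ Supp K (-v) x := by
  have hxK : x ∈ K := hK.isClosed.frontier_subset hx
  by_contra hcon
  rw [not_or] at hcon
  obtain ⟨h1, h2⟩ := hcon
  simp only [Supp, not_and, not_forall, not_le] at h1 h2
  obtain ⟨y1, hy1, hl1⟩ := h1 hxK
  obtain ⟨y2, hy2, hl2⟩ := h2 hxK
  rw [dt_neg_left, dt_neg_left] at hl2
  have hne : y1 ≠ y2 := by
    intro h; rw [h] at hl1; linarith
  have hD : 0 < dt v y2 - dt v y1 := by linarith
  have hm := hs hy1 hy2 hne (a := (dt v y2 - dt v x) / (dt v y2 - dt v y1))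
    (b := (dt v x - dt v y1) / (dt v y2 - dt v y1))
    (div_pos (by linarith) hD) (div_pos (by linarith) hD) (by field_simp; ring)
  set z := ((dt v y2 - dt v x) / (dt v y2 - dt v y1)) • y1 +
    ((dt v x - dt v y1) / (dt v y2 - dt v y1)) • y2 with hz
  have hdz : dt v (z - x) = 0 := by
    rw [dt_sub_right, hz, dt_add_right, dt_smul_right, dt_smul_right]
    field_simp
    ring
  obtain ⟨t, ht⟩ := exists_smul_of_dt_eq_zero hv hdz
  have hzx : z = x + t • v := by rw [← ht]; abel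
  have ht0 : t ≠ 0 := by
    intro h0
    rw [h0, zero_smul, add_zero] at hzx
    exact hx.2 (hzx ▸ hm)
  obtain ⟨s, hs0, hs1⟩ := exit_point hK (smul_ne_zero ht0 hv) (interior_subset hm)
  have h3 : x + (t * (1 + s)) • v ∈ frontier K := by
    convert hs1 using 1
    rw [hzx, smul_smul, add_assoc, ← add_smul]
    congr 2
    ring
  have h4 := h _ h3
  rcases mul_eq_zero.1 h4 with h5 | h5
  · exact ht0 h5
  · linarith

end Pool.Agent.Lib.MP_171f82_an
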