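import Pool.Agent.Lib.MP_171f82_an.Basic

set_option autoImplicit false

open Set Filter Topology

namespace Pool.Agent.Lib.MP_171f82_an

/-- `σ` sends a frontier point to the other end of the chord in direction `u`. -/
def ChordSpec (K : Set (ℝ × ℝ)) (u : ℝ × ℝ) (σ : ℝ × ℝ → ℝ × ℝ) : Prop :=
  ∀ x ∈ frontier K, σ x ∈ frontier K ∧ (∃ t : ℝ, σ x = x + t • u) ∧
    (σ x = x → ∀ t : ℝ, x + t • u ∈ frontier K → t = 0)

/-- all double chord maps are conjugate to rotations -/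
def RotHyp (K : Set (ℝ × ℝ)) : Prop :=
  ∀ u v : ℝ × ℝ, u ≠ 0 → v ≠ 0 → ∀ σu σv : ℝ × ℝ → ℝ × ℝ,
    ChordSpec K u σu → ChordSpec K v σv →
      ∃ h : ℝ × ℝ → AddCircle (1 : ℝ), ∃ α : AddCircle (1 : ℝ),
        ContinuousOn h (frontier K) ∧ Set.BijOn h (frontier K) Set.univ ∧
          ∀ x ∈ frontier K, h (σv (σu x)) = h x + α

/-- inscribed parallelogram property for conjugate directions -/
def RectProp (K : Set (ℝ × ℝ)) : Prop :=
  ∀ u T B : ℝ × ℝ, u ≠ 0 → Supp K u T → Supp K (-u) B →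
    ∀ (x : ℝ × ℝ) (a b : ℝ), a ≠ 0 → b ≠ 0 → x ∈ frontier K → x + a • u ∈ frontier K →
      x + b • (B - T) ∈ frontier K → x + a • u + b • (B - T) ∈ frontier K

/-- the difference body is bounded by a Radon curve -/
def RadonProp (K : Set (ℝ × ℝ)) : Prop :=
  ∀ u T B L R : ℝ × ℝ, u ≠ 0 → Supp K u T → Supp K (-u) B →
    Supp K (B - T) R → Supp K (-(B - T)) L → dt u (L - R) = 0

lemma exists_chordSpec (K : Set (ℝ × ℝ)) {u : ℝ × ℝ} (hu : u ≠ 0) : ∃ σ, ChordSpec K u σ := by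
  classical
  refine ⟨fun x => if h : ∃ t : ℝ, t ≠ 0 ∧ x + t • u ∈ frontier K then x + h.choose • u else x,
    fun x hx => ?_⟩
  by_cases h : ∃ t : ℝ, t ≠ 0 ∧ x + t • u ∈ frontier K
  · simp only [dif_pos h]
    refine ⟨h.choose_spec.2, ⟨_, rfl⟩, fun h1 => ?_⟩
    exfalso
    have h2 : h.choose • u = 0 := by simpa using h1
    rcases smul_eq_zero.1 h2 with h3 | h3
    · exact h.choose_spec.1 h3
    · exact hu h3
  · simp only [dif_neg h]
    refine ⟨hx, ⟨0, by simp⟩, fun _ t ht => ?_⟩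
    by_contra h0
    exact h ⟨t, h0, ht⟩

variable {K : Set (ℝ × ℝ)}

lemma ChordSpec.eq_of (hc : IsClosed K) (hs : StrictConvex ℝ K) {u : ℝ × ℝ} (hu : u ≠ 0)
    {σ : ℝ × ℝ → ℝ × ℝ} (h : ChordSpec K u σ) {x : ℝ × ℝ} (hx : x ∈ frontier K) {t : ℝ}
    (ht : t ≠ 0) (hxt : x + t • u ∈ frontier K) : σ x = x + t • u := by
  obtain ⟨h1, ⟨s, h2⟩, h3⟩ := h x hx
  have hs0 : s ≠ 0 := by
    intro h0
    rw [h0, zero_smul, add_zero] at h2
    exact ht (h3 h2 t hxt)
  rw [h2] at h1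
  rw [h2, three_points hc hs hu hs0 ht hx h1 hxt]

lemma ChordSpec.invol (hc : IsClosed K) (hs : StrictConvex ℝ K) {u : ℝ × ℝ} (hu : u ≠ 0)
    {σ : ℝ × ℝ → ℝ × ℝ} (h : ChordSpec K u σ) {x : ℝ × ℝ} (hx : x ∈ frontier K) :
    σ (σ x) = x := by
  obtain ⟨h1, ⟨s, h2⟩, -⟩ := h x hx
  by_cases hs0 : s = 0
  · rw [hs0, zero_smul, add_zero] at h2
    rw [h2, h2]
  · have h4 : σ x + (-s) • u = x := by rw [h2]; simp
    have := h.eq_of hc hs hu h1 (neg_ne_zero.2 hs0) (by rw [h4]; exact hx)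
    rw [this, h4]

lemma ChordSpec.fix (hc : IsClosed K) (hs : StrictConvex ℝ K) {u : ℝ × ℝ} (hu : u ≠ 0)
    {σ : ℝ × ℝ → ℝ × ℝ} (h : ChordSpec K u σ) {x : ℝ × ℝ} (hx : Supp K u x) : σ x = x := by
  obtain ⟨h1, ⟨s, h2⟩, -⟩ := h x (hx.mem_frontier hu)
  rw [h2] at h1
  have := hx.line hs hu (hc.frontier_subset h1)
  rw [h2, this, zero_smul, add_zero]

lemma ChordSpec.fix_neg (hc : IsClosed K) (hs : StrictConvex ℝ K) {u : ℝ × ℝ} (hu : u ≠ 0)
    {σ : ℝ × ℝ → ℝ × ℝ} (h : ChordSpec K u σ) {x : ℝ × ℝ} (hx : Supp K (-u) x) : σ x = x := by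
  obtain ⟨h1, ⟨s, h2⟩, -⟩ := h x (hx.mem_frontier (neg_ne_zero.2 hu))
  rw [h2] at h1
  have := hx.line_neg hs hu (hc.frontier_subset h1)
  rw [h2, this, zero_smul, add_zero]

lemma width_pos (hi : (interior K).Nonempty) {u T B : ℝ × ℝ} (hu : u ≠ 0) (hT : Supp K u T)
    (hB : Supp K (-u) B) : 0 < dt u (B - T) := by
  obtain ⟨o, ho⟩ := hi
  rw [dt_sub_right]
  by_contra hcon
  have h1 : Supp K u o := by
    refine ⟨interior_subset ho, fun y hy => ?_⟩
    have h2 := hB.2 o (interior_subset ho)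
    have h3 := hT.2 y hy
    rw [dt_neg_left, dt_neg_left] at h2
    linarith
  exact h1.not_mem_interior hu ho

lemma diam_ne_zero (hi : (interior K).Nonempty) {u T B : ℝ × ℝ} (hu : u ≠ 0) (hT : Supp K u T)
    (hB : Supp K (-u) B) : B - T ≠ 0 := by
  intro h
  have := width_pos hi hu hT hB
  rw [h, dt_zero_right] at this
  exact lt_irrefl _ this

lemma chord_comm (hc : IsClosed K) (hs : StrictConvex ℝ K) (hi : (interior K).Nonempty)
    (hrot : RotHyp K) {u T B : ℝ × ℝ} (hu : u ≠ 0) (hT : Supp K u T) (hB : Supp K (-u) B)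
    {σu σv : ℝ × ℝ → ℝ × ℝ} (h1 : ChordSpec K u σu) (h2 : ChordSpec K (B - T) σv)
    {x : ℝ × ℝ} (hx : x ∈ frontier K) : σv (σu x) = σu (σv x) := by
  have hv := diam_ne_zero hi hu hT hB
  obtain ⟨h, α, -, hbij, hrel⟩ := hrot u (B - T) hu hv σu σv h1 h2
  have hTf := hT.mem_frontier hu
  have hBf := hB.mem_frontier (neg_ne_zero.2 hu)
  have e1 : σv T = B := by
    have := h2.eq_of hc hs hv hTf one_ne_zero (by simpa using hBf)
    simpa using this
  have e2 : σv B = T := by rw [← e1, h2.invol hc hs hv hTf]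
  have r1 := hrel T hTf
  have r2 := hrel B hBf
  rw [h1.fix hc hs hu hT, e1] at r1
  rw [h1.fix_neg hc hs hu hB, e2, r1, add_assoc] at r2
  have hα : α + α = 0 := by simpa using r2.symm
  have m1 : σu x ∈ frontier K := (h1 x hx).1
  have m2 : σv (σu x) ∈ frontier K := (h2 _ m1).1
  have m3 : σu (σv (σu x)) ∈ frontier K := (h1 _ m2).1
  have m4 : σv (σu (σv (σu x))) ∈ frontier K := (h2 _ m3).1
  have e3 : σv (σu (σv (σu x))) = x := by
    apply hbij.injOn m4 hx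
    rw [hrel _ m2, hrel _ hx, add_assoc, hα, add_zero]
  have e4 : σu (σv (σu x)) = σv x := by
    have := congrArg σv e3
    rwa [h2.invol hc hs hv m3] at this
  have := congrArg σu e4
  rwa [h1.invol hc hs hu m2] at this

lemma rectProp_of_rotHyp (hc : IsClosed K) (hs : StrictConvex ℝ K) (hi : (interior K).Nonempty)
    (hrot : RotHyp K) : RectProp K := by
  intro u T B hu hT hB x a b ha hb hx hxa hxb
  have hv := diam_ne_zero hi hu hT hB
  have hw := width_pos hi hu hT hB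
  obtain ⟨σu, h1⟩ := exists_chordSpec K hu
  obtain ⟨σv, h2⟩ := exists_chordSpec K hv
  have hcomm := chord_comm hc hs hi hrot hu hT hB h1 h2 hx
  rw [h1.eq_of hc hs hu hx ha hxa, h2.eq_of hc hs hv hx hb hxb] at hcomm
  obtain ⟨m1, ⟨b', e1⟩, -⟩ := h2 _ hxa
  obtain ⟨-, ⟨a', e2⟩, -⟩ := h1 _ hxb
  rw [e1, e2] at hcomm
  have h3 := congrArg (dt u) hcomm
  simp only [dt_add_right, dt_smul_right, dt_self] at h3
  have h4 : b' = b := by
    have : (b' - b) * dt u (B - T) = 0 := by linarith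
    rcases mul_eq_zero.1 this with h5 | h5
    · linarith
    · exact absurd h5 hw.ne'
  rw [e1, h4] at m1
  exact m1

lemma radonProp_of_rotHyp (hK : IsCompact K) (hs : StrictConvex ℝ K)
    (hi : (interior K).Nonempty) (hrot : RotHyp K) : RadonProp K := by
  intro u T B L R hu hT hB hR hL
  have hc := hK.isClosed
  have hv := diam_ne_zero hi hu hT hB
  have hw := width_pos hi hu hT hB
  obtain ⟨σu, h1⟩ := exists_chordSpec K hu
  obtain ⟨σv, h2⟩ := exists_chordSpec K hv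
  have hRf := hR.mem_frontier hv
  have hcomm := chord_comm hc hs hi hrot hu hT hB h1 h2 hRf
  rw [h2.fix hc hs hv hR] at hcomm
  obtain ⟨m1, ⟨t, e1⟩, f1⟩ := h1 R hRf
  have hTB : B ≠ T := fun h => hv (sub_eq_zero.2 h)
  have hdt : dt (B - T) B = dt (B - T) T := by
    have := dt_self (B - T)
    rw [dt_sub_right] at this
    linarith
  have hne : σu R ≠ R := by
    intro h
    rcases supp_of_line hK hs hu hRf (f1 h) with h3 | h3
    · have h4 : R = T := hT.unique hs h3 hu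
      rw [h4] at hR
      have := hR.lt hs hv hB.1 hTB
      linarith
    · have h4 : R = B := hB.unique hs h3 (neg_ne_zero.2 hu)
      rw [h4] at hR
      have := hR.lt hs hv hT.1 hTB.symm
      linarith
  rcases supp_of_line hK hs hv m1 ((h2 _ m1).2.2 hcomm) with h3 | h3
  · exact absurd (hR.unique hs h3 hv) hne
  · have h4 : σu R = L := hL.unique hs h3 (neg_ne_zero.2 hv)
    rw [← h4, e1, add_sub_cancel_left, dt_smul_right, dt_self, mul_zero]

end Pool.Agent.Lib.MP_171f82_an
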