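import Pool.Agent.Lib.MP_171f82_an.Chord

set_option autoImplicit false

open Set Filter Topology

namespace Pool.Agent.Lib.MP_171f82_an

variable {K : Set (ℝ × ℝ)}

lemma exists_supp_dir (hc : IsClosed K) (hs : StrictConvex ℝ K) (hi : (interior K).Nonempty)
    {x : ℝ × ℝ} (hx : x ∈ frontier K) : ∃ u : ℝ × ℝ, u ≠ 0 ∧ Supp K u x := by
  have hxK : x ∈ K := hc.frontier_subset hx
  obtain ⟨f, hf⟩ := geometric_hahn_banach_open_point hs.convex.interior isOpen_interior hx.2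
  have hrep : ∀ y : ℝ × ℝ, dt (-f (0, 1), f (1, 0)) y = - f y := by
    intro y
    have e : y = y.1 • ((1, 0) : ℝ × ℝ) + y.2 • ((0, 1) : ℝ × ℝ) := by ext <;> simp
    conv_rhs => rw [e, map_add, map_smul, map_smul]
    simp only [dt, smul_eq_mul]; ring
  refine ⟨(-f (0, 1), f (1, 0)), ?_, hxK, fun y hy => ?_⟩
  · intro h0
    obtain ⟨o, ho⟩ := hi
    have h1 := hf o ho
    have h2 := hrep o
    have h3 := hrep x
    rw [h0, dt_zero_left] at h2 h3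
    linarith
  · rw [hrep, hrep]
    by_cases hyx : y = x
    · rw [hyx]
    · have hm : (1 / 2 : ℝ) • y + (1 / 2 : ℝ) • x ∈ interior K :=
        hs hy hxK hyx (by norm_num) (by norm_num) (by norm_num)
      have := hf _ hm
      rw [map_add, map_smul, map_smul] at this
      simp only [smul_eq_mul] at this
      linarith

lemma Supp.tangent {u : ℝ × ℝ} {γ : ℝ → ℝ × ℝ} {t : ℝ} {g : ℝ × ℝ} (hK : ∀ s, γ s ∈ K)
    (h : Supp K u (γ t)) (hd : HasDerivAt γ g t) : dt u g = 0 := by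
  have h1 : HasDerivAt (fun s => dt u (γ s)) (dt 0 (γ t) + dt u g) t :=
    hasDerivAt_dt (hasDerivAt_const t u) hd
  rw [dt_zero_left, zero_add] at h1
  have h2 : IsLocalMin (fun s => dt u (γ s)) t :=
    Filter.Eventually.of_forall fun s => h.2 _ (hK s)
  exact h2.hasDerivAt_eq_zero h1

lemma tangent_supp (hc : IsClosed K) (hs : StrictConvex ℝ K) (hi : (interior K).Nonempty)
    {γ : ℝ → ℝ × ℝ} {t : ℝ} {g : ℝ × ℝ} (hK : ∀ s, γ s ∈ frontier K) (hd : HasDerivAt γ g t) :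
    Supp K g (γ t) ∨ Supp K (-g) (γ t) := by
  obtain ⟨u, hu, h⟩ := exists_supp_dir hc hs hi (hK t)
  obtain ⟨l, hl⟩ := exists_smul_of_dt_eq_zero hu
    (h.tangent (fun s => hc.frontier_subset (hK s)) hd)
  rcases le_total 0 l with h1 | h1
  · left; rw [hl]; exact h.smul h1
  · right; rw [hl, ← neg_smul]; exact h.smul (neg_nonneg.2 h1)

lemma orientation (hc : IsClosed K) (hs : StrictConvex ℝ K) (hi : (interior K).Nonempty)
    {γ γ1 : ℝ → ℝ × ℝ} (hK : ∀ s, γ s ∈ frontier K) (hd : ∀ t, HasDerivAt γ (γ1 t) t)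
    (hc1 : Continuous γ1) (hg : ∀ t, γ1 t ≠ 0) :
    (∀ t, Supp K (γ1 t) (γ t)) ∨ (∀ t, Supp K (-γ1 t) (γ t)) := by
  obtain ⟨o, ho⟩ := hi
  have hγ : Continuous γ := continuous_iff_continuousAt.2 fun t => (hd t).continuousAt
  have hcont : Continuous (fun t => dt (γ1 t) o - dt (γ1 t) (γ t)) := by
    unfold dt; fun_prop
  have hne : ∀ t, o ≠ γ t := fun t h => (hK t).2 (h ▸ ho)
  have hpos : ∀ t, Supp K (γ1 t) (γ t) → 0 < dt (γ1 t) o - dt (γ1 t) (γ t) := fun t h => by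
    have := h.lt hs (hg t) (interior_subset ho) (hne t)
    linarith
  have hneg : ∀ t, Supp K (-γ1 t) (γ t) → dt (γ1 t) o - dt (γ1 t) (γ t) < 0 := fun t h => by
    have := h.lt hs (neg_ne_zero.2 (hg t)) (interior_subset ho) (hne t)
    rw [dt_neg_left, dt_neg_left] at this
    linarith
  have hor : ∀ t, Supp K (γ1 t) (γ t) ∨ Supp K (-γ1 t) (γ t) := fun t =>
    tangent_supp hc hs ⟨o, ho⟩ hK (hd t)
  by_contra hcon
  rw [not_or, not_forall, not_forall] at hcon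
  obtain ⟨⟨a, ha⟩, ⟨b, hb⟩⟩ := hcon
  have h1 := hneg a ((hor a).resolve_left ha)
  have h2 := hpos b ((hor b).resolve_right hb)
  obtain ⟨s, hs0⟩ := intermediate_value_univ a b hcont ⟨h1.le, h2.le⟩
  rcases hor s with h | h
  · exact (hpos s h).ne' hs0
  · exact (hneg s h).ne hs0

lemma taylor_two {γ γ1 γ2 : ℝ → ℝ × ℝ} (hd : ∀ t, HasDerivAt γ (γ1 t) t)
    (hd1 : ∀ t, HasDerivAt γ1 (γ2 t) t) {M : ℝ} (hM : ∀ t, ‖γ2 t‖ ≤ M) (s h : ℝ) :
    ‖γ (s + h) - γ s - h • γ1 s‖ ≤ M * h ^ 2 := by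
  have hM0 : 0 ≤ M := (norm_nonneg _).trans (hM 0)
  have h1 : ∀ x, ‖γ1 x - γ1 s‖ ≤ M * ‖x - s‖ := fun x =>
    convex_univ.norm_image_sub_le_of_norm_hasDerivWithin_le
      (fun y _ => (hd1 y).hasDerivWithinAt) (fun y _ => hM y) (mem_univ s) (mem_univ x)
  have h2 : ‖(γ (s + h) - (s + h) • γ1 s) - (γ s - s • γ1 s)‖ ≤ (M * |h|) * ‖(s + h) - s‖ := by
    refine (convex_closedBall s |h|).norm_image_sub_le_of_norm_hasDerivWithin_le
      (f := fun x => γ x - x • γ1 s) (f' := fun x => γ1 x - γ1 s) (fun y _ => ?_)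
      (fun y hy => ?_) (Metric.mem_closedBall_self (abs_nonneg h)) ?_
    · have := (hd y).fun_sub ((hasDerivAt_id y).smul_const (γ1 s))
      simpa using this.hasDerivWithinAt
    · refine (h1 y).trans (mul_le_mul_of_nonneg_left ?_ hM0)
      rwa [Metric.mem_closedBall, dist_eq_norm] at hy
    · simp
  have e1 : γ (s + h) - γ s - h • γ1 s = (γ (s + h) - (s + h) • γ1 s) - (γ s - s • γ1 s) := by
    rw [add_smul]; abel
  rw [e1]
  refine h2.trans (le_of_eq ?_)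
  rw [add_sub_cancel_left, Real.norm_eq_abs, mul_assoc, abs_mul_abs_self, sq]

lemma abs_dt_le (a b : ℝ × ℝ) : |dt a b| ≤ 2 * ‖a‖ * ‖b‖ := by
  have h1 : |a.1| ≤ ‖a‖ := norm_fst_le a
  have h2 : |a.2| ≤ ‖a‖ := norm_snd_le a
  have h3 : |b.1| ≤ ‖b‖ := norm_fst_le b
  have h4 : |b.2| ≤ ‖b‖ := norm_snd_le b
  have h5 : |dt a b| ≤ |a.1| * |b.2| + |a.2| * |b.1| := by
    unfold dt
    rw [← abs_mul, ← abs_mul]
    exact abs_sub _ _
  have h6 : |a.1| * |b.2| ≤ ‖a‖ * ‖b‖ := mul_le_mul h1 h4 (abs_nonneg _) (norm_nonneg _)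
  have h7 : |a.2| * |b.1| ≤ ‖a‖ * ‖b‖ := mul_le_mul h2 h3 (abs_nonneg _) (norm_nonneg _)
  linarith

lemma curv_alg {p q pT qT ρ0 ρ1 P κ w0 w1 ε d D : ℝ} (hp : pT ≤ p) (hq : qT ≤ q) (hpT : 0 < pT)
    (hqT : 0 < qT) (h0 : ρ0 ≤ P) (h1 : ρ1 ≤ P) (hκ : 0 < κ) (hw0 : 0 < w0) (hw1 : w0 / 2 ≤ w1)
    (hw2 : w1 ≤ 2 * w0) (hD : 0 < D) (hc : κ * d ^ 2 ≤ ρ1 * p + ρ0 * q)
    (he : ε * d = p * w0 + q * w1) (hf : ε * D = pT * w0 + qT * w1) :
    κ * w0 ^ 2 * D ≤ 8 * w0 * P * ε := by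
  have hp0 : 0 < p := by linarith
  have hq0 : 0 < q := by linarith
  have hw10 : 0 < w1 := by linarith
  have hεD : 0 < ε * D := by rw [hf]; positivity
  have hε : 0 < ε := by
    by_contra hcon
    have : ε * D ≤ 0 := mul_nonpos_of_nonpos_of_nonneg (not_lt.1 hcon) hD.le
    linarith
  have s1 : ρ1 * p + ρ0 * q ≤ P * (p + q) := by nlinarith
  have s2 : w0 / 2 * (p + q) ≤ ε * d := by rw [he]; nlinarith
  have s3 : (w0 / 2 * (p + q)) ^ 2 ≤ (ε * d) ^ 2 :=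
    pow_le_pow_left₀ (by positivity) s2 2
  have s4 : κ * (w0 / 2 * (p + q)) ^ 2 ≤ ε ^ 2 * (P * (p + q)) := by
    calc κ * (w0 / 2 * (p + q)) ^ 2 ≤ κ * (ε * d) ^ 2 := mul_le_mul_of_nonneg_left s3 hκ.le
      _ = ε ^ 2 * (κ * d ^ 2) := by ring
      _ ≤ ε ^ 2 * (P * (p + q)) := mul_le_mul_of_nonneg_left (hc.trans s1) (sq_nonneg ε)
  have s5 : κ * (w0 / 2) ^ 2 * (p + q) ≤ ε ^ 2 * P := by
    have hpq : 0 < p + q := by linarith
    have : (κ * (w0 / 2) ^ 2 * (p + q)) * (p + q) ≤ (ε ^ 2 * P) * (p + q) := by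
      calc _ = κ * (w0 / 2 * (p + q)) ^ 2 := by ring
        _ ≤ ε ^ 2 * (P * (p + q)) := s4
        _ = _ := by ring
    exact le_of_mul_le_mul_right this hpq
  have s6 : ε * D ≤ 2 * w0 * (p + q) := by rw [hf]; nlinarith
  have s7 : (κ * w0 ^ 2 * D) * ε ≤ (8 * w0 * P * ε) * ε := by
    calc (κ * w0 ^ 2 * D) * ε = κ * w0 ^ 2 * (ε * D) := by ring
      _ ≤ κ * w0 ^ 2 * (2 * w0 * (p + q)) := mul_le_mul_of_nonneg_left s6 (by positivity)
      _ = 8 * w0 * (κ * (w0 / 2) ^ 2 * (p + q)) := by ring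
      _ ≤ 8 * w0 * (ε ^ 2 * P) := mul_le_mul_of_nonneg_left s5 (by positivity)
      _ = _ := by ring
  exact le_of_mul_le_mul_right s7 hε

/-- Radon data for a direction -/
lemma radon_data (hK : IsCompact K) (hi : (interior K).Nonempty) (hrad : RadonProp K)
    {u T B : ℝ × ℝ} (hu : u ≠ 0) (hT : Supp K u T) (hB : Supp K (-u) B) :
    ∃ (L R : ℝ × ℝ) (ρ : ℝ), Supp K (B - T) R ∧ Supp K (-(B - T)) L ∧ L - R = (-ρ) • u := by
  have hne : K.Nonempty := hi.mono interior_subset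
  obtain ⟨R, hR⟩ := exists_supp hK hne (B - T)
  obtain ⟨L, hL⟩ := exists_supp hK hne (-(B - T))
  obtain ⟨τ, hτ⟩ := exists_smul_of_dt_eq_zero hu (hrad u T B L R hu hT hB hR hL)
  exact ⟨L, R, -τ, hR, hL, by rw [neg_neg, hτ]⟩

theorem curv_pos (hK : IsCompact K) (hs : StrictConvex ℝ K) (hi : (interior K).Nonempty)
    (hrad : RadonProp K) {γ γ1 γ2 : ℝ → ℝ × ℝ} (hd : ∀ t, HasDerivAt γ (γ1 t) t)
    (hd1 : ∀ t, HasDerivAt γ1 (γ2 t) t) {M : ℝ} (hM : ∀ t, ‖γ2 t‖ ≤ M) (hg : ∀ t, γ1 t ≠ 0)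
    (hsupp : ∀ t, Supp K (γ1 t) (γ t)) (hsurj : ∀ x ∈ frontier K, ∃ s, γ s = x) (t0 : ℝ) :
    0 < dt (γ1 t0) (γ2 t0) := by
  have hne : K.Nonempty := hi.mono interior_subset
  have hM0 : 0 ≤ M := (norm_nonneg _).trans (hM 0)
  obtain ⟨D0, hD0⟩ := hK.isBounded.exists_norm_le
  have hD00 : 0 ≤ D0 := (norm_nonneg _).trans (hD0 _ (hsupp 0).1)
  have hdiam : ∀ x ∈ K, ∀ y ∈ K, ‖x - y‖ ≤ 2 * D0 := fun x hx y hy => by
    have := norm_sub_le x y
    have := hD0 x hx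
    have := hD0 y hy
    linarith
  obtain ⟨B0, hB0⟩ := exists_supp hK hne (-γ1 t0)
  have hw0 := width_pos hi (hg t0) (hsupp t0) hB0
  have hc0 := diam_ne_zero hi (hg t0) (hsupp t0) hB0
  obtain ⟨L0, R0, ρ0, hR0, hL0, e0⟩ := radon_data hK hi hrad (hg t0) (hsupp t0) hB0
  set u0 := γ1 t0 with hu0
  set T0 := γ t0 with hT0
  set c0 := B0 - T0 with hc0def
  set w0 := dt u0 c0 with hw0def
  obtain ⟨s0, hs0⟩ := hsurj R0 (hR0.mem_frontier hc0)
  obtain ⟨l, hl⟩ := exists_smul_of_dt_eq_zero hc0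
    (Supp.tangent (fun s => (hsupp s).1) (hs0 ▸ hR0) (hd s0))
  have hl0 : l ≠ 0 := by
    intro h; rw [h, zero_smul] at hl; exact hg s0 hl
  set C := 4 * D0 * M + 1 with hC
  have hCpos : 0 < C := by positivity
  set κ := l ^ 2 / (4 * C) with hκ
  have hκpos : 0 < κ := by positivity
  have hSM : ∀ c1 R1 : ℝ × ℝ, ‖c1‖ ≤ 2 * D0 → Supp K c1 R1 →
      κ * dt c0 c1 ^ 2 ≤ dt c1 R0 - dt c1 R1 := by
    intro c1 R1 hc1 hR1
    set h := l * dt c0 c1 / (2 * C) with hh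
    have h1 := hR1.2 _ (hsupp (s0 + h)).1
    have h2 := taylor_two hd hd1 hM s0 h
    have h3 := abs_dt_le c1 (γ (s0 + h) - γ s0 - h • γ1 s0)
    have h4 : 2 * ‖c1‖ * ‖γ (s0 + h) - γ s0 - h • γ1 s0‖ ≤ 2 * (2 * D0) * (M * h ^ 2) := by
      gcongr
    have h5 := (le_abs_self _).trans (h3.trans h4)
    rw [dt_sub_right, dt_sub_right, dt_smul_right, hl, dt_smul_right, hs0, dt_swap c1 c0] at h5
    have h6 : 2 * (2 * D0) * (M * h ^ 2) ≤ C * h ^ 2 := by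
      rw [hC]; nlinarith [sq_nonneg h]
    have h7 : C * h ^ 2 - h * (l * dt c0 c1) = - (κ * dt c0 c1 ^ 2) := by
      rw [hh, hκ]; field_simp; ring
    linarith
  set P := max ρ0 (2 * (2 * (2 * D0) * (2 * D0)) / w0) with hP
  have hF : HasDerivAt (fun t => 8 * w0 * P * dt u0 (γ1 t) - κ * w0 ^ 2 * dt (γ t - T0) c0)
      (8 * w0 * P * dt u0 (γ2 t0) - κ * w0 ^ 2 * w0) t0 := by
    have a1 := hasDerivAt_dt (hasDerivAt_const t0 u0) (hd1 t0)
    have a2 := hasDerivAt_dt ((hd t0).sub_const T0) (hasDerivAt_const t0 c0)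
    rw [dt_zero_left, zero_add] at a1
    rw [dt_zero_right, add_zero] at a2
    exact (a1.const_mul _).fun_sub (a2.const_mul _)
  have hDd : HasDerivAt (fun t => dt (γ t - T0) c0) w0 t0 := by
    have a2 := hasDerivAt_dt ((hd t0).sub_const T0) (hasDerivAt_const t0 c0)
    rwa [dt_zero_right, add_zero] at a2
  have hw1 : Tendsto (fun η => dt (γ1 (t0 + η)) c0) (𝓝[>] 0) (𝓝 w0) := by
    have hc1 : Continuous γ1 := continuous_iff_continuousAt.2 fun t => (hd1 t).continuousAt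
    have : Continuous (fun η => dt (γ1 (t0 + η)) c0) := by unfold dt; fun_prop
    have h2 := this.tendsto 0
    rw [add_zero] at h2
    exact h2.mono_left nhdsWithin_le_nhds
  have hev : ∀ᶠ η in 𝓝[>] (0 : ℝ), 0 ≤ η⁻¹ •
      ((8 * w0 * P * dt u0 (γ1 (t0 + η)) - κ * w0 ^ 2 * dt (γ (t0 + η) - T0) c0) -
        (8 * w0 * P * dt u0 (γ1 t0) - κ * w0 ^ 2 * dt (γ t0 - T0) c0)) := by
    have e1 := hw1.eventually (lt_mem_nhds (show w0 / 2 < w0 by linarith))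
    have e2 := hw1.eventually (gt_mem_nhds (show w0 < 2 * w0 by linarith))
    have e3 := hDd.tendsto_slope_zero_right.eventually (lt_mem_nhds hw0)
    filter_upwards [e1, e2, e3, self_mem_nhdsWithin] with η h1 h2 h3 hη
    have hη0 : 0 < η := hη
    rw [← hT0, sub_self, dt_zero_left, sub_zero, smul_eq_mul] at h3
    have hD : 0 < dt (γ (t0 + η) - T0) c0 := by
      have := mul_pos hη0 h3
      rwa [← mul_assoc, mul_inv_cancel₀ hη0.ne', one_mul] at this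
    rw [← hu0, ← hT0, sub_self, dt_zero_left, dt_self, smul_eq_mul]
    refine mul_nonneg (inv_nonneg.2 hη0.le) ?_
    set u1 := γ1 (t0 + η) with hu1
    set T1 := γ (t0 + η) with hT1
    have hT1s : Supp K u1 T1 := hsupp (t0 + η)
    have hT0s : Supp K u0 T0 := hsupp t0
    have hu1ne : u1 ≠ 0 := hg (t0 + η)
    have hTne : T1 ≠ T0 := by
      intro h; rw [h, sub_self, dt_zero_left] at hD; exact lt_irrefl _ hD
    obtain ⟨B1, hB1⟩ := exists_supp hK hne (-u1)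
    obtain ⟨L1, R1, ρ1, hR1, hL1, e1'⟩ := radon_data hK hi hrad hu1ne hT1s hB1
    set c1 := B1 - T1 with hc1def
    have hc1n : ‖c1‖ ≤ 2 * D0 := hdiam _ hB1.1 _ hT1s.1
    have hc0n : ‖c0‖ ≤ 2 * D0 := hdiam _ hB0.1 _ hT0s.1
    have hρ1 : ρ1 ≤ P := by
      refine le_trans ?_ (le_max_right _ _)
      rw [le_div_iff₀ hw0]
      have a1 := abs_dt_le c0 (L1 - R1)
      have a2 : 2 * ‖c0‖ * ‖L1 - R1‖ ≤ 2 * (2 * D0) * (2 * D0) := by
        have := hdiam _ hL1.1 _ hR1.1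
        gcongr
      have a3 := (le_abs_self _).trans (a1.trans a2)
      rw [e1', dt_smul_right, dt_swap c0 u1] at a3
      by_cases hρ : 0 ≤ ρ1
      · nlinarith
      · have : ρ1 * w0 ≤ 0 := mul_nonpos_of_nonpos_of_nonneg (not_le.1 hρ).le hw0.le
        have : 0 ≤ 2 * (2 * (2 * D0) * (2 * D0)) := by positivity
        linarith
    have b1 := hB1.2 _ hB0.1
    have b2 := hB0.2 _ hB1.1
    have b3 := hT1s.lt hs hu1ne hT0s.1 hTne.symm
    have b4 := hT0s.lt hs (hg t0) hT1s.1 hTne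
    have b5 := hL1.2 _ hL0.1
    have b6 := hL0.2 _ hL1.1
    have b7 := hR0.2 _ hR1.1
    have b8 := hSM c1 R1 hc1n hR1
    simp only [dt_neg_left] at b1 b2 b5 b6
    have f0 : dt c0 L0 - dt c0 R0 = ρ0 * dt u0 c0 := by
      rw [← dt_sub_right, e0, dt_smul_right, dt_swap c0 u0]; ring
    have f1 : dt c1 L0 - dt c1 R0 = ρ0 * dt u0 c1 := by
      rw [← dt_sub_right, e0, dt_smul_right, dt_swap c1 u0]; ring
    have f2 : dt c0 L1 - dt c0 R1 = ρ1 * dt u1 c0 := by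
      rw [← dt_sub_right, e1', dt_smul_right, dt_swap c0 u1]; ring
    have f3 : dt c1 L1 - dt c1 R1 = ρ1 * dt u1 c1 := by
      rw [← dt_sub_right, e1', dt_smul_right, dt_swap c1 u1]; ring
    have key := curv_alg (p := dt u1 c1 - dt u1 c0) (q := dt u0 c0 - dt u0 c1)
      (pT := dt u1 T0 - dt u1 T1) (qT := dt u0 T1 - dt u0 T0) (ρ0 := ρ0) (ρ1 := ρ1) (P := P)
      (κ := κ) (w0 := w0) (w1 := dt u1 c0) (ε := dt u0 u1) (d := dt c0 c1)
      (D := dt (T1 - T0) c0)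
      (by rw [hc1def, hc0def, dt_sub_right, dt_sub_right]; linarith)
      (by rw [hc1def, hc0def, dt_sub_right, dt_sub_right]; linarith)
      (by linarith) (by linarith) (le_max_left _ _) hρ1 hκpos hw0 h1.le h2.le hD
      (by nlinarith) (by rw [hw0def]; unfold dt; ring)
      (by rw [hw0def]; simp only [dt, Prod.fst_sub, Prod.snd_sub]; ring)
    linarith
  have hlim := ge_of_tendsto hF.tendsto_slope_zero_right hev
  have hpos : 0 < κ * w0 ^ 2 * w0 := by positivity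
  by_contra hcon
  have hP0 : 0 ≤ P := le_trans (by positivity) (le_max_right _ _)
  have : 8 * w0 * P * dt u0 (γ2 t0) ≤ 0 :=
    mul_nonpos_of_nonneg_of_nonpos (by positivity) (not_lt.1 hcon)
  linarith

end Pool.Agent.Lib.MP_171f82_an
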