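import Pool.Agent.Lib.MP_171f82_an.Basic

set_option autoImplicit false

open Set Filter Topology

namespace Pool.Agent.Lib.MP_171f82_an

lemma exists_affine (O a b : ℝ × ℝ) (h : dt a b ≠ 0) :
    ∃ A : (ℝ × ℝ) ≃ᵃ[ℝ] (ℝ × ℝ), ∀ p : ℝ × ℝ, A p = O + (p.1 • a + p.2 • b) := by
  let L : (ℝ × ℝ) ≃ₗ[ℝ] (ℝ × ℝ) :=
    { toFun := fun p => p.1 • a + p.2 • b
      invFun := fun z => (dt z b / dt a b, dt a z / dt a b)
      map_add' := fun p q => by
        simp only [Prod.fst_add, Prod.snd_add, add_smul]; abel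
      map_smul' := fun r p => by
        simp only [Prod.smul_fst, Prod.smul_snd, smul_eq_mul, RingHom.id_apply, smul_add,
          smul_smul]
      left_inv := fun p => by
        ext
        · simp only [dt_add_left, dt_smul_left, dt_self]; field_simp; ring
        · simp only [dt_add_right, dt_smul_right, dt_self]; field_simp; ring
      right_inv := fun z => by
        have := dt_decomp a b z
        simp only [div_eq_inv_mul, ← smul_smul, ← smul_add, ← this]
        rw [smul_smul, inv_mul_cancel₀ h, one_smul] }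
  refine ⟨L.toAffineEquiv.trans (AffineEquiv.constVAdd ℝ (ℝ × ℝ) O), fun p => ?_⟩
  simp [L]

lemma exists_zero_of_anti {f : ℝ → ℝ} (hf : Continuous f) {p : ℝ} (h : f p = - f 0) :
    ∃ t, f t = 0 := by
  rcases le_total (f 0) 0 with h1 | h1
  · exact intermediate_value_univ 0 p hf ⟨h1, by linarith⟩
  · exact intermediate_value_univ p 0 hf ⟨by linarith, h1⟩

lemma ellipse_of_frame {ω : ℝ → ℝ} {n c Γ : ℝ → ℝ × ℝ} {g p : ℝ} (hg : 0 < g)
    (hΓ : ∀ t, HasDerivAt Γ ((ω t * g / 2) • n t) t)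
    (hn : ∀ t, HasDerivAt n (ω t • c t) t)
    (hc : ∀ t, HasDerivAt c ((-(ω t * g)) • n t) t)
    (hnc : ∀ t, dt (n t) (c t) = 1) (hanti : ∀ t, c (t + p) = - c t) :
    ∃ A : (ℝ × ℝ) ≃ᵃ[ℝ] (ℝ × ℝ), range Γ = A '' {q : ℝ × ℝ | q.1 ^ 2 + q.2 ^ 2 = 1} := by
  have cc : Continuous c := continuous_iff_continuousAt.2 fun t => (hc t).continuousAt
  have dO : ∀ t, HasDerivAt (fun t => Γ t + (1 / 2 : ℝ) • c t) 0 t := fun t => by
    refine HasDerivAt.congr_deriv ((hΓ t).fun_add ((hc t).const_smul (1 / 2 : ℝ))) ?_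
    rw [smul_smul, ← add_smul]
    convert zero_smul ℝ (n t) using 2
    ring
  obtain ⟨O, hO⟩ : ∃ O, ∀ t, Γ t + (1 / 2 : ℝ) • c t = O :=
    ⟨_, fun t => is_const_of_deriv_eq_zero (fun t => (dO t).differentiableAt)
      (fun t => (dO t).deriv) t 0⟩
  have dΦ : ∀ (z : ℝ × ℝ) (t : ℝ),
      HasDerivAt (fun t => dt z (c t) ^ 2 + g * dt z (n t) ^ 2) 0 t := fun z t => by
    have a1 := hasDerivAt_dt (hasDerivAt_const t z) (hc t)
    have a2 := hasDerivAt_dt (hasDerivAt_const t z) (hn t)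
    rw [dt_zero_left, zero_add, dt_smul_right] at a1 a2
    refine HasDerivAt.congr_deriv ((a1.fun_pow 2).fun_add ((a2.fun_pow 2).const_mul g)) ?_
    push_cast; ring
  have hΦ : ∀ t, dt (c t) (c 0) ^ 2 + g * dt (n 0) (c t) ^ 2 = g := fun t => by
    have := is_const_of_deriv_eq_zero (fun s => (dΦ (c t) s).differentiableAt)
      (fun s => (dΦ (c t) s).deriv) 0 t
    simp only [dt_self] at this
    rw [dt_swap (c t) (n t), hnc, dt_swap (c t) (n 0)] at this
    linear_combination this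
  set s := Real.sqrt g with hs
  have spos : 0 < s := Real.sqrt_pos.2 hg
  have ssq : s ^ 2 = g := Real.sq_sqrt hg.le
  obtain ⟨A, hA⟩ := exists_affine O ((-1 / 2 : ℝ) • c 0) ((-s / 2) • n 0) (by
    rw [dt_smul_left, dt_smul_right, dt_swap, hnc]
    have : (-1 / 2 : ℝ) * (-s / 2 * -1) = -(s / 4) := by ring
    rw [this]
    exact neg_ne_zero.2 (by positivity))
  set x : ℝ → ℝ := fun t => dt (n 0) (c t) with hx
  set y : ℝ → ℝ := fun t => dt (c t) (c 0) / s with hy
  have hxy : ∀ t, x t ^ 2 + y t ^ 2 = 1 := fun t => by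
    have := hΦ t
    simp only [hx, hy]
    rw [div_pow, ssq]
    field_simp
    linear_combination this
  have hΓA : ∀ t, Γ t = A (x t, y t) := fun t => by
    have h1 := dt_decomp (n 0) (c 0) (c t)
    rw [hnc, one_smul] at h1
    rw [hA, ← hO t, h1]
    simp only [hx, hy, smul_smul, smul_add]
    have e1 : dt (c t) (c 0) / s * (-s / 2) = -(1 / 2 * dt (c t) (c 0)) := by field_simp
    have e2 : dt (n 0) (c t) * (-1 / 2) = -(1 / 2 * dt (n 0) (c t)) := by ring
    rw [e1, e2, neg_smul, neg_smul]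
    abel
  have xa : ∀ t, x (t + p) = - x t := fun t => by simp only [hx, hanti, dt_neg_right]
  have ya : ∀ t, y (t + p) = - y t := fun t => by simp only [hy, hanti, dt_neg_left, neg_div]
  refine ⟨A, ?_⟩
  ext z
  constructor
  · rintro ⟨t, rfl⟩
    exact ⟨(x t, y t), hxy t, (hΓA t).symm⟩
  · rintro ⟨q, hq, rfl⟩
    have hq' : q.1 ^ 2 + q.2 ^ 2 = 1 := hq
    have cf : Continuous (fun t => q.1 * y t - q.2 * x t) := by
      simp only [hx, hy]; unfold dt; fun_prop
    obtain ⟨t, ht⟩ := exists_zero_of_anti cf (p := p) (by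
      have h1 := xa 0
      have h2 := ya 0
      rw [zero_add] at h1 h2
      simp only [h1, h2]; ring)
    have h3 := hxy t
    have h4 : (q.1 * x t + q.2 * y t - 1) * (q.1 * x t + q.2 * y t + 1) = 0 := by
      linear_combination (x t ^ 2 + y t ^ 2) * hq' + h3 - (q.1 * y t - q.2 * x t) * ht
    rcases mul_eq_zero.1 h4 with h5 | h5
    · refine ⟨t, ?_⟩
      rw [hΓA]
      congr 1
      ext
      · simp only
        linear_combination (-x t) * hq' + q.1 * h5 - q.2 * ht
      · simp only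
        linear_combination (-y t) * hq' + q.2 * h5 + q.1 * ht
    · refine ⟨t + p, ?_⟩
      rw [hΓA, xa, ya]
      congr 1
      ext
      · simp only
        linear_combination (x t) * hq' - q.1 * h5 + q.2 * ht
      · simp only
        linear_combination (y t) * hq' - q.2 * h5 - q.1 * ht

end Pool.Agent.Lib.MP_171f82_an
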