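import Pool.Agent.Lib.MP_171f82_an.Arc

set_option autoImplicit false

open Set Filter Topology Asymptotics

namespace Pool.Agent.Lib.MP_171f82_an

lemma two_arc {ω k k1 k2 k3 l l1 l2 l3 G G1 : ℝ → ℝ} {n c Γ Γ' : ℝ → ℝ × ℝ} {F : Set (ℝ × ℝ)}
    (a : ℝ)
    (hΓ : ∀ t, HasDerivAt Γ ((ω t / k t) • n t) t)
    (hΓ' : ∀ t, HasDerivAt Γ' ((ω t / l t) • n t) t)
    (hn : ∀ t, HasDerivAt n (ω t • c t) t)
    (hc : ∀ t, HasDerivAt c ((-(ω t * G t)) • n t) t)
    (hk : ∀ t, HasDerivAt k (ω t * k1 t) t) (hk1 : ∀ t, HasDerivAt k1 (ω t * k2 t) t)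
    (hk2 : ∀ t, HasDerivAt k2 (ω t * k3 t) t)
    (hl : ∀ t, HasDerivAt l (ω t * l1 t) t) (hl1 : ∀ t, HasDerivAt l1 (ω t * l2 t) t)
    (hl2 : ∀ t, HasDerivAt l2 (ω t * l3 t) t) (hG : ∀ t, HasDerivAt G (ω t * G1 t) t)
    (hω : Continuous ω) (hk3 : Continuous k3) (hl3 : Continuous l3) (hG1 : Continuous G1)
    (hnc : ∀ t, dt (n t) (c t) = 1) (hk0 : ∀ t, 0 < k t) (hl0 : ∀ t, l t ≠ 0)
    (hω0 : ω a ≠ 0) (hca : c a = Γ' a - Γ a) (hF : ∀ t, Γ t ∈ F) (hF' : ∀ t, Γ' t ∈ F)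
    (hrect : ∀ (x : ℝ × ℝ) (p q : ℝ), p ≠ 0 → q ≠ 0 → x ∈ F → x + p • n a ∈ F →
      x + q • c a ∈ F → x + p • n a + q • c a ∈ F)
    (hthree : ∀ (x : ℝ × ℝ) (p q : ℝ), p ≠ 0 → q ≠ 0 → x ∈ F → x + p • c a ∈ F →
      x + q • c a ∈ F → p = q) :
    l1 a = k1 a ∧
      3 * ((l1 a ^ 3 + 4 * l a * l1 a * l2 a + l a ^ 2 * l3 a + 19 * l a ^ 2 * l1 a * G a +
          3 * l a ^ 3 * G1 a) -
        (k1 a ^ 3 + 4 * k a * k1 a * k2 a + k a ^ 2 * k3 a + 19 * k a ^ 2 * k1 a * G a +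
          3 * k a ^ 3 * G1 a)) =
      10 * k1 a * ((l1 a ^ 2 + l a * l2 a + 3 * l a ^ 2 * G a) -
        (k1 a ^ 2 + k a * k2 a + 3 * k a ^ 2 * G a)) := by
  obtain ⟨dX, oY⟩ := arc_taylor a hΓ hn hc hk hk1 hk2 hG hω hk3 hG1 hnc fun t => (hk0 t).ne'
  obtain ⟨dX', oY'⟩ := arc_taylor a hΓ' hn hc hl hl1 hl2 hG hω hl3 hG1 hnc hl0
  have cΓ : Continuous Γ := continuous_iff_continuousAt.2 fun t => (hΓ t).continuousAt
  have cΓ' : Continuous Γ' := continuous_iff_continuousAt.2 fun t => (hΓ' t).continuousAt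
  have hξ : ω a / k a ≠ 0 := div_ne_zero hω0 (hk0 a).ne'
  have hξ' : ω a / l a ≠ 0 := div_ne_zero hω0 (hl0 a)
  set X : ℝ → ℝ := fun t => dt (Γ t - Γ a) (c a) with hX
  set X' : ℝ → ℝ := fun t => dt (Γ' t - Γ' a) (c a) with hX'
  have Xa : X a = 0 := by simp only [hX, sub_self, dt_zero_left]
  have X'a : X' a = 0 := by simp only [hX', sub_self, dt_zero_left]
  set ι := HasStrictDerivAt.localInverse X' (ω a / l a) a dX' hξ' with hι
  have ιa : ι (X a) = a := by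
    rw [Xa, ← X'a]
    exact (dX'.eventually_left_inverse hξ').self_of_nhds
  have dι : HasDerivAt ι (ω a / l a)⁻¹ (X a) := by
    rw [Xa, ← X'a]
    exact (dX'.to_localInverse hξ').hasDerivAt
  have dψ : HasDerivAt (fun t => ι (X t)) ((ω a / l a)⁻¹ * (ω a / k a)) a :=
    dι.comp a dX.hasDerivAt
  have tψ : Tendsto (fun t => ι (X t)) (𝓝 a) (𝓝 a) := by
    have := dψ.continuousAt.tendsto
    rwa [ιa] at this
  have hright : ∀ᶠ t in 𝓝 a, X' (ι (X t)) = X t := by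
    have h1 : Tendsto X (𝓝 a) (𝓝 (X' a)) := by
      rw [X'a, ← Xa]; exact dX.hasDerivAt.continuousAt.tendsto
    exact h1.eventually (dX'.eventually_right_inverse hξ')
  have hO : (fun t => (ι (X t) - a) ^ 5) =O[𝓝 a] fun t => (t - a) ^ 5 := by
    have := dψ.isBigO_sub
    simp only [ιa] at this
    exact this.pow 5
  have oG := ((oY'.comp_tendsto tψ).trans_isBigO hO)
  have hb : ∀ᶠ t in 𝓝 a, dt (n a) (Γ' (ι (X t)) - Γ t) ≠ 0 := by
    have h1 : Tendsto (fun t => dt (n a) (Γ' (ι (X t)) - Γ t)) (𝓝 a)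
        (𝓝 (dt (n a) (Γ' a - Γ a))) :=
      ((continuous_dt_right (n a)).tendsto _).comp
        (((cΓ'.tendsto a).comp tψ).sub (cΓ.tendsto a))
    rw [← hca, hnc] at h1
    exact h1.eventually_ne one_ne_zero
  have hdec : ∀ z : ℝ × ℝ, z = dt z (c a) • n a + dt (n a) z • c a := fun z => by
    have := dt_decomp (n a) (c a) z
    rwa [hnc, one_smul] at this
  have key := compare_jets (X := X) (Y := fun t => dt (n a) (Γ t - Γ a))
    (G := fun t => dt (n a) (Γ' (ι (X t)) - Γ' a)) (a := a) (ξ := ω a / k a)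
    (g2 := l a / 2) (g3 := l a * l1 a / 6)
    (g4 := l a * (l1 a ^ 2 + l a * l2 a + 3 * l a ^ 2 * G a) / 24)
    (g5 := l a * (l1 a ^ 3 + 4 * l a * l1 a * l2 a + l a ^ 2 * l3 a + 19 * l a ^ 2 * l1 a * G a +
          3 * l a ^ 3 * G1 a) / 120)
    hξ dX.hasDerivAt Xa (half_pos (hk0 a))
    ((continuous_dt_right (n a)).comp (cΓ.sub continuous_const))
    (by simp only [sub_self, dt_zero_right]) oY ?_ ?_
  · obtain ⟨e1, e2⟩ := key
    have p1 := (hk0 a).ne'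
    have p2 := hl0 a
    constructor
    · have : (l a * k a) * (l1 a - k1 a) = 0 := by linear_combination 12 * e1
      exact sub_eq_zero.1 ((mul_eq_zero.1 this).resolve_left (mul_ne_zero p2 p1))
    · apply mul_left_cancel₀ (mul_ne_zero p2 (pow_ne_zero 2 p1))
      linear_combination 1440 * e2
  · refine oG.congr' ?_ (EventuallyEq.refl _ _)
    filter_upwards [hright] with t ht
    simp only [Function.comp]
    simp only [hX'] at ht
    rw [ht]
  · obtain ⟨δ, hδ, hball⟩ := Metric.eventually_nhds_iff.1 (hright.and hb)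
    refine ⟨δ, hδ, fun t1 t2 a1 a2 a3 a4 e => ?_⟩
    obtain ⟨r1, b1⟩ := hball (y := t1) (by rw [Real.dist_eq, abs_lt]; constructor <;> linarith)
    obtain ⟨r2, b2⟩ := hball (y := t2) (by rw [Real.dist_eq, abs_lt]; constructor <;> linarith)
    have hv : ∀ t, X' (ι (X t)) = X t →
        Γ' (ι (X t)) = Γ t + dt (n a) (Γ' (ι (X t)) - Γ t) • c a := fun t ht => by
      have h1 := hdec (Γ' (ι (X t)) - Γ t)
      have h2 : dt (Γ' (ι (X t)) - Γ t) (c a) = 0 := by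
        have h3 := dt_self (c a)
        nth_rewrite 1 [hca] at h3
        simp only [hX', hX, dt_sub_left] at ht h3 ⊢
        linarith
      rw [h2, zero_smul, zero_add] at h1
      rw [← h1]; abel
    have hu : Γ t2 = Γ t1 + dt (Γ t2 - Γ t1) (c a) • n a := by
      have h1 := hdec (Γ t2 - Γ t1)
      have h2 : dt (n a) (Γ t2 - Γ t1) = 0 := by
        simp only [dt_sub_right] at e ⊢
        linarith
      rw [h2, zero_smul, add_zero] at h1
      rw [← h1]; abel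
    have m1 := hF' (ι (X t1))
    have m2 := hF' (ι (X t2))
    rw [hv t1 r1] at m1
    rw [hv t2 r2] at m2
    have hbb : dt (n a) (Γ' (ι (X t1)) - Γ t1) = dt (n a) (Γ' (ι (X t2)) - Γ t2) := by
      refine hthree (Γ t2) _ _ b1 b2 (hF t2) ?_ m2
      by_cases h0 : dt (Γ t2 - Γ t1) (c a) = 0
      · rw [h0, zero_smul, add_zero] at hu
        rw [hu]; exact m1
      · have := hrect (Γ t1) _ _ h0 b1 (hF t1) (hu ▸ hF t2) m1
        rwa [← hu] at this
    simp only [dt_sub_right] at e hbb ⊢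
    linarith

end Pool.Agent.Lib.MP_171f82_an
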