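import Mathlib

set_option autoImplicit false

open Set Filter Topology

namespace Pool.Agent.Lib.MP_171f82_an

lemma deriv_zero_of_poly {Q : ℝ → ℝ} {P : ℝ → ℝ} {t q : ℝ} (hQ : HasDerivAt Q q t)
    (hP : AnalyticOnNhd ℝ P univ) (h0 : P 0 ≠ 0) (h : ∀ᶠ s in 𝓝 t, P (Q s) = 0) : q = 0 := by
  by_contra hq
  have h1 := hQ.tendsto_nhdsNE hq
  have h2 : ∃ᶠ s in 𝓝[≠] t, P (Q s) = 0 := (h.filter_mono nhdsWithin_le_nhds).frequently
  have h3 : ∃ᶠ x in 𝓝[≠] (Q t), P x = 0 := h1.frequently h2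
  exact h0 (hP.eqOn_zero_of_preconnected_of_frequently_eq_zero isPreconnected_univ
    (mem_univ (Q t)) h3 (mem_univ 0))

lemma ode_core {ω k k1 k2 k3 φ φ1 : ℝ → ℝ} {S ν : ℝ} (hS : 0 < S) (hν : 0 < ν)
    (hω : ∀ t, 0 < ω t)
    (hk : ∀ t, HasDerivAt k (ω t * k1 t) t) (hk1 : ∀ t, HasDerivAt k1 (ω t * k2 t) t)
    (hk2 : ∀ t, HasDerivAt k2 (ω t * k3 t) t) (hk0 : ∀ t, 0 < k t) (hm0 : ∀ t, k t < S)
    (hA : ∀ t, (-2 * k1 t * k2 t + 3 * (S - 2 * k t) * k3 t) * (k t * (S - k t)) ^ 2 +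
      9 * S ^ 3 * (S - 2 * k t) * k1 t = 0)
    (hφ : ∀ t, HasDerivAt φ (φ1 t) t)
    (hφ1 : ∀ t, ω (φ t) * φ1 t * (k t * (S - k t)) = ω t * ν)
    (hrad : ∀ t, (k t * (S - k t)) * (k (φ t) * (S - k (φ t))) = ν ^ 2)
    (hz : ∃ t, 2 * k t = S) : ∀ t, 2 * k t = S := by
  set Q : ℝ → ℝ := fun t => k t * (S - k t) with hQ
  set Q1 : ℝ → ℝ := fun t => k1 t * (S - 2 * k t) with hQ1
  set Q2 : ℝ → ℝ := fun t => k2 t * (S - 2 * k t) - 2 * k1 t ^ 2 with hQ2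
  have Qpos : ∀ t, 0 < Q t := fun t => mul_pos (hk0 t) (sub_pos.2 (hm0 t))
  have dQ : ∀ t, HasDerivAt Q (ω t * Q1 t) t := fun t => by
    refine HasDerivAt.congr_deriv ((hk t).fun_mul ((hk t).const_sub S)) ?_
    simp only [hQ1]; ring
  have dQ1 : ∀ t, HasDerivAt Q1 (ω t * Q2 t) t := fun t => by
    refine HasDerivAt.congr_deriv ((hk1 t).fun_mul (((hk t).const_mul 2).const_sub S)) ?_
    simp only [hQ2]; ring
  have dI : ∀ t, HasDerivAt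
      (fun t => 3 * (S - 2 * k t) * k2 t + 2 * k1 t ^ 2 - 9 * S ^ 3 * (Q t)⁻¹) 0 t := fun t => by
    refine HasDerivAt.congr_deriv (((((((hk t).const_mul 2).const_sub S).const_mul 3).fun_mul
      (hk2 t)).fun_add (((hk1 t).fun_pow 2).const_mul 2)).fun_sub
      (((dQ t).fun_inv (Qpos t).ne').const_mul (9 * S ^ 3))) ?_
    have h1 := hA t
    have h2 := (Qpos t).ne'
    have h3 : k t * (S - k t) = Q t := rfl
    rw [h3] at h1
    simp only [hQ1]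
    push_cast
    field_simp
    linear_combination ω t * h1
  obtain ⟨E, hE⟩ : ∃ E, ∀ t, 3 * (S - 2 * k t) * k2 t + 2 * k1 t ^ 2 - 9 * S ^ 3 * (Q t)⁻¹ = E :=
    ⟨_, fun t => is_const_of_deriv_eq_zero (fun t => (dI t).differentiableAt)
      (fun t => (dI t).deriv) t 0⟩
  have E1 : ∀ t, (S ^ 2 - 4 * Q t) * (3 * Q t * Q2 t - 9 * S ^ 3 - E * Q t) +
      8 * Q t * Q1 t ^ 2 = 0 := fun t => by
    have h1 := hE t
    have h2 := (Qpos t).ne'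
    have h3 : (3 * (S - 2 * k t) * k2 t + 2 * k1 t ^ 2) * Q t - 9 * S ^ 3 = E * Q t := by
      rw [← h1]; field_simp
    have h4 : S ^ 2 - 4 * Q t = (S - 2 * k t) ^ 2 := by simp only [hQ]; ring
    rw [h4, ← h3]
    simp only [hQ1, hQ2]
    ring
  have R0 : ∀ t, Q (φ t) = ν ^ 2 * (Q t)⁻¹ := fun t => by
    have h1 : Q t * Q (φ t) = ν ^ 2 := hrad t
    have h2 := (Qpos t).ne'
    rw [← h1]; field_simp
  have hφ1' : ∀ t, ω (φ t) * φ1 t = ω t * ν * (Q t)⁻¹ := fun t => by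
    have h1 : ω (φ t) * φ1 t * Q t = ω t * ν := hφ1 t
    have h2 := (Qpos t).ne'
    rw [← h1]; field_simp
  have R1 : ∀ t, Q1 (φ t) = -ν * (Q1 t * (Q t)⁻¹) := fun t => by
    have a1 : HasDerivAt (fun t => Q (φ t)) (ω (φ t) * Q1 (φ t) * φ1 t) t :=
      (dQ (φ t)).comp t (hφ t)
    have a2 := ((dQ t).fun_inv (Qpos t).ne').const_mul (ν ^ 2)
    simp only [R0] at a1
    have a3 := a1.unique a2
    have h2 := (Qpos t).ne'
    have h3 := (hω t).ne'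
    have h4 := hν.ne'
    have a4 : ω t * ν * (Q t)⁻¹ * Q1 (φ t) = ν ^ 2 * (-(ω t * Q1 t) / Q t ^ 2) := by
      rw [← hφ1' t, ← a3]; ring
    field_simp at a4 ⊢
    linear_combination a4
  have R2 : ∀ t, Q2 (φ t) = -Q2 t + Q1 t ^ 2 * (Q t)⁻¹ := fun t => by
    have a1 : HasDerivAt (fun t => Q1 (φ t)) (ω (φ t) * Q2 (φ t) * φ1 t) t :=
      (dQ1 (φ t)).comp t (hφ t)
    have a2 := ((dQ1 t).fun_mul ((dQ t).fun_inv (Qpos t).ne')).const_mul (-ν)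
    simp only [R1] at a1
    have a3 := a1.unique a2
    have h2 := (Qpos t).ne'
    have h3 := (hω t).ne'
    have h4 := hν.ne'
    have a4 : ω t * ν * (Q t)⁻¹ * Q2 (φ t) =
        -ν * (ω t * Q2 t * (Q t)⁻¹ + Q1 t * (-(ω t * Q1 t) / Q t ^ 2)) := by
      rw [← hφ1' t, ← a3]; ring
    field_simp at a4 ⊢
    linear_combination a4
  set μ := ν ^ 2 with hμ
  have μpos : 0 < μ := by positivity
  have E2 : ∀ t, (S ^ 2 * Q t - 4 * μ) * (-3 * μ * Q t * Q2 t + 3 * μ * Q1 t ^ 2 -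
      9 * S ^ 3 * Q t ^ 2 - E * μ * Q t) + 8 * μ ^ 2 * Q1 t ^ 2 = 0 := fun t => by
    have h1 := E1 (φ t)
    rw [R0, R1, R2] at h1
    have h2 := (Qpos t).ne'
    have h3 : ν ^ 2 = μ := rfl
    field_simp at h1
    linear_combination h1 - 8 * μ * Q1 t ^ 2 * h3
  set B : ℝ → ℝ := fun x => -4 * S ^ 2 * x ^ 2 + (3 * S ^ 4 - 16 * μ) * x - 4 * S ^ 2 * μ with hB
  set B1 : ℝ → ℝ := fun x => -8 * S ^ 2 * x + (3 * S ^ 4 - 16 * μ) with hB1
  set N : ℝ → ℝ := fun x => (S ^ 2 - 4 * x) * (S ^ 2 * x - 4 * μ) *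
    (9 * S ^ 3 * (x ^ 2 + μ) + 2 * E * μ * x) with hN
  set N1 : ℝ → ℝ := fun x => -4 * (S ^ 2 * x - 4 * μ) * (9 * S ^ 3 * (x ^ 2 + μ) + 2 * E * μ * x) +
    (S ^ 2 - 4 * x) * S ^ 2 * (9 * S ^ 3 * (x ^ 2 + μ) + 2 * E * μ * x) +
    (S ^ 2 - 4 * x) * (S ^ 2 * x - 4 * μ) * (18 * S ^ 3 * x + 2 * E * μ) with hN1
  have dB : ∀ x, HasDerivAt B (B1 x) x := fun x => by
    refine HasDerivAt.congr_deriv (((((hasDerivAt_id' x).fun_pow 2).const_mul (-4 * S ^ 2)).fun_add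
      ((hasDerivAt_id' x).const_mul (3 * S ^ 4 - 16 * μ))).sub_const (4 * S ^ 2 * μ)) ?_
    simp only [hB1]; push_cast; ring
  have dN : ∀ x, HasDerivAt N (N1 x) x := fun x => by
    refine HasDerivAt.congr_deriv (((((hasDerivAt_id' x).const_mul 4).const_sub (S ^ 2)).fun_mul
      (((hasDerivAt_id' x).const_mul (S ^ 2)).sub_const (4 * μ))).fun_mul
      (((((hasDerivAt_id' x).fun_pow 2).add_const μ).const_mul (9 * S ^ 3)).fun_add
        ((hasDerivAt_id' x).const_mul (2 * E * μ)))) ?_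
    simp only [hN1]; push_cast; ring
  have Rel : ∀ t, μ * Q1 t ^ 2 * B (Q t) - N (Q t) = 0 := fun t => by
    simp only [hB, hN]
    linear_combination μ * (S ^ 2 * Q t - 4 * μ) * E1 t + (S ^ 2 - 4 * Q t) * E2 t
  have DRel : ∀ t, Q1 t ≠ 0 →
      2 * μ * Q2 t * B (Q t) + μ * Q1 t ^ 2 * B1 (Q t) - N1 (Q t) = 0 := fun t ht => by
    have a1 := ((((dQ1 t).fun_pow 2).const_mul μ).fun_mul ((dB (Q t)).comp t (dQ t))).fun_sub
      ((dN (Q t)).comp t (dQ t))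
    simp only [Function.comp, Rel] at a1
    have a2 := a1.unique (hasDerivAt_const t (0 : ℝ))
    apply mul_left_cancel₀ (mul_ne_zero (hω t).ne' ht)
    push_cast at a2
    linear_combination a2
  have hP : ∀ t, Q1 t ≠ 0 →
      2 * μ * B (Q t) ^ 2 * (S ^ 2 - 4 * Q t) * (9 * S ^ 3 + E * Q t) -
        16 * Q t * B (Q t) * N (Q t) +
        3 * Q t * (S ^ 2 - 4 * Q t) * (B1 (Q t) * N (Q t) - B (Q t) * N1 (Q t)) = 0 :=
    fun t ht => by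
      linear_combination 3 * Q t * (S ^ 2 - 4 * Q t) * B (Q t) * DRel t ht -
        2 * μ * B (Q t) ^ 2 * E1 t -
        (-16 * Q t * B (Q t) + 3 * Q t * (S ^ 2 - 4 * Q t) * B1 (Q t)) * Rel t
  have Q1z : ∀ t, ω t * Q1 t = 0 := fun t => by
    by_contra hcon
    have h1 : Q1 t ≠ 0 := right_ne_zero_of_mul hcon
    refine hcon (deriv_zero_of_poly (P := fun x => 2 * μ * B x ^ 2 * (S ^ 2 - 4 * x) *
      (9 * S ^ 3 + E * x) - 16 * x * B x * N x +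
        3 * x * (S ^ 2 - 4 * x) * (B1 x * N x - B x * N1 x)) (dQ t) ?_ ?_ ?_)
    · intro x _
      simp only [hB, hB1, hN, hN1]
      fun_prop
    · have : 2 * μ * B 0 ^ 2 * (S ^ 2 - 4 * 0) * (9 * S ^ 3 + E * 0) - 16 * 0 * B 0 * N 0 +
          3 * 0 * (S ^ 2 - 4 * 0) * (B1 0 * N 0 - B 0 * N1 0) = 288 * μ ^ 3 * S ^ 9 := by
        simp only [hB]; ring
      rw [this]
      positivity
    · filter_upwards [(dQ1 t).continuousAt.eventually_ne h1] with s hs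
      exact hP s hs
  obtain ⟨t0, ht0⟩ := hz
  intro t
  have hc := is_const_of_deriv_eq_zero (fun t => (dQ t).differentiableAt)
    (fun t => by rw [(dQ t).deriv, Q1z]) t t0
  simp only [hQ] at hc
  have : (2 * k t - S) ^ 2 = 0 := by
    rw [← ht0] at hc ⊢
    linear_combination (-4 : ℝ) * hc
  exact sub_eq_zero.1 (pow_eq_zero_iff two_ne_zero |>.1 this)

end Pool.Agent.Lib.MP_171f82_an
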