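import Pool.Agent.Lib.MP_171f82_an.Curv
import Pool.Agent.Lib.MP_171f82_an.Angle
import Pool.Agent.Lib.MP_171f82_an.Jets
import Pool.Agent.Lib.MP_171f82_an.Ode
import Pool.Agent.Lib.MP_171f82_an.Ellipse

set_option autoImplicit false

open Set Filter Topology
open scoped ContDiff

namespace Pool.Agent.Lib.MP_171f82_an

/-- unit vector of angle `θ + π / 2` -/
noncomputable def ep (θ : ℝ) : ℝ × ℝ := (-Real.sin θ, Real.cos θ)

lemma hasDerivAt_ee (θ : ℝ) : HasDerivAt ee (ep θ) θ :=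
  (Real.hasDerivAt_cos θ).prodMk (Real.hasDerivAt_sin θ)

lemma contDiff_ee : ContDiff ℝ ∞ ee := by unfold ee; fun_prop

lemma contDiff_ep : ContDiff ℝ ∞ ep := by unfold ep; fun_prop

lemma ee_add_pi (θ : ℝ) : ee (θ + Real.pi) = - ee θ := by
  simp [ee, Real.cos_add_pi, Real.sin_add_pi]

lemma dt_ee_ep (θ : ℝ) : dt (ee θ) (ep θ) = 1 := by
  simp only [dt, ee, ep]
  linear_combination Real.cos_sq_add_sin_sq θ

lemma ee_ne_zero (θ : ℝ) : ee θ ≠ 0 := by
  intro h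
  have := dt_ee_ep θ
  rw [h, dt_zero_left] at this
  exact zero_ne_one this

lemma ee_rot (θ η : ℝ) :
    ee (θ + Real.pi / 2 + η) = (-Real.sin η) • ee θ + Real.cos η • ep θ := by
  have e : θ + Real.pi / 2 + η = (θ + η) + Real.pi / 2 := by ring
  rw [e]
  ext
  · simp only [ee, ep, Real.cos_add_pi_div_two, Real.sin_add, Prod.fst_add, Prod.smul_fst,
      smul_eq_mul]; ring
  · simp only [ee, ep, Real.sin_add_pi_div_two, Real.cos_add, Prod.snd_add, Prod.smul_snd,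
      smul_eq_mul]; ring

lemma contDiff_dt {f g : ℝ → ℝ × ℝ} (hf : ContDiff ℝ ∞ f) (hg : ContDiff ℝ ∞ g) :
    ContDiff ℝ ∞ (fun t => dt (f t) (g t)) := by
  unfold dt; fun_prop

lemma Dop {w f : ℝ → ℝ} (hw : ContDiff ℝ ∞ w) (hw0 : ∀ t, w t ≠ 0) (hf : ContDiff ℝ ∞ f) :
    ContDiff ℝ ∞ (fun t => w t ^ 2 * deriv f t) ∧
      ∀ t, HasDerivAt f ((w t ^ 2)⁻¹ * (w t ^ 2 * deriv f t)) t := by
  obtain ⟨h1, h2⟩ := contDiff_infty_iff_deriv.1 hf
  refine ⟨(hw.pow 2).mul h2, fun t => ?_⟩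
  rw [← mul_assoc, inv_mul_cancel₀ (pow_ne_zero 2 (hw0 t)), one_mul]
  exact (h1 t).hasDerivAt

variable {K : Set (ℝ × ℝ)}

theorem ellipse_of_angle_param (hK : IsCompact K) (hs : StrictConvex ℝ K)
    (hi : (interior K).Nonempty) (hrect : RectProp K) (hrad : RadonProp K)
    {Γ : ℝ → ℝ × ℝ} {r : ℝ → ℝ} (hr : ContDiff ℝ ∞ r) (hr0 : ∀ θ, 0 < r θ)
    (hΓ : ∀ θ, HasDerivAt Γ (r θ • ee θ) θ) (hsupp : ∀ θ, Supp K (ee θ) (Γ θ)) :
    ∃ A : (ℝ × ℝ) ≃ᵃ[ℝ] (ℝ × ℝ), range Γ = A '' {q : ℝ × ℝ | q.1 ^ 2 + q.2 ^ 2 = 1} := by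
  have hcl := hK.isClosed
  have hsupp' : ∀ θ, Supp K (-ee θ) (Γ (θ + Real.pi)) := fun θ => ee_add_pi θ ▸ hsupp _
  have hF : ∀ θ, Γ θ ∈ frontier K := fun θ => (hsupp θ).mem_frontier (ee_ne_zero θ)
  have Γper : ∀ θ, Γ (θ + Real.pi + Real.pi) = Γ θ := fun θ => by
    have h1 := hsupp' (θ + Real.pi)
    rw [ee_add_pi, neg_neg] at h1
    exact (hsupp θ).unique hs h1 (ee_ne_zero θ)
  have hΓ' : ∀ θ, HasDerivAt (fun θ => Γ (θ + Real.pi)) ((-r (θ + Real.pi)) • ee θ) θ :=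
    fun θ => by
      have := (hΓ (θ + Real.pi)).comp_add_const θ Real.pi
      rwa [ee_add_pi, smul_neg, ← neg_smul] at this
  have rper : ∀ θ, r (θ + Real.pi + Real.pi) = r θ := fun θ => by
    have h1 := (hΓ' (θ + Real.pi)).comp_add_const θ Real.pi
    simp only [Γper] at h1
    have h2 := h1.unique (hΓ θ)
    rw [ee_add_pi, smul_neg, neg_smul, neg_neg] at h2
    exact smul_left_injective ℝ (ee_ne_zero θ) h2
  have sΓ : ContDiff ℝ ∞ Γ := by
    refine contDiff_infty_iff_deriv.2 ⟨fun θ => (hΓ θ).differentiableAt, ?_⟩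
    have : deriv Γ = fun θ => r θ • ee θ := funext fun θ => (hΓ θ).deriv
    rw [this]
    exact hr.smul contDiff_ee
  have sr' : ContDiff ℝ ∞ (fun θ => r (θ + Real.pi)) := hr.comp (contDiff_id.add contDiff_const)
  set c : ℝ → ℝ × ℝ := fun θ => Γ (θ + Real.pi) - Γ θ with hc
  have sc : ContDiff ℝ ∞ c := (sΓ.comp (contDiff_id.add contDiff_const)).sub sΓ
  have dc0 : ∀ θ, HasDerivAt c ((-(r (θ + Real.pi) + r θ)) • ee θ) θ := fun θ => by
    refine HasDerivAt.congr_deriv ((hΓ' θ).fun_sub (hΓ θ)) ?_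
    rw [← sub_smul]; congr 1; ring
  have canti : ∀ θ, c (θ + Real.pi) = - c θ := fun θ => by
    simp only [hc, Γper, neg_sub]
  have cne : ∀ θ, c θ ≠ 0 := fun θ => diam_ne_zero hi (ee_ne_zero θ) (hsupp θ) (hsupp' θ)
  set w : ℝ → ℝ := fun θ => dt (ee θ) (c θ) with hw
  set w1 : ℝ → ℝ := fun θ => dt (ep θ) (c θ) with hw1
  have wpos : ∀ θ, 0 < w θ := fun θ => width_pos hi (ee_ne_zero θ) (hsupp θ) (hsupp' θ)
  have wne : ∀ θ, w θ ≠ 0 := fun θ => (wpos θ).ne'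
  have sw : ContDiff ℝ ∞ w := contDiff_dt contDiff_ee sc
  have sw1 : ContDiff ℝ ∞ w1 := contDiff_dt contDiff_ep sc
  have wper : ∀ θ, w (θ + Real.pi) = w θ := fun θ => by
    simp only [hw, ee_add_pi, canti, dt_neg_left, dt_neg_right, neg_neg]
  have dw : ∀ θ, HasDerivAt w (w1 θ) θ := fun θ => by
    have := hasDerivAt_dt (hasDerivAt_ee θ) (dc0 θ)
    rwa [dt_smul_right, dt_self, mul_zero, add_zero] at this
  have cdec : ∀ θ, c θ = (-w1 θ) • ee θ + w θ • ep θ := fun θ => by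
    have := dt_decomp (ee θ) (ep θ) (c θ)
    rwa [dt_ee_ep, one_smul, dt_swap (c θ)] at this
  set n : ℝ → ℝ × ℝ := fun θ => (w θ)⁻¹ • ee θ with hn
  set om : ℝ → ℝ := fun θ => (w θ ^ 2)⁻¹ with hom
  have ompos : ∀ θ, 0 < om θ := fun θ => inv_pos.2 (pow_pos (wpos θ) 2)
  have com : Continuous om := (sw.continuous.pow 2).inv₀ fun θ => pow_ne_zero 2 (wne θ)
  have dn : ∀ θ, HasDerivAt n (om θ • c θ) θ := fun θ => by
    refine HasDerivAt.congr_deriv (((dw θ).fun_inv (wne θ)).fun_smul (hasDerivAt_ee θ)) ?_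
    rw [cdec θ, smul_add, smul_smul, smul_smul, add_comm]
    have := wne θ
    congr 2 <;> simp only [hom] <;> field_simp
  have hnc : ∀ θ, dt (n θ) (c θ) = 1 := fun θ => by
    simp only [hn, dt_smul_left]
    exact inv_mul_cancel₀ (wne θ)
  have nne : ∀ θ, n θ ≠ 0 := fun θ h => by
    have := hnc θ
    rw [h, dt_zero_left] at this
    exact zero_ne_one this
  set k : ℝ → ℝ := fun θ => (r θ * w θ ^ 3)⁻¹ with hk
  set l : ℝ → ℝ := fun θ => -(r (θ + Real.pi) * w θ ^ 3)⁻¹ with hl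
  set G : ℝ → ℝ := fun θ => (r (θ + Real.pi) + r θ) * w θ ^ 3 with hG
  have kpos : ∀ θ, 0 < k θ := fun θ => inv_pos.2 (mul_pos (hr0 θ) (pow_pos (wpos θ) 3))
  have lneg : ∀ θ, l θ < 0 := fun θ =>
    neg_neg_of_pos (inv_pos.2 (mul_pos (hr0 _) (pow_pos (wpos θ) 3)))
  have sk : ContDiff ℝ ∞ k :=
    (hr.mul (sw.pow 3)).inv fun θ => (mul_pos (hr0 θ) (pow_pos (wpos θ) 3)).ne'
  have sl : ContDiff ℝ ∞ l :=
    ((sr'.mul (sw.pow 3)).inv fun θ => (mul_pos (hr0 _) (pow_pos (wpos θ) 3)).ne').neg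
  have sG : ContDiff ℝ ∞ G := (sr'.add hr).mul (sw.pow 3)
  have kl : ∀ θ, k (θ + Real.pi) = - l θ := fun θ => by simp only [hk, hl, wper, neg_neg]
  have Gkl : ∀ θ, G θ * (k θ * -l θ) = k θ - l θ := fun θ => by
    have := wne θ
    have := (hr0 θ).ne'
    have := (hr0 (θ + Real.pi)).ne'
    simp only [hG, hk, hl]; field_simp; ring
  have dΓ : ∀ θ, HasDerivAt Γ ((om θ / k θ) • n θ) θ := fun θ => by
    refine HasDerivAt.congr_deriv (hΓ θ) ?_
    have := wne θ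
    have := (hr0 θ).ne'
    simp only [hn, smul_smul]; congr 1; simp only [hom, hk]; field_simp
  have dΓ' : ∀ θ, HasDerivAt (fun θ => Γ (θ + Real.pi)) ((om θ / l θ) • n θ) θ := fun θ => by
    refine HasDerivAt.congr_deriv (hΓ' θ) ?_
    have := wne θ
    have := (hr0 (θ + Real.pi)).ne'
    simp only [hn, smul_smul]; congr 1; simp only [hom, hl]; field_simp
  have dc : ∀ θ, HasDerivAt c ((-(om θ * G θ)) • n θ) θ := fun θ => by
    refine HasDerivAt.congr_deriv (dc0 θ) ?_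
    have := wne θ
    simp only [hn, smul_smul]; congr 1; simp only [hom, hG]; field_simp
  obtain ⟨sk1, dk⟩ := Dop sw wne sk
  obtain ⟨sk2, dk1⟩ := Dop sw wne sk1
  obtain ⟨sk3, dk2⟩ := Dop sw wne sk2
  obtain ⟨sl1, dl⟩ := Dop sw wne sl
  obtain ⟨sl2, dl1⟩ := Dop sw wne sl1
  obtain ⟨sl3, dl2⟩ := Dop sw wne sl2
  obtain ⟨sG1, dG⟩ := Dop sw wne sG
  set k1 : ℝ → ℝ := fun t => w t ^ 2 * deriv k t with hk1
  set k2 : ℝ → ℝ := fun t => w t ^ 2 * deriv k1 t with hk2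
  set k3 : ℝ → ℝ := fun t => w t ^ 2 * deriv k2 t with hk3
  set l1 : ℝ → ℝ := fun t => w t ^ 2 * deriv l t with hl1
  set l2 : ℝ → ℝ := fun t => w t ^ 2 * deriv l1 t with hl2
  set l3 : ℝ → ℝ := fun t => w t ^ 2 * deriv l2 t with hl3
  set G1 : ℝ → ℝ := fun t => w t ^ 2 * deriv G t with hG1
  replace dk : ∀ t, HasDerivAt k (om t * k1 t) t := dk
  replace dk1 : ∀ t, HasDerivAt k1 (om t * k2 t) t := dk1
  replace dk2 : ∀ t, HasDerivAt k2 (om t * k3 t) t := dk2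
  replace dl : ∀ t, HasDerivAt l (om t * l1 t) t := dl
  replace dl1 : ∀ t, HasDerivAt l1 (om t * l2 t) t := dl1
  replace dl2 : ∀ t, HasDerivAt l2 (om t * l3 t) t := dl2
  replace dG : ∀ t, HasDerivAt G (om t * G1 t) t := dG
  have hjet := fun a => two_arc (F := frontier K) a dΓ dΓ' dn dc dk dk1 dk2 dl dl1 dl2 dG com
    sk3.continuous sl3.continuous sG1.continuous hnc kpos (fun t => (lneg t).ne) (ompos a).ne'
    rfl hF (fun t => hF _)
    (fun x p q hp hq hx hxp hxq => hrect (n a) (Γ a) (Γ (a + Real.pi)) (nne a)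
      ((hsupp a).smul (inv_pos.2 (wpos a)).le)
      (by simp only [hn]; rw [← smul_neg]; exact (hsupp' a).smul (inv_pos.2 (wpos a)).le)
      x p q hp hq hx hxp hxq)
    (fun x p q hp hq hx hxp hxq => three_points hcl hs (cne a) hp hq hx hxp hxq)
  have e1 : l1 = k1 := funext fun a => (hjet a).1
  have e2 : l2 = k2 := by simp only [hl2, hk2, e1]
  have e3 : l3 = k3 := by simp only [hl3, hk3, e2]
  have dS : ∀ t, HasDerivAt (fun t => k t - l t) 0 t := fun t => by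
    refine HasDerivAt.congr_deriv ((dk t).fun_sub (dl t)) ?_
    rw [e1, sub_self]
  obtain ⟨S, hS⟩ : ∃ S, ∀ t, k t - l t = S :=
    ⟨_, fun t => is_const_of_deriv_eq_zero (fun t => (dS t).differentiableAt)
      (fun t => (dS t).deriv) t 0⟩
  have lk : ∀ t, l t = k t - S := fun t => by linarith [hS t]
  have kS : ∀ t, k t < S := fun t => by linarith [hS t, lneg t]
  have Spos : 0 < S := (kpos 0).trans (kS 0)
  have Qpos : ∀ t, 0 < k t * (S - k t) := fun t => mul_pos (kpos t) (sub_pos.2 (kS t))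
  have GQ : ∀ t, G t * (k t * (S - k t)) = S := fun t => by
    have := Gkl t
    rw [hS, lk, neg_sub] at this
    exact this
  have G1Q : ∀ t, G1 t * (k t * (S - k t)) + G t * (k1 t * (S - 2 * k t)) = 0 := fun t => by
    have a1 := (dG t).fun_mul ((dk t).fun_mul ((dk t).const_sub S))
    simp only [GQ] at a1
    have a2 := a1.unique (hasDerivAt_const t S)
    apply mul_left_cancel₀ (ompos t).ne'
    linear_combination a2
  have hA : ∀ t, (-2 * k1 t * k2 t + 3 * (S - 2 * k t) * k3 t) * (k t * (S - k t)) ^ 2 +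
      9 * S ^ 3 * (S - 2 * k t) * k1 t = 0 := fun t => by
    have h1 := (hjet t).2
    rw [e1, e2, e3, lk] at h1
    have q0 := (Qpos t).ne'
    have g0 : G t = S / (k t * (S - k t)) := by rw [eq_div_iff q0]; exact GQ t
    have g1 : G1 t = -(S * (k1 t * (S - 2 * k t))) / (k t * (S - k t)) ^ 2 := by
      rw [eq_div_iff (pow_ne_zero 2 q0)]
      linear_combination (k t * (S - k t)) * G1Q t - (k1 t * (S - 2 * k t)) * GQ t
    rw [g0, g1] at h1
    have q1 := (kpos t).ne'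
    have q2 := (sub_pos.2 (kS t)).ne'
    apply mul_left_cancel₀ Spos.ne'
    field_simp at h1
    linear_combination h1
  -- the conjugate direction
  set φ : ℝ → ℝ := fun θ => θ + Real.pi / 2 + Real.arctan (w1 θ / w θ) with hφ
  have dφ : ∀ θ, HasDerivAt φ (deriv φ θ) θ := fun θ => by
    refine DifferentiableAt.hasDerivAt ?_
    have a1 : DifferentiableAt ℝ w1 θ := (contDiff_infty_iff_deriv.1 sw1).1 θ
    have a2 : DifferentiableAt ℝ w θ := (dw θ).differentiableAt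
    exact (differentiableAt_id.add_const _).add (a1.div a2 (wne θ)).arctan
  have cφ : ∀ θ, c θ = (w θ / Real.cos (Real.arctan (w1 θ / w θ))) • ee (φ θ) := fun θ => by
    have h1 := (Real.cos_arctan_pos (w1 θ / w θ)).ne'
    have h2 := Real.tan_arctan (w1 θ / w θ)
    rw [Real.tan_eq_sin_div_cos] at h2
    have h3 := wne θ
    simp only [hφ]
    rw [ee_rot, cdec θ, smul_add, smul_smul, smul_smul]
    congr 2
    · field_simp at h2 ⊢
      linarith
    · field_simp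
  have ℓpos : ∀ θ, 0 < w θ / Real.cos (Real.arctan (w1 θ / w θ)) := fun θ =>
    div_pos (wpos θ) (Real.cos_arctan_pos _)
  have rad0 : ∀ θ, dt (n θ) (c (φ θ)) = 0 := fun θ => by
    have h1 : Supp K (c θ) (Γ (φ θ)) := by rw [cφ θ]; exact (hsupp _).smul (ℓpos θ).le
    have h2 : Supp K (-c θ) (Γ (φ θ + Real.pi)) := by
      rw [cφ θ, ← smul_neg]; exact (hsupp' _).smul (ℓpos θ).le
    have h3 := hrad (ee θ) (Γ θ) (Γ (θ + Real.pi)) _ _ (ee_ne_zero θ) (hsupp θ) (hsupp' θ) h1 h2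
    simp only [hn, dt_smul_left]
    rw [show dt (ee θ) (c (φ θ)) = 0 from h3, mul_zero]
  have rad1 : ∀ θ, dt (c θ) (n (φ θ)) = 0 := fun θ => by
    rw [cφ θ]
    simp only [hn, dt_smul_left, dt_smul_right, dt_self, mul_zero]
  have dcφ : ∀ θ, HasDerivAt (fun θ => c (φ θ))
      (deriv φ θ • ((-(om (φ θ) * G (φ θ))) • n (φ θ))) θ := fun θ => (dc (φ θ)).scomp θ (dφ θ)
  have dnφ : ∀ θ, HasDerivAt (fun θ => n (φ θ)) (deriv φ θ • (om (φ θ) • c (φ θ))) θ :=
    fun θ => (dn (φ θ)).scomp θ (dφ θ)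
  have dΔ : ∀ θ, HasDerivAt (fun θ => dt (c θ) (c (φ θ))) 0 θ := fun θ => by
    have := hasDerivAt_dt (dc θ) (dcφ θ)
    rwa [dt_smul_left, dt_smul_right, dt_smul_right, rad0, rad1, mul_zero, mul_zero, mul_zero,
      add_zero] at this
  obtain ⟨Δ, hΔ⟩ : ∃ Δ, ∀ θ, dt (c θ) (c (φ θ)) = Δ :=
    ⟨_, fun t => is_const_of_deriv_eq_zero (fun t => (dΔ t).differentiableAt)
      (fun t => (dΔ t).deriv) t 0⟩
  have Δpos : 0 < Δ := by
    rw [← hΔ 0]
    nth_rewrite 1 [cφ 0]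
    rw [dt_smul_left]
    exact mul_pos (ℓpos 0) (wpos _)
  have rel1 : ∀ θ, dt (n θ) (n (φ θ)) * Δ = 1 := fun θ => by
    have a1 := hnc θ
    have a2 := hnc (φ θ)
    have a3 := rad0 θ
    have a4 := rad1 θ
    rw [← hΔ θ]
    unfold dt at *
    linear_combination ((n (φ θ)).1 * (c (φ θ)).2 - (n (φ θ)).2 * (c (φ θ)).1) * a1 + a2 +
      ((c θ).1 * (n (φ θ)).2 - (c θ).2 * (n (φ θ)).1) * a3
  have rel2 : ∀ θ, om (φ θ) * deriv φ θ * Δ ^ 2 = om θ * G θ := fun θ => by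
    have a1 := hasDerivAt_dt (dc θ) (dnφ θ)
    simp only [rad1] at a1
    have a2 := a1.unique (hasDerivAt_const θ (0 : ℝ))
    rw [dt_smul_left, dt_smul_right (c θ), dt_smul_right (c θ), hΔ] at a2
    linear_combination Δ * a2 + om θ * G θ * rel1 θ
  have rel3 : ∀ θ, G θ * G (φ θ) = Δ ^ 4 := fun θ => by
    have a1 := hasDerivAt_dt (dn θ) (dcφ θ)
    simp only [rad0] at a1
    have a2 := a1.unique (hasDerivAt_const θ (0 : ℝ))
    rw [dt_smul_left, dt_smul_right, dt_smul_right, hΔ] at a2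
    apply mul_left_cancel₀ (ompos θ).ne'
    linear_combination (-Δ ^ 3) * a2 - G (φ θ) * rel2 θ -
      Δ ^ 2 * om (φ θ) * deriv φ θ * G (φ θ) * rel1 θ
  have hz : ∃ t, 2 * k t = S := by
    obtain ⟨t, ht⟩ := exists_zero_of_anti (f := fun t => 2 * k t - S) (p := 0 + Real.pi)
      (by have := sk.continuous; fun_prop) (by simp only [kl, lk]; ring)
    exact ⟨t, sub_eq_zero.1 ht⟩
  have hfin := ode_core (ν := S / Δ ^ 2) Spos (by positivity) ompos dk dk1 dk2 kpos kS hA dφ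
    (fun t => by
      have := Δpos.ne'
      field_simp
      linear_combination (k t * (S - k t)) * rel2 t + om t * GQ t)
    (fun t => by
      have := Δpos.ne'
      field_simp
      linear_combination (-(k t * (S - k t) * (k (φ t) * (S - k (φ t))))) * rel3 t +
        (G (φ t) * (k (φ t) * (S - k (φ t)))) * GQ t + S * GQ (φ t)) hz
  have kc : ∀ t, k t = S / 2 := fun t => by linarith [hfin t]
  have Gc : ∀ t, G t = 4 / S := fun t => by
    have h1 := GQ t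
    rw [kc] at h1
    have := Spos.ne'
    field_simp at h1 ⊢
    linarith
  refine ellipse_of_frame (g := 4 / S) (p := Real.pi) (by positivity) (fun t => ?_) dn
    (fun t => Gc t ▸ dc t) hnc canti
  refine HasDerivAt.congr_deriv (dΓ t) ?_
  rw [kc]
  congr 1
  have := Spos.ne'
  field_simp
  ring

end Pool.Agent.Lib.MP_171f82_an
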