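import Pool.Agent.Lib.MP_171f82_an.Frame

set_option autoImplicit false

open Set Filter Topology
open scoped ContDiff

namespace Pool.Agent.Lib.MP_171f82_an

variable {K : Set (ℝ × ℝ)}

theorem ellipse_of_oriented (hK : IsCompact K) (hs : StrictConvex ℝ K)
    (hi : (interior K).Nonempty) (hrot : RotHyp K) {γ : ℝ → ℝ × ℝ} (hγ : ContDiff ℝ ∞ γ)
    (hper : Function.Periodic γ 1) (hg : ∀ t, deriv γ t ≠ 0) (hrange : range γ = frontier K)
    (hsupp : ∀ t, Supp K (deriv γ t) (γ t)) :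
    ∃ A : (ℝ × ℝ) ≃ᵃ[ℝ] (ℝ × ℝ), frontier K = A '' {q : ℝ × ℝ | q.1 ^ 2 + q.2 ^ 2 = 1} := by
  have hrect := rectProp_of_rotHyp hK.isClosed hs hi hrot
  have hrad := radonProp_of_rotHyp hK hs hi hrot
  obtain ⟨d0, s1⟩ := contDiff_infty_iff_deriv.1 hγ
  obtain ⟨d1, s2⟩ := contDiff_infty_iff_deriv.1 s1
  obtain ⟨M, hM⟩ := ((periodic_deriv (periodic_deriv hper)).isBounded_of_continuous one_ne_zero
    s2.continuous).exists_norm_le
  have hcurv := curv_pos hK hs hi hrad (fun t => (d0 t).hasDerivAt) (fun t => (d1 t).hasDerivAt)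
    (M := M) (fun t => hM _ ⟨t, rfl⟩) hg hsupp (fun x hx => by rw [← hrange] at hx; exact hx)
  obtain ⟨Γ, r, hr, hr0, hΓ, hrg, hθ⟩ := exists_angle_param hγ hper hg hcurv
  rw [← hrange, ← hrg]
  refine ellipse_of_angle_param hK hs hi hrect hrad hr hr0 hΓ fun θ => ?_
  obtain ⟨t, a, ha, e1, e2⟩ := hθ θ
  rw [e1, e2]
  exact (hsupp t).smul ha

theorem ellipse_of_rotHyp (hK : IsCompact K) (hs : StrictConvex ℝ K)
    (hi : (interior K).Nonempty) (hrot : RotHyp K) {γ : ℝ → ℝ × ℝ} (hγ : ContDiff ℝ ∞ γ)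
    (hper : Function.Periodic γ 1) (hg : ∀ t, deriv γ t ≠ 0) (hrange : range γ = frontier K) :
    ∃ A : (ℝ × ℝ) ≃ᵃ[ℝ] (ℝ × ℝ), frontier K = A '' {q : ℝ × ℝ | q.1 ^ 2 + q.2 ^ 2 = 1} := by
  obtain ⟨d0, s1⟩ := contDiff_infty_iff_deriv.1 hγ
  rcases orientation hK.isClosed hs hi (fun s => hrange ▸ mem_range_self s)
    (fun t => (d0 t).hasDerivAt) s1.continuous hg with h | h
  · exact ellipse_of_oriented hK hs hi hrot hγ hper hg hrange h
  · have hd : ∀ t, deriv (fun s => γ (-s)) t = - deriv γ (-t) := fun t => deriv_comp_neg γ t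
    refine ellipse_of_oriented hK hs hi hrot (γ := fun s => γ (-s)) (hγ.comp contDiff_neg)
      (fun t => ?_) (fun t => ?_) ?_ (fun t => ?_)
    · show γ (-(t + 1)) = γ (-t)
      rw [neg_add, ← sub_eq_add_neg]
      exact hper.sub_eq (-t)
    · rw [hd]; exact neg_ne_zero.2 (hg _)
    · rw [← hrange]
      exact neg_surjective.range_comp γ
    · rw [hd]; exact h (-t)

end Pool.Agent.Lib.MP_171f82_an
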