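import Pool.Agent.Lib.MP_171f82_an.NsInt

set_option autoImplicit false

open Set Filter Topology MeasureTheory

namespace Pool.Agent.Lib.MP_171f82_an

lemma prim_contDiffAt {k : ℕ} {h : (ℝ × ℝ) × ℝ → ℝ} {z0 : (ℝ × ℝ) × ℝ} {e : ℝ}
    (H : ∀ η ∈ uIcc z0.1.2 e, ContDiffAt ℝ k h ((z0.1.1, η), z0.2)) :
    ContDiffAt ℝ k (fun z : (ℝ × ℝ) × ℝ => ∫ η in z.1.2..e, h ((z.1.1, η), z.2)) z0 := by
  have e1 : (fun z : (ℝ × ℝ) × ℝ => ∫ η in z.1.2..e, h ((z.1.1, η), z.2)) =
      fun z : (ℝ × ℝ) × ℝ => (e - z.1.2) •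
        ∫ r in (0 : ℝ)..1, h ((z.1.1, (e - z.1.2) * r + z.1.2), z.2) := by
    funext z
    rw [intervalIntegral.smul_integral_comp_mul_add (fun η => h ((z.1.1, η), z.2))]
    simp
  rw [e1]
  refine ContDiffAt.smul (contDiffAt_const.sub contDiffAt_fst.snd) ?_
  refine param_contDiffAt k ℝ
    (fun p : ((ℝ × ℝ) × ℝ) × ℝ => h ((p.1.1.1, (e - p.1.1.2) * p.2 + p.1.1.2), p.1.2)) z0 id 0 1
    continuousOn_id fun r hr => ?_
  rw [uIcc_of_le zero_le_one] at hr
  refine ContDiffAt.comp (g := h)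
    (f := fun p : ((ℝ × ℝ) × ℝ) × ℝ => ((p.1.1.1, (e - p.1.1.2) * p.2 + p.1.1.2), p.1.2)) _
    (H _ ?_) (by fun_prop)
  show (e - z0.1.2) * r + z0.1.2 ∈ uIcc z0.1.2 e
  rcases le_total z0.1.2 e with h1 | h1
  · rw [uIcc_of_le h1]
    constructor <;> nlinarith [hr.1, hr.2]
  · rw [uIcc_of_ge h1]
    constructor <;> nlinarith [hr.1, hr.2]

lemma layer {a b va vb : ℝ} (hab : a ≤ b) (hv : va ≤ vb) {φ : ℝ → ℝ}
    (hφ : ContinuousOn φ (Icc a b)) (hr : ∀ y ∈ Icc a b, φ y ∈ Icc va vb) {L g : ℝ × ℝ → ℝ}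
    (hg : ContinuousOn g (Icc a b ×ˢ Icc va vb)) (hL : ContinuousOn L (Icc a b ×ˢ Icc va vb))
    (hd : ∀ y ∈ Icc a b, ∀ v ∈ Icc va vb, HasDerivAt (fun v => L (y, v)) (g (y, v)) v) :
    ∫ y in a..b, L (y, φ y) = (∫ y in a..b, L (y, va)) +
      ∫ v in va..vb, ∫ y in a..b, indicator {y | v ≤ φ y} (fun y => g (y, v)) y := by
  have c1 : ContinuousOn (fun y => L (y, φ y)) (uIcc a b) := by
    rw [uIcc_of_le hab]
    exact hL.comp (continuousOn_id.prodMk hφ) fun y hy => ⟨hy, hr y hy⟩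
  have c2 : ContinuousOn (fun y => L (y, va)) (uIcc a b) := by
    rw [uIcc_of_le hab]
    exact hL.comp (continuousOn_id.prodMk continuousOn_const) fun y hy => ⟨hy, le_rfl, hv⟩
  have hS : IsClosed {z ∈ Icc a b ×ˢ Icc va vb | z.2 ≤ φ z.1} :=
    (isClosed_Icc.prod isClosed_Icc).isClosed_le continuousOn_snd
      (hφ.comp continuousOn_fst fun z hz => hz.1)
  have hI : IntegrableOn (Function.uncurry fun y v =>
      indicator {y | v ≤ φ y} (fun y => g (y, v)) y) (uIoc a b ×ˢ uIoc va vb) := by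
    have h1 : IntegrableOn g (Icc a b ×ˢ Icc va vb) :=
      hg.integrableOn_compact (isCompact_Icc.prod isCompact_Icc)
    have h2 := h1.indicator hS.measurableSet
    have hsub : uIoc a b ×ˢ uIoc va vb ⊆ Icc a b ×ˢ Icc va vb := by
      rw [uIoc_of_le hab, uIoc_of_le hv]
      exact prod_mono Ioc_subset_Icc_self Ioc_subset_Icc_self
    refine (h2.mono_set hsub).congr_fun (fun z hz => ?_) (measurableSet_uIoc.prod measurableSet_uIoc)
    by_cases h3 : z.2 ≤ φ z.1
    · rw [indicator_of_mem (show z ∈ {z ∈ Icc a b ×ˢ Icc va vb | z.2 ≤ φ z.1} from ⟨hsub hz, h3⟩)]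
      exact (indicator_of_mem (show z.1 ∈ {y | z.2 ≤ φ y} from h3) (fun y => g (y, z.2))).symm
    · rw [indicator_of_notMem
        (show z ∉ {z ∈ Icc a b ×ˢ Icc va vb | z.2 ≤ φ z.1} from fun h4 => h3 h4.2)]
      exact (indicator_of_notMem (show z.1 ∉ {y | z.2 ≤ φ y} from h3) (fun y => g (y, z.2))).symm
  rw [← intervalIntegral_intervalIntegral_swap hI,
    ← sub_eq_iff_eq_add', ← intervalIntegral.integral_sub c1.intervalIntegrable
      c2.intervalIntegrable]
  refine intervalIntegral.integral_congr fun y hy => ?_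
  rw [uIcc_of_le hab] at hy
  have e1 : (fun v => indicator {y | v ≤ φ y} (fun y => g (y, v)) y) =
      indicator {v | v ≤ φ y} (fun v => g (y, v)) := by
    funext v
    by_cases h3 : v ≤ φ y
    · rw [indicator_of_mem (show y ∈ {y | v ≤ φ y} from h3),
        indicator_of_mem (show v ∈ {v | v ≤ φ y} from h3)]
    · rw [indicator_of_notMem (show y ∉ {y | v ≤ φ y} from h3),
        indicator_of_notMem (show v ∉ {v | v ≤ φ y} from h3)]
  have hsub : uIcc va (φ y) ⊆ Icc va vb := by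
    rw [uIcc_of_le (hr y hy).1]
    exact Icc_subset_Icc_right (hr y hy).2
  show L (y, φ y) - L (y, va) = ∫ v in va..vb, indicator {y | v ≤ φ y} (fun y => g (y, v)) y
  rw [e1, intervalIntegral.integral_indicator (hr y hy)]
  refine (intervalIntegral.integral_eq_sub_of_hasDerivAt (f := fun v => L (y, v))
    (fun v hv' => hd y hy v (hsub hv')) ?_).symm
  exact (hg.comp (continuousOn_const.prodMk continuousOn_id)
    fun v hv' => ⟨hy, hsub hv'⟩).intervalIntegrable

lemma ind_up {a b Y e : ℝ} (hab : a ≤ b) (hb : b ≤ e) (hY : Y ≤ e) {S : Set ℝ} {h : ℝ → ℝ}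
    (h0 : ∀ y, y ∉ Ioo a b → h y = 0) (hS : ∀ y ∈ Ioo a b, y ∈ S ↔ Y ≤ y) :
    ∫ y in a..b, indicator S h y = ∫ y in Y..e, h y := by
  rw [intervalIntegral.integral_of_le hab, intervalIntegral.integral_of_le hY,
    ← integral_Icc_eq_integral_Ioc (x := Y), ← integral_indicator measurableSet_Ioc,
    ← integral_indicator measurableSet_Icc]
  congr 1
  funext y
  by_cases h1 : y ∈ Ioo a b
  · rw [indicator_of_mem (Ioo_subset_Ioc_self h1)]
    by_cases h2 : Y ≤ y
    · rw [indicator_of_mem ((hS y h1).2 h2), indicator_of_mem (show y ∈ Icc Y e from ⟨h2, h1.2.le.trans hb⟩)]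
    · rw [indicator_of_notMem fun h3 => h2 ((hS y h1).1 h3), indicator_of_notMem fun h3 => h2 h3.1]
  · simp only [indicator, h0 y h1, ite_self]

lemma ind_down {a b Y e : ℝ} (hab : a ≤ b) (ha : e ≤ a) (hY : e ≤ Y) {S : Set ℝ} {h : ℝ → ℝ}
    (h0 : ∀ y, y ∉ Ioo a b → h y = 0) (hS : ∀ y ∈ Ioo a b, y ∈ S ↔ y ≤ Y) :
    ∫ y in a..b, indicator S h y = - ∫ y in Y..e, h y := by
  rw [← intervalIntegral.integral_symm, intervalIntegral.integral_of_le hab,
    intervalIntegral.integral_of_le hY, ← integral_indicator measurableSet_Ioc,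
    ← integral_indicator measurableSet_Ioc]
  congr 1
  funext y
  by_cases h1 : y ∈ Ioo a b
  · rw [indicator_of_mem (Ioo_subset_Ioc_self h1)]
    by_cases h2 : y ≤ Y
    · rw [indicator_of_mem ((hS y h1).2 h2), indicator_of_mem (show y ∈ Ioc e Y from ⟨ha.trans_lt h1.1, h2⟩)]
    · rw [indicator_of_notMem fun h3 => h2 ((hS y h1).1 h3), indicator_of_notMem fun h3 => h2 h3.2]
  · simp only [indicator, h0 y h1, ite_self]

lemma box2 {a b : ℝ} {P : ℝ × ℝ → Prop} (h : ∀ᶠ z in 𝓝 (a, b), P z) :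
    ∃ ε > 0, ∀ s y, |s - a| < ε → |y - b| < ε → P (s, y) := by
  obtain ⟨ε, hε, H⟩ := Metric.eventually_nhds_iff.1 h
  refine ⟨ε, hε, fun s y h1 h2 => H ?_⟩
  rw [Prod.dist_eq, Real.dist_eq, Real.dist_eq]
  exact max_lt h1 h2

lemma box3 {a b c : ℝ} {P : (ℝ × ℝ) × ℝ → Prop} (h : ∀ᶠ z in 𝓝 ((a, b), c), P z) :
    ∃ ε > 0, ∀ s y v, |s - a| < ε → |y - b| < ε → |v - c| < ε → P ((s, y), v) := by
  obtain ⟨ε, hε, H⟩ := Metric.eventually_nhds_iff.1 h
  refine ⟨ε, hε, fun s y v h1 h2 h3 => H ?_⟩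
  rw [Prod.dist_eq, Prod.dist_eq, Real.dist_eq, Real.dist_eq, Real.dist_eq]
  exact max_lt (max_lt h1 h2) h3

/-- averaging along a transversal direction gains regularity over a monotone function -/
theorem avg_smooth {k : ℕ} (hk : 1 ≤ k) {τ lam : ℝ → ℝ} (hτ : Continuous τ)
    (hmono : StrictMono τ) (hlam : Continuous lam) (hinv : ∀ v, τ (lam v) = v)
    {f : ℝ × ℝ → ℝ} {s0 y0 c : ℝ} (hf : ContDiffAt ℝ k f (s0, y0))
    (hd : HasDerivAt (fun y => f (s0, y)) c y0) (hc : c ≠ 0) {L g : (ℝ × ℝ) × ℝ → ℝ}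
    (hL : ContDiffAt ℝ k L ((s0, y0), τ (f (s0, y0))))
    (hg : ContDiffAt ℝ k g ((s0, y0), τ (f (s0, y0))))
    (hLg : ∀ᶠ z in 𝓝 ((s0, y0), τ (f (s0, y0))), HasDerivAt (fun v => L (z.1, v)) (g z) z.2) :
    ∀ᶠ δ in 𝓝[>] (0 : ℝ), ∀ w : ℝ → ℝ, ContDiff ℝ k w →
      (∀ y, y ∉ Ioo (y0 - δ) (y0 + δ) → w y = 0) →
      ContDiffAt ℝ k (fun s => ∫ y in (y0 - δ)..(y0 + δ), w y * L ((s, y), τ (f (s, y)))) s0 := by
  have hn : (k : WithTop ℕ∞) ≠ 0 := by
    have : k ≠ 0 := by omega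
    exact_mod_cast this
  have hk' : (k : WithTop ℕ∞) ≠ ((⊤ : ℕ∞) : WithTop ℕ∞) := by simp
  set u0 := f (s0, y0) with hu0
  set v0 := τ u0 with hv0
  have hD : ∀ p, ContDiffAt ℝ k f p →
      HasDerivAt (fun y => f (p.1, y)) (fderiv ℝ f p (0, 1)) p.2 := fun p hp =>
    (show HasFDerivAt f (fderiv ℝ f p) (p.1, p.2) from
      (hp.differentiableAt hn).hasFDerivAt).comp_hasDerivAt p.2
      ((hasDerivAt_const p.2 p.1).prodMk (hasDerivAt_id p.2))
  have hD0 : fderiv ℝ f (s0, y0) (0, 1) = c := (hD _ hf).unique hd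
  have hDc : ContinuousAt (fun p => fderiv ℝ f p (0, 1) * c) (s0, y0) := by
    have h1 : ContDiffAt ℝ 0 (fderiv ℝ f) (s0, y0) :=
      hf.fderiv_right (by simpa using (show (1 : WithTop ℕ∞) ≤ k by exact_mod_cast hk))
    exact (h1.continuousAt.clm_apply continuousAt_const).mul continuousAt_const
  have ev1 : ∀ᶠ p in 𝓝 (s0, y0), ContDiffAt ℝ k f p ∧ 0 < fderiv ℝ f p (0, 1) * c :=
    (hf.eventually hk').and (hDc.eventually (lt_mem_nhds (by
      show 0 < fderiv ℝ f (s0, y0) (0, 1) * c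
      rw [hD0]; exact mul_self_pos.2 hc)))
  have ev2 : ∀ᶠ z in 𝓝 ((s0, y0), v0), (ContDiffAt ℝ k f z.1 ∧ 0 < fderiv ℝ f z.1 (0, 1) * c) ∧
      ContDiffAt ℝ k L z ∧ ContDiffAt ℝ k g z ∧ HasDerivAt (fun v => L (z.1, v)) (g z) z.2 :=
    (continuousAt_fst.eventually ev1).and ((hL.eventually hk').and ((hg.eventually hk').and hLg))
  obtain ⟨ε, hε, B1⟩ := box3 ev2
  obtain ⟨Y, y1, y2, y3, -⟩ := fiber_inv hk hf hd hc
  have ev3 : ∀ᶠ p in 𝓝 (s0, u0), ContDiffAt ℝ k Y p ∧ f (p.1, Y p) = p.2 ∧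
      |Y p - y0| < ε / 2 ∧ |τ p.2 - v0| < ε := by
    refine (y1.eventually hk').and (y3.and (Eventually.and ?_ ?_))
    · have h1 : ContinuousAt (fun p => |Y p - y0|) (s0, u0) :=
        (y1.continuousAt.sub continuousAt_const).abs
      exact h1.eventually (gt_mem_nhds (by
        show |Y (s0, u0) - y0| < ε / 2
        rw [y2, sub_self, abs_zero]; exact half_pos hε))
    · have h1 : ContinuousAt (fun p : ℝ × ℝ => |τ p.2 - v0|) (s0, u0) := by fun_prop
      exact h1.eventually (gt_mem_nhds (by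
        show |τ u0 - v0| < ε
        rw [hv0, sub_self, abs_zero]; exact hε))
  obtain ⟨η, hη, B2⟩ := box2 ev3
  have ev4 : ∀ᶠ p in 𝓝 (s0, y0), |f p - u0| < η / 2 := by
    have h1 : ContinuousAt (fun p => |f p - u0|) (s0, y0) :=
      (hf.continuousAt.sub continuousAt_const).abs
    exact h1.eventually (gt_mem_nhds (by
      show |f (s0, y0) - u0| < η / 2
      rw [hu0, sub_self, abs_zero]; exact half_pos hη))
  obtain ⟨δ0, hδ0, B3⟩ := box2 ev4
  have evδ : ∀ᶠ δ in 𝓝[>] (0 : ℝ), δ < min δ0 (ε / 2) :=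
    nhdsWithin_le_nhds (gt_mem_nhds (lt_min hδ0 (half_pos hε)))
  filter_upwards [evδ, self_mem_nhdsWithin] with δ hδ1 hδ w hw hw0
  have hδp : 0 < δ := hδ
  have hδa : δ < δ0 := hδ1.trans_le (min_le_left _ _)
  have hδb : δ < ε / 2 := hδ1.trans_le (min_le_right _ _)
  set a := y0 - δ with ha
  set b := y0 + δ with hb
  set va := τ (u0 - η / 2) with hva
  set vb := τ (u0 + η / 2) with hvb
  have hab : a ≤ b := by linarith
  have hv : va ≤ vb := hmono.monotone (by linarith)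
  have s00 : ∀ {t : ℝ}, 0 < t → |s0 - s0| < t := fun ht => by rw [sub_self, abs_zero]; exact ht
  have inab : ∀ y ∈ Icc a b, |y - y0| ≤ δ := fun y hy => abs_le.2 ⟨by linarith [hy.1], by
    linarith [hy.2]⟩
  have inlam : ∀ v ∈ Icc va vb, |lam v - u0| < η := fun v hv' => by
    have h1 : u0 - η / 2 ≤ lam v := hmono.le_iff_le.1 (by rw [hinv]; exact hv'.1)
    have h2 : lam v ≤ u0 + η / 2 := hmono.le_iff_le.1 (by rw [hinv]; exact hv'.2)
    exact abs_lt.2 ⟨by linarith, by linarith⟩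
  have inv : ∀ v ∈ Icc va vb, |v - v0| < ε := fun v hv' => by
    have := (B2 s0 (lam v) (s00 hη) (inlam v hv')).2.2.2
    rwa [hinv] at this
  set h : (ℝ × ℝ) × ℝ → ℝ := fun z => w z.1.2 * g z with hh
  have hwd : ∀ z : (ℝ × ℝ) × ℝ, ContDiffAt ℝ k (fun z : (ℝ × ℝ) × ℝ => w z.1.2) z := fun z =>
    hw.contDiffAt.comp z (by fun_prop)
  have claimA : ∀ σ e : ℝ, |e - y0| ≤ ε / 2 → ContDiffAt ℝ k (fun s =>
      (∫ y in a..b, w y * L ((s, y), va)) +
        σ * ∫ v in va..vb, ∫ t in Y (s, lam v)..e, h ((s, t), v)) s0 := by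
    intro σ e he
    refine ContDiffAt.add ?_ (contDiffAt_const.mul ?_)
    · refine param_contDiffAt k ℝ (fun p : ℝ × ℝ => w p.2 * L (p, va)) s0 id a b
        continuousOn_id fun y hy => ?_
      rw [uIcc_of_le hab] at hy
      refine (hw.contDiffAt.comp _ contDiffAt_snd).mul ?_
      exact ContDiffAt.comp (g := L) (f := fun p : ℝ × ℝ => (p, va)) _
        (B1 s0 y va (s00 hε) (by linarith [inab y hy]) (inv va ⟨le_rfl, hv⟩)).2.1 (by fun_prop)
    · refine param_contDiffAt k ℝ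
        (fun p : ℝ × (ℝ × ℝ) => ∫ t in Y (p.1, p.2.1)..e, h ((p.1, t), p.2.2)) s0
        (fun v => (lam v, v)) va vb (by fun_prop) fun v hv' => ?_
      rw [uIcc_of_le hv] at hv'
      obtain ⟨q1, -, q3, -⟩ := B2 s0 (lam v) (s00 hη) (inlam v hv')
      refine ContDiffAt.comp
        (g := fun z : (ℝ × ℝ) × ℝ => ∫ t in z.1.2..e, h ((z.1.1, t), z.2))
        (f := fun p : ℝ × (ℝ × ℝ) => ((p.1, Y (p.1, p.2.1)), p.2.2)) _
        (prim_contDiffAt fun t ht => (hwd _).mul (B1 s0 t v (s00 hε) ?_ (inv v hv')).2.2.1) ?_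
      · have h1 := abs_lt.1 q3
        have h2 := abs_le.1 he
        rcases mem_uIcc.1 ht with h3 | h3
        · exact abs_lt.2 ⟨by linarith [h3.1], by linarith [h3.2]⟩
        · exact abs_lt.2 ⟨by linarith [h3.1], by linarith [h3.2]⟩
      · refine (contDiffAt_fst.prodMk ?_).prodMk (by fun_prop)
        exact ContDiffAt.comp (g := Y) (f := fun p : ℝ × (ℝ × ℝ) => (p.1, p.2.1)) _ q1
          (by fun_prop)
  have evs : ∀ᶠ s in 𝓝 s0, |s - s0| < min ε (min η δ0) := by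
    have h1 : ContinuousAt (fun s => |s - s0|) s0 := by fun_prop
    exact h1.eventually (gt_mem_nhds (s00 (lt_min hε (lt_min hη hδ0))))
  have claimB : ∀ s, |s - s0| < min ε (min η δ0) →
      ∫ y in a..b, w y * L ((s, y), τ (f (s, y))) = (∫ y in a..b, w y * L ((s, y), va)) +
        ∫ v in va..vb, ∫ y in a..b,
          indicator {y | v ≤ τ (f (s, y))} (fun y => h ((s, y), v)) y := by
    intro s hs
    have s1 : |s - s0| < ε := hs.trans_le (min_le_left _ _)
    have s3 : |s - s0| < δ0 := hs.trans_le ((min_le_right _ _).trans (min_le_right _ _))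
    have q : ∀ z ∈ Icc a b ×ˢ Icc va vb, _ := fun z hz =>
      B1 s z.1 z.2 s1 (by linarith [inab z.1 hz.1]) (inv z.2 hz.2)
    refine layer hab hv (φ := fun y => τ (f (s, y))) (L := fun z => w z.1 * L ((s, z.1), z.2))
      (g := fun z => h ((s, z.1), z.2)) ?_ ?_ ?_ ?_ ?_
    · refine fun y hy => ContinuousAt.continuousWithinAt (hτ.continuousAt.comp ?_)
      exact ContinuousAt.comp (g := f) (f := fun y => (s, y))
        (q (y, va) ⟨hy, le_rfl, hv⟩).1.1.continuousAt (by fun_prop)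
    · intro y hy
      have h1 := abs_lt.1 (B3 s y s3 (by linarith [inab y hy]))
      exact ⟨hmono.monotone (by linarith [h1.1]), hmono.monotone (by linarith [h1.2])⟩
    · refine fun z hz => ContinuousAt.continuousWithinAt ?_
      exact ContinuousAt.comp (g := h) (f := fun z : ℝ × ℝ => ((s, z.1), z.2))
        ((hwd _).mul (q z hz).2.2.1).continuousAt (by fun_prop)
    · refine fun z hz => ContinuousAt.continuousWithinAt ?_
      refine (hw.continuous.continuousAt.comp continuousAt_fst).mul ?_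
      exact ContinuousAt.comp (g := L) (f := fun z : ℝ × ℝ => ((s, z.1), z.2))
        (q z hz).2.1.continuousAt (by fun_prop)
    · exact fun y hy v hv' => ((q (y, v) ⟨hy, hv'⟩).2.2.2).const_mul (w y)
  have h0 : ∀ s v y, y ∉ Ioo a b → h ((s, y), v) = 0 := fun s v y hy => by
    simp only [hh, hw0 y hy, zero_mul]
  have inD : ∀ y ∈ Ioo a b, y ∈ Ioo (y0 - ε) (y0 + ε) := fun y hy =>
    ⟨by linarith [hy.1], by linarith [hy.2]⟩
  have fD : ∀ s, |s - s0| < ε → ∀ y ∈ Ioo (y0 - ε) (y0 + ε),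
      HasDerivAt (fun y => f (s, y)) (fderiv ℝ f (s, y) (0, 1)) y ∧
        0 < fderiv ℝ f (s, y) (0, 1) * c := fun s hs y hy => by
    have q := (B1 s y v0 hs (abs_lt.2 ⟨by linarith [hy.1], by linarith [hy.2]⟩)
      (by rw [sub_self, abs_zero]; exact hε)).1
    exact ⟨hD _ q.1, q.2⟩
  rcases lt_or_gt_of_ne hc with hc' | hc'
  · refine (claimA (-1) (y0 - ε / 2) (by rw [abs_le]; constructor <;> linarith)).congr_of_eventuallyEq
      (evs.mono fun s hs => ?_)
    have s1 : |s - s0| < ε := hs.trans_le (min_le_left _ _)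
    have s2 : |s - s0| < η := hs.trans_le ((min_le_right _ _).trans (min_le_left _ _))
    have mono : StrictAntiOn (fun y => f (s, y)) (Ioo (y0 - ε) (y0 + ε)) :=
      strictAntiOn_of_deriv_neg (convex_Ioo _ _)
        (fun y hy => (fD s s1 y hy).1.continuousAt.continuousWithinAt) fun y hy => by
          rw [interior_Ioo] at hy
          rw [(fD s s1 y hy).1.deriv]
          exact neg_of_mul_pos_left (fD s s1 y hy).2 hc'.le
    beta_reduce
    rw [claimB s hs, neg_one_mul, ← intervalIntegral.integral_neg]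
    congr 1
    refine intervalIntegral.integral_congr fun v hv' => ?_
    rw [uIcc_of_le hv] at hv'
    obtain ⟨-, q2, q3, -⟩ := B2 s (lam v) s2 (inlam v hv')
    have h1 := abs_lt.1 q3
    refine ind_down hab (by linarith) (by linarith [h1.1]) (h0 s v) fun y hy => ?_
    have h2 := mono.le_iff_ge (a := Y (s, lam v)) (b := y)
      ⟨by linarith [h1.1], by linarith [h1.2]⟩ (inD y hy)
    rw [← h2]
    show v ≤ τ (f (s, y)) ↔ f (s, Y (s, lam v)) ≤ f (s, y)
    rw [q2, ← hmono.le_iff_le (a := lam v), hinv]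
  · refine (claimA 1 (y0 + ε / 2) (by rw [abs_le]; constructor <;> linarith)).congr_of_eventuallyEq
      (evs.mono fun s hs => ?_)
    have s1 : |s - s0| < ε := hs.trans_le (min_le_left _ _)
    have s2 : |s - s0| < η := hs.trans_le ((min_le_right _ _).trans (min_le_left _ _))
    have mono : StrictMonoOn (fun y => f (s, y)) (Ioo (y0 - ε) (y0 + ε)) :=
      strictMonoOn_of_deriv_pos (convex_Ioo _ _)
        (fun y hy => (fD s s1 y hy).1.continuousAt.continuousWithinAt) fun y hy => by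
          rw [interior_Ioo] at hy
          rw [(fD s s1 y hy).1.deriv]
          exact pos_of_mul_pos_left (fD s s1 y hy).2 hc'.le
    beta_reduce
    rw [claimB s hs, one_mul]
    congr 1
    refine intervalIntegral.integral_congr fun v hv' => ?_
    rw [uIcc_of_le hv] at hv'
    obtain ⟨-, q2, q3, -⟩ := B2 s (lam v) s2 (inlam v hv')
    have h1 := abs_lt.1 q3
    refine ind_up hab (by linarith) (by linarith [h1.2]) (h0 s v) fun y hy => ?_
    have h2 := mono.le_iff_le (a := Y (s, lam v)) (b := y)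
      ⟨by linarith [h1.1], by linarith [h1.2]⟩ (inD y hy)
    rw [← h2]
    show v ≤ τ (f (s, y)) ↔ f (s, Y (s, lam v)) ≤ f (s, y)
    rw [q2, ← hmono.le_iff_le (a := lam v), hinv]

end Pool.Agent.Lib.MP_171f82_an
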