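import Mathlib

set_option autoImplicit false

open Set Filter Topology MeasureTheory

namespace Pool.Agent.Lib.MP_171f82_an

section Param

variable {E Q : Type} [NormedAddCommGroup E] [NormedSpace ℝ E] [NormedAddCommGroup Q]
  [NormedSpace ℝ Q]

omit [NormedSpace ℝ E] [NormedSpace ℝ Q] in
lemma tube_q {x0 : E} {q : ℝ → Q} {a b : ℝ} (hq : ContinuousOn q (uIcc a b)) {P : E × Q → Prop}
    (h : ∀ v ∈ uIcc a b, ∀ᶠ z in 𝓝 (x0, q v), P z) :
    ∀ᶠ x in 𝓝 x0, ∀ v ∈ uIcc a b, P (x, q v) := by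
  have hc : IsCompact (q '' uIcc a b) := isCompact_uIcc.image_of_continuousOn hq
  have h1 := hc.eventually_forall_of_forall_eventually (x₀ := x0) (P := fun x y => P (x, y))
    (by rintro _ ⟨v, hv, rfl⟩; exact h v hv)
  exact h1.mono fun x hx v hv => hx _ ⟨v, hv, rfl⟩

omit [NormedSpace ℝ E] [NormedSpace ℝ Q] in
lemma contOn_slice {F : Type} [NormedAddCommGroup F] {G : E × Q → F} {x : E} {q : ℝ → Q}
    {a b : ℝ} (hq : ContinuousOn q (uIcc a b)) (h : ∀ v ∈ uIcc a b, ContinuousAt G (x, q v)) :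
    ContinuousOn (fun v => G (x, q v)) (uIcc a b) := fun v hv =>
  ContinuousAt.comp_continuousWithinAt (f := fun v => (x, q v)) (h v hv)
    (continuousWithinAt_const.prodMk (hq v hv))

omit [NormedSpace ℝ E] [NormedSpace ℝ Q] in
lemma bound_near {F : Type} [NormedAddCommGroup F] {G : E × Q → F} {x0 : E} {q : ℝ → Q}
    {a b : ℝ} (hq : ContinuousOn q (uIcc a b)) (h : ∀ v ∈ uIcc a b, ContinuousAt G (x0, q v)) :
    ∃ M : ℝ, ∀ᶠ x in 𝓝 x0, ∀ v ∈ uIcc a b, ‖G (x, q v)‖ ≤ M := by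
  obtain ⟨M, hM⟩ := isCompact_uIcc.exists_bound_of_continuousOn (contOn_slice hq h)
  refine ⟨M + 1, tube_q hq (P := fun z => ‖G z‖ ≤ M + 1) fun v hv => ?_⟩
  have h1 : ‖G (x0, q v)‖ < M + 1 := by linarith [hM v hv]
  exact ((h v hv).norm.eventually (gt_mem_nhds h1)).mono fun z hz => le_of_lt hz

omit [NormedSpace ℝ Q] in
lemma param_hasFDerivAt {F : Type} [NormedAddCommGroup F] [NormedSpace ℝ F] [CompleteSpace F]
    {G : E × Q → F} {G' : E × Q → E →L[ℝ] F} {x0 : E} {q : ℝ → Q} {a b : ℝ}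
    (hq : ContinuousOn q (uIcc a b))
    (h : ∀ v ∈ uIcc a b, ∀ᶠ z in 𝓝 (x0, q v),
      HasFDerivAt (fun x => G (x, z.2)) (G' z) z.1 ∧ ContinuousAt G z ∧ ContinuousAt G' z) :
    HasFDerivAt (fun x => ∫ v in a..b, G (x, q v)) (∫ v in a..b, G' (x0, q v)) x0 := by
  have h1 := tube_q hq h
  have h0 := h1.self_of_nhds
  obtain ⟨M, hM⟩ := bound_near hq (fun v hv => (h0 v hv).2.2)
  refine intervalIntegral.hasFDerivAt_integral_of_dominated_of_fderiv_le
    (F := fun x v => G (x, q v)) (F' := fun x v => G' (x, q v)) (bound := fun _ => M)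
    (s := {x | (∀ v ∈ uIcc a b, HasFDerivAt (fun x => G (x, q v)) (G' (x, q v)) x) ∧
      ∀ v ∈ uIcc a b, ‖G' (x, q v)‖ ≤ M}) ?_ ?_ ?_ ?_ ?_ intervalIntegrable_const ?_
  · exact (h1.and hM).mono fun x hx => ⟨fun v hv => (hx.1 v hv).1, hx.2⟩
  · refine h1.mono fun x hx => ?_
    exact ((contOn_slice hq fun v hv => (hx v hv).2.1).mono uIoc_subset_uIcc).aestronglyMeasurable
      measurableSet_uIoc
  · exact (contOn_slice hq fun v hv => (h0 v hv).2.1).intervalIntegrable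
  · exact ((contOn_slice hq fun v hv => (h0 v hv).2.2).mono uIoc_subset_uIcc).aestronglyMeasurable
      measurableSet_uIoc
  · exact Eventually.of_forall fun t ht x hx => hx.2 t (uIoc_subset_uIcc ht)
  · exact Eventually.of_forall fun t ht x hx => hx.1 t (uIoc_subset_uIcc ht)

/-- parametric integrals with a continuous inner parameter are as smooth as the integrand -/
theorem param_contDiffAt (k : ℕ) : ∀ (F : Type) [NormedAddCommGroup F] [NormedSpace ℝ F]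
    [CompleteSpace F] (G : E × Q → F) (x0 : E) (q : ℝ → Q) (a b : ℝ),
    ContinuousOn q (uIcc a b) → (∀ v ∈ uIcc a b, ContDiffAt ℝ k G (x0, q v)) →
      ContDiffAt ℝ k (fun x => ∫ v in a..b, G (x, q v)) x0 := by
  induction k with
  | zero =>
    intro F _ _ _ G x0 q a b hq h
    have h1 := tube_q hq (P := fun z => ContinuousAt G z) fun v hv =>
      ((h v hv).eventually (by simp)).mono fun z hz => hz.continuousAt
    refine contDiffAt_zero.2 ⟨_, h1.eventually_nhds, fun x hx => ?_⟩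
    have hx' : ∀ᶠ y in 𝓝 x, ∀ v ∈ uIcc a b, ContinuousAt G (y, q v) := hx
    have h0 := hx'.self_of_nhds
    obtain ⟨M, hM⟩ := bound_near hq h0
    refine ContinuousAt.continuousWithinAt ?_
    refine intervalIntegral.continuousAt_of_dominated_interval (F := fun x v => G (x, q v))
      (bound := fun _ => M) ?_ ?_ intervalIntegrable_const ?_
    · refine hx'.mono fun y hy => ?_
      exact ((contOn_slice hq hy).mono uIoc_subset_uIcc).aestronglyMeasurable measurableSet_uIoc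
    · exact hM.mono fun y hy => Eventually.of_forall fun t ht => hy t (uIoc_subset_uIcc ht)
    · refine Eventually.of_forall fun t ht => ?_
      exact ContinuousAt.comp (f := fun y => (y, q t)) (h0 t (uIoc_subset_uIcc ht))
        (continuousAt_id.prodMk continuousAt_const)
  | succ k ih =>
    intro F _ _ _ G x0 q a b hq h
    set G' : E × Q → E →L[ℝ] F := fun z => (fderiv ℝ G z).comp (ContinuousLinearMap.inl ℝ E Q)
      with hG'
    have hG'd : ∀ z, ContDiffAt ℝ ((k + 1 : ℕ) : WithTop ℕ∞) G z → ContDiffAt ℝ k G' z := by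
      intro z hz
      have h2 : ContDiffAt ℝ k (fderiv ℝ G) z := hz.fderiv_right (by push_cast; exact le_rfl)
      exact h2.clm_comp contDiffAt_const
    have h1 := tube_q hq (P := fun z => ContDiffAt ℝ ((k + 1 : ℕ) : WithTop ℕ∞) G z) fun v hv =>
      (h v hv).eventually (by simp)
    have key : ∀ x, (∀ v ∈ uIcc a b, ContDiffAt ℝ ((k + 1 : ℕ) : WithTop ℕ∞) G (x, q v)) →
        HasFDerivAt (fun x => ∫ v in a..b, G (x, q v)) (∫ v in a..b, G' (x, q v)) x := by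
      intro x hx
      refine param_hasFDerivAt hq fun v hv => ?_
      refine ((hx v hv).eventually (by simp)).mono fun z hz => ⟨?_, hz.continuousAt,
        (hG'd z hz).continuousAt⟩
      have h3 : HasFDerivAt G (fderiv ℝ G z) (z.1, z.2) :=
        (hz.differentiableAt (by simp)).hasFDerivAt
      exact h3.comp z.1 (hasFDerivAt_prodMk_left z.1 z.2)
    have h4 : ContDiffAt ℝ ((k : WithTop ℕ∞) + 1) (fun x => ∫ v in a..b, G (x, q v)) x0 :=
      contDiffAt_succ_iff_hasFDerivAt.2 ⟨fun x => ∫ v in a..b, G' (x, q v),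
        ⟨_, h1, fun x hx => key x hx⟩, ih _ G' x0 q a b hq fun v hv => hG'd _ (h v hv)⟩
    exact_mod_cast h4

end Param

/-- local inverse of a plane map -/
lemma local_inv {k : ℕ} (hk : 1 ≤ k) {F : ℝ × ℝ → ℝ × ℝ} {a : ℝ × ℝ} (hF : ContDiffAt ℝ k F a)
    {F' : (ℝ × ℝ) →L[ℝ] (ℝ × ℝ)} (hd : HasFDerivAt F F' a) (hinj : ∀ z, F' z = 0 → z = 0) :
    ∃ G : ℝ × ℝ → ℝ × ℝ, ContDiffAt ℝ k G (F a) ∧ G (F a) = a ∧
      (∀ᶠ w in 𝓝 (F a), F (G w) = w) ∧ ∀ᶠ z in 𝓝 a, G (F z) = z := by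
  have hi : Function.Injective (F' : (ℝ × ℝ) →ₗ[ℝ] (ℝ × ℝ)) :=
    (injective_iff_map_eq_zero _).2 hinj
  let e : (ℝ × ℝ) ≃L[ℝ] (ℝ × ℝ) :=
    (LinearEquiv.ofInjectiveEndo (F' : (ℝ × ℝ) →ₗ[ℝ] (ℝ × ℝ)) hi).toContinuousLinearEquiv
  have he : (e : (ℝ × ℝ) →L[ℝ] (ℝ × ℝ)) = F' := by
    ext <;> rfl
  have hd' : HasFDerivAt F (e : (ℝ × ℝ) →L[ℝ] (ℝ × ℝ)) a := he ▸ hd
  have hn : (k : WithTop ℕ∞) ≠ 0 := by
    have : k ≠ 0 := by omega
    exact_mod_cast this
  exact ⟨hF.localInverse hd' hn, hF.to_localInverse hd' hn, hF.localInverse_apply_image hd' hn,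
    (hF.hasStrictFDerivAt' hd' hn).eventually_right_inverse,
    (hF.hasStrictFDerivAt' hd' hn).eventually_left_inverse⟩

/-- solving `f (s, y) = u` for `y` -/
lemma fiber_inv {k : ℕ} (hk : 1 ≤ k) {f : ℝ × ℝ → ℝ} {s0 y0 c : ℝ}
    (hf : ContDiffAt ℝ k f (s0, y0)) (hd : HasDerivAt (fun y => f (s0, y)) c y0) (hc : c ≠ 0) :
    ∃ Y : ℝ × ℝ → ℝ, ContDiffAt ℝ k Y (s0, f (s0, y0)) ∧ Y (s0, f (s0, y0)) = y0 ∧
      (∀ᶠ w in 𝓝 (s0, f (s0, y0)), f (w.1, Y w) = w.2) ∧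
      ∀ᶠ z in 𝓝 (s0, y0), Y (z.1, f z) = z.2 := by
  have hn : (k : WithTop ℕ∞) ≠ 0 := by
    have : k ≠ 0 := by omega
    exact_mod_cast this
  have h1 : HasFDerivAt f (fderiv ℝ f (s0, y0)) (s0, y0) := (hf.differentiableAt hn).hasFDerivAt
  have h2 : HasDerivAt (fun y => f (s0, y)) (fderiv ℝ f (s0, y0) (0, 1)) y0 :=
    h1.comp_hasDerivAt y0 ((hasDerivAt_const y0 s0).prodMk (hasDerivAt_id y0))
  have h3 : fderiv ℝ f (s0, y0) (0, 1) = c := h2.unique hd
  obtain ⟨G, g1, g2, g3, g4⟩ := local_inv hk (F := fun z => (z.1, f z)) (a := (s0, y0))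
    (contDiffAt_fst.prodMk hf) (hasFDerivAt_fst.prodMk h1) (by
      rintro ⟨a, b⟩ hz
      have e1 : a = 0 := congrArg Prod.fst hz
      have e2 : fderiv ℝ f (s0, y0) (a, b) = 0 := congrArg Prod.snd hz
      have e3 : ((a, b) : ℝ × ℝ) = b • ((0, 1) : ℝ × ℝ) := by simp [e1]
      rw [e3, map_smul, h3, smul_eq_mul] at e2
      have e4 : b = 0 := (mul_eq_zero.1 e2).resolve_right hc
      simp [e1, e4])
  refine ⟨fun w => (G w).2, g1.snd, congrArg Prod.snd g2, g3.mono fun w hw => ?_,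
    g4.mono fun z hz => congrArg Prod.snd hz⟩
  have e1 : (G w).1 = w.1 := (Prod.ext_iff.1 hw).1
  have e2 : f (G w) = w.2 := (Prod.ext_iff.1 hw).2
  rw [← e1]
  exact e2

/-- a continuous solution of a nondegenerate equation is smooth -/
lemma solve_smooth {k : ℕ} (hk : 1 ≤ k) {Λ : ℝ × ℝ → ℝ} {τ R : ℝ → ℝ} {s0 c : ℝ}
    (hτ : ContinuousAt τ s0) (hΛ : ContDiffAt ℝ k Λ (s0, τ s0))
    (hd : HasDerivAt (fun v => Λ (s0, v)) c (τ s0)) (hc : c ≠ 0) (hR : ContDiffAt ℝ k R s0)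
    (h : ∀ᶠ s in 𝓝 s0, Λ (s, τ s) = R s) : ContDiffAt ℝ k τ s0 := by
  obtain ⟨Y, g1, -, -, g4⟩ := fiber_inv hk hΛ hd hc
  have h0 : Λ (s0, τ s0) = R s0 := h.self_of_nhds
  rw [h0] at g1
  have h1 : ContDiffAt ℝ k (fun s => Y (s, R s)) s0 :=
    ContDiffAt.comp (f := fun s => (s, R s)) s0 g1 (contDiffAt_id.prodMk hR)
  refine h1.congr_of_eventuallyEq ?_
  have h2 : Tendsto (fun s => (s, τ s)) (𝓝 s0) (𝓝 (s0, τ s0)) := continuousAt_id.prodMk hτ
  filter_upwards [h2.eventually g4, h] with s e1 e2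
  rw [← e2]
  exact e1.symm

end Pool.Agent.Lib.MP_171f82_an
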