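import Pool.Agent.Lib.MP_171f82_an.Frame
import Pool.Agent.Lib.MP_171f82_an.NsInt

set_option autoImplicit false

open Set Filter Topology

namespace Pool.Agent.Lib.MP_171f82_an

variable {K : Set (ℝ × ℝ)}

/-- every frontier point has only one support line -/
def NoCorner (K : Set (ℝ × ℝ)) : Prop :=
  ∀ u v p : ℝ × ℝ, u ≠ 0 → v ≠ 0 → Supp K u p → Supp K v p → dt u v = 0

lemma noCorner_of_rotHyp (hK : IsCompact K) (hs : StrictConvex ℝ K) (hi : (interior K).Nonempty)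
    (hrot : RotHyp K) : NoCorner K := by
  intro u v p hu hv h1 h2
  have hc := hK.isClosed
  obtain ⟨σu, s1⟩ := exists_chordSpec K hu
  obtain ⟨σv, s2⟩ := exists_chordSpec K hv
  obtain ⟨h, α, -, hbij, hrel⟩ := hrot u v hu hv σu σv s1 s2
  have r1 := hrel p (h1.mem_frontier hu)
  rw [s1.fix hc hs hu h1, s2.fix hc hs hv h2] at r1
  have hα : α = 0 := by simpa using r1
  obtain ⟨o, ho⟩ := hi
  obtain ⟨s, sn, hx⟩ := exit_point hK hu (interior_subset ho)
  obtain ⟨t, tn, hy⟩ := exit_point hK (neg_ne_zero.2 hu) (interior_subset ho)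
  have hs0 : s ≠ 0 := by
    rintro rfl
    exact hx.2 (by simpa using ho)
  have hst : -t - s ≠ 0 := by
    intro h0
    linarith [lt_of_le_of_ne sn hs0.symm]
  have e1 : o + s • u + (-t - s) • u = o + t • -u := by
    rw [add_assoc, ← add_smul, smul_neg, ← neg_smul]
    congr 2
    ring
  have e2 := s1.eq_of hc hs hu hx hst (e1 ▸ hy)
  have m1 := (s1 _ hx).1
  have e3 : σv (σu (o + s • u)) = o + s • u :=
    hbij.injOn (s2 _ m1).1 hx (by rw [hrel _ hx, hα, add_zero])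
  obtain ⟨-, ⟨r, e4⟩, -⟩ := s2 _ m1
  rw [e3, e2] at e4
  have e5 := congrArg (dt v) e4
  simp only [dt_add_right, dt_smul_right, dt_self] at e5
  have e6 : (-t - s) * dt v u = 0 := by linarith
  rw [dt_swap, (mul_eq_zero.1 e6).resolve_left hst, neg_zero]

lemma chord_height (hc : IsClosed K) (hs : StrictConvex ℝ K) {x p q : ℝ × ℝ} (hx : x ≠ 0)
    (hp : p ∈ frontier K) (hp' : p - x ∈ frontier K) (hq : q ∈ frontier K)
    (hq' : q - x ∈ frontier K) (h : dt x p = dt x q) : p = q := by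
  obtain ⟨t, ht⟩ := exists_smul_of_dt_eq_zero hx (z := q - p) (by rw [dt_sub_right, h, sub_self])
  have e1 : q = p + t • x := by rw [← ht]; abel
  by_contra hne
  have t0 : t ≠ 0 := by
    rintro rfl
    exact hne (by simpa using e1.symm)
  have m1 : p + (-1 : ℝ) • x ∈ frontier K := by simpa [sub_eq_add_neg] using hp'
  have e2 := three_points hc hs hx (by norm_num) t0 hp m1 (e1 ▸ hq)
  have m2 : p + (-2 : ℝ) • x ∈ frontier K := by
    have e3 : p + (-2 : ℝ) • x = q - x := by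
      rw [e1, ← e2]
      ext <;> simp <;> ring
    rw [e3]; exact hq'
  have := three_points hc hs hx (by norm_num) (by norm_num) hp m1 m2
  norm_num at this

lemma chord_middle (hc : IsClosed K) (hs : StrictConvex ℝ K) {x p q m : ℝ × ℝ} (hx : x ≠ 0)
    (hp : p ∈ K) (hp' : p - x ∈ K) (hq : q ∈ K) (hq' : q - x ∈ K) (hm : m ∈ frontier K)
    (hm' : m - x ∈ frontier K) (h1 : dt x p < dt x m) (h2 : dt x m < dt x q) : False := by
  have hD : 0 < dt x q - dt x p := by linarith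
  have hne : p ≠ q := by
    rintro rfl
    linarith
  set a := (dt x q - dt x m) / (dt x q - dt x p) with ha
  set b := (dt x m - dt x p) / (dt x q - dt x p) with hb
  have a0 : 0 < a := div_pos (by linarith) hD
  have b0 : 0 < b := div_pos (by linarith) hD
  have hab : a + b = 1 := by rw [ha, hb]; field_simp; ring
  have i1 := hs hp hq hne a0 b0 hab
  have i2 := hs hp' hq' (fun h => hne (sub_left_injective h)) a0 b0 hab
  obtain ⟨t, ht⟩ := exists_smul_of_dt_eq_zero hx (z := a • p + b • q - m) (by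
    rw [dt_sub_right, dt_add_right, dt_smul_right, dt_smul_right, ha, hb]; field_simp; ring)
  have e1 : a • p + b • q = m + t • x := by rw [← ht]; abel
  have e2 : a • (p - x) + b • (q - x) = m + (t - 1) • x := by
    have : a • (p - x) + b • (q - x) = a • p + b • q - (a + b) • x := by
      rw [smul_sub, smul_sub, add_smul]; abel
    rw [this, hab, e1, sub_smul]; abel
  rw [e1] at i1
  rw [e2] at i2
  have m0 : m + (0 : ℝ) • x = m := by simp
  have m1 : m + (-1 : ℝ) • x = m - x := by simp [sub_eq_add_neg]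
  rcases lt_trichotomy t 0 with h | h | h
  · have := between_interior hs hx (p := t - 1) (q := -1) (r := 0) (by linarith) (by norm_num)
      (interior_subset i2) (by rw [m0]; exact hc.frontier_subset hm)
    rw [m1] at this
    exact hm'.2 this
  · rw [h, m0] at i1
    exact hm.2 i1
  · have := between_interior hs hx (p := -1) (q := 0) (r := t) (by norm_num) h
      (by rw [m1]; exact hc.frontier_subset hm') (interior_subset i1)
    rw [m0] at this
    exact hm.2 this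

/-- at most two chords have a given vector -/
lemma chord_two (hc : IsClosed K) (hs : StrictConvex ℝ K) {x p q r : ℝ × ℝ} (hx : x ≠ 0)
    (hp : p ∈ frontier K) (hp' : p - x ∈ frontier K) (hq : q ∈ frontier K)
    (hq' : q - x ∈ frontier K) (hr : r ∈ frontier K) (hr' : r - x ∈ frontier K) (h1 : p ≠ q)
    (h2 : p ≠ r) : q = r := by
  by_contra h3
  have n1 : dt x p ≠ dt x q := fun h => h1 (chord_height hc hs hx hp hp' hq hq' h)
  have n2 : dt x p ≠ dt x r := fun h => h2 (chord_height hc hs hx hp hp' hr hr' h)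
  have n3 : dt x q ≠ dt x r := fun h => h3 (chord_height hc hs hx hq hq' hr hr' h)
  have F := @hc.frontier_subset
  rcases lt_or_gt_of_ne n1 with a | a <;> rcases lt_or_gt_of_ne n2 with b | b <;>
    rcases lt_or_gt_of_ne n3 with c | c
  · exact chord_middle hc hs hx (F hp) (F hp') (F hr) (F hr') hq hq' a c
  · exact chord_middle hc hs hx (F hp) (F hp') (F hq) (F hq') hr hr' b c
  · linarith
  · exact chord_middle hc hs hx (F hr) (F hr') (F hq) (F hq') hp hp' b a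
  · exact chord_middle hc hs hx (F hq) (F hq') (F hr) (F hr') hp hp' a b
  · linarith
  · exact chord_middle hc hs hx (F hq) (F hq') (F hp) (F hp') hr hr' c b
  · exact chord_middle hc hs hx (F hr) (F hr') (F hp) (F hp') hq hq' c a

lemma rect_or (hK : IsCompact K) (hs : StrictConvex ℝ K) (hi : (interior K).Nonempty)
    (hrect : RectProp K) {x p T B : ℝ × ℝ} (hx : x ≠ 0) (hp : p ∈ frontier K)
    (hp' : p - x ∈ frontier K) (hT : Supp K x T) (hB : Supp K (-x) B) :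
    (∃ b : ℝ, b ≠ 0 ∧ p + b • (B - T) ∈ frontier K ∧ p + b • (B - T) - x ∈ frontier K) ∨
      ((Supp K (B - T) p ∨ Supp K (-(B - T)) p) ∧
        (Supp K (B - T) (p - x) ∨ Supp K (-(B - T)) (p - x))) := by
  have hv := diam_ne_zero hi hx hT hB
  by_cases h1 : ∃ b : ℝ, b ≠ 0 ∧ p + b • (B - T) ∈ frontier K
  · obtain ⟨b, b0, hb⟩ := h1
    have := hrect x T B hx hT hB p (-1) b (by norm_num) b0 hp
      (by simpa [sub_eq_add_neg] using hp') hb
    refine Or.inl ⟨b, b0, hb, ?_⟩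
    have e : p + b • (B - T) - x = p + (-1 : ℝ) • x + b • (B - T) := by
      rw [neg_one_smul]; abel
    rw [e]; exact this
  · have n1 : ∀ t : ℝ, p + t • (B - T) ∈ frontier K → t = 0 := fun t ht => by
      by_contra t0
      exact h1 ⟨t, t0, ht⟩
    refine Or.inr ⟨supp_of_line hK hs hv hp n1, supp_of_line hK hs hv hp' fun t ht => ?_⟩
    by_contra t0
    have := hrect x T B hx hT hB (p - x) 1 t one_ne_zero t0 hp' (by simpa using hp) ht
    exact t0 (n1 t (by simpa using this))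

/-- the second side of an inscribed parallelogram has the conjugate direction -/
lemma par_dir (hK : IsCompact K) (hs : StrictConvex ℝ K) (hi : (interior K).Nonempty)
    (hrect : RectProp K) {x p q T B : ℝ × ℝ} (hx : x ≠ 0) (hp : p ∈ frontier K)
    (hp' : p - x ∈ frontier K) (hq : q ∈ frontier K) (hq' : q - x ∈ frontier K) (hpq : p ≠ q)
    (hT : Supp K x T) (hB : Supp K (-x) B) : dt (B - T) (p - q) = 0 := by
  have hv := diam_ne_zero hi hx hT hB
  have F := @hK.isClosed.frontier_subset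
  have hpx : p - x ≠ p := fun h => hx (by simpa using h)
  rcases rect_or hK hs hi hrect hx hp hp' hT hB with ⟨b, b0, h1, h2⟩ | ⟨h1 | h1, h2 | h2⟩
  · have h3 : p ≠ p + b • (B - T) := fun h => smul_ne_zero b0 hv (by simpa using h)
    rw [chord_two hK.isClosed hs hx hp hp' hq hq' h1 h2 hpq h3, sub_add_cancel_left, dt_neg_right,
      dt_smul_right, dt_self, mul_zero, neg_zero]
  · exact absurd (h1.unique hs h2 hv) hpx
  · have a1 := h1.lt hs hv (F hq) hpq.symm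
    have a2 := h2.2 _ (F hq')
    simp only [dt_neg_left, dt_sub_right] at a2
    linarith
  · have a1 := h1.lt hs (neg_ne_zero.2 hv) (F hq) hpq.symm
    have a2 := h2.2 _ (F hq')
    simp only [dt_neg_left, dt_sub_right] at a1 a2
    linarith
  · exact absurd (h1.unique hs h2 (neg_ne_zero.2 hv)) hpx

/-- a regular parametrization by a continuous tangent angle -/
structure Ang (K : Set (ℝ × ℝ)) (Γ : ℝ → ℝ × ℝ) (τ μ : ℝ → ℝ) : Prop where
  der : ∀ s, HasDerivAt Γ (μ s • ee (τ s)) s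
  pos : ∀ s, 0 < μ s
  supp : ∀ s, Supp K (ee (τ s)) (Γ s)
  rng : range Γ = frontier K

/-- a nondegenerate inscribed parallelogram -/
structure Par (Γ : ℝ → ℝ × ℝ) (s1 s2 s3 s4 : ℝ) : Prop where
  eq : Γ s4 - Γ s3 = Γ s1 - Γ s2
  n2 : Γ s1 ≠ Γ s2
  n4 : Γ s1 ≠ Γ s4

variable {Γ : ℝ → ℝ × ℝ} {τ μ : ℝ → ℝ}

lemma Ang.mem (h : Ang K Γ τ μ) (s : ℝ) : Γ s ∈ frontier K := h.rng ▸ mem_range_self s

lemma Ang.dt_pos (hs : StrictConvex ℝ K) (h : Ang K Γ τ μ) {s t : ℝ} (hne : Γ t ≠ Γ s) :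
    0 < dt (ee (τ s)) (Γ t - Γ s) := by
  have := (h.supp s).lt hs (ee_ne_zero _) (h.supp t).1 hne
  rw [dt_sub_right]
  linarith

/-- signs of the tangents against the sides -/
lemma Par.signs (hs : StrictConvex ℝ K) (h : Ang K Γ τ μ) {s1 s2 s3 s4 : ℝ}
    (hp : Par Γ s1 s2 s3 s4) :
    dt (ee (τ s1)) (Γ s1 - Γ s2) < 0 ∧ 0 < dt (ee (τ s2)) (Γ s1 - Γ s2) ∧
    0 < dt (ee (τ s3)) (Γ s1 - Γ s2) ∧ dt (ee (τ s4)) (Γ s1 - Γ s2) < 0 ∧
    dt (ee (τ s1)) (Γ s1 - Γ s4) < 0 ∧ dt (ee (τ s2)) (Γ s1 - Γ s4) < 0 ∧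
    0 < dt (ee (τ s3)) (Γ s1 - Γ s4) ∧ 0 < dt (ee (τ s4)) (Γ s1 - Γ s4) := by
  have e : Γ s1 - Γ s4 = Γ s2 - Γ s3 := by linear_combination (exp := 1) -hp.eq
  have n43 : Γ s4 ≠ Γ s3 := fun h0 => hp.n2 (sub_eq_zero.1 (by rw [← hp.eq, h0, sub_self]))
  have n23 : Γ s2 ≠ Γ s3 := fun h0 => hp.n4 (sub_eq_zero.1 (by rw [e, h0, sub_self]))
  have N : ∀ {s t : ℝ}, Γ t ≠ Γ s → dt (ee (τ s)) (Γ s - Γ t) < 0 := fun {s t} hne => by
    have := h.dt_pos hs hne
    rw [← neg_sub, dt_neg_right]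
    linarith
  refine ⟨N hp.n2.symm, h.dt_pos hs hp.n2, ?_, ?_, N hp.n4.symm, ?_, ?_, h.dt_pos hs hp.n4⟩
  · rw [← hp.eq]; exact h.dt_pos hs n43
  · rw [← hp.eq]; exact N n43.symm
  · rw [e]; exact N n23.symm
  · rw [e]; exact h.dt_pos hs n23

lemma plucker (a b x d : ℝ × ℝ) : dt a b * dt x d = dt a x * dt b d - dt a d * dt b x := by
  simp only [dt]; ring

lemma Par.dets (hs : StrictConvex ℝ K) (h : Ang K Γ τ μ) {s1 s2 s3 s4 : ℝ}
    (hp : Par Γ s1 s2 s3 s4) :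
    dt (Γ s1 - Γ s2) (Γ s1 - Γ s4) ≠ 0 ∧ dt (ee (τ s1)) (ee (τ s2)) ≠ 0 ∧
      dt (ee (τ s4)) (ee (τ s3)) ≠ 0 ∧ dt (ee (τ s2)) (ee (τ s3)) ≠ 0 := by
  obtain ⟨a1, a2, a3, a4, b1, b2, b3, b4⟩ := hp.signs hs h
  have c1 : 0 < dt (ee (τ s1)) (ee (τ s2)) * dt (Γ s1 - Γ s2) (Γ s1 - Γ s4) := by
    rw [plucker]; nlinarith [mul_pos_of_neg_of_neg a1 b2, mul_neg_of_neg_of_pos b1 a2]
  have c2 : dt (ee (τ s4)) (ee (τ s3)) * dt (Γ s1 - Γ s2) (Γ s1 - Γ s4) < 0 := by
    rw [plucker]; nlinarith [mul_neg_of_neg_of_pos a4 b3, mul_pos b4 a3]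
  have c3 : 0 < dt (ee (τ s2)) (ee (τ s3)) * dt (Γ s1 - Γ s2) (Γ s1 - Γ s4) := by
    rw [plucker]; nlinarith [mul_pos a2 b3, mul_neg_of_neg_of_pos b2 a3]
  exact ⟨right_ne_zero_of_mul c1.ne', left_ne_zero_of_mul c1.ne', left_ne_zero_of_mul c2.ne,
    left_ne_zero_of_mul c3.ne'⟩

lemma par_exists (hK : IsCompact K) (hs : StrictConvex ℝ K) (hi : (interior K).Nonempty)
    (hrect : RectProp K) (hnc : NoCorner K) (h : Ang K Γ τ μ) {s1 s2 : ℝ}
    (hd : dt (ee (τ s1)) (ee (τ s2)) ≠ 0) : ∃ s3 s4, Par Γ s1 s2 s3 s4 := by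
  have n2 : Γ s1 ≠ Γ s2 := fun e =>
    hd (hnc _ _ _ (ee_ne_zero _) (ee_ne_zero _) (h.supp s1) (e ▸ h.supp s2))
  have hx : Γ s1 - Γ s2 ≠ 0 := sub_ne_zero.2 n2
  have hne : K.Nonempty := hi.mono interior_subset
  obtain ⟨T, hT⟩ := exists_supp hK hne (Γ s1 - Γ s2)
  obtain ⟨B, hB⟩ := exists_supp hK hne (-(Γ s1 - Γ s2))
  have hv := diam_ne_zero hi hx hT hB
  have e0 : Γ s1 - (Γ s1 - Γ s2) = Γ s2 := by abel
  rcases rect_or hK hs hi hrect hx (h.mem s1) (by rw [e0]; exact h.mem s2) hT hB with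
    ⟨b, b0, h1, h2⟩ | ⟨h1, h2⟩
  · rw [← h.rng] at h1 h2
    obtain ⟨s4, e4⟩ := h1
    obtain ⟨s3, e3⟩ := h2
    refine ⟨s3, s4, by rw [e3, e4]; abel, n2, fun h3 => smul_ne_zero b0 hv ?_⟩
    rw [e4] at h3
    simpa using h3
  · exfalso
    rw [e0] at h2
    have key : ∀ s, (Supp K (B - T) (Γ s) ∨ Supp K (-(B - T)) (Γ s)) →
        dt (B - T) (ee (τ s)) = 0 := fun s h3 => by
      rcases h3 with h3 | h3
      · exact hnc _ _ _ hv (ee_ne_zero _) h3 (h.supp s)
      · have := hnc _ _ _ (neg_ne_zero.2 hv) (ee_ne_zero _) h3 (h.supp s)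
        rwa [dt_neg_left, neg_eq_zero] at this
    obtain ⟨c1, e1⟩ := exists_smul_of_dt_eq_zero hv (key s1 h1)
    obtain ⟨c2, e2⟩ := exists_smul_of_dt_eq_zero hv (key s2 h2)
    exact hd (by rw [e1, e2, dt_smul_left, dt_smul_right, dt_self, mul_zero, mul_zero])

/-- local solution of `Γ a - Γ b = z` -/
lemma chord_inv {k : ℕ} (hk : 1 ≤ k) (h : Ang K Γ τ μ) (hΓ : ContDiff ℝ k Γ) {a b : ℝ}
    (hd : dt (ee (τ a)) (ee (τ b)) ≠ 0) :
    ∃ G : ℝ × ℝ → ℝ × ℝ, ContDiffAt ℝ k G (Γ a - Γ b) ∧ G (Γ a - Γ b) = (a, b) ∧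
      ∀ᶠ w in 𝓝 (Γ a - Γ b), Γ (G w).1 - Γ (G w).2 = w := by
  have d1 : HasFDerivAt (fun z : ℝ × ℝ => Γ z.1) _ (a, b) :=
    (h.der a).hasFDerivAt.comp (a, b) hasFDerivAt_fst
  have d2 : HasFDerivAt (fun z : ℝ × ℝ => Γ z.2) _ (a, b) :=
    (h.der b).hasFDerivAt.comp (a, b) hasFDerivAt_snd
  obtain ⟨G, g1, g2, g3, -⟩ := local_inv hk (F := fun z => Γ z.1 - Γ z.2) (a := (a, b))
    ((hΓ.contDiffAt.comp _ contDiffAt_fst).sub (hΓ.contDiffAt.comp _ contDiffAt_snd)) (d1.sub d2)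
    (by
      rintro ⟨u, v⟩ hz
      have e : u • μ a • ee (τ a) - v • μ b • ee (τ b) = 0 := by simpa using hz
      have e1 := congrArg (dt (ee (τ a))) e
      have e2 := congrArg (fun z => dt z (ee (τ b))) e
      simp only [dt_sub_right, dt_smul_right, dt_self, dt_zero_right, dt_sub_left, dt_smul_left,
        dt_zero_left, mul_zero, zero_sub, sub_zero, neg_eq_zero, mul_eq_zero, hd,
        (h.pos a).ne', (h.pos b).ne', or_false] at e1 e2
      rw [e1, e2]; rfl)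
  exact ⟨G, g1, g2, g3⟩

lemma Ang.comp (h : Ang K Γ τ μ) {f : ℝ → ℝ} {t : ℝ} (hf : DifferentiableAt ℝ f t) :
    HasDerivAt (fun r => Γ (f r)) ((deriv f t * μ (f t)) • ee (τ (f t))) t := by
  have := (h.der (f t)).scomp t hf.hasDerivAt
  rw [smul_smul] at this
  exact this

/-- the infinitesimal parallelogram relation -/
lemma par_rel (hK : IsCompact K) (hs : StrictConvex ℝ K) (hi : (interior K).Nonempty)
    (hrect : RectProp K) (h : Ang K Γ τ μ) (hΓ : ContDiff ℝ 1 Γ) {s1 s2 s3 s4 : ℝ}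
    (hp : Par Γ s1 s2 s3 s4) :
    dt (ee (τ s1)) (Γ s1 - Γ s2) * dt (ee (τ s3)) (Γ s1 - Γ s2) *
      (dt (ee (τ s2)) (Γ s1 - Γ s4) * dt (ee (τ s4)) (Γ s1 - Γ s4)) =
    dt (ee (τ s2)) (Γ s1 - Γ s2) * dt (ee (τ s4)) (Γ s1 - Γ s2) *
      (dt (ee (τ s1)) (Γ s1 - Γ s4) * dt (ee (τ s3)) (Γ s1 - Γ s4)) := by
  obtain ⟨-, d12, d43, -⟩ := hp.dets hs h
  obtain ⟨-, a2, -, a4, -⟩ := hp.signs hs h
  obtain ⟨G, g1, g2, g3⟩ := chord_inv (k := 1) le_rfl h (by exact_mod_cast hΓ) d12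
  obtain ⟨H, k1, k2, k3⟩ := chord_inv (k := 1) le_rfl h (by exact_mod_cast hΓ) d43
  rw [hp.eq] at k1 k2 k3
  set x := Γ s1 - Γ s2 with hx
  have x0 : x ≠ 0 := sub_ne_zero.2 hp.n2
  have hne : K.Nonempty := hi.mono interior_subset
  obtain ⟨T, hT⟩ := exists_supp hK hne x
  obtain ⟨B, hB⟩ := exists_supp hK hne (-x)
  have hv := diam_ne_zero hi x0 hT hB
  have dl : HasDerivAt (fun r : ℝ => r • x) x 1 := by
    simpa using (hasDerivAt_id (1 : ℝ)).smul_const x
  have tl : Tendsto (fun r : ℝ => r • x) (𝓝 1) (𝓝 x) := by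
    simpa using dl.continuousAt.tendsto
  have dG : DifferentiableAt ℝ (fun r : ℝ => G (r • x)) 1 :=
    DifferentiableAt.comp (g := G) 1 (by simpa using g1.differentiableAt (by simp))
      dl.differentiableAt
  have dH : DifferentiableAt ℝ (fun r : ℝ => H (r • x)) 1 :=
    DifferentiableAt.comp (g := H) 1 (by simpa using k1.differentiableAt (by simp))
      dl.differentiableAt
  have p1 := h.comp dG.fst
  have p2 := h.comp dG.snd
  have p4 := h.comp dH.fst
  have p3 := h.comp dH.snd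
  simp only [one_smul, g2, k2] at p1 p2 p3 p4
  generalize deriv (fun r : ℝ => (G (r • x)).1) 1 * μ s1 = c1 at p1
  generalize deriv (fun r : ℝ => (G (r • x)).2) 1 * μ s2 = c2 at p2
  generalize deriv (fun r : ℝ => (H (r • x)).1) 1 * μ s4 = c4 at p4
  generalize deriv (fun r : ℝ => (H (r • x)).2) 1 * μ s3 = c3 at p3
  have E1 : c1 • ee (τ s1) - c2 • ee (τ s2) = x :=
    (p1.sub p2).unique (dl.congr_of_eventuallyEq (tl.eventually g3))
  have E2 : c4 • ee (τ s4) - c3 • ee (τ s3) = x :=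
    (p4.sub p3).unique (dl.congr_of_eventuallyEq (tl.eventually k3))
  have ev : ∀ᶠ r in 𝓝 (1 : ℝ), dt (B - T) (Γ (G (r • x)).1 - Γ (H (r • x)).1) = 0 := by
    have n1 : ∀ᶠ r in 𝓝 (1 : ℝ), Γ (G (r • x)).1 - Γ (H (r • x)).1 ≠ 0 :=
      (p1.sub p4).continuousAt.eventually_ne (by
        simpa [g2, k2] using sub_ne_zero.2 hp.n4)
    filter_upwards [tl.eventually g3, tl.eventually k3, n1, lt_mem_nhds zero_lt_one]
      with r e1 e2 e3 r0
    refine par_dir hK hs hi hrect (x := r • x) (smul_ne_zero (ne_of_gt r0) x0) (h.mem _) ?_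
      (h.mem _) ?_ (sub_ne_zero.1 e3) (hT.smul (le_of_lt r0)) ?_
    · rw [sub_eq_iff_eq_add.1 e1, add_sub_cancel_left]; exact h.mem _
    · rw [sub_eq_iff_eq_add.1 e2, add_sub_cancel_left]; exact h.mem _
    · rw [← smul_neg]; exact hB.smul (le_of_lt r0)
  have E3 : dt (B - T) (c1 • ee (τ s1) - c4 • ee (τ s4)) = 0 := by
    have q := hasDerivAt_dt (hasDerivAt_const (1 : ℝ) (B - T)) (p1.sub p4)
    rw [dt_zero_left, zero_add] at q
    exact q.unique ((hasDerivAt_const (1 : ℝ) (0 : ℝ)).congr_of_eventuallyEq ev)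
  have E0 := ev.self_of_nhds
  simp only [one_smul, g2, k2] at E0
  obtain ⟨c, hc⟩ := exists_smul_of_dt_eq_zero hv E0
  have F1 := congrArg (fun z => dt z x) E1
  have F2 := congrArg (fun z => dt z x) E2
  have F3 := congrArg (dt (B - T)) (E1.trans E2.symm)
  simp only [dt_sub_left, dt_smul_left, dt_self] at F1 F2
  simp only [dt_sub_right (B - T), dt_smul_right] at F3 E3
  have c10 : c1 ≠ 0 := by
    rintro rfl
    have c20 : c2 = 0 := by
      have : c2 * dt (ee (τ s2)) x = 0 := by linarith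
      exact (mul_eq_zero.1 this).resolve_right a2.ne'
    exact x0 (by rw [← E1, c20]; simp)
  have c30 : c3 ≠ 0 := by
    rintro rfl
    have c40 : c4 = 0 := by
      have : c4 * dt (ee (τ s4)) x = 0 := by linarith
      exact (mul_eq_zero.1 this).resolve_right a4.ne
    exact x0 (by rw [← E2, c40]; simp)
  rw [hc]
  simp only [dt_smul_right]
  rw [dt_swap (ee (τ s1)) (B - T), dt_swap (ee (τ s2)) (B - T), dt_swap (ee (τ s3)) (B - T),
    dt_swap (ee (τ s4)) (B - T)]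
  apply mul_left_cancel₀ (mul_ne_zero c10 c30)
  generalize dt (B - T) (ee (τ s1)) = V1 at *
  generalize dt (B - T) (ee (τ s2)) = V2 at *
  generalize dt (B - T) (ee (τ s3)) = V3 at *
  generalize dt (B - T) (ee (τ s4)) = V4 at *
  generalize dt (ee (τ s1)) x = X1 at *
  generalize dt (ee (τ s2)) x = X2 at *
  generalize dt (ee (τ s3)) x = X3 at *
  generalize dt (ee (τ s4)) x = X4 at *
  linear_combination (c ^ 2 * V2 * V4 * c3 * X3) * F1 - (c ^ 2 * V2 * V4 * c2 * X2) * F2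
    - (c ^ 2 * X2 * X4 * c2 * V2) * E3 + (c ^ 2 * X2 * X4 * c1 * V1) * (E3 - F3)

end Pool.Agent.Lib.MP_171f82_an
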