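import Pool.Agent.Lib.MP_171f82_an.NsAvg
import Pool.Agent.Lib.MP_171f82_an.NsPar

set_option autoImplicit false

open Set Filter Topology MeasureTheory

namespace Pool.Agent.Lib.MP_171f82_an

/-- logarithm of the slope of the direction `v` in the basis `x`, `d` -/
noncomputable def Lf (x d : ℝ × ℝ) (v : ℝ) : ℝ := Real.log (dt (ee v) x) - Real.log (dt (ee v) d)

/-- derivative of `Lf` in the angle -/
noncomputable def Lg (x d : ℝ × ℝ) (v : ℝ) : ℝ :=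
  dt (ep v) x / dt (ee v) x - dt (ep v) d / dt (ee v) d

lemma hasDerivAt_Lf {x d : ℝ × ℝ} {v : ℝ} (hx : dt (ee v) x ≠ 0) (hd : dt (ee v) d ≠ 0) :
    HasDerivAt (Lf x d) (Lg x d v) v := by
  have h1 := hasDerivAt_dt (hasDerivAt_ee v) (hasDerivAt_const v x)
  have h2 := hasDerivAt_dt (hasDerivAt_ee v) (hasDerivAt_const v d)
  rw [dt_zero_right, add_zero] at h1 h2
  exact (h1.log hx).sub (h2.log hd)

lemma Lg_ne {x d : ℝ × ℝ} {v : ℝ} (hx : dt (ee v) x ≠ 0) (hd : dt (ee v) d ≠ 0)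
    (h : dt x d ≠ 0) : Lg x d v ≠ 0 := by
  intro h0
  have h1 := plucker (ee v) (ep v) x d
  rw [dt_ee_ep, one_mul] at h1
  unfold Lg at h0
  field_simp at h0
  exact h (by linarith)

section

variable {E : Type} [NormedAddCommGroup E] [NormedSpace ℝ E] {k : ℕ} {x d : E → ℝ × ℝ}
  {v : E → ℝ} {z : E}

lemma cd_ee (hx : ContDiffAt ℝ k x z) (hv : ContDiffAt ℝ k v z) :
    ContDiffAt ℝ k (fun z => dt (ee (v z)) (x z)) z :=
  (hv.cos.mul hx.snd).sub (hv.sin.mul hx.fst)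

lemma cd_ep (hx : ContDiffAt ℝ k x z) (hv : ContDiffAt ℝ k v z) :
    ContDiffAt ℝ k (fun z => dt (ep (v z)) (x z)) z :=
  (hv.sin.neg.mul hx.snd).sub (hv.cos.mul hx.fst)

lemma cd_Lf (hx : ContDiffAt ℝ k x z) (hd : ContDiffAt ℝ k d z) (hv : ContDiffAt ℝ k v z)
    (h1 : dt (ee (v z)) (x z) ≠ 0) (h2 : dt (ee (v z)) (d z) ≠ 0) :
    ContDiffAt ℝ k (fun z => Lf (x z) (d z) (v z)) z :=
  ((cd_ee hx hv).log h1).sub ((cd_ee hd hv).log h2)

lemma cd_Lg (hx : ContDiffAt ℝ k x z) (hd : ContDiffAt ℝ k d z) (hv : ContDiffAt ℝ k v z)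
    (h1 : dt (ee (v z)) (x z) ≠ 0) (h2 : dt (ee (v z)) (d z) ≠ 0) :
    ContDiffAt ℝ k (fun z => Lg (x z) (d z) (v z)) z :=
  ((cd_ep hx hv).div (cd_ee hx hv) h1).sub ((cd_ep hd hv).div (cd_ee hd hv) h2)

end

variable {K : Set (ℝ × ℝ)} {Γ : ℝ → ℝ × ℝ} {τ μ : ℝ → ℝ}

lemma par_log (hK : IsCompact K) (hs : StrictConvex ℝ K) (hi : (interior K).Nonempty)
    (hrect : RectProp K) (h : Ang K Γ τ μ) (hΓ : ContDiff ℝ 1 Γ) {s1 s2 s3 s4 : ℝ}
    (hp : Par Γ s1 s2 s3 s4) :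
    Lf (Γ s1 - Γ s2) (Γ s1 - Γ s4) (τ s1) + Lf (Γ s1 - Γ s2) (Γ s1 - Γ s4) (τ s3) =
      Lf (Γ s1 - Γ s2) (Γ s1 - Γ s4) (τ s2) + Lf (Γ s1 - Γ s2) (Γ s1 - Γ s4) (τ s4) := by
  obtain ⟨a1, a2, a3, a4, b1, b2, b3, b4⟩ := hp.signs hs h
  have r := congrArg Real.log (par_rel hK hs hi hrect h hΓ hp)
  rw [Real.log_mul (mul_ne_zero a1.ne a3.ne') (mul_ne_zero b2.ne b4.ne'),
    Real.log_mul (mul_ne_zero a2.ne' a4.ne) (mul_ne_zero b1.ne b3.ne'),
    Real.log_mul a1.ne a3.ne', Real.log_mul b2.ne b4.ne', Real.log_mul a2.ne' a4.ne,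
    Real.log_mul b1.ne b3.ne'] at r
  unfold Lf
  linarith

/-- the local two-parameter family of parallelograms -/
lemma par_family {k : ℕ} (hk : 1 ≤ k) (hs : StrictConvex ℝ K) (h : Ang K Γ τ μ)
    (hΓ : ContDiff ℝ k Γ) {s1 s2 s3 s4 : ℝ} (hp : Par Γ s1 s2 s3 s4) :
    ∃ f3 f4 : ℝ × ℝ → ℝ, ContDiffAt ℝ k f3 (s1, s2) ∧ ContDiffAt ℝ k f4 (s1, s2) ∧
      f3 (s1, s2) = s3 ∧ f4 (s1, s2) = s4 ∧ (∀ᶠ p in 𝓝 (s1, s2), Par Γ p.1 p.2 (f3 p) (f4 p)) ∧
      ∃ c3 c4 : ℝ, HasDerivAt (fun y => f3 (s1, y)) c3 s2 ∧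
        HasDerivAt (fun y => f4 (s1, y)) c4 s2 ∧
        (c4 * μ s4) • ee (τ s4) - (c3 * μ s3) • ee (τ s3) = -(μ s2 • ee (τ s2)) := by
  have hn : (k : WithTop ℕ∞) ≠ 0 := by
    have : k ≠ 0 := by omega
    exact_mod_cast this
  obtain ⟨G, g1, g2, g3⟩ := chord_inv hk h hΓ (hp.dets hs h).2.2.1
  rw [hp.eq] at g1 g2 g3
  have hx : ContDiffAt ℝ k (fun p : ℝ × ℝ => Γ p.1 - Γ p.2) (s1, s2) :=
    (hΓ.contDiffAt.comp _ contDiffAt_fst).sub (hΓ.contDiffAt.comp _ contDiffAt_snd)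
  have hG : ContDiffAt ℝ k (fun p : ℝ × ℝ => G (Γ p.1 - Γ p.2)) (s1, s2) :=
    ContDiffAt.comp (g := G) (s1, s2) g1 hx
  have e3 : (G (Γ s1 - Γ s2)).2 = s3 := by rw [g2]
  have e4 : (G (Γ s1 - Γ s2)).1 = s4 := by rw [g2]
  have ev := hx.continuousAt.tendsto.eventually g3
  have cΓ := hΓ.continuous
  have tl : Tendsto (fun y : ℝ => (s1, y)) (𝓝 s2) (𝓝 (s1, s2)) :=
    (continuous_const.prodMk continuous_id).tendsto s2
  have dG : DifferentiableAt ℝ (fun y : ℝ => G (Γ s1 - Γ y)) s2 :=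
    DifferentiableAt.comp (g := fun p : ℝ × ℝ => G (Γ p.1 - Γ p.2)) (f := fun y : ℝ => (s1, y)) s2
      (hG.differentiableAt hn) (by fun_prop)
  refine ⟨fun p => (G (Γ p.1 - Γ p.2)).2, fun p => (G (Γ p.1 - Γ p.2)).1, hG.snd, hG.fst, e3, e4,
    ?_, _, _, dG.snd.hasDerivAt, dG.fst.hasDerivAt, ?_⟩
  · have n2 : ∀ᶠ p in 𝓝 (s1, s2), Γ p.1 - Γ p.2 ≠ 0 :=
      hx.continuousAt.eventually_ne (sub_ne_zero.2 hp.n2)
    have c4 : ContinuousAt (fun p : ℝ × ℝ => Γ p.1 - Γ (G (Γ p.1 - Γ p.2)).1) (s1, s2) :=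
      (cΓ.continuousAt.comp continuousAt_fst).sub (cΓ.continuousAt.comp hG.fst.continuousAt)
    have n4 := c4.eventually_ne (y := 0) (by
      show Γ s1 - Γ (G (Γ s1 - Γ s2)).1 ≠ 0
      rw [e4]; exact sub_ne_zero.2 hp.n4)
    filter_upwards [ev, n2, n4] with p q1 q2 q3
    exact ⟨q1, sub_ne_zero.1 q2, sub_ne_zero.1 q3⟩
  · have p4 := h.comp dG.fst
    have p3 := h.comp dG.snd
    rw [e4] at p4
    rw [e3] at p3
    exact (p4.sub p3).unique (((h.der s2).const_sub (Γ s1)).congr_of_eventuallyEq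
      (tl.eventually ev))

lemma box_ev {a b : ℝ} {P : ℝ × ℝ → Prop} (h : ∀ᶠ z in 𝓝 (a, b), P z) :
    ∀ᶠ δ in 𝓝[>] (0 : ℝ), ∀ᶠ s in 𝓝 a, ∀ y ∈ uIcc (b - δ) (b + δ), P (s, y) := by
  obtain ⟨ε, hε, H⟩ := box2 h
  have e1 : ∀ᶠ δ in 𝓝[>] (0 : ℝ), δ < ε := nhdsWithin_le_nhds (gt_mem_nhds hε)
  have e2 : ∀ᶠ s in 𝓝 a, |s - a| < ε := by
    have h1 : ContinuousAt (fun s => |s - a|) a := by fun_prop
    exact h1.eventually (gt_mem_nhds (by simpa using hε))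
  filter_upwards [e1, self_mem_nhdsWithin] with δ h1 h2
  have h3 : 0 < δ := h2
  refine e2.mono fun s hs y hy => H s y hs ?_
  rw [uIcc_of_le (by linarith)] at hy
  exact abs_lt.2 ⟨by linarith [hy.1], by linarith [hy.2]⟩

/-- regularity gain at a vertex of a parallelogram whose neighbours are not antipodal -/
theorem step_generic {k : ℕ} (hk : 1 ≤ k) (hK : IsCompact K) (hs : StrictConvex ℝ K)
    (hi : (interior K).Nonempty) (hrect : RectProp K) (h : Ang K Γ τ μ) (hΓ : ContDiff ℝ k Γ)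
    (hτ : Continuous τ) (hmono : StrictMono τ) {lam : ℝ → ℝ} (hlam : Continuous lam)
    (hinv : ∀ v, τ (lam v) = v) {s1 s2 s3 s4 : ℝ} (hp : Par Γ s1 s2 s3 s4)
    (hd : dt (ee (τ s2)) (ee (τ s4)) ≠ 0) : ContDiffAt ℝ k τ s1 := by
  have hk' : (k : WithTop ℕ∞) ≠ ((⊤ : ℕ∞) : WithTop ℕ∞) := by simp
  have hΓ1 : ContDiff ℝ 1 Γ := hΓ.of_le (by exact_mod_cast hk)
  obtain ⟨f3, f4, d3, d4, e3, e4, ev, c3, c4, q3, q4, hc⟩ := par_family hk hs h hΓ hp
  obtain ⟨n0, -, -, n23⟩ := hp.dets hs h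
  obtain ⟨a1, a2, a3, a4, b1, b2, b3, b4⟩ := hp.signs hs h
  have c30 : c3 ≠ 0 := by
    rintro rfl
    have := congrArg (fun z => dt z (ee (τ s4))) hc
    simp only [zero_mul, zero_smul, sub_zero, dt_smul_left, dt_self, mul_zero, dt_neg_left] at this
    exact mul_ne_zero (h.pos s2).ne' hd (by linarith)
  have c40 : c4 ≠ 0 := by
    rintro rfl
    have := congrArg (fun z => dt z (ee (τ s3))) hc
    simp only [zero_mul, zero_smul, zero_sub, dt_smul_left, dt_self, mul_zero, dt_neg_left] at this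
    exact mul_ne_zero (h.pos s2).ne' n23 (by linarith)
  set X : ℝ × ℝ → ℝ × ℝ := fun p => Γ p.1 - Γ p.2 with hX
  set D : ℝ × ℝ → ℝ × ℝ := fun p => Γ p.1 - Γ (f4 p) with hD
  have X0 : X (s1, s2) = Γ s1 - Γ s2 := rfl
  have D0 : D (s1, s2) = Γ s1 - Γ s4 := by simp only [hD, e4]
  rw [← X0] at n0 a1 a2 a3 a4
  rw [← D0] at n0 b1 b2 b3 b4
  have dX : ContDiffAt ℝ k X (s1, s2) :=
    (hΓ.contDiffAt.comp _ contDiffAt_fst).sub (hΓ.contDiffAt.comp _ contDiffAt_snd)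
  have dD : ContDiffAt ℝ k D (s1, s2) :=
    (hΓ.contDiffAt.comp _ contDiffAt_fst).sub (hΓ.contDiffAt.comp _ d4)
  set L : (ℝ × ℝ) × ℝ → ℝ := fun z => Lf (X z.1) (D z.1) z.2 with hL
  set g : (ℝ × ℝ) × ℝ → ℝ := fun z => Lg (X z.1) (D z.1) z.2 with hg
  have key : ∀ v, dt (ee v) (X (s1, s2)) ≠ 0 → dt (ee v) (D (s1, s2)) ≠ 0 →
      ContDiffAt ℝ k L ((s1, s2), v) ∧ ContDiffAt ℝ k g ((s1, s2), v) ∧
        ∀ᶠ z in 𝓝 ((s1, s2), v), HasDerivAt (fun v => L (z.1, v)) (g z) z.2 := by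
    intro v h1 h2
    have x1 : ContDiffAt ℝ k (fun z : (ℝ × ℝ) × ℝ => X z.1) ((s1, s2), v) :=
      ContDiffAt.comp (g := X) _ dX contDiffAt_fst
    have x2 : ContDiffAt ℝ k (fun z : (ℝ × ℝ) × ℝ => D z.1) ((s1, s2), v) :=
      ContDiffAt.comp (g := D) _ dD contDiffAt_fst
    refine ⟨cd_Lf x1 x2 contDiffAt_snd h1 h2, cd_Lg x1 x2 contDiffAt_snd h1 h2, ?_⟩
    filter_upwards [(cd_ee x1 contDiffAt_snd).continuousAt.eventually_ne h1,
      (cd_ee x2 contDiffAt_snd).continuousAt.eventually_ne h2] with z z1 z2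
    exact hasDerivAt_Lf z1 z2
  have term : ∀ (f : ℝ × ℝ → ℝ) (c : ℝ), ContDiffAt ℝ k f (s1, s2) →
      HasDerivAt (fun y => f (s1, y)) c s2 → c ≠ 0 →
      dt (ee (τ (f (s1, s2)))) (X (s1, s2)) ≠ 0 → dt (ee (τ (f (s1, s2)))) (D (s1, s2)) ≠ 0 →
      ∀ᶠ δ in 𝓝[>] (0 : ℝ), (∀ w : ℝ → ℝ, ContDiff ℝ k w →
        (∀ y, y ∉ Ioo (s2 - δ) (s2 + δ) → w y = 0) →
        ContDiffAt ℝ k (fun s => ∫ y in (s2 - δ)..(s2 + δ), w y * L ((s, y), τ (f (s, y)))) s1) ∧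
        ∀ᶠ s in 𝓝 s1, ContinuousOn (fun y => L ((s, y), τ (f (s, y)))) (uIcc (s2 - δ) (s2 + δ)) := by
    intro f c hf hfd hc0 h1 h2
    obtain ⟨k1, k2, k3⟩ := key _ h1 h2
    refine (avg_smooth hk hτ hmono hlam hinv hf hfd hc0 k1 k2 k3).and ?_
    have t1 : ContinuousAt (fun p : ℝ × ℝ => (p, τ (f p))) (s1, s2) :=
      continuousAt_id.prodMk (hτ.continuousAt.comp hf.continuousAt)
    refine (box_ev ((hf.eventually hk').and (t1.tendsto.eventually (k1.eventually hk')))).mono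
      fun δ hδ => hδ.mono fun s hs' y hy => ContinuousAt.continuousWithinAt ?_
    obtain ⟨r1, r2⟩ := hs' y hy
    have t2 : ContinuousAt (fun y : ℝ => (s, y)) y := by fun_prop
    exact ContinuousAt.comp (g := L) (f := fun y => ((s, y), τ (f (s, y)))) r2.continuousAt
      (t2.prodMk (hτ.continuousAt.comp (ContinuousAt.comp (g := f) r1.continuousAt t2)))
  have T2 := term Prod.snd 1 contDiffAt_snd (hasDerivAt_id s2) one_ne_zero a2.ne' b2.ne
  have T3 := term f3 c3 d3 q3 c30 (e3 ▸ a3.ne') (e3 ▸ b3.ne')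
  have T4 := term f4 c4 d4 q4 c40 (e4 ▸ a4.ne) (e4 ▸ b4.ne')
  obtain ⟨k1, k2, k3⟩ := key _ a1.ne b1.ne
  have g0 : g ((s1, s2), τ s1) ≠ 0 := Lg_ne a1.ne b1.ne n0
  have t3 : ContinuousAt (fun p : ℝ × ℝ => (p, τ s1)) (s1, s2) := by fun_prop
  have T1 := box_ev (t3.tendsto.eventually ((k1.eventually hk').and ((k2.eventually hk').and
    (k3.eventually_nhds.and ((k2.continuousAt.mul continuousAt_const).eventually
      (lt_mem_nhds (mul_self_pos.2 g0)))))))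
  obtain ⟨δ, ⟨⟨⟨⟨⟨u2, i2⟩, u3, i3⟩, u4, i4⟩, u1⟩, u0⟩, hδ⟩ :=
    (((((T2.and T3).and T4).and T1).and (box_ev ev)).and self_mem_nhdsWithin).exists
  have hδ0 : 0 < δ := hδ
  have u1' := u1.self_of_nhds
  let w : ContDiffBump s2 := ⟨δ / 2, δ, half_pos hδ0, half_lt_self hδ0⟩
  have hw : ContDiff ℝ k w := w.contDiff
  have wc : Continuous w := w.continuous
  have hw0 : ∀ y, y ∉ Ioo (s2 - δ) (s2 + δ) → w y = 0 := fun y hy =>
    w.zero_of_le_dist (by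
      rw [← Real.ball_eq_Ioo] at hy
      exact not_lt.1 hy)
  have hder : HasDerivAt (fun v => ∫ y in (s2 - δ)..(s2 + δ), w y * L ((s1, y), v))
      (∫ y in (s2 - δ)..(s2 + δ), w y * g ((s1, y), τ s1)) (τ s1) := by
    have hcont : ∀ y ∈ uIcc (s2 - δ) (s2 + δ), ∀ᶠ z : ℝ × ℝ in 𝓝 (τ s1, id y),
        HasDerivAt (fun v => w z.2 * L ((s1, z.2), v)) (w z.2 * g ((s1, z.2), z.1)) z.1 ∧
        ContinuousAt (fun z : ℝ × ℝ => w z.2 * L ((s1, z.2), z.1)) z ∧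
        ContinuousAt (fun z : ℝ × ℝ => w z.2 * g ((s1, z.2), z.1)) z := by
      intro y hy
      obtain ⟨r1, r2, r3, -⟩ := u1' y hy
      have t4 : Continuous (fun z : ℝ × ℝ => ((s1, z.2), z.1)) := by fun_prop
      filter_upwards [(t4.tendsto (τ s1, y)).eventually
        ((r1.eventually hk').and ((r2.eventually hk').and r3))] with z hz
      have wz : ContinuousAt (fun z : ℝ × ℝ => w z.2) z := (wc.comp continuous_snd).continuousAt
      exact ⟨hz.2.2.const_mul _,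
        wz.mul (ContinuousAt.comp (g := L) hz.1.continuousAt t4.continuousAt),
        wz.mul (ContinuousAt.comp (g := g) hz.2.1.continuousAt t4.continuousAt)⟩
    have h5 := param_hasFDerivAt (G := fun z : ℝ × ℝ => w z.2 * L ((s1, z.2), z.1))
      (G' := fun z : ℝ × ℝ => ContinuousLinearMap.toSpanSingleton ℝ (w z.2 * g ((s1, z.2), z.1)))
      (x0 := τ s1) (q := id) continuousOn_id fun y hy => (hcont y hy).mono fun z hz =>
        ⟨hz.1.hasFDerivAt, hz.2.1,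
          (ContinuousLinearMap.toSpanSingletonCLE (𝕜 := ℝ) (E := ℝ)).continuous.continuousAt.comp
            hz.2.2⟩
    have h6 := h5.hasDerivAt
    rw [ContinuousLinearMap.intervalIntegral_apply] at h6
    · simpa using h6
    · refine ContinuousOn.intervalIntegrable (contOn_slice
        (G := fun z : ℝ × ℝ => ContinuousLinearMap.toSpanSingleton ℝ (w z.2 * g ((s1, z.2), z.1)))
        continuousOn_id fun y hy => ?_)
      exact (ContinuousLinearMap.toSpanSingletonCLE (𝕜 := ℝ) (E := ℝ)).continuous.continuousAt.comp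
        (hcont y hy).self_of_nhds.2.2
  have hpos : (∫ y in (s2 - δ)..(s2 + δ), w y * g ((s1, y), τ s1)) ≠ 0 := by
    have h1 : 0 < ∫ y in (s2 - δ)..(s2 + δ), w y * g ((s1, y), τ s1) * g ((s1, s2), τ s1) := by
      refine intervalIntegral.intervalIntegral_pos_of_pos_on (ContinuousOn.intervalIntegrable
        fun y hy => ContinuousAt.continuousWithinAt ?_) (fun y hy => ?_) (by linarith)
      · refine (wc.continuousAt.mul ?_).mul continuousAt_const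
        exact ContinuousAt.comp (g := g) (f := fun y => ((s1, y), τ s1))
          (u1' y hy).2.1.continuousAt (by fun_prop)
      · rw [mul_assoc]
        refine mul_pos (w.pos_of_mem_ball (by rwa [← Real.ball_eq_Ioo] at hy)) (u1' y ?_).2.2.2
        rw [uIcc_of_le (by linarith)]
        exact Ioo_subset_Icc_self hy
    rw [intervalIntegral.integral_mul_const] at h1
    exact left_ne_zero_of_mul h1.ne'
  refine solve_smooth hk (Λ := fun p => ∫ y in (s2 - δ)..(s2 + δ), w y * L ((p.1, y), p.2))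
    hτ.continuousAt ?_ hder hpos (((u2 w hw hw0).add (u4 w hw hw0)).sub (u3 w hw hw0)) ?_
  · refine param_contDiffAt k ℝ (fun z : (ℝ × ℝ) × ℝ => w z.2 * L ((z.1.1, z.2), z.1.2)) _ id _ _
      continuousOn_id fun y hy => (hw.contDiffAt.comp _ contDiffAt_snd).mul ?_
    exact ContDiffAt.comp (g := L) (f := fun z : (ℝ × ℝ) × ℝ => ((z.1.1, z.2), z.1.2)) _
      (u1' y hy).1 (by fun_prop)
  · filter_upwards [i2, i3, i4, u0] with s j2 j3 j4 j0
    have m2 := (wc.continuousOn.mul j2).intervalIntegrable (μ := volume)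
    have m3 := (wc.continuousOn.mul j3).intervalIntegrable (μ := volume)
    have m4 := (wc.continuousOn.mul j4).intervalIntegrable (μ := volume)
    have e := (intervalIntegral.integral_sub (m2.add m4) m3).trans
      (congrArg (· - _) (intervalIntegral.integral_add m2 m4))
    refine Eq.trans (intervalIntegral.integral_congr fun y hy => ?_) e
    have r := par_log hK hs hi hrect h hΓ1 (j0 y hy)
    show w y * L ((s, y), τ s) = w y * L ((s, y), τ y) + w y * L ((s, y), τ (f4 (s, y))) -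
      w y * L ((s, y), τ (f3 (s, y)))
    simp only [hL, hX, hD]
    linear_combination w y * r

end Pool.Agent.Lib.MP_171f82_an
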