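import Pool.Agent.Lib.MP_171f82_an.NsPar

set_option autoImplicit false

open Set Filter Topology

namespace Pool.Agent.Lib.MP_171f82_an

variable {K : Set (ℝ × ℝ)}

/-- the point `p` has only one support line -/
def SmoothPt (K : Set (ℝ × ℝ)) (p : ℝ × ℝ) : Prop :=
  ∀ u v : ℝ × ℝ, u ≠ 0 → v ≠ 0 → Supp K u p → Supp K v p → dt u v = 0

/-- three vertices of a parallelogram with sides along `x`, `d` force the fourth -/
def RP (K : Set (ℝ × ℝ)) (x d : ℝ × ℝ) : Prop :=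
  ∀ (z : ℝ × ℝ) (a b : ℝ), a ≠ 0 → b ≠ 0 → z ∈ frontier K → z + a • x ∈ frontier K →
    z + b • d ∈ frontier K → z + a • x + b • d ∈ frontier K

lemma RP.symm {x d : ℝ × ℝ} (h : RP K x d) : RP K d x := fun z a b ha hb h0 h1 h2 => by
  rw [add_right_comm]
  exact h z b a hb ha h0 h2 h1

lemma inward (hK : IsCompact K) (hs : StrictConvex ℝ K) {p e w : ℝ × ℝ} (hp : SmoothPt K p)
    (he : e ≠ 0) (h : Supp K e p) (hw : 0 < dt e w) : ∃ t : ℝ, 0 < t ∧ p + t • w ∈ K := by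
  have w0 : w ≠ 0 := by
    rintro rfl
    rw [dt_zero_right] at hw
    exact lt_irrefl _ hw
  by_cases h1 : ∀ t : ℝ, p + t • w ∈ frontier K → t = 0
  · exfalso
    rcases supp_of_line hK hs w0 (h.mem_frontier he) h1 with h2 | h2
    · exact hw.ne' (hp _ _ he w0 h h2)
    · have := hp _ _ he (neg_ne_zero.2 w0) h h2
      rw [dt_neg_right, neg_eq_zero] at this
      exact hw.ne' this
  · simp only [not_forall] at h1
    obtain ⟨t, m, t0⟩ := h1
    have h2 := h.2 _ (hK.isClosed.frontier_subset m)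
    rw [dt_add_right, dt_smul_right] at h2
    refine ⟨t, lt_of_le_of_ne (nonneg_of_mul_nonneg_left (by linarith) hw) (Ne.symm t0),
      hK.isClosed.frontier_subset m⟩

lemma seg_mem (hs : StrictConvex ℝ K) {p w : ℝ × ℝ} {t r : ℝ} (hp : p ∈ K) (h : p + t • w ∈ K)
    (ht : 0 < t) (r0 : 0 ≤ r) (r1 : r ≤ t) : p + r • w ∈ K := by
  have := hs.convex.add_smul_mem hp h (t := r / t) ⟨div_nonneg r0 ht.le, (div_le_one ht).2 r1⟩
  rwa [smul_smul, div_mul_cancel₀ _ ht.ne'] at this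

lemma corner_side (hK : IsCompact K) (hs : StrictConvex ℝ K) {p x d : ℝ × ℝ} (x0 : x ≠ 0)
    (d0 : d ≠ 0) (hR : RP K x d) {σ s2 s3 s4 t2 t4 : ℝ} (hσ : 0 < σ) (h2 : 0 < s2) (h3 : 0 < s3)
    (h4 : 0 < s4) (ht2 : 0 < t2) (ht4 : 0 < t4) (m1 : p ∈ K) (m2 : p - x ∈ K) (m4 : p - d ∈ K)
    (H1 : ∀ ξ η : ℝ, p + ξ • x + η • d ∈ K → σ * ξ + η ≤ 0)
    (H3 : ∀ ξ η : ℝ, p + ξ • x + η • d ∈ K → 0 ≤ s3 * (ξ + 1) + (η + 1))
    (H2 : p - x + t2 • (-x - s2 • d) ∈ K) (H4 : p - d + t4 • (x + s4 • d) ∈ K) :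
    s3 * σ ≤ s2 * s4 := by
  have F := @hK.isClosed.frontier_subset
  have ev : ∀ᶠ c in 𝓝[>] (0 : ℝ), c < t2 ∧ s2 * c < σ * t4 ∧ s2 * c * (σ + s4) < σ := by
    refine nhdsWithin_le_nhds ((gt_mem_nhds ht2).and (Eventually.and ?_ ?_))
    · have h : ContinuousAt (fun c : ℝ => s2 * c) 0 := by fun_prop
      exact h.eventually (gt_mem_nhds (by simpa using mul_pos hσ ht4))
    · have h : ContinuousAt (fun c : ℝ => s2 * c * (σ + s4)) 0 := by fun_prop
      exact h.eventually (gt_mem_nhds (by simpa using hσ))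
  obtain ⟨c, ⟨c1, c2, c3⟩, c0⟩ := (ev.and self_mem_nhdsWithin).exists
  have c0' : 0 < c := c0
  have b0 : 0 < s2 * c := mul_pos h2 c0'
  have b1 : s2 * c < 1 := by nlinarith [mul_pos b0 h4]
  have k1 : p + (s2 * c) • (-d) ∈ K :=
    seg_mem hs (t := 1) m1 (by simpa [sub_eq_add_neg] using m4) one_pos b0.le b1.le
  obtain ⟨a, a0, f1⟩ := exit_point hK x0 k1
  obtain ⟨l, l0, f2⟩ := exit_point hK (neg_ne_zero.2 x0) (seg_mem hs m2 H2 ht2 c0'.le c1.le)
  have e1 : p + (s2 * c) • (-d) + a • x = p + a • x + (-(s2 * c)) • d := by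
    ext <;> simp <;> ring
  rw [e1] at f1
  have i1 := H1 _ _ (F f1)
  have a1 : a ≤ t4 := by nlinarith
  obtain ⟨n, n0, f4⟩ := exit_point hK (neg_ne_zero.2 d0) (seg_mem hs m4 H4 ht4 a0 a1)
  have e2 : p - x + c • (-x - s2 • d) + l • -x =
      p + a • x + (-(s2 * c)) • d + (-1 - c - l - a) • x := by
    ext <;> simp <;> ring
  have e4 : p - d + a • (x + s4 • d) + n • -d =
      p + a • x + (-(s2 * c)) • d + (-1 + a * s4 - n + s2 * c) • d := by
    ext <;> simp <;> ring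
  rw [e2] at f2
  rw [e4] at f4
  have g1 : σ * (a * s4 + s2 * c) < σ := by nlinarith
  have g2 : a * s4 + s2 * c < 1 := by nlinarith
  have f3 := hR _ _ _ (by linarith) (by linarith) f1 f2 f4
  have e3 : p + a • x + (-(s2 * c)) • d + (-1 - c - l - a) • x + (-1 + a * s4 - n + s2 * c) • d =
      p + (-1 - c - l) • x + (-1 + a * s4 - n) • d := by
    ext <;> simp <;> ring
  rw [e3] at f3
  have i3 := H3 _ _ (F f3)
  have j1 : s3 * c ≤ a * s4 := by nlinarith [mul_nonneg h3.le l0]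
  have j2 : s3 * σ * c ≤ s2 * s4 * c := by nlinarith
  exact le_of_mul_le_mul_right j2 c0'

lemma le_of_sq_mul {A B : ℝ} (h : ∀ k : ℝ, 1 < k → A ≤ k * k * B) : A ≤ B := by
  have t : Tendsto (fun k : ℝ => k * k * B) (𝓝[>] 1) (𝓝 (1 * 1 * B)) :=
    (show Continuous fun k : ℝ => k * k * B by fun_prop).continuousAt.tendsto.mono_left
      nhdsWithin_le_nhds
  rw [one_mul, one_mul] at t
  exact ge_of_tendsto t (eventually_mem_nhdsWithin.mono h)

lemma side_dt (hK : IsCompact K) (hs : StrictConvex ℝ K) {p x d e2 e4 : ℝ × ℝ} (x0 : x ≠ 0)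
    (d0 : d ≠ 0) (hR : RP K x d) {X1 V1 X3 V3 : ℝ} (m1 : p ∈ K) (n2 : e2 ≠ 0) (n4 : e4 ≠ 0)
    (p2 : SmoothPt K (p - x)) (p4 : SmoothPt K (p - d)) (q2 : Supp K e2 (p - x))
    (q4 : Supp K e4 (p - d)) (a1 : X1 < 0) (b1 : V1 < 0) (a3 : 0 < X3) (b3 : 0 < V3)
    (a2 : 0 < dt e2 x) (b2 : dt e2 d < 0) (a4 : dt e4 x < 0) (b4 : 0 < dt e4 d)
    (H1 : ∀ ξ η : ℝ, p + ξ • x + η • d ∈ K → 0 ≤ ξ * X1 + η * V1)
    (H3 : ∀ ξ η : ℝ, p + ξ • x + η • d ∈ K → 0 ≤ (ξ + 1) * X3 + (η + 1) * V3) :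
    X3 / V3 * (X1 / V1) ≤ dt e2 x / dt e2 d * (dt e4 x / dt e4 d) := by
  have r2 : 0 < -(dt e2 x / dt e2 d) := neg_pos.2 (div_neg_of_pos_of_neg a2 b2)
  have r4 : 0 < -(dt e4 x / dt e4 d) := neg_pos.2 (div_neg_of_neg_of_pos a4 b4)
  refine le_of_sq_mul fun k hk => ?_
  have k0 : 0 < k := by linarith
  obtain ⟨t2, ht2, H2⟩ := inward hK hs p2 n2 q2 (w := -x - (k * -(dt e2 x / dt e2 d)) • d) (by
    rw [dt_sub_right, dt_neg_right, dt_smul_right, mul_assoc, neg_mul, div_mul_cancel₀ _ b2.ne]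
    nlinarith)
  obtain ⟨t4, ht4, H4⟩ := inward hK hs p4 n4 q4 (w := x + (k * -(dt e4 x / dt e4 d)) • d) (by
    rw [dt_add_right, dt_smul_right, mul_assoc, neg_mul, div_mul_cancel₀ _ b4.ne']
    nlinarith)
  have := corner_side hK hs x0 d0 hR (σ := X1 / V1) (s3 := X3 / V3) (div_pos_of_neg_of_neg a1 b1)
    (mul_pos k0 r2) (div_pos a3 b3) (mul_pos k0 r4) ht2 ht4 m1 q2.1 q4.1 (fun ξ η h => by
      have e : X1 / V1 * ξ + η = (ξ * X1 + η * V1) / V1 := by field_simp [b1.ne]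
      rw [e]; exact div_nonpos_of_nonneg_of_nonpos (H1 ξ η h) b1.le) (fun ξ η h => by
      have e : X3 / V3 * (ξ + 1) + (η + 1) = ((ξ + 1) * X3 + (η + 1) * V3) / V3 := by
        field_simp
      rw [e]; exact div_nonneg (H3 ξ η h) b3.le) H2 H4
  linarith

/-- a vertex whose two neighbours are smooth points is a smooth point -/
lemma smoothPt_of_nbrs (hK : IsCompact K) (hs : StrictConvex ℝ K) (hi : (interior K).Nonempty)
    {p x d : ℝ × ℝ} (hxd : dt x d ≠ 0) (hR : RP K x d) (f2 : p - x ∈ frontier K)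
    (f4 : p - d ∈ frontier K) (f3 : p - x - d ∈ frontier K) (p2 : SmoothPt K (p - x))
    (p4 : SmoothPt K (p - d)) : SmoothPt K p := by
  have hc := hK.isClosed
  have x0 : x ≠ 0 := by
    rintro rfl
    exact hxd (dt_zero_left _)
  have d0 : d ≠ 0 := by
    rintro rfl
    exact hxd (dt_zero_right _)
  obtain ⟨e2, n2, q2⟩ := exists_supp_dir hc hs hi f2
  obtain ⟨e3, n3, q3⟩ := exists_supp_dir hc hs hi f3
  obtain ⟨e4, n4, q4⟩ := exists_supp_dir hc hs hi f4
  have P : ∀ {e z w : ℝ × ℝ}, e ≠ 0 → Supp K e z → w ≠ 0 → z + w ∈ K → 0 < dt e w :=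
    fun {e z w} he h w0 m => by
      have := h.lt hs he m (fun h0 => w0 (by simpa using h0))
      rw [dt_add_right] at this
      linarith
  have N : ∀ {e z w : ℝ × ℝ}, e ≠ 0 → Supp K e z → w ≠ 0 → z - w ∈ K → dt e w < 0 :=
    fun {e z w} he h w0 m => by
      have := P he h (neg_ne_zero.2 w0) (by rwa [← sub_eq_add_neg])
      rw [dt_neg_right] at this
      linarith
  have key : ∀ e, e ≠ 0 → Supp K e p → dt e d < 0 ∧
      dt e3 x / dt e3 d * (dt e x / dt e d) = dt e2 x / dt e2 d * (dt e4 x / dt e4 d) := by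
    intro e n1 q1
    have a1 := N n1 q1 x0 q2.1
    have b1 := N n1 q1 d0 q4.1
    have a2 := P n2 q2 x0 (by simpa using q1.1)
    have b2 := N n2 q2 d0 q3.1
    have a3 := P n3 q3 x0 (by rw [sub_right_comm, sub_add_cancel]; exact q4.1)
    have b3 := P n3 q3 d0 (by rw [sub_add_cancel]; exact q2.1)
    have a4 := N n4 q4 x0 (by rw [sub_right_comm]; exact q3.1)
    have b4 := P n4 q4 d0 (by simpa using q1.1)
    have H1 : ∀ ξ η : ℝ, p + ξ • x + η • d ∈ K → 0 ≤ ξ * dt e x + η * dt e d := fun ξ η h => by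
      have := q1.2 _ h
      simp only [dt_add_right, dt_smul_right] at this
      linarith
    have H3 : ∀ ξ η : ℝ, p + ξ • x + η • d ∈ K → 0 ≤ (ξ + 1) * dt e3 x + (η + 1) * dt e3 d :=
      fun ξ η h => by
        have := q3.2 _ h
        simp only [dt_add_right, dt_smul_right, dt_sub_right] at this
        linarith
    have i1 := side_dt hK hs x0 d0 hR q1.1 n2 n4 p2 p4 q2 q4 a1 b1 a3 b3 a2 b2 a4 b4 H1 H3
    have i2 := side_dt hK hs d0 x0 hR.symm q1.1 n4 n2 p4 p2 q4 q2 b1 a1 b3 a3 b4 a4 b2 a2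
      (fun ξ η h => by rw [add_comm]; exact H1 η ξ (by rwa [add_right_comm]))
      (fun ξ η h => by rw [add_comm]; exact H3 η ξ (by rwa [add_right_comm]))
    refine ⟨b1, le_antisymm i1 ?_⟩
    have u1 : 0 < dt e3 x / dt e3 d * (dt e x / dt e d) :=
      mul_pos (div_pos a3 b3) (div_pos_of_neg_of_neg a1 b1)
    have u2 : 0 < dt e2 x / dt e2 d * (dt e4 x / dt e4 d) :=
      mul_pos_of_neg_of_neg (div_neg_of_pos_of_neg a2 b2) (div_neg_of_neg_of_pos a4 b4)
    rw [← inv_le_inv₀ u1 u2]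
    simp only [mul_inv, inv_div]
    linarith
  intro u v hu hv h1 h2
  obtain ⟨b1, e1⟩ := key u hu h1
  obtain ⟨b2, e2'⟩ := key v hv h2
  have a3 := P n3 q3 x0 (by rw [sub_right_comm, sub_add_cancel]; exact q4.1)
  have b3 := P n3 q3 d0 (by rw [sub_add_cancel]; exact q2.1)
  have e := mul_left_cancel₀ (div_pos a3 b3).ne' (e1.trans e2'.symm)
  rw [div_eq_div_iff b1.ne b2.ne] at e
  have := plucker u v x d
  exact (mul_eq_zero.1 (show dt u v * dt x d = 0 by linarith)).resolve_right hxd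

lemma corners_countable (hK : IsCompact K) (hs : StrictConvex ℝ K) (hi : (interior K).Nonempty) :
    {p | ¬ SmoothPt K p}.Countable := by
  choose P hP using exists_supp hK (hi.mono interior_subset)
  refine (countable_range fun r : ℚ × ℚ => P ((r.1 : ℝ), (r.2 : ℝ))).mono fun p hp => ?_
  simp only [SmoothPt, mem_ofPred_eq, not_forall] at hp
  obtain ⟨u, v, -, -, h1, h2, h3⟩ := hp
  have hd : DenseRange (Prod.map ((↑) : ℚ → ℝ) ((↑) : ℚ → ℝ)) :=
    Rat.denseRange_cast.prodMap Rat.denseRange_cast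
  have ho : IsOpen {w : ℝ × ℝ | 0 < dt w v / dt u v ∧ 0 < dt u w / dt u v} :=
    (isOpen_lt continuous_const
      (show Continuous fun w : ℝ × ℝ => dt w v / dt u v by unfold dt; fun_prop)).inter
      (isOpen_lt continuous_const
        (show Continuous fun w : ℝ × ℝ => dt u w / dt u v by unfold dt; fun_prop))
  obtain ⟨r, r1, r2⟩ := hd.exists_mem_open ho ⟨u + v, by
    simp only [mem_ofPred_eq, dt_add_left, dt_add_right, dt_self, add_zero, zero_add, div_self h3]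
    exact ⟨one_pos, one_pos⟩⟩
  set w := Prod.map ((↑) : ℚ → ℝ) ((↑) : ℚ → ℝ) r with hw
  have e : w = (dt w v / dt u v) • u + (dt u w / dt u v) • v := by
    have e1 := congrArg (fun z : ℝ × ℝ => (dt u v)⁻¹ • z) (dt_decomp u v w)
    simp only [smul_add, smul_smul, inv_mul_cancel₀ h3, one_smul] at e1
    rw [div_eq_inv_mul, div_eq_inv_mul]
    exact e1
  have w0 : w ≠ 0 := by
    intro h0
    rw [h0, dt_zero_left, zero_div] at r1
    exact lt_irrefl _ r1
  have h4 : Supp K w p := ⟨h1.1, fun y hy => by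
    rw [e, dt_add_left, dt_add_left]
    exact add_le_add ((h1.smul r1.le).2 y hy) ((h2.smul r2.le).2 y hy)⟩
  exact ⟨r, h4.unique hs (hP w) w0⟩

/-- an interval of frontier points that are not opposite to `p` -/
lemma near_family (hK : IsCompact K) (hs : StrictConvex ℝ K) (hi : (interior K).Nonempty)
    {p : ℝ × ℝ} (hp : p ∈ frontier K) : ∃ δ : ℝ, 0 < δ ∧ ∃ y : ℝ → ℝ × ℝ, InjOn y (Ioo 0 δ) ∧
      ∀ t ∈ Ioo 0 δ, y t ∈ frontier K ∧ y t ≠ p ∧
        ∀ v, v ≠ 0 → Supp K v p → ¬ Supp K (-v) (y t) := by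
  obtain ⟨o, ho⟩ := hi
  have hc := hK.isClosed
  have pK := hc.frontier_subset hp
  set m := o - p with hm
  have m0 : m ≠ 0 := sub_ne_zero.2 fun e => hp.2 (e ▸ ho)
  have om : p + (1 : ℝ) • m = o := by simp [hm]
  have p0 : p + (0 : ℝ) • m = p := by simp
  have i1 : p + (1 / 2 : ℝ) • m ∈ interior K := between_interior hs m0 (p := 0) (r := 1)
    (by norm_num) (by norm_num) (by rwa [p0]) (by rw [om]; exact interior_subset ho)
  have i2 : p + (-1 / 2 : ℝ) • m ∈ Kᶜ := fun h => hp.2 (by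
    have := between_interior hs m0 (q := 0) (r := 1) (by norm_num) (by norm_num) h
      (by rw [om]; exact interior_subset ho)
    rwa [p0] at this)
  set n : ℝ × ℝ := (-m.2, m.1) with hn
  have mn : dt m n ≠ 0 := fun h => m0 (by
    have h1 : m.1 * m.1 + m.2 * m.2 = 0 := by simpa [dt, hn] using h
    exact Prod.ext (by simp only [Prod.fst_zero]; nlinarith [mul_self_nonneg m.1, mul_self_nonneg m.2])
      (by simp only [Prod.snd_zero]; nlinarith [mul_self_nonneg m.1, mul_self_nonneg m.2]))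
  have near : ∀ {z : ℝ × ℝ} {U : Set (ℝ × ℝ)}, IsOpen U → z ∈ U → ∀ w : ℝ × ℝ,
      ∀ᶠ t in 𝓝[>] (0 : ℝ), z + t • w ∈ U := fun {z U} hU hz w => by
    have h : ContinuousAt (fun t : ℝ => z + t • w) 0 := by fun_prop
    exact nhdsWithin_le_nhds (h.eventually_mem (by simpa using hU.mem_nhds hz))
  obtain ⟨r, ⟨r1, r2⟩, r0⟩ := (((near isOpen_interior ho n).and (near isOpen_interior ho (-n))).and
    self_mem_nhdsWithin).exists
  have r0' : 0 < r := r0
  have ev := ((near isOpen_interior i1 (r • n)).and (near hc.isOpen_compl i2 (r • n))).and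
    (nhdsWithin_le_nhds (gt_mem_nhds (show (0 : ℝ) < 1 / 2 by norm_num)))
  obtain ⟨δ, δ0, hδ⟩ := mem_nhdsGT_iff_exists_Ioo_subset.1 ev
  have ex : ∀ t : ℝ, ∃ a : ℝ, t ∈ Ioo 0 δ → a ≤ 1 / 2 ∧ p + t • r • n + a • m ∈ frontier K := by
    intro t
    by_cases ht : t ∈ Ioo 0 δ
    · obtain ⟨s, s0, f⟩ := exit_point hK (neg_ne_zero.2 m0) (interior_subset (hδ ht).1.1)
      refine ⟨1 / 2 - s, fun _ => ⟨by linarith, ?_⟩⟩
      have e : p + t • r • n + (1 / 2 - s) • m = p + (1 / 2 : ℝ) • m + t • r • n + s • -m := by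
        rw [sub_smul, smul_neg]; abel
      rwa [e]
    · exact ⟨0, fun h => absurd h ht⟩
  choose a ha using ex
  have hd : ∀ t, dt m (p + t • r • n + a t • m) = dt m p + t * (r * dt m n) := fun t => by
    simp only [dt_add_right, dt_smul_right, dt_self, mul_zero, add_zero]
  have rn : r * dt m n ≠ 0 := mul_ne_zero r0'.ne' mn
  refine ⟨δ, δ0, fun t => p + t • r • n + a t • m, fun s _ t _ e => ?_, fun t ht =>
    ⟨(ha t ht).2, fun e => ?_, fun v v0 h1 h2 => ?_⟩⟩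
  · have e1 := congrArg (dt m) e
    simp only [hd] at e1
    exact mul_right_cancel₀ rn (add_left_cancel e1)
  · have e1 := congrArg (dt m) e
    simp only [hd] at e1
    exact mul_ne_zero ht.1.ne' rn (by linarith)
  · have j0 := h1.lt hs v0 (interior_subset ho) fun e => hp.2 (e ▸ ho)
    have j1 := h1.2 _ (interior_subset r2)
    have j2 := h2.2 _ (interior_subset ho)
    have j3 : dt v m = dt v o - dt v p := dt_sub_right _ _ _
    have j4 := (ha t ht).1
    have j5 : t < 1 / 2 := (hδ ht).2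
    simp only [dt_add_right, dt_smul_right, dt_neg_right, dt_neg_left] at j1 j2
    nlinarith [ht.1, mul_le_mul_of_nonneg_left (show r * dt v n ≤ dt v m by linarith) ht.1.le]

theorem noCorner_of_rect (hK : IsCompact K) (hs : StrictConvex ℝ K) (hi : (interior K).Nonempty)
    (hrect : RectProp K) : NoCorner K := by
  intro u v p hu hv h1 h2
  have hc := hK.isClosed
  have hp := h1.mem_frontier hu
  obtain ⟨δ, δ0, y, inj, hy⟩ := near_family hK hs hi hp
  have hne : K.Nonempty := hi.mono interior_subset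
  have ex : ∀ t : ℝ, ∃ d : ℝ × ℝ, t ∈ Ioo 0 δ → dt (p - y t) d ≠ 0 ∧ RP K (p - y t) d ∧
      p - d ∈ frontier K ∧ y t - d ∈ frontier K := by
    intro t
    by_cases ht : t ∈ Ioo 0 δ
    · obtain ⟨f, n1, n2⟩ := hy t ht
      have x0 : p - y t ≠ 0 := sub_ne_zero.2 n1.symm
      obtain ⟨T, hT⟩ := exists_supp hK hne (p - y t)
      obtain ⟨B, hB⟩ := exists_supp hK hne (-(p - y t))
      have w0 := diam_ne_zero hi x0 hT hB
      have e0 : p - (p - y t) = y t := by abel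
      rcases rect_or hK hs hi hrect x0 hp (by rwa [e0]) hT hB with
        ⟨b, b0, g1, g2⟩ | ⟨g1 | g1, g2 | g2⟩
      · refine ⟨(-b) • (B - T), fun _ => ⟨?_, fun z a c a0 c0 z0 z1 z2 => ?_, ?_, ?_⟩⟩
        · rw [dt_smul_right]
          exact mul_ne_zero (neg_ne_zero.2 b0) (width_pos hi x0 hT hB).ne'
        · rw [smul_smul] at z2 ⊢
          exact hrect _ T B x0 hT hB z a _ a0 (mul_ne_zero c0 (neg_ne_zero.2 b0)) z0 z1 z2
        · rwa [neg_smul, sub_neg_eq_add]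
        · have e : y t - (-b) • (B - T) = p + b • (B - T) - (p - y t) := by
            rw [neg_smul]; abel
          rwa [e]
      · rw [e0] at g2
        exact absurd (g1.unique hs g2 w0) n1
      · rw [e0] at g2
        exact absurd g2 (n2 _ w0 g1)
      · rw [e0] at g2
        exact absurd (by rwa [neg_neg]) (n2 _ (neg_ne_zero.2 w0) g1)
      · rw [e0] at g2
        exact absurd (g1.unique hs g2 (neg_ne_zero.2 w0)) n1
    · exact ⟨0, fun h => absurd h ht⟩
  choose d hd using ex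
  have inj4 : InjOn (fun t => p - d t) (Ioo 0 δ) := fun s hs' t ht e => by
    have e1 : d s = d t := sub_right_injective e
    obtain ⟨a1, -, a3, a4⟩ := hd s hs'
    obtain ⟨-, -, -, b4⟩ := hd t ht
    have d0 : d s ≠ 0 := fun h0 => a1 (by rw [h0, dt_zero_right])
    exact inj hs' ht (chord_two hc hs d0 hp a3 (hy s hs').1 a4 (hy t ht).1 (e1 ▸ b4)
      (hy s hs').2.1.symm (hy t ht).2.1.symm)
  have cc := corners_countable hK hs hi
  have c2 : (Ioo 0 δ ∩ y ⁻¹' {p | ¬ SmoothPt K p}).Countable :=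
    MapsTo.countable_of_injOn (f := y) (fun _ h => h.2) (inj.mono inter_subset_left) cc
  have c4 : (Ioo 0 δ ∩ (fun t => p - d t) ⁻¹' {p | ¬ SmoothPt K p}).Countable :=
    MapsTo.countable_of_injOn (f := fun t => p - d t) (fun _ h => h.2) (inj4.mono inter_subset_left) cc
  obtain ⟨t, t1, t2⟩ := ((c2.union c4).dense_compl ℝ).exists_mem_open isOpen_Ioo
    (nonempty_Ioo.2 δ0)
  obtain ⟨a1, a2, a3, a4⟩ := hd t t2
  have e0 : p - (p - y t) = y t := by abel
  refine smoothPt_of_nbrs hK hs hi a1 a2 (by rw [e0]; exact (hy t t2).1) a3 (by rwa [e0]) ?_ ?_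
    u v hu hv h1 h2
  · rw [e0]
    by_contra h
    exact t1 (Or.inl ⟨t2, h⟩)
  · by_contra h
    exact t1 (Or.inr ⟨t2, h⟩)

end Pool.Agent.Lib.MP_171f82_an
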