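import Pool.Agent.Lib.MP_171f82_an.NsPar

set_option autoImplicit false

open Set Filter Topology

namespace Pool.Agent.Lib.MP_171f82_an

variable {K : Set (ℝ × ℝ)}

lemma cont_of_closed {R : Set (ℝ × (ℝ × ℝ))} (hR : IsClosed R) {f : ℝ → ℝ × ℝ}
    (h1 : ∀ t, (t, f t) ∈ R) (h2 : ∀ t y, (t, y) ∈ R → y = f t) {C : Set (ℝ × ℝ)}
    (hC : IsCompact C) (h3 : ∀ t, f t ∈ C) : Continuous f := by
  refine continuous_iff_continuousAt.2 fun t => ?_
  refine hC.tendsto_nhds_of_unique_mapClusterPt (Eventually.of_forall h3) fun y _ hy => h2 t y ?_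
  by_contra hn
  obtain ⟨u, hu, v, hv, huv⟩ := mem_nhds_prod_iff.1 (hR.isOpen_compl.mem_nhds hn)
  obtain ⟨s, s1, s2⟩ := ((mapClusterPt_iff_frequently.1 hy v hv).and_eventually hu).exists
  exact huv (mk_mem_prod s2 s1) (h1 s)

lemma dt_ee_ee (a b : ℝ) : dt (ee a) (ee b) = Real.sin (b - a) := by
  simp only [dt, ee, Real.sin_sub]; ring

lemma dt_ep_ee (a b : ℝ) : dt (ep a) (ee b) = - Real.cos (b - a) := by
  simp only [dt, ee, ep, Real.cos_sub]; ring

lemma exists_polar_coord {z : ℝ × ℝ} (hz : z ≠ 0) : ∃ r θ : ℝ, 0 < r ∧ z = r • ee θ := by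
  have h0 : (⟨z.1, z.2⟩ : ℂ) ≠ 0 := fun h =>
    hz (Prod.ext (congrArg Complex.re h) (congrArg Complex.im h))
  refine ⟨‖(⟨z.1, z.2⟩ : ℂ)‖, Complex.arg ⟨z.1, z.2⟩, norm_pos_iff.2 h0, ?_⟩
  ext
  · exact (Complex.norm_mul_cos_arg ⟨z.1, z.2⟩).symm
  · exact (Complex.norm_mul_sin_arg ⟨z.1, z.2⟩).symm

lemma radius_unique (hc : IsClosed K) (hs : StrictConvex ℝ K) {o u : ℝ × ℝ} (ho : o ∈ interior K)
    (hu : u ≠ 0) {r r' : ℝ} (h0 : 0 ≤ r) (h0' : 0 ≤ r') (h : o + r • u ∈ frontier K)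
    (h' : o + r' • u ∈ frontier K) : r = r' := by
  have key : ∀ a b : ℝ, 0 ≤ a → a < b → o + a • u ∈ frontier K → o + b • u ∈ frontier K →
      False := fun a b ha hab m1 m2 => by
    rcases ha.lt_or_eq with h1 | h1
    · exact m1.2 (between_interior hs hu h1 hab (by simpa using interior_subset ho)
        (hc.frontier_subset m2))
    · rw [← h1] at m1
      exact m1.2 (by simpa using ho)
  rcases lt_trichotomy r r' with h1 | h1 | h1
  · exact (key _ _ h0 h1 h h').elim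
  · exact h1
  · exact (key _ _ h0' h1 h' h).elim

lemma tan_ne (κ θ : ℝ) : κ • ee θ + ep θ ≠ 0 := fun h => by
  have := congrArg (dt (ee θ)) h
  rw [dt_add_right, dt_smul_right, dt_self, dt_ee_ep, dt_zero_right] at this
  simp at this

/-- continuous polar radius and tangent slope -/
lemma exists_polar (hK : IsCompact K) (hs : StrictConvex ℝ K) (hnc : NoCorner K) {o : ℝ × ℝ}
    (ho : o ∈ interior K) : ∃ ρ κ : ℝ → ℝ, Continuous ρ ∧ Continuous κ ∧ (∀ θ, 0 < ρ θ) ∧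
      ∀ θ, Supp K (κ θ • ee θ + ep θ) (o + ρ θ • ee θ) := by
  have hc := hK.isClosed
  have ex : ∀ θ : ℝ, ∃ y : ℝ × ℝ, 0 ≤ y.1 ∧ Supp K (y.2 • ee θ + ep θ) (o + y.1 • ee θ) := by
    intro θ
    obtain ⟨r, r0, hr⟩ := exit_point hK (ee_ne_zero θ) (interior_subset ho)
    obtain ⟨u, hu, h⟩ := exists_supp_dir hc hs ⟨o, ho⟩ hr
    have hne : o ≠ o + r • ee θ := fun e => hr.2 (e ▸ ho)
    have h1 := h.lt hs hu (interior_subset ho) hne
    rw [dt_add_right, dt_smul_right, dt_swap u (ee θ)] at h1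
    have h2 : 0 < dt (ee θ) u := by nlinarith
    refine ⟨(r, dt u (ep θ) / dt (ee θ) u), r0, ?_⟩
    have e := dt_decomp (ee θ) (ep θ) u
    rw [dt_ee_ep, one_smul] at e
    have e2 : (dt u (ep θ) / dt (ee θ) u) • ee θ + ep θ = (dt (ee θ) u)⁻¹ • u := by
      have e3 := congrArg (fun z : ℝ × ℝ => (dt (ee θ) u)⁻¹ • z) e
      simp only [smul_add, smul_smul, inv_mul_cancel₀ h2.ne', one_smul] at e3
      rw [e3, div_eq_inv_mul]
    rw [e2]
    exact h.smul (inv_nonneg.2 h2.le)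
  choose f f0 f1 using ex
  have fr : ∀ θ, o + (f θ).1 • ee θ ∈ frontier K := fun θ => (f1 θ).mem_frontier (tan_ne _ _)
  have pos : ∀ θ, 0 < (f θ).1 := fun θ => (f0 θ).lt_of_ne fun e =>
    (fr θ).2 (by rw [← e]; simpa using ho)
  obtain ⟨M, hM⟩ := (hK.image (f := fun z : ℝ × ℝ => |(z - o).1| + |(z - o).2|)
    (by fun_prop)).bddAbove
  have up : ∀ θ, (f θ).1 ≤ M := fun θ => by
    have h1 := hM ⟨_, (f1 θ).1, rfl⟩
    simp only [add_sub_cancel_left, ee, Prod.smul_fst, Prod.smul_snd, smul_eq_mul, abs_mul,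
      abs_of_pos (pos θ)] at h1
    have h2 := Real.cos_sq_add_sin_sq θ
    have h3 : Real.cos θ ^ 2 ≤ |Real.cos θ| := by
      rw [← sq_abs]; nlinarith [Real.abs_cos_le_one θ, abs_nonneg (Real.cos θ)]
    have h4 : Real.sin θ ^ 2 ≤ |Real.sin θ| := by
      rw [← sq_abs]; nlinarith [Real.abs_sin_le_one θ, abs_nonneg (Real.sin θ)]
    nlinarith [pos θ]
  obtain ⟨ε, hε, hb⟩ := Metric.mem_nhds_iff.1 (mem_interior_iff_mem_nhds.1 ho)
  have bd : ∀ θ, ∀ t : ℝ, |t| < ε → 0 ≤ (f θ).1 + t * (f θ).2 := fun θ t ht => by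
    have m : o + t • ep θ ∈ K := hb (by
      rw [mem_ball_iff_norm, add_sub_cancel_left, norm_smul, Real.norm_eq_abs]
      refine lt_of_le_of_lt (mul_le_of_le_one_right (abs_nonneg t) ?_) ht
      rw [Prod.norm_def]
      exact max_le (by simpa [ep] using Real.abs_sin_le_one θ)
        (by simpa [ep] using Real.abs_cos_le_one θ))
    have h1 := (f1 θ).2 _ m
    simp only [dt_add_right, dt_smul_right, dt_add_left, dt_smul_left, dt_self, dt_ee_ep,
      dt_swap (ep θ) (ee θ)] at h1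
    linarith
  have hcont : Continuous f := by
    refine cont_of_closed (R := {z | 0 ≤ z.2.1 ∧ Supp K (z.2.2 • ee z.1 + ep z.1)
      (o + z.2.1 • ee z.1)}) ?_ (fun t => ⟨f0 t, f1 t⟩) (fun t y hy => ?_)
      (C := Icc 0 M ×ˢ Icc (-(2 * M / ε)) (2 * M / ε)) (isCompact_Icc.prod isCompact_Icc)
      fun t => ⟨⟨f0 t, up t⟩, ?_, ?_⟩
    · have c1 : Continuous fun z : ℝ × (ℝ × ℝ) => o + z.2.1 • ee z.1 := by unfold ee; fun_prop
      refine (isClosed_le continuous_const continuous_snd.fst).inter ((hc.preimage c1).inter ?_)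
      have e : {z : ℝ × (ℝ × ℝ) | ∀ y ∈ K, dt (z.2.2 • ee z.1 + ep z.1) (o + z.2.1 • ee z.1) ≤
          dt (z.2.2 • ee z.1 + ep z.1) y} = ⋂ y ∈ K, {z : ℝ × (ℝ × ℝ) |
            dt (z.2.2 • ee z.1 + ep z.1) (o + z.2.1 • ee z.1) ≤
              dt (z.2.2 • ee z.1 + ep z.1) y} := by
        ext z; simp
      have c2 : IsClosed {z : ℝ × (ℝ × ℝ) | ∀ y ∈ K, dt (z.2.2 • ee z.1 + ep z.1)
          (o + z.2.1 • ee z.1) ≤ dt (z.2.2 • ee z.1 + ep z.1) y} := by
        rw [e]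
        exact isClosed_biInter fun y _ =>
          isClosed_le (by unfold dt ee ep; fun_prop) (by unfold dt ee ep; fun_prop)
      exact c2
    · have e1 : y.1 = (f t).1 := radius_unique hc hs ho (ee_ne_zero t) hy.1 (f0 t)
        (hy.2.mem_frontier (tan_ne _ _)) (fr t)
      have h2 : Supp K (y.2 • ee t + ep t) (o + (f t).1 • ee t) := e1 ▸ hy.2
      have h3 := hnc _ _ _ (tan_ne _ _) (tan_ne _ _) h2 (f1 t)
      simp only [dt_add_right, dt_smul_right, dt_add_left, dt_smul_left, dt_self, dt_ee_ep,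
        dt_swap (ep t) (ee t)] at h3
      exact Prod.ext e1 (by linarith)
    · have h1 := bd t (ε / 2) (by rw [abs_of_pos (half_pos hε)]; linarith)
      rw [neg_le, le_div_iff₀ hε]
      linarith [up t]
    · have h1 := bd t (-(ε / 2)) (by rw [abs_neg, abs_of_pos (half_pos hε)]; linarith)
      rw [le_div_iff₀ hε]
      linarith [up t]
  exact ⟨fun θ => (f θ).1, fun θ => (f θ).2, hcont.fst, hcont.snd, pos, f1⟩

lemma polar_deriv {o : ℝ × ℝ} {ρ κ : ℝ → ℝ} (hρ : Continuous ρ) (hκ : Continuous κ)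
    (h : ∀ θ, Supp K (κ θ • ee θ + ep θ) (o + ρ θ • ee θ)) (θ : ℝ) :
    HasDerivAt ρ (ρ θ * κ θ) θ := by
  have ineq : ∀ a b, ρ b * (Real.cos (b - a) - κ a * Real.sin (b - a)) ≤ ρ a := fun a b => by
    have h1 := (h a).2 _ (h b).1
    simp only [dt_add_right, dt_smul_right, dt_add_left, dt_smul_left, dt_ee_ee, dt_ep_ee,
      sub_self, Real.sin_zero, Real.cos_zero] at h1
    linarith
  have dc : HasDerivAt (fun t => Real.cos (t - θ)) 0 θ := by
    simpa using ((hasDerivAt_id θ).sub_const θ).cos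
  have ds : HasDerivAt (fun t => Real.sin (t - θ)) 1 θ := by
    simpa using ((hasDerivAt_id θ).sub_const θ).sin
  rw [hasDerivAt_iff_tendsto_slope] at dc ds ⊢
  have tρ : Tendsto ρ (𝓝[≠] θ) (𝓝 (ρ θ)) := hρ.continuousAt.tendsto.mono_left nhdsWithin_le_nhds
  have tκ : Tendsto κ (𝓝[≠] θ) (𝓝 (κ θ)) := hκ.continuousAt.tendsto.mono_left nhdsWithin_le_nhds
  have tA := (dc.add (tκ.mul ds)).const_mul (ρ θ)
  have tB := tρ.mul (dc.neg.add (ds.const_mul (κ θ)))
  simp only [zero_add, mul_one, neg_zero] at tA tB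
  have lo := tA.min tB
  have hi := tA.max tB
  rw [min_self] at lo
  rw [max_self] at hi
  have key : ∀ t, t ≠ θ →
      slope (fun t => Real.cos (t - θ)) θ t = (t - θ)⁻¹ * (Real.cos (t - θ) - 1) ∧
      slope (fun t => Real.sin (t - θ)) θ t = (t - θ)⁻¹ * Real.sin (t - θ) ∧
      slope ρ θ t = (t - θ)⁻¹ * (ρ t - ρ θ) ∧
      ρ θ * (Real.cos (t - θ) - 1 + κ t * Real.sin (t - θ)) ≤ ρ t - ρ θ ∧
      ρ t - ρ θ ≤ ρ t * (1 - Real.cos (t - θ) + κ θ * Real.sin (t - θ)) := fun t _ => by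
    have h1 := ineq θ t
    have h2 := ineq t θ
    rw [← neg_sub t θ, Real.cos_neg, Real.sin_neg] at h2
    refine ⟨by simp [slope], by simp [slope], by simp [slope], by linarith, by linarith⟩
  refine tendsto_of_tendsto_of_tendsto_of_le_of_le' lo hi ?_ ?_
  · filter_upwards [self_mem_nhdsWithin] with t ht
    obtain ⟨e1, e2, e3, i1, i2⟩ := key t ht
    rw [e1, e2, e3]
    rcases lt_or_gt_of_ne (sub_ne_zero.2 (show t ≠ θ from ht)) with h1 | h1
    · refine min_le_of_right_le ?_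
      nlinarith [mul_le_mul_of_nonpos_left i2 (inv_nonpos.2 h1.le)]
    · refine min_le_of_left_le ?_
      nlinarith [mul_le_mul_of_nonneg_left i1 (inv_nonneg.2 h1.le)]
  · filter_upwards [self_mem_nhdsWithin] with t ht
    obtain ⟨e1, e2, e3, i1, i2⟩ := key t ht
    rw [e1, e2, e3]
    rcases lt_or_gt_of_ne (sub_ne_zero.2 (show t ≠ θ from ht)) with h1 | h1
    · refine le_max_of_le_left ?_
      nlinarith [mul_le_mul_of_nonpos_left i1 (inv_nonpos.2 h1.le)]
    · refine le_max_of_le_right ?_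
      nlinarith [mul_le_mul_of_nonneg_left i2 (inv_nonneg.2 h1.le)]

lemma ee_angle (θ κ : ℝ) : ee (θ + Real.pi / 2 - Real.arctan κ) =
    Real.cos (Real.arctan κ) • (κ • ee θ + ep θ) := by
  have e : Real.sin (Real.arctan κ) = Real.cos (Real.arctan κ) * κ := by
    have := Real.tan_arctan κ
    rw [Real.tan_eq_sin_div_cos, div_eq_iff (Real.cos_arctan_pos κ).ne'] at this
    rw [this, mul_comm]
  rw [sub_eq_add_neg, ee_rot, Real.sin_neg, Real.cos_neg, neg_neg, e, smul_add, smul_smul]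

/-- the polar parametrization with its tangent angle -/
theorem polar_ang (hK : IsCompact K) (hs : StrictConvex ℝ K) (hnc : NoCorner K) {o : ℝ × ℝ}
    (ho : o ∈ interior K) : ∃ ρ κ μ : ℝ → ℝ, Continuous ρ ∧ Continuous κ ∧
      (∀ θ, HasDerivAt ρ (ρ θ * κ θ) θ) ∧ Function.Periodic ρ (2 * Real.pi) ∧
      Ang K (fun θ => o + ρ θ • ee θ) (fun θ => θ + Real.pi / 2 - Real.arctan (κ θ)) μ ∧
      StrictMono (fun θ => θ + Real.pi / 2 - Real.arctan (κ θ)) ∧
      Function.Surjective (fun θ => θ + Real.pi / 2 - Real.arctan (κ θ)) := by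
  obtain ⟨ρ, κ, hρ, hκ, pos, h⟩ := exists_polar hK hs hnc ho
  have hd := polar_deriv hρ hκ h
  have fr : ∀ θ, o + ρ θ • ee θ ∈ frontier K := fun θ => (h θ).mem_frontier (tan_ne _ _)
  have sp : ∀ θ, Supp K (ee (θ + Real.pi / 2 - Real.arctan (κ θ))) (o + ρ θ • ee θ) := fun θ => by
    rw [ee_angle]; exact (h θ).smul (Real.cos_arctan_pos _).le
  have tc : Continuous (fun θ => θ + Real.pi / 2 - Real.arctan (κ θ)) := by fun_prop
  have b1 := fun θ => Real.arctan_lt_pi_div_two (κ θ)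
  have b2 := fun θ => Real.neg_pi_div_two_lt_arctan (κ θ)
  refine ⟨ρ, κ, fun θ => ρ θ / Real.cos (Real.arctan (κ θ)), hρ, hκ, hd, fun θ => ?_,
    ⟨fun θ => ?_, fun θ => div_pos (pos θ) (Real.cos_arctan_pos _), sp, ?_⟩, ?_, ?_⟩
  · have e : ee (θ + 2 * Real.pi) = ee θ := by simp [ee]
    exact radius_unique hK.isClosed hs ho (ee_ne_zero θ) (pos _).le (pos _).le (e ▸ fr _) (fr θ)
  · have := ((hd θ).smul (hasDerivAt_ee θ)).const_add o
    rw [ee_angle, smul_smul, div_mul_cancel₀ _ (Real.cos_arctan_pos _).ne', smul_add, smul_smul,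
      add_comm]
    exact this
  · refine Subset.antisymm (range_subset_iff.2 fr) fun p hp => ?_
    obtain ⟨r, θ, r0, e⟩ := exists_polar_coord (z := p - o)
      (sub_ne_zero.2 fun e => hp.2 (e ▸ ho))
    have e1 : o + r • ee θ = p := by rw [← e]; abel
    refine ⟨θ, ?_⟩
    show o + ρ θ • ee θ = p
    rw [radius_unique hK.isClosed hs ho (ee_ne_zero θ) (pos θ).le r0.le (fr θ) (e1 ▸ hp), e1]
  · refine (tc.strictMono_of_inj fun a b hab => ?_).resolve_right fun h1 => ?_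
    · have e : a + Real.pi / 2 - Real.arctan (κ a) = b + Real.pi / 2 - Real.arctan (κ b) := hab
      have h2 := (sp a).unique hs (e ▸ sp b) (ee_ne_zero _)
      have h3 := congrArg (dt (ee a)) h2
      simp only [dt_add_right, dt_smul_right, dt_ee_ee, sub_self, Real.sin_zero] at h3
      have h4 : ρ b * Real.sin (b - a) = 0 := by linarith
      have h5 := (Real.sin_eq_zero_iff_of_lt_of_lt (x := b - a) (by linarith [b1 a, b2 b])
        (by linarith [b1 b, b2 a])).1 ((mul_eq_zero.1 h4).resolve_left (pos b).ne')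
      linarith
    · have := h1 Real.pi_pos
      simp only at this
      linarith [b1 Real.pi, b2 0]
  · refine tc.surjective (tendsto_atTop_mono (fun θ => ?_) tendsto_id)
      (tendsto_atBot_mono (fun θ => ?_) (tendsto_atBot_add_const_right _ Real.pi tendsto_id))
    · show θ ≤ _
      linarith [b1 θ]
    · show _ ≤ θ + Real.pi
      linarith [b2 θ]

end Pool.Agent.Lib.MP_171f82_an
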