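import Pool.Agent.Lib.MP_171f82_an.NsBoot
import Pool.Agent.Lib.MP_171f82_an.NsPolar
import Pool.Agent.Lib.MP_171f82_an.Main

set_option autoImplicit false

open Set Filter Topology
open scoped ContDiff

namespace Pool.Agent.Lib.MP_171f82_an

variable {K : Set (ℝ × ℝ)} {Γ : ℝ → ℝ × ℝ} {τ μ lam : ℝ → ℝ}

lemma Lf_add_pi (x d : ℝ × ℝ) (v : ℝ) : Lf x d (v + Real.pi) = Lf x d v := by
  simp only [Lf, ee_add_pi, dt_neg_left, Real.log_neg_eq_log]

lemma Ang.ne_of_dt (h : Ang K Γ τ μ) (hnc : NoCorner K) {s t : ℝ}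
    (hd : dt (ee (τ s)) (ee (τ t)) ≠ 0) : Γ s ≠ Γ t := fun e =>
  hd (hnc _ _ _ (ee_ne_zero _) (ee_ne_zero _) (h.supp s) (e ▸ h.supp t))

/-- regularity gain for a centrally symmetric curve -/
theorem step_symm {k : ℕ} (hk : 1 ≤ k) (hK : IsCompact K) (hs : StrictConvex ℝ K)
    (hi : (interior K).Nonempty) (hrect : RectProp K) (hnc : NoCorner K) (h : Ang K Γ τ μ)
    (hΓ : ContDiff ℝ k Γ) (hτ : Continuous τ) (hinv : ∀ v, τ (lam v) = v) {c : ℝ × ℝ}
    (hc : ∀ y, Γ y + Γ (lam (τ y + Real.pi)) = c) (s0 : ℝ) : ContDiffAt ℝ k τ s0 := by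
  have hΓ1 : ContDiff ℝ 1 Γ := hΓ.of_le (by exact_mod_cast hk)
  set y := lam (τ s0 + Real.pi / 2) with hy
  set y' := lam (τ y + Real.pi) with hy'
  have n2 : Γ s0 ≠ Γ y := h.ne_of_dt hnc (by
    rw [hy, hinv, dt_ee_ee, add_sub_cancel_left, Real.sin_pi_div_two]; exact one_ne_zero)
  have n4 : Γ s0 ≠ Γ y' := h.ne_of_dt hnc (by
    rw [hy', hinv, ee_add_pi, dt_neg_right, hy, hinv, dt_ee_ee, add_sub_cancel_left,
      Real.sin_pi_div_two]; norm_num)
  have cΓ := hΓ.continuous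
  have ev : ∀ᶠ s in 𝓝 s0, Par Γ s y (lam (τ s + Real.pi)) y' := by
    filter_upwards [cΓ.continuousAt.eventually_ne n2, cΓ.continuousAt.eventually_ne n4]
      with s m2 m4
    exact ⟨by linear_combination (exp := 1) hc y - hc s, m2, m4⟩
  have hp := ev.self_of_nhds
  obtain ⟨a1, a2, -, -, b1, b2, -, -⟩ := hp.signs hs h
  have x1 : ContDiffAt ℝ k (fun z : ℝ × ℝ => Γ z.1 - Γ y) (s0, τ s0) :=
    (hΓ.contDiffAt.comp _ contDiffAt_fst).sub contDiffAt_const
  have x2 : ContDiffAt ℝ k (fun z : ℝ × ℝ => Γ z.1 - Γ y') (s0, τ s0) :=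
    (hΓ.contDiffAt.comp _ contDiffAt_fst).sub contDiffAt_const
  refine solve_smooth hk (Λ := fun z => Lf (Γ z.1 - Γ y) (Γ z.1 - Γ y') z.2)
    (R := fun s => Lf (Γ s - Γ y) (Γ s - Γ y') (τ y)) hτ.continuousAt
    (cd_Lf x1 x2 contDiffAt_snd a1.ne b1.ne) (hasDerivAt_Lf a1.ne b1.ne)
    (Lg_ne a1.ne b1.ne (hp.dets hs h).1)
    (cd_Lf (hΓ.contDiffAt.sub contDiffAt_const) (hΓ.contDiffAt.sub contDiffAt_const)
      contDiffAt_const a2.ne' b2.ne) (ev.mono fun s q => ?_)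
  have r := par_log hK hs hi hrect h hΓ1 q
  rw [hinv, Lf_add_pi, show τ y' = τ y + Real.pi from hinv _, Lf_add_pi] at r
  show Lf (Γ s - Γ y) (Γ s - Γ y') (τ s) = Lf (Γ s - Γ y) (Γ s - Γ y') (τ y)
  linarith

lemma antipode (hs : StrictConvex ℝ K) (h : Ang K Γ τ μ) (hinv : ∀ v, τ (lam v) = v)
    {s1 s2 s3 s4 : ℝ} (hp : Par Γ s1 s2 s3 s4) (hd : dt (ee (τ s2)) (ee (τ s4)) = 0) :
    Γ (lam (τ s2 + Real.pi)) = Γ s4 := by
  obtain ⟨-, a2, -, a4, -⟩ := hp.signs hs h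
  obtain ⟨c, hc⟩ := exists_smul_of_dt_eq_zero (ee_ne_zero _) hd
  rw [hc, dt_smul_left] at a4
  have c0 : c < 0 := by nlinarith
  have h1 := (h.supp (lam (τ s2 + Real.pi))).smul (neg_nonneg.2 c0.le)
  rw [hinv, ee_add_pi, smul_neg, neg_smul, neg_neg, ← hc] at h1
  exact (h.supp s4).unique hs h1 (ee_ne_zero _)

/-- if all parallelograms at one vertex have antipodal neighbours, the curve is symmetric -/
theorem symm_of_degenerate (hK : IsCompact K) (hs : StrictConvex ℝ K)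
    (hi : (interior K).Nonempty) (hrect : RectProp K) (hnc : NoCorner K) (h : Ang K Γ τ μ)
    (hΓ : ContDiff ℝ 1 Γ) (hτ : Continuous τ) (hmono : StrictMono τ) (hlam : Continuous lam)
    (hinv : ∀ v, τ (lam v) = v) {s0 : ℝ}
    (H : ∀ y s3 s4, Par Γ s0 y s3 s4 → dt (ee (τ y)) (ee (τ s4)) = 0) :
    ∃ c : ℝ × ℝ, ∀ y, Γ y + Γ (lam (τ y + Real.pi)) = c := by
  have hlt : ∀ s, lam (τ s) = s := fun s => hmono.injective (hinv _)
  set Φ : ℝ → ℝ × ℝ := fun y => Γ y + Γ (lam (τ y + Real.pi)) with hΦ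
  have cΓ := hΓ.continuous
  have cΦ : Continuous Φ := cΓ.add (cΓ.comp (hlam.comp (hτ.add continuous_const)))
  have dΦ : ∀ y ∈ Ioo s0 (lam (τ s0 + Real.pi)), HasDerivAt Φ 0 y := by
    intro y hy
    have t1 : τ s0 < τ y := hmono hy.1
    have t2 : τ y < τ s0 + Real.pi := by simpa [hinv] using hmono hy.2
    obtain ⟨s3, s4, hp⟩ := par_exists hK hs hi hrect hnc h (s1 := s0) (s2 := y) (by
      rw [dt_ee_ee]
      exact (Real.sin_pos_of_pos_of_lt_pi (by linarith) (by linarith)).ne')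
    obtain ⟨f3, f4, -, -, e3, -, ev, c3, c4, q3, -, hc⟩ :=
      par_family (k := 1) le_rfl hs h (by exact_mod_cast hΓ) hp
    have c30 : c3 = 0 := by
      have h1 := congrArg (dt (ee (τ y))) hc
      simp only [dt_sub_right, dt_smul_right, dt_neg_right, dt_self, H y s3 s4 hp, mul_zero,
        zero_sub, neg_zero, neg_eq_zero, mul_eq_zero, (h.pos s3).ne', (hp.dets hs h).2.2.2,
        or_false] at h1
      exact h1
    have p3 := h.comp q3.differentiableAt
    rw [q3.deriv, c30, zero_mul, zero_smul] at p3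
    refine (p3.const_add (Γ s0)).congr_of_eventuallyEq ?_
    have tl : Tendsto (fun t : ℝ => (s0, t)) (𝓝 y) (𝓝 (s0, y)) :=
      (continuous_const.prodMk continuous_id).tendsto y
    filter_upwards [tl.eventually ev] with t ht
    show Γ t + Γ (lam (τ t + Real.pi)) = Γ s0 + Γ (f3 (s0, t))
    rw [antipode hs h hinv ht (H _ _ _ ht)]
    linear_combination (exp := 1) ht.eq
  have const : ∀ y ∈ Icc s0 (lam (τ s0 + Real.pi)), Φ y = Φ s0 := by
    intro y hy
    rcases hy.1.lt_or_eq with h1 | h1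
    · have sub : Ioo s0 y ⊆ Ioo s0 (lam (τ s0 + Real.pi)) := Ioo_subset_Ioo_right hy.2
      obtain ⟨_, -, e1⟩ := exists_hasDerivAt_eq_slope (fun t => (Φ t).1) (fun _ => 0) h1
        cΦ.fst.continuousOn fun t ht => (dΦ t (sub ht)).fst
      obtain ⟨_, -, e2⟩ := exists_hasDerivAt_eq_slope (fun t => (Φ t).2) (fun _ => 0) h1
        cΦ.snd.continuousOn fun t ht => (dΦ t (sub ht)).snd
      have h2 : y - s0 ≠ 0 := (sub_pos.2 h1).ne'
      exact Prod.ext (sub_eq_zero.1 ((div_eq_zero_iff.1 e1.symm).resolve_right h2))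
        (sub_eq_zero.1 ((div_eq_zero_iff.1 e2.symm).resolve_right h2))
    · rw [← h1]
  have per : Function.Periodic (fun v => Φ (lam v)) Real.pi := fun v => by
    have h1 := h.supp (lam (v + Real.pi + Real.pi))
    have h2 := h.supp (lam v)
    rw [hinv] at h1 h2
    rw [ee_add_pi, ee_add_pi, neg_neg] at h1
    simp only [hΦ, hinv]
    rw [h2.unique hs h1 (ee_ne_zero _), add_comm]
  refine ⟨Φ s0, fun y => ?_⟩
  obtain ⟨v, hv, e⟩ := per.exists_mem_Ico Real.pi_pos (τ y) (τ s0)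
  simp only [hlt] at e
  refine e.trans (const _ ⟨hmono.le_iff_le.1 ?_, hmono.le_iff_le.1 ?_⟩)
  · rw [hinv]; exact hv.1
  · rw [hinv, hinv]; exact hv.2.le

theorem boot {k : ℕ} (hk : 1 ≤ k) (hK : IsCompact K) (hs : StrictConvex ℝ K)
    (hi : (interior K).Nonempty) (hrect : RectProp K) (hnc : NoCorner K) (h : Ang K Γ τ μ)
    (hΓ : ContDiff ℝ k Γ) (hτ : Continuous τ) (hmono : StrictMono τ)
    (hsurj : Function.Surjective τ) : ContDiff ℝ k τ := by
  let e := hmono.orderIsoOfSurjective τ hsurj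
  have hlam : Continuous e.symm := e.symm.continuous
  have hinv : ∀ v, τ (e.symm v) = v := e.apply_symm_apply
  refine contDiff_iff_contDiffAt.2 fun s0 => ?_
  by_cases H : ∀ y s3 s4, Par Γ s0 y s3 s4 → dt (ee (τ y)) (ee (τ s4)) = 0
  · obtain ⟨c, hc⟩ := symm_of_degenerate hK hs hi hrect hnc h (hΓ.of_le (by exact_mod_cast hk))
      hτ hmono hlam hinv H
    exact step_symm hk hK hs hi hrect hnc h hΓ hτ hinv hc s0
  · simp only [not_forall] at H
    obtain ⟨y, s3, s4, hp, hd⟩ := H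
    exact step_generic hk hK hs hi hrect h hΓ hτ hmono hlam hinv hp hd

/-- the boundary has a smooth regular parametrization -/
theorem smooth_param (hK : IsCompact K) (hs : StrictConvex ℝ K) (hi : (interior K).Nonempty)
    (hrect : RectProp K) (hnc : NoCorner K) : ∃ γ : ℝ → ℝ × ℝ, ContDiff ℝ ∞ γ ∧
      Function.Periodic γ 1 ∧ (∀ t, deriv γ t ≠ 0) ∧ range γ = frontier K := by
  obtain ⟨o, ho⟩ := hi
  obtain ⟨ρ, κ, μ, hρ, hκ, hd, hper, h, hmono, hsurj⟩ := polar_ang hK hs hnc ho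
  have hdiff : Differentiable ℝ ρ := fun t => (hd t).differentiableAt
  have hder : deriv ρ = fun t => ρ t * κ t := funext fun t => (hd t).deriv
  have hcurve : ∀ {n : WithTop ℕ∞}, ContDiff ℝ n ρ → ContDiff ℝ n (fun θ => o + ρ θ • ee θ) :=
    fun hn => contDiff_const.add (hn.smul (Real.contDiff_cos.prodMk Real.contDiff_sin))
  have ind : ∀ k : ℕ, ContDiff ℝ ((k + 1 : ℕ) : WithTop ℕ∞) ρ := by
    intro k
    induction k with
    | zero =>
      have h1 : ContDiff ℝ 1 ρ := contDiff_one_iff_deriv.2 ⟨hdiff, hder ▸ hρ.mul hκ⟩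
      exact_mod_cast h1
    | succ k ih =>
      have h1 := boot (Nat.le_add_left 1 k) hK hs ⟨o, ho⟩ hrect hnc h (hcurve ih) (by fun_prop)
        hmono hsurj
      have h2 : ContDiff ℝ ((k + 1 : ℕ) : WithTop ℕ∞) (fun θ => Real.arctan (κ θ)) := by
        have h3 := ((contDiff_id (𝕜 := ℝ)).add (contDiff_const (c := Real.pi / 2))).sub h1
        simpa using h3
      have h3 : ContDiff ℝ ((k + 1 : ℕ) : WithTop ℕ∞) κ := by
        have e : κ = fun θ => Real.tan (Real.arctan (κ θ)) :=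
          funext fun θ => (Real.tan_arctan _).symm
        rw [e]
        exact contDiff_iff_contDiffAt.2 fun θ =>
          ContDiffAt.comp (g := Real.tan) (f := fun θ => Real.arctan (κ θ)) θ
            (Real.contDiffAt_tan.2 (Real.cos_arctan_pos (κ θ)).ne') h2.contDiffAt
      have h4 : ContDiff ℝ (((k + 1 : ℕ) : WithTop ℕ∞) + 1) ρ :=
        contDiff_succ_iff_deriv.2 ⟨hdiff, by simp, hder ▸ ih.mul h3⟩
      exact_mod_cast h4
  have hinf : ContDiff ℝ ∞ ρ :=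
    contDiff_infty.2 fun n => (ind n).of_le (by exact_mod_cast Nat.le_succ n)
  have p0 : 2 * Real.pi ≠ 0 := by positivity
  refine ⟨fun t => o + ρ (2 * Real.pi * t) • ee (2 * Real.pi * t),
    (hcurve hinf).comp (contDiff_const.mul contDiff_id), fun t => ?_, fun t => ?_, ?_⟩
  · show o + ρ (2 * Real.pi * (t + 1)) • ee (2 * Real.pi * (t + 1)) = _
    have e : ee (2 * Real.pi * t + 2 * Real.pi) = ee (2 * Real.pi * t) := by simp [ee]
    rw [mul_add, mul_one, hper, e]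
  · have q : HasDerivAt (fun t => 2 * Real.pi * t) (2 * Real.pi) t := by
      simpa using (hasDerivAt_id t).const_mul (2 * Real.pi)
    have q1 := h.comp q.differentiableAt
    rw [q.deriv] at q1
    rw [q1.deriv]
    exact smul_ne_zero (mul_ne_zero p0 (h.pos _).ne') (ee_ne_zero _)
  · rw [← h.rng]
    exact (mul_left_surjective₀ p0).range_comp (fun θ => o + ρ θ • ee θ)

theorem ellipse_of_rotHyp_all (hK : IsCompact K) (hs : StrictConvex ℝ K)
    (hi : (interior K).Nonempty) (hrot : RotHyp K) :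
    ∃ A : (ℝ × ℝ) ≃ᵃ[ℝ] (ℝ × ℝ), frontier K = A '' {q : ℝ × ℝ | q.1 ^ 2 + q.2 ^ 2 = 1} := by
  obtain ⟨γ, h1, h2, h3, h4⟩ := smooth_param hK hs hi (rectProp_of_rotHyp hK.isClosed hs hi hrot)
    (noCorner_of_rotHyp hK hs hi hrot)
  exact ellipse_of_rotHyp hK hs hi hrot h1 h2 h3 h4

end Pool.Agent.Lib.MP_171f82_an
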