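import Pool.Agent.Lib.MP_171f82_an.NsCorner
import Pool.Agent.Lib.MP_171f82_an.NsMain

set_option autoImplicit false

open Set Filter Topology
open scoped ContDiff

namespace Pool.Agent.Lib.MP_171f82_an

variable {K : Set (ℝ × ℝ)}

lemma rp_of_invol (hc : IsClosed K) (hs : StrictConvex ℝ K) {u v : ℝ × ℝ} (huv : dt u v ≠ 0)
    {σu σv : ℝ × ℝ → ℝ × ℝ} (h1 : ChordSpec K u σu) (h2 : ChordSpec K v σv)
    (h : ∀ x ∈ frontier K, σv (σu (σv (σu x))) = x) : RP K u v := by
  have hu : u ≠ 0 := by
    rintro rfl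
    exact huv (dt_zero_left _)
  have hv : v ≠ 0 := by
    rintro rfl
    exact huv (dt_zero_right _)
  intro x a b ha hb hx hxa hxb
  have m1 : σu x ∈ frontier K := (h1 x hx).1
  have m2 : σv (σu x) ∈ frontier K := (h2 _ m1).1
  have m3 : σu (σv (σu x)) ∈ frontier K := (h1 _ m2).1
  have e4 := congrArg σv (h x hx)
  rw [h2.invol hc hs hv m3] at e4
  have hcomm := congrArg σu e4
  rw [h1.invol hc hs hu m2, h1.eq_of hc hs hu hx ha hxa, h2.eq_of hc hs hv hx hb hxb] at hcomm
  obtain ⟨k1, ⟨b', e1⟩, -⟩ := h2 _ hxa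
  obtain ⟨-, ⟨a', e2⟩, -⟩ := h1 _ hxb
  rw [e1, e2] at hcomm
  have h3 := congrArg (dt u) hcomm
  simp only [dt_add_right, dt_smul_right, dt_self] at h3
  have h4 : b' = b := mul_right_cancel₀ huv (by linarith)
  rwa [e1, h4] at k1

lemma lens (hs : StrictConvex ℝ K) {T c u v : ℝ × ℝ} {a b ξ η : ℝ} (hT : T ∈ K)
    (hc : c ∈ frontier K) (h1 : c + a • u ∈ K) (h2 : c + b • v ∈ K) (e : c - T = ξ • u + η • v)
    (ha : 0 < a * ξ) (hb : 0 < b * η) (hne : c ≠ T) : False := by
  have a0 : a ≠ 0 := left_ne_zero_of_mul ha.ne'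
  have b0 : b ≠ 0 := left_ne_zero_of_mul hb.ne'
  have p1 : 0 < ξ / a := by
    have : ξ / a = a * ξ / (a * a) := by field_simp
    rw [this]; exact div_pos ha (mul_self_pos.2 a0)
  have p2 : 0 < η / b := by
    have : η / b = b * η / (b * b) := by field_simp
    rw [this]; exact div_pos hb (mul_self_pos.2 b0)
  have p3 : 0 < ξ / a + η / b := add_pos p1 p2
  have m := hs.convex h1 h2 (div_pos p1 p3).le (div_pos p2 p3).le
    (by rw [← add_div, div_self p3.ne'])
  have e1 : (ξ / a / (ξ / a + η / b)) • (c + a • u) + (η / b / (ξ / a + η / b)) • (c + b • v) =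
      c + (ξ / a + η / b)⁻¹ • (c - T) := by
    rw [e]
    generalize hS : ξ / a + η / b = S at p3
    have e2 : η / b = S - ξ / a := by linarith
    have e3 : η = (S - ξ / a) * b := by rw [← e2]; field_simp
    rw [e2, e3]
    ext <;> simp <;> field_simp <;> ring
  rw [e1] at m
  have := between_interior hs (x := c) (sub_ne_zero.2 hne) (p := -1) (q := 0) (by norm_num)
    (inv_pos.2 p3) (by simpa using hT) m
  exact hc.2 (by simpa using this)

lemma rp_dir (hK : IsCompact K) (hs : StrictConvex ℝ K) (hi : (interior K).Nonempty)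
    {u v T B : ℝ × ℝ} (huv : dt u v ≠ 0) (hR : RP K u v) (hT : Supp K u T)
    (hB : Supp K (-u) B) : dt v (B - T) = 0 := by
  have F := @hK.isClosed.frontier_subset
  have hu : u ≠ 0 := by
    rintro rfl
    exact huv (dt_zero_left _)
  have hv : v ≠ 0 := by
    rintro rfl
    exact huv (dt_zero_right _)
  have fT := hT.mem_frontier hu
  by_cases h0 : ∀ t : ℝ, T + t • v ∈ frontier K → t = 0
  · exfalso
    have sT := supp_of_line hK hs hv fT h0
    obtain ⟨ε, hε⟩ : ∃ ε : ℝ, ∀ c ∈ K, c ≠ T → 0 < ε * dt v (c - T) := by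
      rcases sT with h | h
      · exact ⟨1, fun c m n => by
          have := h.lt hs hv m n
          rw [dt_sub_right]; linarith⟩
      · exact ⟨-1, fun c m n => by
          have := h.lt hs (neg_ne_zero.2 hv) m n
          rw [dt_neg_left, dt_neg_left] at this
          rw [dt_sub_right]; linarith⟩
    have L : ∀ (c : ℝ × ℝ) (a b : ℝ), c ∈ frontier K → c + a • u ∈ frontier K →
        c + b • v ∈ frontier K → a * (ε * dt u v) < 0 → 0 < b * dt u v → False := by
      intro c a b m0 m1 m2 ha hb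
      have n : c ≠ T := by
        rintro rfl
        rw [h0 b m2, zero_mul] at hb
        exact lt_irrefl _ hb
      have q1 := hε c (F m0) n
      have q2 := hT.lt hs hu (F m0) n
      have D := mul_self_pos.2 huv
      have e1 := congrArg (fun z : ℝ × ℝ => (dt u v)⁻¹ • z) (dt_decomp u v (c - T))
      simp only [smul_add, smul_smul, inv_mul_cancel₀ huv, one_smul] at e1
      have ε0 : ε ≠ 0 := left_ne_zero_of_mul q1.ne'
      refine lens hs hT.1 m0 (F m1) (F m2) e1 ?_ ?_ n
      · have e2 : a * ((dt u v)⁻¹ * dt (c - T) v) =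
            -(a * (ε * dt u v)) * (ε * dt v (c - T)) / (ε * ε * (dt u v * dt u v)) := by
          rw [dt_swap (c - T) v]; field_simp
        rw [e2]
        exact div_pos (mul_pos (neg_pos.2 ha) q1) (mul_pos (mul_self_pos.2 ε0) D)
      · have e2 : b * ((dt u v)⁻¹ * dt u (c - T)) =
            b * dt u v * (dt u c - dt u T) / (dt u v * dt u v) := by
          rw [dt_sub_right]; field_simp
        rw [e2]
        exact div_pos (mul_pos hb (sub_pos.2 q2)) D
    obtain ⟨o, ho⟩ := hi
    have oT : o ≠ T := fun e => fT.2 (e ▸ ho)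
    have ε0 : ε ≠ 0 := left_ne_zero_of_mul (hε o (interior_subset ho) oT).ne'
    have R : ∀ (c : ℝ × ℝ) (a b : ℝ), a ≠ 0 → b ≠ 0 → c ∈ frontier K → c + a • u ∈ frontier K →
        c + b • v ∈ frontier K → False := by
      intro c a b a0 b0 m0 m1 m2
      have m3 := hR c a b a0 b0 m0 m1 m2
      have m3' : c + b • v + a • u ∈ frontier K := by rwa [add_right_comm]
      rcases lt_or_gt_of_ne (mul_ne_zero a0 (mul_ne_zero ε0 huv)) with ha | ha <;>
        rcases lt_or_gt_of_ne (mul_ne_zero b0 huv) with hb | hb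
      · exact L _ a (-b) m2 m3' (by simpa using m0) ha (by linarith)
      · exact L _ a b m0 m1 m2 ha hb
      · exact L _ (-a) (-b) m3 (by rw [add_right_comm]; simpa using m2) (by simpa using m1)
          (by linarith) (by linarith)
      · exact L _ (-a) b m1 (by simpa using m0) m3 (by linarith) hb
    obtain ⟨s, s0, f1⟩ := exit_point hK hu (interior_subset ho)
    obtain ⟨t, t0, f2⟩ := exit_point hK (neg_ne_zero.2 hu) (interior_subset ho)
    have s1 : s ≠ 0 := by
      rintro rfl
      exact f1.2 (by simpa using ho)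
    have st : s + t ≠ 0 := by linarith [lt_of_le_of_ne s0 s1.symm] 
    have e1 : o + s • u + (-(s + t)) • u = o + t • -u := by
      ext <;> simp <;> ring
    have e2 : o + t • -u + (s + t) • u = o + s • u := by
      ext <;> simp <;> ring
    have g1 := supp_of_line hK hs hv f1 fun b m => by
      by_contra b0
      exact R _ _ b (neg_ne_zero.2 st) b0 f1 (e1 ▸ f2) m
    have g2 := supp_of_line hK hs hv f2 fun b m => by
      by_contra b0
      exact R _ _ b st b0 f2 (e2 ▸ f1) m
    have lt := hT.lt hs hu (interior_subset ho) oT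
    have n1 : o + s • u ≠ T := fun e => by
      rw [← e, dt_add_right, dt_smul_right, dt_self] at lt
      linarith
    have n2 : o + t • -u ≠ T := fun e => by
      rw [← e, dt_add_right, dt_smul_right, dt_neg_right, dt_self] at lt
      linarith
    have n3 : o + t • -u ≠ o + s • u := fun e => by
      rw [← e2] at e
      exact smul_ne_zero st hu (by simpa using e)
    have hv' := neg_ne_zero.2 hv
    rcases sT with k | k <;> rcases g1 with k1 | k1 <;> rcases g2 with k2 | k2
    · exact n1 (k.unique hs k1 hv)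
    · exact n1 (k.unique hs k1 hv)
    · exact n2 (k.unique hs k2 hv)
    · exact n3 (k1.unique hs k2 hv')
    · exact n3 (k1.unique hs k2 hv)
    · exact n2 (k.unique hs k2 hv')
    · exact n1 (k.unique hs k1 hv')
    · exact n1 (k.unique hs k1 hv')
  · simp only [not_forall] at h0
    obtain ⟨b, m, b0⟩ := h0
    have k : ∀ a : ℝ, T + b • v + a • u ∈ frontier K → a = 0 := fun a ma => by
      by_contra a0
      have := hR _ a (-b) a0 (neg_ne_zero.2 b0) m ma (by simpa using fT)
      rw [add_right_comm] at this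
      exact a0 (hT.line hs hu (F (by simpa using this)))
    rcases supp_of_line hK hs hu m k with h | h
    · exact absurd (by simpa using hT.unique hs h hu) (smul_ne_zero b0 hv)
    · rw [← hB.unique hs h (neg_ne_zero.2 hu), add_sub_cancel_left, dt_smul_right, dt_self,
        mul_zero]

lemma rect_of_rp (hK : IsCompact K) (hs : StrictConvex ℝ K) (hi : (interior K).Nonempty)
    (h : ∀ u : ℝ × ℝ, u ≠ 0 → ∃ v, dt u v ≠ 0 ∧ RP K u v) : RectProp K := by
  intro u T B hu hT hB x a b ha hb hx hxa hxb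
  obtain ⟨v, huv, hR⟩ := h u hu
  have hv : v ≠ 0 := by
    rintro rfl
    exact huv (dt_zero_right _)
  obtain ⟨c, hc⟩ := exists_smul_of_dt_eq_zero hv (rp_dir hK hs hi huv hR hT hB)
  have c0 : c ≠ 0 := by
    rintro rfl
    exact diam_ne_zero hi hu hT hB (by simpa using hc)
  rw [hc, smul_smul] at hxb ⊢
  exact hR x a _ ha (mul_ne_zero hb c0) hx hxa hxb

lemma radon_of_rect (hK : IsCompact K) (hs : StrictConvex ℝ K) (hi : (interior K).Nonempty)
    (hrect : RectProp K) : RadonProp K := by
  intro u T B L R hu hT hB hR hL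
  have hw := width_pos hi hu hT hB
  have h1 : RP K u (B - T) := hrect u T B hu hT hB
  exact rp_dir hK hs hi (by rw [dt_swap]; exact neg_ne_zero.2 hw.ne') h1.symm hR hL

theorem ellipse_of_oriented' (hK : IsCompact K) (hs : StrictConvex ℝ K)
    (hi : (interior K).Nonempty) (hrect : RectProp K) {γ : ℝ → ℝ × ℝ} (hγ : ContDiff ℝ ∞ γ)
    (hper : Function.Periodic γ 1) (hg : ∀ t, deriv γ t ≠ 0) (hrange : range γ = frontier K)
    (hsupp : ∀ t, Supp K (deriv γ t) (γ t)) :
    ∃ A : (ℝ × ℝ) ≃ᵃ[ℝ] (ℝ × ℝ), frontier K = A '' {q : ℝ × ℝ | q.1 ^ 2 + q.2 ^ 2 = 1} := by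
  have hrad := radon_of_rect hK hs hi hrect
  obtain ⟨d0, s1⟩ := contDiff_infty_iff_deriv.1 hγ
  obtain ⟨d1, s2⟩ := contDiff_infty_iff_deriv.1 s1
  obtain ⟨M, hM⟩ := ((periodic_deriv (periodic_deriv hper)).isBounded_of_continuous one_ne_zero
    s2.continuous).exists_norm_le
  have hcurv := curv_pos hK hs hi hrad (fun t => (d0 t).hasDerivAt) (fun t => (d1 t).hasDerivAt)
    (M := M) (fun t => hM _ ⟨t, rfl⟩) hg hsupp (fun x hx => by rw [← hrange] at hx; exact hx)
  obtain ⟨Γ, r, hr, hr0, hΓ, hrg, hθ⟩ := exists_angle_param hγ hper hg hcurv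
  rw [← hrange, ← hrg]
  refine ellipse_of_angle_param hK hs hi hrect hrad hr hr0 hΓ fun θ => ?_
  obtain ⟨t, a, ha, e1, e2⟩ := hθ θ
  rw [e1, e2]
  exact (hsupp t).smul ha

/-- the inscribed parallelogram property characterizes ellipses among strictly convex bodies -/
theorem ellipse_of_rect (hK : IsCompact K) (hs : StrictConvex ℝ K) (hi : (interior K).Nonempty)
    (hrect : RectProp K) :
    ∃ A : (ℝ × ℝ) ≃ᵃ[ℝ] (ℝ × ℝ), frontier K = A '' {q : ℝ × ℝ | q.1 ^ 2 + q.2 ^ 2 = 1} := by
  obtain ⟨γ, hγ, hper, hg, hrange⟩ := smooth_param hK hs hi hrect (noCorner_of_rect hK hs hi hrect)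
  obtain ⟨d0, s1⟩ := contDiff_infty_iff_deriv.1 hγ
  rcases orientation hK.isClosed hs hi (fun s => hrange ▸ mem_range_self s)
    (fun t => (d0 t).hasDerivAt) s1.continuous hg with h | h
  · exact ellipse_of_oriented' hK hs hi hrect hγ hper hg hrange h
  · have hd : ∀ t, deriv (fun s => γ (-s)) t = - deriv γ (-t) := fun t => deriv_comp_neg γ t
    refine ellipse_of_oriented' hK hs hi hrect (γ := fun s => γ (-s)) (hγ.comp contDiff_neg)
      (fun t => ?_) (fun t => ?_) ?_ (fun t => ?_)
    · show γ (-(t + 1)) = γ (-t)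
      rw [neg_add, ← sub_eq_add_neg]
      exact hper.sub_eq (-t)
    · rw [hd]; exact neg_ne_zero.2 (hg _)
    · rw [← hrange]
      exact neg_surjective.range_comp γ
    · rw [hd]; exact h (-t)

end Pool.Agent.Lib.MP_171f82_an
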