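import Pool.Agent.Lib.MP_171f82_an.OpFam

set_option autoImplicit false

open Set Filter Topology
open scoped ContDiff

namespace Pool.Agent.Lib.MP_171f82_an

variable {K : Set (ℝ × ℝ)}

lemma RP.of_par {x d x' d' : ℝ × ℝ} {l m : ℝ} (h : RP K x d) (hl : l ≠ 0) (hm : m ≠ 0)
    (e1 : x = l • x') (e2 : d = m • d') : RP K x' d' := by
  intro z a b ha hb h0 h1 h2
  have := h z (a / l) (b / m) (div_ne_zero ha hl) (div_ne_zero hb hm) h0
  rw [e1, e2, smul_smul, smul_smul, div_mul_cancel₀ _ hl, div_mul_cancel₀ _ hm] at this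
  exact this h1 h2

theorem Fam.ellipse (hK : IsCompact K) (hs : StrictConvex ℝ K) (hi : (interior K).Nonempty)
    (hF : IsPreconnected (frontier K)) {Θ : ℝ → ℝ} {A B n : ℝ → ℝ × ℝ} {v k Q Q1 Q2 : ℝ → ℝ}
    {S E : ℝ} (h : Fam Θ A (fun t => B t - A t) n v k Q Q1 Q2 S E) (hk : ∀ t, k t = k 0)
    (sA : ContDiff ℝ ∞ A) (sB : ContDiff ℝ ∞ B) (hA : ∀ t, Supp K (ee (Θ t)) (A t))
    (hB : ∀ t, Supp K (-ee (Θ t)) (B t)) (hR : ∀ t, RP K (ee (Θ t)) (B t - A t)) :
    ∃ L : (ℝ × ℝ) ≃ᵃ[ℝ] (ℝ × ℝ), frontier K = L '' {q : ℝ × ℝ | q.1 ^ 2 + q.2 ^ 2 = 1} := by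
  set c : ℝ → ℝ × ℝ := fun t => B t - A t with hc
  have κ0 := h.kpos 0
  have κS := sub_pos.2 (h.kS 0)
  have S0 := h.Spos
  obtain ⟨g, hg⟩ : ∃ g, g = S / (k 0 * (S - k 0)) := ⟨_, rfl⟩
  have g0 : 0 < g := by rw [hg]; positivity
  have dc : ∀ t, HasDerivAt c ((-(v t * g)) • n t) t := fun t => by
    have := h.dc t
    rwa [h.Qe, hk, ← hg] at this
  have dA : ∀ t, HasDerivAt A ((v t / k 0) • n t) t := fun t => hk t ▸ h.dA t
  have dB : ∀ t, HasDerivAt B ((v t / k 0 - v t * g) • n t) t := fun t => by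
    have := (dA t).fun_add (dc t)
    simp only [hc, add_sub_cancel] at this
    rwa [← add_smul] at this
  have dO : ∀ t, HasDerivAt (fun t => A t + (k 0 * g)⁻¹ • c t) 0 t := fun t => by
    refine HasDerivAt.congr_deriv ((dA t).fun_add ((dc t).const_smul (k 0 * g)⁻¹)) ?_
    rw [smul_smul, ← add_smul, show v t / k 0 + (k 0 * g)⁻¹ * -(v t * g) = 0 by field_simp; ring,
      zero_smul]
  obtain ⟨O, hO⟩ : ∃ O, ∀ t, A t + (k 0 * g)⁻¹ • c t = O :=
    ⟨_, fun t => is_const_of_deriv_eq_zero (fun t => (dO t).differentiableAt)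
      (fun t => (dO t).deriv) t 0⟩
  have hβ : ∀ (z w : ℝ × ℝ) (t : ℝ), dt z (c 0) * dt w (c 0) + g * (dt z (n 0) * dt w (n 0)) =
      dt z (c t) * dt w (c t) + g * (dt z (n t) * dt w (n t)) := fun z w t => by
    have d : ∀ t, HasDerivAt (fun t => dt z (c t) * dt w (c t) + g * (dt z (n t) * dt w (n t)))
        0 t := fun t => by
      have a1 := hasDerivAt_dt (hasDerivAt_const t z) (dc t)
      have a2 := hasDerivAt_dt (hasDerivAt_const t z) (h.dn t)
      have a3 := hasDerivAt_dt (hasDerivAt_const t w) (dc t)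
      have a4 := hasDerivAt_dt (hasDerivAt_const t w) (h.dn t)
      rw [dt_zero_left, zero_add, dt_smul_right] at a1 a2 a3 a4
      refine HasDerivAt.congr_deriv ((a1.fun_mul a3).fun_add ((a2.fun_mul a4).const_mul g)) ?_
      ring
    exact is_const_of_deriv_eq_zero (fun t => (d t).differentiableAt) (fun t => (d t).deriv) 0 t
  have nc : ∀ t, dt (n t) (c t) = 1 := h.nc
  set s := Real.sqrt g with hsd
  have s0 : 0 < s := Real.sqrt_pos.2 g0
  have ssq : s ^ 2 = g := Real.sq_sqrt g0.le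
  obtain ⟨L, hL⟩ := exists_affine O (n 0) (s⁻¹ • c 0) (by
    rw [dt_smul_right, nc]; positivity)
  let H : (ℝ × ℝ) ≃ₜ (ℝ × ℝ) := L.toContinuousAffineEquiv.toHomeomorph
  have HL : ∀ x, H x = L x := fun _ => rfl
  have fr : frontier (H ⁻¹' K) = H ⁻¹' frontier K := (H.preimage_frontier K).symm
  have La : ∀ (z w : ℝ × ℝ) (a : ℝ), L (z + a • w) = L z + a • (w.1 • n 0 + w.2 • s⁻¹ • c 0) := by
    intro z w a
    simp only [hL, Prod.fst_add, Prod.snd_add, Prod.smul_fst, Prod.smul_snd, smul_eq_mul,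
      add_smul, smul_add, mul_smul]
    abel
  -- nearby directions
  have cn : Continuous n := continuous_iff_continuousAt.2 fun t => (h.dn t).continuousAt
  have dX : HasDerivAt (fun t => dt (n 0) (n t)) (v 0) 0 := by
    have := hasDerivAt_dt (hasDerivAt_const 0 (n 0)) (h.dn 0)
    rwa [dt_zero_left, zero_add, dt_smul_right, h.nc, mul_one] at this
  have sl := (hasDerivAt_iff_tendsto_slope.1 dX).eventually (lt_mem_nhds (h.vpos 0))
  simp only [slope_def_field, dt_self, sub_zero] at sl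
  obtain ⟨t1, p1, q1⟩ := ((sl.filter_mono (nhdsWithin_mono 0 fun x (hx : x ∈ Iio 0) => hx.ne)).and
    self_mem_nhdsWithin).exists
  obtain ⟨t2, p2, q2⟩ := ((sl.filter_mono (nhdsWithin_mono 0 fun x (hx : x ∈ Ioi 0) => hx.ne')).and
    self_mem_nhdsWithin).exists
  have r1 : dt (n 0) (n t1) < 0 := (div_pos_iff.1 p1).elim (fun a => absurd a.2 q1.not_gt) And.left
  have r2 : 0 < dt (n 0) (n t2) := (div_pos_iff_of_pos_right q2).1 p2
  have cψ : ∀ t, Continuous fun ε : ℝ => dt (n 0 + ε • s⁻¹ • c 0) (n t) := fun t => by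
    unfold dt; fun_prop
  obtain ⟨δ, δ0, hδ⟩ := Metric.eventually_nhds_iff.1
    (((cψ t1).continuousAt.eventually (gt_mem_nhds (show _ < (0 : ℝ) by simpa using r1))).and
      ((cψ t2).continuousAt (x := 0) |>.eventually (lt_mem_nhds (show (0 : ℝ) < _ by
        simpa using r2))))
  have hRP : ∀ ε, |ε| < δ → RP (H ⁻¹' K) (1, ε) (-ε, 1) := by
    intro ε hε
    obtain ⟨y1, y2⟩ := hδ (y := ε) (by simpa using hε)
    obtain ⟨t, ht⟩ := intermediate_value_univ t1 t2
      ((continuous_dt_right (n 0 + ε • s⁻¹ • c 0)).comp cn) ⟨y1.le, y2.le⟩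
    have ne : n 0 + ε • s⁻¹ • c 0 ≠ 0 := fun e => by
      have := congrArg (fun z => dt z (c 0)) e
      simp [dt_add_left, dt_smul_left, dt_self, nc, dt_zero_left] at this
    obtain ⟨l, hl⟩ := exists_smul_of_dt_eq_zero ne ht
    have l0 : l ≠ 0 := fun e => by
      have := nc t
      rw [hl, e, zero_smul, dt_zero_left] at this
      exact zero_ne_one this
    have b := hβ (n t) (c t) t
    rw [dt_self, dt_self, mul_zero, zero_mul, mul_zero, add_zero, hl] at b
    simp only [dt_smul_left, dt_add_left, dt_self, nc, dt_swap (c 0) (n 0), dt_swap (c t) (n 0)] at b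
    have b1 : dt (c t) (c 0) = -(s * ε) * dt (n 0) (c t) := by
      apply mul_left_cancel₀ (mul_ne_zero l0 s0.ne')
      rw [← ssq] at b
      field_simp at b
      linear_combination b
    have e2 : c t = (s * dt (n 0) (c t)) • ((-ε) • n 0 + s⁻¹ • c 0) := by
      have := dt_decomp (n 0) (c 0) (c t)
      rw [nc, one_smul, b1] at this
      rw [smul_add, smul_smul, smul_smul, mul_right_comm s _ s⁻¹, mul_inv_cancel₀ s0.ne', one_mul]
      refine this.trans ?_
      congr 2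
      ring
    obtain ⟨ρ, ρ0, hρ⟩ := h.dir t
    have R := (hR t).of_par (x' := n 0 + ε • s⁻¹ • c 0) (l := ρ⁻¹ * l)
      (mul_ne_zero (inv_ne_zero ρ0.ne') l0) (fun e => by
        have := nc t
        rw [e2, e, zero_smul, dt_zero_right] at this
        exact zero_ne_one this)
      (by rw [mul_smul, ← hl, hρ, smul_smul, inv_mul_cancel₀ ρ0.ne', one_smul]) e2
    intro z a b ha hb h0 h1 h2
    simp only [fr, mem_preimage, HL, La, one_smul] at h0 h1 h2 ⊢
    exact R _ a b ha hb h0 h1 h2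
  obtain ⟨ρ, ρ0, hρ⟩ := h.dir 0
  have hF1 : ∀ t, A t ∈ frontier K := fun t => (hA t).mem_frontier (ee_ne_zero _)
  have hF2 : ∀ t, B t ∈ frontier K := fun t => (hB t).mem_frontier (neg_ne_zero.2 (ee_ne_zero _))
  have arc : ∀ (Γ : ℝ → ℝ × ℝ) (p : ℝ) (x : ℝ × ℝ), (∀ t, Γ t = O + p • c t) → L x = Γ 0 →
      (∃ W ∈ 𝓝 (Γ 0), W ∩ frontier K ⊆ range Γ) → Cn (H ⁻¹' K) x := by
    rintro Γ p x e1 e2 ⟨W, w1, w2⟩
    refine ⟨H ⁻¹' W, H.continuous.continuousAt.preimage_mem_nhds (by rwa [HL, e2]),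
      (countable_singleton (p ^ 2 * g)).mono ?_⟩
    rintro _ ⟨y, ⟨y1, y2⟩, rfl⟩
    rw [fr] at y2
    obtain ⟨t, ht⟩ := w2 ⟨y1, y2⟩
    rw [HL, hL, e1, add_right_inj] at ht
    have a1 := congrArg (fun z => dt z (c 0)) ht
    have a2 := congrArg (fun z => dt z (n 0)) ht
    have a3 := hβ (c t) (c t) t
    simp only [dt_add_left, dt_smul_left, dt_self, nc, dt_swap (c 0) (n 0),
      dt_swap (c t) (n t)] at a1 a2 a3
    have a4 : y.2 = -(s * p * dt (c t) (n 0)) := by
      field_simp at a2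
      linear_combination a2
    show fq y = p ^ 2 * g
    rw [fq, a4]
    linear_combination p ^ 2 * a3 + (p * dt (c t) (n 0)) ^ 2 * ssq -
      (y.1 + p * dt (c t) (c 0)) * a1
  have dL : ∀ y : ℝ × ℝ, dt (n 0) (L y) = dt (n 0) O + s⁻¹ * dt (1, 0) y := fun y => by
    rw [hL]
    simp only [dt_add_right, dt_smul_right, dt_self, nc]
    simp only [dt]
    ring
  have n0 : n 0 ≠ 0 := hρ ▸ smul_ne_zero ρ0.ne' (ee_ne_zero _)
  have si := inv_pos.2 s0
  obtain ⟨R, R0, hR⟩ := circle_of_rp (H.isCompact_preimage.2 hK)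
    (hs.affine_preimage (f := L.toAffineMap) H.continuous L.injective)
    (by rw [← H.preimage_interior]; exact hi.preimage H.surjective)
    (by rw [fr]; exact H.isPreconnected_preimage.2 hF) δ0 hRP (by
      rintro x (hx | hx)
      · refine arc A (-(k 0 * g)⁻¹) x (fun t => by rw [← hO t, neg_smul]; abel)
          ((hρ ▸ (hA 0).smul ρ0.le : Supp K (n 0) (A 0)).unique hs ⟨hx.1, fun y hy => ?_⟩ n0)
          (arc_nhds hK hs hF1 (sA.contDiffAt.hasStrictDerivAt' (dA 0) (by simp))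
            (div_pos (h.vpos 0) κ0).ne' (c := c 0) (by rw [nc]; exact one_ne_zero)
            (by simpa [hc] using hF2 0))
        obtain ⟨y, rfl⟩ := L.surjective y
        rw [dL, dL]
        have := hx.2 y hy
        gcongr
      · refine arc B (1 - (k 0 * g)⁻¹) x (fun t => by
            rw [← hO t, sub_smul, one_smul]; simp only [hc]; abel)
          ((by rw [hρ, ← smul_neg]; exact (hB 0).smul ρ0.le : Supp K (-n 0) (B 0)).unique hs
            ⟨hx.1, fun y hy => ?_⟩ (neg_ne_zero.2 n0))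
          (arc_nhds hK hs hF2 (sB.contDiffAt.hasStrictDerivAt' (dB 0) (by simp)) ?_ (c := -c 0)
            (by rw [dt_neg_right, nc]; norm_num) (by simpa [hc] using hF1 0))
        · obtain ⟨y, rfl⟩ := L.surjective y
          have := hx.2 y hy
          rw [dt_neg_left, dt_neg_left] at this ⊢
          rw [dL, dL]
          nlinarith
        · have v0 := h.vpos 0
          rw [hg, show v 0 / k 0 - v 0 * (S / (k 0 * (S - k 0))) = -(v 0 / (S - k 0)) by
            field_simp; ring]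
          exact neg_ne_zero.2 (by positivity))
  obtain ⟨M, hM⟩ := exists_affine O (R • n 0) (R • s⁻¹ • c 0) (by
    rw [dt_smul_left, dt_smul_right, dt_smul_right, nc]; positivity)
  have ML : ∀ q : ℝ × ℝ, M q = L (R • q) := fun q => by
    simp only [hM, hL, Prod.smul_fst, Prod.smul_snd, smul_eq_mul, smul_smul]
    congr 3 <;> ring
  rw [fr] at hR
  refine ⟨M, Subset.antisymm (fun x hx => ?_) ?_⟩
  · obtain ⟨y, rfl⟩ := L.surjective x
    have : fq y = R ^ 2 := (hR.subset : _ ⊆ {x | fq x = R ^ 2}) hx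
    refine ⟨R⁻¹ • y, ?_, by rw [ML, smul_smul, mul_inv_cancel₀ R0.ne', one_smul]⟩
    simp only [fq, mem_ofPred_eq, Prod.smul_fst, Prod.smul_snd, smul_eq_mul] at this ⊢
    field_simp
    linear_combination this
  · rintro _ ⟨q, hq, rfl⟩
    rw [ML]
    refine hR.symm.subset (?_ : fq (R • q) = R ^ 2)
    have hq' : q.1 ^ 2 + q.2 ^ 2 = 1 := hq
    simp only [fq, Prod.smul_fst, Prod.smul_snd, smul_eq_mul]
    linear_combination R ^ 2 * hq'

end Pool.Agent.Lib.MP_171f82_an
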