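import Pool.Agent.Lib.MP_171f82_an.Ode

set_option autoImplicit false

open Set Filter Topology

namespace Pool.Agent.Lib.MP_171f82_an

lemma ode_int {ω k k1 k2 k3 : ℝ → ℝ} {S : ℝ}
    (hk : ∀ t, HasDerivAt k (ω t * k1 t) t) (hk1 : ∀ t, HasDerivAt k1 (ω t * k2 t) t)
    (hk2 : ∀ t, HasDerivAt k2 (ω t * k3 t) t) (hk0 : ∀ t, 0 < k t) (hm0 : ∀ t, k t < S)
    (hA : ∀ t, (-2 * k1 t * k2 t + 3 * (S - 2 * k t) * k3 t) * (k t * (S - k t)) ^ 2 +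
      9 * S ^ 3 * (S - 2 * k t) * k1 t = 0) :
    ∃ (E : ℝ) (Q Q1 Q2 : ℝ → ℝ), (∀ t, Q t = k t * (S - k t)) ∧ (∀ t, HasDerivAt Q (ω t * Q1 t) t) ∧
      (∀ t, HasDerivAt Q1 (ω t * Q2 t) t) ∧
      ∀ t, (S ^ 2 - 4 * Q t) * (3 * Q t * Q2 t - 9 * S ^ 3 - E * Q t) + 8 * Q t * Q1 t ^ 2 = 0 := by
  set Q : ℝ → ℝ := fun t => k t * (S - k t) with hQ
  set Q1 : ℝ → ℝ := fun t => k1 t * (S - 2 * k t) with hQ1
  set Q2 : ℝ → ℝ := fun t => k2 t * (S - 2 * k t) - 2 * k1 t ^ 2 with hQ2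
  have Qpos : ∀ t, 0 < Q t := fun t => mul_pos (hk0 t) (sub_pos.2 (hm0 t))
  have dQ : ∀ t, HasDerivAt Q (ω t * Q1 t) t := fun t => by
    refine HasDerivAt.congr_deriv ((hk t).fun_mul ((hk t).const_sub S)) ?_
    simp only [hQ1]; ring
  have dQ1 : ∀ t, HasDerivAt Q1 (ω t * Q2 t) t := fun t => by
    refine HasDerivAt.congr_deriv ((hk1 t).fun_mul (((hk t).const_mul 2).const_sub S)) ?_
    simp only [hQ2]; ring
  have dI : ∀ t, HasDerivAt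
      (fun t => 3 * (S - 2 * k t) * k2 t + 2 * k1 t ^ 2 - 9 * S ^ 3 * (Q t)⁻¹) 0 t := fun t => by
    refine HasDerivAt.congr_deriv (((((((hk t).const_mul 2).const_sub S).const_mul 3).fun_mul
      (hk2 t)).fun_add (((hk1 t).fun_pow 2).const_mul 2)).fun_sub
      (((dQ t).fun_inv (Qpos t).ne').const_mul (9 * S ^ 3))) ?_
    have h1 := hA t
    have h2 := (Qpos t).ne'
    have h3 : k t * (S - k t) = Q t := rfl
    rw [h3] at h1
    simp only [hQ1]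
    push_cast
    field_simp
    linear_combination ω t * h1
  obtain ⟨E, hE⟩ : ∃ E, ∀ t, 3 * (S - 2 * k t) * k2 t + 2 * k1 t ^ 2 - 9 * S ^ 3 * (Q t)⁻¹ = E :=
    ⟨_, fun t => is_const_of_deriv_eq_zero (fun t => (dI t).differentiableAt)
      (fun t => (dI t).deriv) t 0⟩
  refine ⟨E, Q, Q1, Q2, fun _ => rfl, dQ, dQ1, fun t => ?_⟩
  have h1 := hE t
  have h2 := (Qpos t).ne'
  have h3 : (3 * (S - 2 * k t) * k2 t + 2 * k1 t ^ 2) * Q t - 9 * S ^ 3 = E * Q t := by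
    rw [← h1]; field_simp
  have h4 : S ^ 2 - 4 * Q t = (S - 2 * k t) ^ 2 := by simp only [hQ]; ring
  rw [h4, ← h3]
  simp only [hQ1, hQ2]
  ring

lemma ode_two {ω ω' Q Q1 Q2 P P1 P2 : ℝ → ℝ} {S S' E E' ν m : ℝ} (hS : 0 < S) (hν : 0 < ν)
    (hm : 0 < m) (hω : ∀ t, 0 < ω t) (Qpos : ∀ t, 0 < Q t)
    (dQ : ∀ t, HasDerivAt Q (ω t * Q1 t) t) (dQ1 : ∀ t, HasDerivAt Q1 (ω t * Q2 t) t)
    (E1 : ∀ t, (S ^ 2 - 4 * Q t) * (3 * Q t * Q2 t - 9 * S ^ 3 - E * Q t) + 8 * Q t * Q1 t ^ 2 = 0)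
    (dP : ∀ t, HasDerivAt P (ω' t * P1 t) t) (dP1 : ∀ t, HasDerivAt P1 (ω' t * P2 t) t)
    (F1 : ∀ t, (S' ^ 2 - 4 * P t) * (3 * P t * P2 t - 9 * S' ^ 3 - E' * P t) +
      8 * P t * P1 t ^ 2 = 0)
    (hφ : ∀ t, ω' t * Q t = ω t * ν) (hrad : ∀ t, Q t * P t = m * ν ^ 2) (t : ℝ) : Q t = Q 0 := by
  have R0 : P = fun t => m * ν ^ 2 * (Q t)⁻¹ := funext fun t => by
    have h2 := (Qpos t).ne'
    rw [← hrad t]; field_simp
  have hφ' : ∀ t, ω' t = ω t * ν * (Q t)⁻¹ := fun t => by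
    have h2 := (Qpos t).ne'
    rw [← hφ t]; field_simp
  have R1 : P1 = fun t => -(m * ν) * (Q1 t * (Q t)⁻¹) := funext fun t => by
    have a2 := ((dQ t).fun_inv (Qpos t).ne').const_mul (m * ν ^ 2)
    have a3 := (R0 ▸ dP t).unique a2
    have h2 := (Qpos t).ne'
    have h3 := (hω t).ne'
    have h4 := hν.ne'
    rw [hφ'] at a3
    field_simp at a3 ⊢
    linear_combination a3
  have R2 : ∀ t, P2 t = -m * (Q2 t - Q1 t ^ 2 * (Q t)⁻¹) := fun t => by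
    have a2 := ((dQ1 t).fun_mul ((dQ t).fun_inv (Qpos t).ne')).const_mul (-(m * ν))
    have a3 := (R1 ▸ dP1 t).unique a2
    have h2 := (Qpos t).ne'
    have h3 := (hω t).ne'
    have h4 := hν.ne'
    rw [hφ'] at a3
    field_simp at a3 ⊢
    linear_combination a3
  obtain ⟨μ, hμ⟩ : ∃ μ, μ = m * ν ^ 2 := ⟨_, rfl⟩
  obtain ⟨M, hM⟩ : ∃ M, M = μ * m := ⟨_, rfl⟩
  have μpos : 0 < μ := by rw [hμ]; positivity
  have Mpos : 0 < M := by rw [hM]; positivity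
  have E2 : ∀ t, (S' ^ 2 * Q t - 4 * μ) * (-3 * M * Q t * Q2 t + 3 * M * Q1 t ^ 2 -
      9 * S' ^ 3 * Q t ^ 2 - E' * μ * Q t) + 8 * μ * M * Q1 t ^ 2 = 0 := fun t => by
    have h1 := F1 t
    rw [R2, R1, R0] at h1
    have h2 := (Qpos t).ne'
    field_simp at h1
    rw [hM, hμ]
    linear_combination h1
  set B : ℝ → ℝ := fun x => -4 * S' ^ 2 * x ^ 2 + (3 * S ^ 2 * S' ^ 2 - 16 * μ) * x - 4 * S ^ 2 * μ
    with hB
  set B1 : ℝ → ℝ := fun x => -8 * S' ^ 2 * x + (3 * S ^ 2 * S' ^ 2 - 16 * μ) with hB1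
  set N : ℝ → ℝ := fun x => (S ^ 2 - 4 * x) * (S' ^ 2 * x - 4 * μ) *
    (9 * S' ^ 3 * x ^ 2 + (M * E + E' * μ) * x + 9 * M * S ^ 3) with hN
  set N1 : ℝ → ℝ := fun x =>
    -4 * (S' ^ 2 * x - 4 * μ) * (9 * S' ^ 3 * x ^ 2 + (M * E + E' * μ) * x + 9 * M * S ^ 3) +
    (S ^ 2 - 4 * x) * S' ^ 2 * (9 * S' ^ 3 * x ^ 2 + (M * E + E' * μ) * x + 9 * M * S ^ 3) +
    (S ^ 2 - 4 * x) * (S' ^ 2 * x - 4 * μ) * (18 * S' ^ 3 * x + (M * E + E' * μ)) with hN1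
  have dB : ∀ x, HasDerivAt B (B1 x) x := fun x => by
    refine HasDerivAt.congr_deriv (((((hasDerivAt_id' x).fun_pow 2).const_mul (-4 * S' ^ 2)).fun_add
      ((hasDerivAt_id' x).const_mul (3 * S ^ 2 * S' ^ 2 - 16 * μ))).sub_const (4 * S ^ 2 * μ)) ?_
    simp only [hB1]; push_cast; ring
  have dN : ∀ x, HasDerivAt N (N1 x) x := fun x => by
    refine HasDerivAt.congr_deriv (((((hasDerivAt_id' x).const_mul 4).const_sub (S ^ 2)).fun_mul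
      (((hasDerivAt_id' x).const_mul (S' ^ 2)).sub_const (4 * μ))).fun_mul
      (((((hasDerivAt_id' x).fun_pow 2).const_mul (9 * S' ^ 3)).fun_add
        ((hasDerivAt_id' x).const_mul (M * E + E' * μ))).add_const (9 * M * S ^ 3))) ?_
    simp only [hN1]; push_cast; ring
  have Rel : ∀ t, M * Q1 t ^ 2 * B (Q t) - N (Q t) = 0 := fun t => by
    simp only [hB, hN]
    linear_combination M * (S' ^ 2 * Q t - 4 * μ) * E1 t + (S ^ 2 - 4 * Q t) * E2 t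
  have DRel : ∀ t, Q1 t ≠ 0 →
      2 * M * Q2 t * B (Q t) + M * Q1 t ^ 2 * B1 (Q t) - N1 (Q t) = 0 := fun t ht => by
    have a1 := ((((dQ1 t).fun_pow 2).const_mul M).fun_mul ((dB (Q t)).comp t (dQ t))).fun_sub
      ((dN (Q t)).comp t (dQ t))
    simp only [Function.comp, Rel] at a1
    have a2 := a1.unique (hasDerivAt_const t (0 : ℝ))
    apply mul_left_cancel₀ (mul_ne_zero (hω t).ne' ht)
    push_cast at a2
    linear_combination a2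
  have hP : ∀ t, Q1 t ≠ 0 →
      2 * M * B (Q t) ^ 2 * (S ^ 2 - 4 * Q t) * (9 * S ^ 3 + E * Q t) -
        16 * Q t * B (Q t) * N (Q t) +
        3 * Q t * (S ^ 2 - 4 * Q t) * (B1 (Q t) * N (Q t) - B (Q t) * N1 (Q t)) = 0 :=
    fun t ht => by
      linear_combination 3 * Q t * (S ^ 2 - 4 * Q t) * B (Q t) * DRel t ht -
        2 * M * B (Q t) ^ 2 * E1 t -
        (-16 * Q t * B (Q t) + 3 * Q t * (S ^ 2 - 4 * Q t) * B1 (Q t)) * Rel t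
  have Q1z : ∀ t, ω t * Q1 t = 0 := fun t => by
    by_contra hcon
    have h1 : Q1 t ≠ 0 := right_ne_zero_of_mul hcon
    refine hcon (deriv_zero_of_poly (P := fun x => 2 * M * B x ^ 2 * (S ^ 2 - 4 * x) *
      (9 * S ^ 3 + E * x) - 16 * x * B x * N x +
        3 * x * (S ^ 2 - 4 * x) * (B1 x * N x - B x * N1 x)) (dQ t) ?_ ?_ ?_)
    · intro x _
      simp only [hB, hB1, hN, hN1]
      fun_prop
    · have : 2 * M * B 0 ^ 2 * (S ^ 2 - 4 * 0) * (9 * S ^ 3 + E * 0) - 16 * 0 * B 0 * N 0 +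
          3 * 0 * (S ^ 2 - 4 * 0) * (B1 0 * N 0 - B 0 * N1 0) = 288 * M * μ ^ 2 * S ^ 9 := by
        simp only [hB]; ring
      rw [this]
      positivity
    · filter_upwards [(dQ1 t).continuousAt.eventually_ne h1] with s hs
      exact hP s hs
  exact is_const_of_deriv_eq_zero (fun t => (dQ t).differentiableAt)
    (fun t => by rw [(dQ t).deriv, Q1z]) t 0

end Pool.Agent.Lib.MP_171f82_an
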