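import Pool.Agent.Lib.MP_171f82_an.OpProp
import Pool.Agent.Lib.MP_171f82_an.OpOde

set_option autoImplicit false

open Set Filter Topology
open scoped ContDiff

namespace Pool.Agent.Lib.MP_171f82_an

variable {K : Set (ℝ × ℝ)}

lemma supp_sign {u A : ℝ → ℝ × ℝ} {u' A' : ℝ × ℝ} {t : ℝ} (hu : HasDerivAt u u' t)
    (hA : HasDerivAt A A' t) (h : ∀ s, Supp K (u s) (A s)) : dt u' A' ≤ 0 := by
  have t1 := (continuous_dt.tendsto (u', A')).comp
    ((hasDerivAt_iff_tendsto_slope.1 hu).prodMk_nhds (hasDerivAt_iff_tendsto_slope.1 hA))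
  refine le_of_tendsto t1 (Eventually.of_forall fun s => ?_)
  have h1 := (h s).2 _ (h t).1
  have h2 := (h t).2 _ (h s).1
  simp only [Function.comp, slope_def_module, dt_smul_left, dt_smul_right, dt_sub_left,
    dt_sub_right]
  nlinarith [mul_self_nonneg (s - t)⁻¹]

lemma hasDerivAt_eeΘ {Θ : ℝ → ℝ} (sΘ : ContDiff ℝ ∞ Θ) (t : ℝ) :
    HasDerivAt (fun t => ee (Θ t)) (deriv Θ t • ep (Θ t)) t :=
  (hasDerivAt_ee (Θ t)).scomp t ((contDiff_infty_iff_deriv.1 sΘ).1 t).hasDerivAt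

lemma speed {Θ : ℝ → ℝ} {A : ℝ → ℝ × ℝ} (sΘ : ContDiff ℝ ∞ Θ) (hΘ : ∀ t, 0 < deriv Θ t)
    (sA : ContDiff ℝ ∞ A) (dA : ∀ t, deriv A t ≠ 0) (hA : ∀ t, Supp K (ee (Θ t)) (A t)) :
    ∃ r : ℝ → ℝ, ContDiff ℝ ∞ r ∧ (∀ t, 0 < r t) ∧ ∀ t, HasDerivAt A (r t • ee (Θ t)) t := by
  obtain ⟨d0, s1⟩ := contDiff_infty_iff_deriv.1 sA
  have e : ∀ t, deriv A t = dt (deriv A t) (ep (Θ t)) • ee (Θ t) := fun t => by
    have := dt_decomp (ee (Θ t)) (ep (Θ t)) (deriv A t)
    rwa [dt_ee_ep, one_smul, (hA t).tangent (fun s => (hA s).1) (d0 t).hasDerivAt, zero_smul,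
      add_zero] at this
  refine ⟨fun t => dt (deriv A t) (ep (Θ t)), contDiff_dt s1 (contDiff_ep.comp sΘ), fun t => ?_,
    fun t => e t ▸ (d0 t).hasDerivAt⟩
  have h1 := supp_sign (hasDerivAt_eeΘ sΘ t) (d0 t).hasDerivAt hA
  rw [dt_smul_left, dt_swap] at h1
  refine lt_of_le_of_ne (by nlinarith [hΘ t]) fun h0 => dA t ?_
  rw [e t, show dt (deriv A t) (ep (Θ t)) = 0 from h0.symm, zero_smul]

lemma Dop' {v f : ℝ → ℝ} (hv : ContDiff ℝ ∞ v) (h0 : ∀ t, v t ≠ 0) (hf : ContDiff ℝ ∞ f) :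
    ContDiff ℝ ∞ (fun t => deriv f t / v t) ∧ ∀ t, HasDerivAt f (v t * (deriv f t / v t)) t := by
  obtain ⟨h1, h2⟩ := contDiff_infty_iff_deriv.1 hf
  refine ⟨h2.div hv h0, fun t => ?_⟩
  rw [mul_div_cancel₀ _ (h0 t)]
  exact (h1 t).hasDerivAt

/-- moving frame data along a family of directions with the parallelogram property -/
structure Fam (Θ : ℝ → ℝ) (A c n : ℝ → ℝ × ℝ) (v k Q Q1 Q2 : ℝ → ℝ) (S E : ℝ) : Prop where
  Spos : 0 < S
  vpos : ∀ t, 0 < v t
  kc : Continuous k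
  kpos : ∀ t, 0 < k t
  kS : ∀ t, k t < S
  dir : ∀ t, ∃ ρ : ℝ, 0 < ρ ∧ n t = ρ • ee (Θ t)
  nc : ∀ t, dt (n t) (c t) = 1
  dn : ∀ t, HasDerivAt n (v t • c t) t
  dc : ∀ t, HasDerivAt c ((-(v t * (S / Q t))) • n t) t
  dA : ∀ t, HasDerivAt A ((v t / k t) • n t) t
  Qe : ∀ t, Q t = k t * (S - k t)
  dQ : ∀ t, HasDerivAt Q (v t * Q1 t) t
  dQ1 : ∀ t, HasDerivAt Q1 (v t * Q2 t) t
  int : ∀ t, (S ^ 2 - 4 * Q t) * (3 * Q t * Q2 t - 9 * S ^ 3 - E * Q t) + 8 * Q t * Q1 t ^ 2 = 0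

theorem exists_fam (hK : IsCompact K) (hs : StrictConvex ℝ K) (hi : (interior K).Nonempty)
    {Θ : ℝ → ℝ} {A B : ℝ → ℝ × ℝ} (sΘ : ContDiff ℝ ∞ Θ) (hΘ : ∀ t, 0 < deriv Θ t)
    (sA : ContDiff ℝ ∞ A) (sB : ContDiff ℝ ∞ B) (dA : ∀ t, deriv A t ≠ 0) (dB : ∀ t, deriv B t ≠ 0)
    (hA : ∀ t, Supp K (ee (Θ t)) (A t)) (hB : ∀ t, Supp K (-ee (Θ t)) (B t))
    (hR : ∀ t, RP K (ee (Θ t)) (B t - A t)) :
    ∃ n v k Q Q1 Q2 S E, Fam Θ A (fun t => B t - A t) n v k Q Q1 Q2 S E := by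
  have hcl := hK.isClosed
  obtain ⟨r, hr, hr0, hΓ⟩ := speed sΘ hΘ sA dA hA
  obtain ⟨r', sr', hr0', hΓ'⟩ := speed (Θ := fun t => Θ t + Real.pi) (sΘ.add contDiff_const)
    (fun t => by rw [deriv_add_const]; exact hΘ t) sB dB fun t => ee_add_pi (Θ t) ▸ hB t
  simp only [ee_add_pi, smul_neg, ← neg_smul] at hΓ'
  have hF : ∀ t, A t ∈ frontier K := fun t => (hA t).mem_frontier (ee_ne_zero _)
  have hF' : ∀ t, B t ∈ frontier K := fun t => (hB t).mem_frontier (neg_ne_zero.2 (ee_ne_zero _))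
  have sΘ1 : ContDiff ℝ ∞ (deriv Θ) := (contDiff_infty_iff_deriv.1 sΘ).2
  set c : ℝ → ℝ × ℝ := fun t => B t - A t with hc
  have sc : ContDiff ℝ ∞ c := sB.sub sA
  have dc0 : ∀ t, HasDerivAt c ((-(r' t + r t)) • ee (Θ t)) t := fun t => by
    refine HasDerivAt.congr_deriv ((hΓ' t).fun_sub (hΓ t)) ?_
    rw [← sub_smul]; congr 1; ring
  have cne : ∀ t, c t ≠ 0 := fun t => diam_ne_zero hi (ee_ne_zero _) (hA t) (hB t)
  set w : ℝ → ℝ := fun t => dt (ee (Θ t)) (c t) with hw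
  set w1 : ℝ → ℝ := fun t => dt (ep (Θ t)) (c t) with hw1
  have wpos : ∀ t, 0 < w t := fun t => width_pos hi (ee_ne_zero _) (hA t) (hB t)
  have wne : ∀ t, w t ≠ 0 := fun t => (wpos t).ne'
  have sw : ContDiff ℝ ∞ w := contDiff_dt (contDiff_ee.comp sΘ) sc
  have dw : ∀ t, HasDerivAt w (deriv Θ t * w1 t) t := fun t => by
    have := hasDerivAt_dt (hasDerivAt_eeΘ sΘ t) (dc0 t)
    rwa [dt_smul_right, dt_self, mul_zero, add_zero, dt_smul_left] at this
  have cdec : ∀ t, c t = (-w1 t) • ee (Θ t) + w t • ep (Θ t) := fun t => by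
    have := dt_decomp (ee (Θ t)) (ep (Θ t)) (c t)
    rwa [dt_ee_ep, one_smul, dt_swap (c t)] at this
  set n : ℝ → ℝ × ℝ := fun t => (w t)⁻¹ • ee (Θ t) with hn
  set om : ℝ → ℝ := fun t => deriv Θ t / w t ^ 2 with hom
  have ompos : ∀ t, 0 < om t := fun t => div_pos (hΘ t) (pow_pos (wpos t) 2)
  have omne : ∀ t, om t ≠ 0 := fun t => (ompos t).ne'
  have som : ContDiff ℝ ∞ om := sΘ1.div (sw.pow 2) fun t => pow_ne_zero 2 (wne t)
  have dn : ∀ t, HasDerivAt n (om t • c t) t := fun t => by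
    refine HasDerivAt.congr_deriv (((dw t).fun_inv (wne t)).fun_smul (hasDerivAt_eeΘ sΘ t)) ?_
    rw [cdec t, smul_add, smul_smul, smul_smul, smul_smul, add_comm]
    have := wne t
    congr 2 <;> simp only [hom] <;> field_simp
  have hnc : ∀ t, dt (n t) (c t) = 1 := fun t => by
    simp only [hn, dt_smul_left]
    exact inv_mul_cancel₀ (wne t)
  set k : ℝ → ℝ := fun t => om t / (r t * w t) with hk
  set l : ℝ → ℝ := fun t => -(om t / (r' t * w t)) with hl
  set G : ℝ → ℝ := fun t => (r' t + r t) * w t / om t with hG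
  have kpos : ∀ t, 0 < k t := fun t => div_pos (ompos t) (mul_pos (hr0 t) (wpos t))
  have lneg : ∀ t, l t < 0 := fun t =>
    neg_neg_of_pos (div_pos (ompos t) (mul_pos (hr0' t) (wpos t)))
  have sk : ContDiff ℝ ∞ k := som.div (hr.mul sw) fun t => (mul_pos (hr0 t) (wpos t)).ne'
  have sl : ContDiff ℝ ∞ l := (som.div (sr'.mul sw) fun t => (mul_pos (hr0' t) (wpos t)).ne').neg
  have sG : ContDiff ℝ ∞ G := ((sr'.add hr).mul sw).div som omne
  have Gkl : ∀ t, G t * (k t * -l t) = k t - l t := fun t => by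
    have := wne t
    have := omne t
    have := (hr0 t).ne'
    have := (hr0' t).ne'
    simp only [hG, hk, hl]; field_simp; ring
  have dΓ : ∀ t, HasDerivAt A ((om t / k t) • n t) t := fun t => by
    refine HasDerivAt.congr_deriv (hΓ t) ?_
    have := wne t
    have := omne t
    have := (hr0 t).ne'
    simp only [hn, smul_smul]; congr 1; simp only [hk]; field_simp
  have dΓ' : ∀ t, HasDerivAt B ((om t / l t) • n t) t := fun t => by
    refine HasDerivAt.congr_deriv (hΓ' t) ?_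
    have := wne t
    have := omne t
    have := (hr0' t).ne'
    simp only [hn, smul_smul]; congr 1; simp only [hl]; field_simp
  have dc : ∀ t, HasDerivAt c ((-(om t * G t)) • n t) t := fun t => by
    refine HasDerivAt.congr_deriv (dc0 t) ?_
    have := wne t
    have := omne t
    simp only [hn, smul_smul]; congr 1; simp only [hG]; field_simp
  obtain ⟨sk1, dk⟩ := Dop' som omne sk
  obtain ⟨sk2, dk1⟩ := Dop' som omne sk1
  obtain ⟨sk3, dk2⟩ := Dop' som omne sk2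
  obtain ⟨sl1, dl⟩ := Dop' som omne sl
  obtain ⟨sl2, dl1⟩ := Dop' som omne sl1
  obtain ⟨sl3, dl2⟩ := Dop' som omne sl2
  obtain ⟨sG1, dG⟩ := Dop' som omne sG
  set k1 : ℝ → ℝ := fun t => deriv k t / om t with hk1
  set k2 : ℝ → ℝ := fun t => deriv k1 t / om t with hk2
  set k3 : ℝ → ℝ := fun t => deriv k2 t / om t with hk3
  set l1 : ℝ → ℝ := fun t => deriv l t / om t with hl1
  set l2 : ℝ → ℝ := fun t => deriv l1 t / om t with hl2
  set l3 : ℝ → ℝ := fun t => deriv l2 t / om t with hl3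
  set G1 : ℝ → ℝ := fun t => deriv G t / om t with hG1
  replace dk : ∀ t, HasDerivAt k (om t * k1 t) t := dk
  replace dk1 : ∀ t, HasDerivAt k1 (om t * k2 t) t := dk1
  replace dk2 : ∀ t, HasDerivAt k2 (om t * k3 t) t := dk2
  replace dl : ∀ t, HasDerivAt l (om t * l1 t) t := dl
  replace dl1 : ∀ t, HasDerivAt l1 (om t * l2 t) t := dl1
  replace dl2 : ∀ t, HasDerivAt l2 (om t * l3 t) t := dl2
  replace dG : ∀ t, HasDerivAt G (om t * G1 t) t := dG
  have hjet := fun a => two_arc (F := frontier K) a dΓ dΓ' dn dc dk dk1 dk2 dl dl1 dl2 dG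
    som.continuous sk3.continuous sl3.continuous sG1.continuous hnc kpos (fun t => (lneg t).ne)
    (omne a) rfl hF hF'
    (fun x p q hp hq hx hxp hxq => by
      simp only [hn, smul_smul] at hxp ⊢
      exact hR a x _ q (mul_ne_zero hp (inv_ne_zero (wne a))) hq hx hxp hxq)
    (fun x p q hp hq hx hxp hxq => three_points hcl hs (cne a) hp hq hx hxp hxq)
  have e1 : l1 = k1 := funext fun a => (hjet a).1
  have e2 : l2 = k2 := by simp only [hl2, hk2, e1]
  have e3 : l3 = k3 := by simp only [hl3, hk3, e2]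
  have dS : ∀ t, HasDerivAt (fun t => k t - l t) 0 t := fun t => by
    refine HasDerivAt.congr_deriv ((dk t).fun_sub (dl t)) ?_
    rw [e1, sub_self]
  obtain ⟨S, hS⟩ : ∃ S, ∀ t, k t - l t = S :=
    ⟨_, fun t => is_const_of_deriv_eq_zero (fun t => (dS t).differentiableAt)
      (fun t => (dS t).deriv) t 0⟩
  have lk : ∀ t, l t = k t - S := fun t => by linarith [hS t]
  have kS : ∀ t, k t < S := fun t => by linarith [hS t, lneg t]
  have Spos : 0 < S := (kpos 0).trans (kS 0)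
  have Qpos : ∀ t, 0 < k t * (S - k t) := fun t => mul_pos (kpos t) (sub_pos.2 (kS t))
  have GQ : ∀ t, G t * (k t * (S - k t)) = S := fun t => by
    have := Gkl t
    rw [hS, lk, neg_sub] at this
    exact this
  have G1Q : ∀ t, G1 t * (k t * (S - k t)) + G t * (k1 t * (S - 2 * k t)) = 0 := fun t => by
    have a1 := (dG t).fun_mul ((dk t).fun_mul ((dk t).const_sub S))
    simp only [GQ] at a1
    have a2 := a1.unique (hasDerivAt_const t S)
    apply mul_left_cancel₀ (ompos t).ne'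
    linear_combination a2
  have g0 : ∀ t, G t = S / (k t * (S - k t)) := fun t => by
    rw [eq_div_iff (Qpos t).ne']; exact GQ t
  obtain ⟨E, Q, Q1, Q2, Qe, dQ, dQ1, int⟩ := ode_int dk dk1 dk2 kpos kS fun t => by
    have h1 := (hjet t).2
    rw [e1, e2, e3, lk] at h1
    have q0 := (Qpos t).ne'
    have g1 : G1 t = -(S * (k1 t * (S - 2 * k t))) / (k t * (S - k t)) ^ 2 := by
      rw [eq_div_iff (pow_ne_zero 2 q0)]
      linear_combination (k t * (S - k t)) * G1Q t - (k1 t * (S - 2 * k t)) * GQ t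
    rw [g0, g1] at h1
    have q1 := (kpos t).ne'
    have q2 := (sub_pos.2 (kS t)).ne'
    apply mul_left_cancel₀ Spos.ne'
    field_simp at h1
    linear_combination h1
  exact ⟨n, om, k, Q, Q1, Q2, S, E, Spos, ompos, sk.continuous, kpos, kS,
    fun t => ⟨_, inv_pos.2 (wpos t), rfl⟩, hnc, dn, fun t => by rw [Qe, ← g0]; exact dc t, dΓ, Qe,
    dQ, dQ1, int⟩

/-- two conjugate families force constant curvature data -/
theorem Fam.const {Θ Θ' : ℝ → ℝ} {A c n A' c' n' : ℝ → ℝ × ℝ} {v k Q Q1 Q2 v' k' P P1 P2 : ℝ → ℝ}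
    {S E S' E' : ℝ} (h : Fam Θ A c n v k Q Q1 Q2 S E) (h' : Fam Θ' A' c' n' v' k' P P1 P2 S' E')
    (rad0 : ∀ t, dt (n t) (c' t) = 0) (rad1 : ∀ t, dt (c t) (n' t) = 0) (t : ℝ) : k t = k 0 := by
  have Qpos : ∀ t, 0 < Q t := fun t => h.Qe t ▸ mul_pos (h.kpos t) (sub_pos.2 (h.kS t))
  have Ppos : ∀ t, 0 < P t := fun t => h'.Qe t ▸ mul_pos (h'.kpos t) (sub_pos.2 (h'.kS t))
  have dΔ : ∀ t, HasDerivAt (fun t => dt (c t) (c' t)) 0 t := fun t => by
    have := hasDerivAt_dt (h.dc t) (h'.dc t)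
    rwa [dt_smul_left, dt_smul_right, rad0, rad1, mul_zero, mul_zero, add_zero] at this
  obtain ⟨Δ, hΔ⟩ : ∃ Δ, ∀ t, dt (c t) (c' t) = Δ :=
    ⟨_, fun t => is_const_of_deriv_eq_zero (fun t => (dΔ t).differentiableAt)
      (fun t => (dΔ t).deriv) t 0⟩
  have rel1 : ∀ t, dt (n t) (n' t) * Δ = 1 := fun t => by
    have a1 := h.nc t
    have a2 := h'.nc t
    have a3 := rad0 t
    have a4 := rad1 t
    rw [← hΔ t]
    unfold dt at *
    linear_combination ((n' t).1 * (c' t).2 - (n' t).2 * (c' t).1) * a1 + a2 +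
      ((c t).1 * (n' t).2 - (c t).2 * (n' t).1) * a3
  have Δ0 : Δ ≠ 0 := right_ne_zero_of_mul ((rel1 0).trans_ne one_ne_zero)
  have rel2 : ∀ t, v' t * Δ ^ 2 = v t * (S / Q t) := fun t => by
    have a1 := hasDerivAt_dt (h.dc t) (h'.dn t)
    simp only [rad1] at a1
    have a2 := a1.unique (hasDerivAt_const t (0 : ℝ))
    rw [dt_smul_left, dt_smul_right, hΔ] at a2
    linear_combination Δ * a2 + v t * (S / Q t) * rel1 t
  have rel3 : ∀ t, S / Q t * (S' / P t) = Δ ^ 4 := fun t => by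
    have a1 := hasDerivAt_dt (h.dn t) (h'.dc t)
    simp only [rad0] at a1
    have a2 := a1.unique (hasDerivAt_const t (0 : ℝ))
    rw [dt_smul_left, dt_smul_right, hΔ] at a2
    apply mul_left_cancel₀ (h.vpos t).ne'
    linear_combination (-Δ ^ 3) * a2 - S' / P t * rel2 t - Δ ^ 2 * v' t * (S' / P t) * rel1 t
  have S0 := h.Spos
  have S0' := h'.Spos
  have hQ := ode_two (ν := S / Δ ^ 2) (m := S' / S) S0 (by positivity) (by positivity) h.vpos Qpos
    h.dQ h.dQ1 h.int h'.dQ h'.dQ1 h'.int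
    (fun t => by
      have a := rel2 t
      have := (Qpos t).ne'
      field_simp at a ⊢
      linear_combination a)
    (fun t => by
      have a := rel3 t
      have := (Qpos t).ne'
      have := (Ppos t).ne'
      field_simp at a ⊢
      linear_combination -a)
  refine const_of_countable isPreconnected_univ h.kc.continuousOn
    (toFinite {k 0, S - k 0}).countable (fun s _ => ?_) (mem_univ t) (mem_univ 0)
  have a := hQ s
  rw [h.Qe, h.Qe] at a
  have : (k s - k 0) * (k s - (S - k 0)) = 0 := by linear_combination -a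
  exact (mul_eq_zero.1 this).imp sub_eq_zero.1 sub_eq_zero.1

end Pool.Agent.Lib.MP_171f82_an
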