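import Pool.Agent.Lib.MP_171f82_an.OpEll

set_option autoImplicit false

open Set Filter Topology
open scoped ContDiff

namespace Pool.Agent.Lib.MP_171f82_an

variable {K : Set (ℝ × ℝ)}

/-- smooth with positive derivative -/
def Inc (f : ℝ → ℝ) : Prop := ContDiff ℝ ∞ f ∧ ∀ t, 0 < deriv f t

lemma Inc.der {f : ℝ → ℝ} (hf : Inc f) (t : ℝ) : HasDerivAt f (deriv f t) t :=
  ((contDiff_infty_iff_deriv.1 hf.1).1 t).hasDerivAt

lemma Inc.comp {f g : ℝ → ℝ} (hf : Inc f) (hg : Inc g) : Inc fun t => f (g t) :=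
  ⟨hf.1.comp hg.1, fun t => by
    rw [show deriv (fun t => f (g t)) t = _ from ((hf.der (g t)).comp t (hg.der t)).deriv]
    exact mul_pos (hf.2 _) (hg.2 _)⟩

lemma zoom {V : Set ℝ} {x : ℝ} (hV : V ∈ 𝓝 x) : ∃ ψ : ℝ → ℝ, Inc ψ ∧ ∀ s, ψ s ∈ V := by
  obtain ⟨δ, δ0, hδ⟩ := Metric.mem_nhds_iff.1 hV
  refine ⟨fun s => x + δ / 2 * Real.arctan s,
    ⟨contDiff_const.add (contDiff_const.mul Real.contDiff_arctan), fun t => ?_⟩, fun s => hδ ?_⟩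
  · rw [(((Real.hasDerivAt_arctan t).const_mul (δ / 2)).const_add x).deriv]
    positivity
  · have h1 := Real.arctan_lt_pi_div_two s
    have h2 := Real.neg_pi_div_two_lt_arctan s
    have h3 := Real.pi_lt_four
    rw [Metric.mem_ball, Real.dist_eq, add_sub_cancel_left, abs_lt]
    constructor <;> nlinarith

/-- angles near which the support point depends smoothly and regularly on the angle -/
def RegSet (Γ : ℝ → ℝ × ℝ) : Set ℝ :=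
  {θ | ∀ᶠ θ' in 𝓝 θ, ContDiffAt ℝ ∞ Γ θ' ∧ deriv Γ θ' ≠ 0}

lemma reg_of_param {Γ γ : ℝ → ℝ × ℝ} {Θ : ℝ → ℝ} (sΘ : ContDiff ℝ ∞ Θ) (sγ : ContDiff ℝ ∞ γ)
    (hg : ∀ t, deriv γ t ≠ 0) (e : ∀ t, γ t = Γ (Θ t)) : ∃ t, Θ t ∈ RegSet Γ := by
  obtain ⟨d0, s1⟩ := contDiff_infty_iff_deriv.1 sΘ
  obtain ⟨t1, h1⟩ : ∃ t, deriv Θ t ≠ 0 := by
    by_contra! h
    refine hg 0 ?_
    rw [show γ = fun _ => Γ (Θ 0) from funext fun t => by
      rw [e, is_const_of_deriv_eq_zero d0 h t 0], deriv_const]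
  refine ⟨t1, ?_⟩
  rw [RegSet, mem_ofPred_eq, ← (sΘ.contDiffAt.hasStrictDerivAt (by simp)).map_nhds_eq h1,
    eventually_map]
  refine (s1.continuous.continuousAt.eventually_ne h1).mono fun t ht => ?_
  have a1 : ContDiffAt ℝ ∞ Θ t := sΘ.contDiffAt
  have a2 := (d0 t).hasDerivAt.hasFDerivAt_equiv ht
  have a3 := a1.to_localInverse a2 (by simp)
  have a4 : ∀ᶠ y in 𝓝 (Θ t), Θ (a1.localInverse a2 (by simp) y) = y :=
    (a1.hasStrictFDerivAt' a2 (by simp)).eventually_right_inverse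
  have a5 : ContDiffAt ℝ ∞ Γ (Θ t) :=
    (sγ.contDiffAt.comp _ a3).congr_of_eventuallyEq (a4.mono fun y hy => by
      simp only [Function.comp, e, hy])
  refine ⟨a5, fun h0 => hg t ?_⟩
  have a6 := ((a5.differentiableAt (by simp)).hasDerivAt.scomp t (d0 t).hasDerivAt).deriv
  rw [h0, smul_zero] at a6
  rw [show γ = Γ ∘ Θ from funext e, a6]

lemma ee_add (θ η : ℝ) : ee (θ + η) = Real.cos η • ee θ + Real.sin η • ep θ := by
  ext
  · simp only [ee, ep, Real.cos_add, Prod.fst_add, Prod.smul_fst, smul_eq_mul]; ring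
  · simp only [ee, ep, Real.sin_add, Prod.snd_add, Prod.smul_snd, smul_eq_mul]; ring

lemma ee_arctan {θ : ℝ} {z : ℝ × ℝ} (h : 0 < dt z (ep θ)) :
    ∃ ρ : ℝ, 0 < ρ ∧ ee (θ + Real.arctan (dt (ee θ) z / dt z (ep θ))) = ρ • z := by
  have h1 := Real.cos_arctan_pos (dt (ee θ) z / dt z (ep θ))
  have h2 := Real.tan_arctan (dt (ee θ) z / dt z (ep θ))
  have h3 := dt_decomp (ee θ) (ep θ) z
  rw [dt_ee_ep, one_smul] at h3
  rw [Real.tan_eq_sin_div_cos] at h2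
  refine ⟨_, div_pos h1 h, ?_⟩
  rw [ee_add]
  nth_rewrite 8 [h3]
  rw [smul_add, smul_smul, smul_smul, div_mul_cancel₀ _ h.ne']
  congr 2
  field_simp at h2 ⊢
  linarith

lemma reg_dense (hK : IsCompact K) (hs : StrictConvex ℝ K) (hi : (interior K).Nonempty)
    {γ Γ : ℝ → ℝ × ℝ} (sγ : ContDiff ℝ ∞ γ) (hg : ∀ t, deriv γ t ≠ 0)
    (hr : range γ = frontier K) (hΓ : ∀ θ, Supp K (ee θ) (Γ θ)) : Dense (RegSet Γ) := by
  obtain ⟨d0, s1⟩ := contDiff_infty_iff_deriv.1 sγ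
  obtain ⟨g, sg, g0, gs, gp⟩ : ∃ g : ℝ → ℝ × ℝ, ContDiff ℝ ∞ g ∧ (∀ t, g t ≠ 0) ∧
      (∀ t, Supp K (g t) (γ t)) ∧ ∀ t u, dt u (deriv γ t) = 0 → dt u (g t) = 0 := by
    rcases orientation hK.isClosed hs hi (fun s => hr ▸ mem_range_self s)
      (fun t => (d0 t).hasDerivAt) s1.continuous hg with h | h
    · exact ⟨_, s1, hg, h, fun _ _ e => e⟩
    · exact ⟨fun t => -deriv γ t, s1.neg, fun t => neg_ne_zero.2 (hg t), h,
        fun _ _ e => by rw [dt_neg_right, e, neg_zero]⟩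
  refine dense_iff_inter_open.2 ?_
  rintro V hV ⟨θ, hθ⟩
  obtain ⟨t0, h0⟩ : Γ θ ∈ range γ := hr ▸ (hΓ θ).mem_frontier (ee_ne_zero θ)
  have q0 := gp t0 _ (Supp.tangent (fun s => (gs s).1) (h0 ▸ hΓ θ) (d0 t0).hasDerivAt)
  obtain ⟨l, hl⟩ := exists_smul_of_dt_eq_zero (ee_ne_zero θ) q0
  have p0 : 0 < dt (g t0) (ep θ) := by
    rw [hl, dt_smul_left, dt_ee_ep, mul_one]
    by_contra! l0
    have l1 : l < 0 := lt_of_le_of_ne l0 fun e => g0 t0 (by rw [hl, e, zero_smul])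
    have := (gs t0).smul (a := -l⁻¹) (neg_nonneg.2 (inv_nonpos.2 l0))
    rw [hl, smul_smul, neg_mul, inv_mul_cancel₀ l1.ne, neg_one_smul, h0] at this
    exact diam_ne_zero hi (ee_ne_zero θ) (hΓ θ) this (sub_self _)
  have sp : ContDiff ℝ ∞ fun t => dt (g t) (ep θ) := contDiff_dt sg contDiff_const
  have sq : ContDiff ℝ ∞ fun t => dt (ee θ) (g t) := contDiff_dt contDiff_const sg
  have c1 : ContinuousAt (fun t => θ + Real.arctan (dt (ee θ) (g t) / dt (g t) (ep θ))) t0 :=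
    continuousAt_const.add (Real.continuous_arctan.continuousAt.comp
      (sq.continuous.continuousAt.div sp.continuous.continuousAt p0.ne'))
  obtain ⟨ψ, hψ, hW⟩ := zoom ((sp.continuous.continuousAt.eventually (lt_mem_nhds p0)).and
    (c1.eventually (hV.mem_nhds (by simpa [q0] using hθ))))
  obtain ⟨t, ht⟩ := reg_of_param (Γ := Γ) (γ := fun s => γ (ψ s))
    (Θ := fun s => θ + Real.arctan (dt (ee θ) (g (ψ s)) / dt (g (ψ s)) (ep θ)))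
    (contDiff_const.add (Real.contDiff_arctan.comp
      ((sq.comp hψ.1).div (sp.comp hψ.1) fun s => (hW s).1.ne'))) (sγ.comp hψ.1)
    (fun s => by
      rw [show deriv (fun s => γ (ψ s)) s = _ from ((d0 (ψ s)).hasDerivAt.scomp s (hψ.der s)).deriv]
      exact smul_ne_zero (hψ.2 s).ne' (hg _))
    (fun s => by
      obtain ⟨ρ, ρ0, e⟩ := ee_arctan (hW s).1
      exact (hΓ _).unique hs (e ▸ (gs (ψ s)).smul ρ0.le) (ee_ne_zero _))
  exact ⟨_, (hW t).2, ht⟩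

lemma reg_comp {Γ : ℝ → ℝ × ℝ} {Θ : ℝ → ℝ} (h : Inc Θ) (hD : ∀ t, Θ t ∈ RegSet Γ) :
    ContDiff ℝ ∞ (fun t => Γ (Θ t)) ∧ ∀ t, deriv (fun t => Γ (Θ t)) t ≠ 0 := by
  refine ⟨contDiff_iff_contDiffAt.2 fun t => (hD t).self_of_nhds.1.comp t h.1.contDiffAt,
    fun t => ?_⟩
  obtain ⟨a1, a2⟩ := (hD t).self_of_nhds
  rw [show deriv (fun t => Γ (Θ t)) t = _ from
    ((a1.differentiableAt (by simp)).hasDerivAt.scomp t (h.der t)).deriv]
  exact smul_ne_zero (h.2 t).ne' a2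

lemma Inc.add_pi {Θ : ℝ → ℝ} (h : Inc Θ) : Inc fun t => Θ t + Real.pi :=
  ⟨h.1.add contDiff_const, fun t => by rw [deriv_add_const]; exact h.2 t⟩

theorem ellipse_of_open (hK : IsCompact K) (hs : StrictConvex ℝ K) (hi : (interior K).Nonempty)
    {γ : ℝ → ℝ × ℝ} (sγ : ContDiff ℝ ∞ γ) (hg : ∀ t, deriv γ t ≠ 0) (hr : range γ = frontier K)
    {U : Set (ℝ × ℝ)} (hU : IsOpen U) (hne : U.Nonempty)
    (h : ∀ u ∈ U, u ≠ 0 → ∃ v, dt u v ≠ 0 ∧ RP K u v) :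
    ∃ L : (ℝ × ℝ) ≃ᵃ[ℝ] (ℝ × ℝ), frontier K = L '' {q : ℝ × ℝ | q.1 ^ 2 + q.2 ^ 2 = 1} := by
  choose Γ hΓ using fun θ => exists_supp hK (hi.mono interior_subset) (ee θ)
  have hΓ' : ∀ θ, Supp K (-ee θ) (Γ (θ + Real.pi)) := fun θ => ee_add_pi θ ▸ hΓ _
  set c : ℝ → ℝ × ℝ := fun θ => Γ (θ + Real.pi) - Γ θ with hc
  have wpos : ∀ θ, 0 < dt (ee θ) (c θ) := fun θ => width_pos hi (ee_ne_zero θ) (hΓ θ) (hΓ' θ)
  have conj : ∀ (θ ρ : ℝ) (v : ℝ × ℝ), 0 < ρ → dt (ρ • ee θ) v ≠ 0 → RP K (ρ • ee θ) v →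
      RP K (ee θ) (c θ) ∧ dt v (c θ) = 0 := fun θ ρ v ρ0 h1 h2 => by
    have a1 := rp_dir hK hs hi h1 h2 ((hΓ θ).smul ρ0.le)
      (by rw [← smul_neg]; exact (hΓ' θ).smul ρ0.le)
    obtain ⟨m, hm⟩ := exists_smul_of_dt_eq_zero (u := v)
      (fun e => h1 (by rw [e, dt_zero_right])) a1
    have m0 : m ≠ 0 := fun e => diam_ne_zero hi (ee_ne_zero θ) (hΓ θ) (hΓ' θ) (by
      rw [hm, e, zero_smul])
    exact ⟨h2.of_par ρ0.ne' (inv_ne_zero m0) rfl (by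
      simp only [hc]
      rw [hm, smul_smul, inv_mul_cancel₀ m0, one_smul]), a1⟩
  set φ : ℝ → ℝ := fun θ => θ + Real.pi / 2 +
    Real.arctan (dt (ee (θ + Real.pi / 2)) (c θ) / dt (c θ) (ep (θ + Real.pi / 2))) with hφ
  have epe : ∀ θ, dt (c θ) (ep (θ + Real.pi / 2)) = dt (ee θ) (c θ) := fun θ => by
    simp only [dt, ee, ep, Real.sin_add_pi_div_two, Real.cos_add_pi_div_two]; ring
  have cφ : ∀ θ, ∃ ρ : ℝ, 0 < ρ ∧ ee (φ θ) = ρ • c θ := fun θ => ee_arctan (epe θ ▸ wpos θ)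
  have oD : IsOpen (RegSet Γ) := isOpen_setOfPred_eventually_nhds
  have dD := reg_dense hK hs hi sγ hg hr hΓ
  set D := RegSet Γ ∩ (fun θ => θ + Real.pi) ⁻¹' RegSet Γ with hD
  have oD2 : IsOpen D := oD.inter (oD.preimage (by fun_prop))
  have dD2 : Dense D := dD.inter_of_isOpen_left (dD.preimage (isOpenMap_add_right _)) oD
  have incφ : ∀ Θ : ℝ → ℝ, Inc Θ → (∀ t, Θ t ∈ D) → Inc fun t => φ (Θ t) := fun Θ i m => by
    obtain ⟨sA, dA⟩ := reg_comp i fun t => (m t).1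
    obtain ⟨sB, dB⟩ := reg_comp i.add_pi fun t => (m t).2
    obtain ⟨r, -, r0, hr⟩ := speed i.1 i.2 sA dA fun t => hΓ _
    obtain ⟨r', -, r0', hr'⟩ := speed i.add_pi.1 i.add_pi.2 sB dB fun t => hΓ _
    have sc : ContDiff ℝ ∞ fun t => c (Θ t) := sB.sub sA
    have s2 : ContDiff ℝ ∞ fun t => Θ t + Real.pi / 2 := i.1.add contDiff_const
    have sΦ : ContDiff ℝ ∞ fun t => φ (Θ t) := s2.add (Real.contDiff_arctan.comp
      ((contDiff_dt (contDiff_ee.comp s2) sc).div (contDiff_dt sc (contDiff_ep.comp s2))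
        fun t => (epe _ ▸ wpos (Θ t) : 0 < dt (c (Θ t)) (ep (Θ t + Real.pi / 2))).ne'))
    refine ⟨sΦ, fun t => ?_⟩
    have a1 := hasDerivAt_dt ((hr' t).fun_sub (hr t)) (hasDerivAt_eeΘ sΦ t)
    have a2 : (fun t => dt (Γ (Θ t + Real.pi) - Γ (Θ t)) (ee (φ (Θ t)))) = fun _ => 0 :=
      funext fun t => by
        obtain ⟨ρ, -, e⟩ := cφ (Θ t)
        rw [e, dt_smul_right]
        exact mul_eq_zero_of_right _ (dt_self _)
    rw [a2] at a1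
    have a3 := a1.unique (hasDerivAt_const t (0 : ℝ))
    obtain ⟨ρ, ρ0, e⟩ := cφ (Θ t)
    have a4 := dt_ee_ep (φ (Θ t))
    rw [e, dt_smul_left] at a4
    rw [ee_add_pi, smul_neg, e] at a3
    simp only [dt_sub_left (-_), dt_neg_left, dt_smul_left, dt_smul_right] at a3
    have a5 := mul_pos (mul_pos ρ0 ρ0) (mul_pos (add_pos (r0 t) (r0' t)) (wpos (Θ t)))
    simp only [hc] at a3 a4 a5
    nlinarith
  obtain ⟨u, hu, u0⟩ := (dense_compl_singleton (0 : ℝ × ℝ)).inter_open_nonempty U hU hne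
  obtain ⟨ρ, θ0, ρ0, rfl⟩ := exists_polar_coord u0
  have oI : IsOpen ((fun θ => ρ • ee θ) ⁻¹' U) :=
    hU.preimage (contDiff_ee.continuous.const_smul ρ)
  obtain ⟨θ1, m1, m2⟩ := dD2.inter_open_nonempty _ oI ⟨θ0, hu⟩
  obtain ⟨Θ1, i1, n1⟩ := zoom ((oI.inter oD2).mem_nhds ⟨m1, m2⟩)
  have i2 := incφ Θ1 i1 fun t => (n1 t).2
  obtain ⟨_, m3, t0, rfl⟩ := dD2.inter_nhds_nonempty (t := range fun t => φ (Θ1 t)) (by
    rw [← (i2.1.contDiffAt.hasStrictDerivAt (by simp)).map_nhds_eq (i2.2 0).ne']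
    exact range_mem_map)
  obtain ⟨ψ, i3, n3⟩ := zoom ((oD2.preimage i2.1.continuous).mem_nhds m3)
  have iΘ := i1.comp i3
  have iΦ := i2.comp i3
  have R1 : ∀ t, RP K (ee (Θ1 (ψ t))) (c (Θ1 (ψ t))) := fun t => by
    obtain ⟨v, h1, h2⟩ := h _ (n1 (ψ t)).1 (smul_ne_zero ρ0.ne' (ee_ne_zero _))
    exact (conj _ ρ v ρ0 h1 h2).1
  have R2 : ∀ t, RP K (ee (φ (Θ1 (ψ t)))) (c (φ (Θ1 (ψ t)))) ∧
      dt (ee (Θ1 (ψ t))) (c (φ (Θ1 (ψ t)))) = 0 := fun t => by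
    obtain ⟨a, a0, e⟩ := cφ (Θ1 (ψ t))
    refine conj _ 1 _ one_pos ?_ ((R1 t).symm.of_par (inv_ne_zero a0.ne') one_ne_zero (by
      rw [one_smul, e, smul_smul, inv_mul_cancel₀ a0.ne', one_smul]) (one_smul _ _).symm)
    rw [one_smul, e, dt_smul_left, dt_swap]
    exact mul_ne_zero a0.ne' (neg_ne_zero.2 (wpos _).ne')
  obtain ⟨sA, dA⟩ := reg_comp iΘ fun t => (n1 _).2.1
  obtain ⟨sB, dB⟩ := reg_comp iΘ.add_pi fun t => (n1 _).2.2
  obtain ⟨sA', dA'⟩ := reg_comp iΦ fun t => (n3 t).1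
  obtain ⟨sB', dB'⟩ := reg_comp iΦ.add_pi fun t => (n3 t).2
  obtain ⟨n, v, k, Q, Q1, Q2, S, E, F1⟩ := exists_fam hK hs hi iΘ.1 iΘ.2 sA sB dA dB
    (fun t => hΓ _) (fun t => hΓ' _) R1
  obtain ⟨n', v', k', P, P1, P2, S', E', F2⟩ := exists_fam hK hs hi iΦ.1 iΦ.2 sA' sB' dA' dB'
    (fun t => hΓ _) (fun t => hΓ' _) fun t => (R2 t).1
  refine F1.ellipse hK hs hi (hr ▸ isPreconnected_range sγ.continuous) (F1.const F2
    (fun t => ?_) fun t => ?_) sA sB (fun t => hΓ _) (fun t => hΓ' _) R1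
  · obtain ⟨a, -, e⟩ := F1.dir t
    rw [e, dt_smul_left]
    exact mul_eq_zero_of_right _ (R2 t).2
  · obtain ⟨a, -, e⟩ := F2.dir t
    obtain ⟨b, -, e'⟩ := cφ (Θ1 (ψ t))
    rw [e, e', dt_smul_right, dt_smul_right]
    exact mul_eq_zero_of_right _ (mul_eq_zero_of_right _ (dt_self _))

end Pool.Agent.Lib.MP_171f82_an
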