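import Pool.Agent.Lib.MP_171f82_an.NsRect

set_option autoImplicit false

open Set Filter Topology

namespace Pool.Agent.Lib.MP_171f82_an

variable {K : Set (ℝ × ℝ)}

lemma chord_near (hK : IsCompact K) (hs : StrictConvex ℝ K) {e0 x0 : ℝ × ℝ} {a η : ℝ}
    (he : e0 ≠ 0) (ha : a ≠ 0) (hx : x0 ∈ frontier K) (hxa : x0 + a • e0 ∈ frontier K)
    (h0 : 0 < η) (h1 : η < 1) :
    ∀ᶠ p in 𝓝 (e0, x0), ∃ τ : ℝ, |τ - 1| ≤ η ∧ p.2 + (τ * a) • p.1 ∈ frontier K := by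
  have F := @hK.isClosed.frontier_subset
  have hae := smul_ne_zero ha he
  have m0 : x0 + (0 : ℝ) • a • e0 ∈ K := by simpa using F hx
  have i1 : x0 + (1 - η) • a • e0 ∈ interior K :=
    between_interior hs hae (p := 0) (r := 1) (by linarith) (by linarith) m0 (by simpa using F hxa)
  have i2 : x0 + (1 + η) • a • e0 ∈ Kᶜ := fun h =>
    hxa.2 (by simpa using between_interior hs hae (p := 0) (q := 1) one_pos (by linarith) m0 h)
  have c : ∀ r : ℝ, Continuous fun p : (ℝ × ℝ) × (ℝ × ℝ) => p.2 + r • a • p.1 := fun r => by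
    fun_prop
  filter_upwards [(c (1 - η)).continuousAt.eventually (isOpen_interior.mem_nhds i1),
    (c (1 + η)).continuousAt.eventually (hK.isClosed.isOpen_compl.mem_nhds i2),
    (continuous_fst.continuousAt (x := (e0, x0))).eventually_ne he] with p j1 j2 j3
  have j4 := smul_ne_zero ha j3
  obtain ⟨s, s0, f⟩ := exit_point hK j4 (interior_subset j1)
  rw [add_assoc, ← add_smul] at f
  refine ⟨1 - η + s, abs_le.2 ⟨by linarith, ?_⟩, by rwa [mul_smul]⟩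
  by_contra hc
  exact j2 (interior_subset (between_interior hs j4 (p := 1 - η) (by linarith) (by linarith)
    (interior_subset j1) (F f)))

open Classical in
/-- the signed length of the chord of direction `e` from `x` -/
noncomputable def ch (K : Set (ℝ × ℝ)) (e x : ℝ × ℝ) : ℝ :=
  if h : ∃ t : ℝ, t ≠ 0 ∧ x + t • e ∈ frontier K then h.choose else 0

lemma ch_eq (hc : IsClosed K) (hs : StrictConvex ℝ K) {e x : ℝ × ℝ} (he : e ≠ 0) {t : ℝ}
    (hx : x ∈ frontier K) (ht : t ≠ 0) (hxt : x + t • e ∈ frontier K) : ch K e x = t := by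
  have h : ∃ t : ℝ, t ≠ 0 ∧ x + t • e ∈ frontier K := ⟨t, ht, hxt⟩
  rw [ch, dif_pos h]
  exact three_points hc hs he h.choose_spec.1 ht hx h.choose_spec.2 hxt

lemma ch_mem {e x : ℝ × ℝ} (hx : x ∈ frontier K) : x + ch K e x • e ∈ frontier K := by
  unfold ch
  split_ifs with h
  · exact h.choose_spec.2
  · simpa using hx

lemma ch_cont (hK : IsCompact K) (hs : StrictConvex ℝ K) {e0 x0 : ℝ × ℝ} (he : e0 ≠ 0)
    (hx : x0 ∈ frontier K) (ha : ch K e0 x0 ≠ 0) :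
    ContinuousWithinAt (fun p : (ℝ × ℝ) × (ℝ × ℝ) => ch K p.1 p.2) {p | p.2 ∈ frontier K}
      (e0, x0) := by
  refine Metric.tendsto_nhds.2 fun ε hε => ?_
  have hpos := abs_pos.2 ha
  have hη : 0 < min (1 / 2) (ε / 2 / |ch K e0 x0|) := lt_min one_half_pos (by positivity)
  filter_upwards [self_mem_nhdsWithin, nhdsWithin_le_nhds (chord_near hK hs he ha hx (ch_mem hx) hη
    ((min_le_left _ _).trans_lt one_half_lt_one)),
    nhdsWithin_le_nhds ((continuous_fst.continuousAt (x := (e0, x0))).eventually_ne he)]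
    with p j0 ⟨τ, j1, j2⟩ j3
  have τ0 : τ ≠ 0 := by
    rintro rfl
    have := j1.trans (min_le_left _ _)
    norm_num at this
  rw [ch_eq hK.isClosed hs j3 j0 (mul_ne_zero τ0 ha) j2, Real.dist_eq,
    show τ * ch K e0 x0 - ch K e0 x0 = (τ - 1) * ch K e0 x0 by ring, abs_mul]
  have := (le_div_iff₀ hpos).1 (j1.trans (min_le_right _ _))
  linarith

lemma line_finite (hc : IsClosed K) (hs : StrictConvex ℝ K) {e : ℝ × ℝ} (he : e ≠ 0) (q : ℝ) :
    {x ∈ frontier K | dt e x = q}.Finite := by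
  rcases {x ∈ frontier K | dt e x = q}.eq_empty_or_nonempty with h | ⟨x0, h0, h1⟩
  · rw [h]; exact finite_empty
  refine (toFinite {x0, x0 + ch K e x0 • e}).subset fun x hx => ?_
  obtain ⟨t, ht⟩ := exists_smul_of_dt_eq_zero he (z := x - x0) (by
    rw [dt_sub_right, hx.2, h1, sub_self])
  have e1 : x = x0 + t • e := by rw [← ht]; abel
  by_cases t0 : t = 0
  · left; rw [e1, t0]; simp
  · right; rw [ch_eq hc hs he h0 t0 (e1 ▸ hx.1)]; exact e1

lemma exists_hit (hc : IsClosed K) (hs : StrictConvex ℝ K) :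
    ∃ D : Set (ℝ × ℝ), D.Countable ∧
      ∀ A ⊆ frontier K, IsPreconnected A → A.Nontrivial → (A ∩ D).Nonempty := by
  refine ⟨⋃ q : ℚ, {x ∈ frontier K | dt (1, 0) x = q} ∪ {x ∈ frontier K | dt (0, 1) x = q},
    countable_iUnion fun q => ((line_finite hc hs (by simp) _).union
      (line_finite hc hs (by simp) _)).countable, ?_⟩
  have key : ∀ (e : ℝ × ℝ) (A : Set (ℝ × ℝ)), IsPreconnected A → ∀ x ∈ A, ∀ y ∈ A,
      dt e x ≠ dt e y → ∃ z ∈ A, ∃ q : ℚ, dt e z = q := by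
    intro e A hA x hx y hy hne
    have h1 := hA.image _ (continuous_dt_right e).continuousOn
    rcases lt_or_gt_of_ne hne with h | h <;> obtain ⟨q, q1, q2⟩ := exists_rat_btwn h
    · obtain ⟨z, hz, e1⟩ := h1.Icc_subset ⟨x, hx, rfl⟩ ⟨y, hy, rfl⟩ ⟨q1.le, q2.le⟩
      exact ⟨z, hz, q, e1⟩
    · obtain ⟨z, hz, e1⟩ := h1.Icc_subset ⟨y, hy, rfl⟩ ⟨x, hx, rfl⟩ ⟨q1.le, q2.le⟩
      exact ⟨z, hz, q, e1⟩
  rintro A hA hp ⟨x, hx, y, hy, hxy⟩
  by_cases h : dt (1, 0) x = dt (1, 0) y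
  · obtain ⟨z, hz, q, e1⟩ := key (0, 1) A hp x hx y hy fun h' => hxy (by
      simp only [dt] at h h'
      ext <;> linarith)
    exact ⟨z, hz, mem_iUnion.2 ⟨q, Or.inr ⟨hA hz, e1⟩⟩⟩
  · obtain ⟨z, hz, q, e1⟩ := key (1, 0) A hp x hx y hy h
    exact ⟨z, hz, mem_iUnion.2 ⟨q, Or.inl ⟨hA hz, e1⟩⟩⟩

lemma const_of_countable {X : Type*} [TopologicalSpace X] {S : Set X} (hS : IsPreconnected S)
    {g : X → ℝ} (hg : ContinuousOn g S) {C : Set ℝ} (hC : C.Countable) (h : ∀ s ∈ S, g s ∈ C)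
    {s t : X} (h1 : s ∈ S) (h2 : t ∈ S) : g s = g t :=
  hC.isTotallyDisconnected _ (by rintro _ ⟨s, hs, rfl⟩; exact h s hs) (hS.image g hg)
    ⟨s, h1, rfl⟩ ⟨t, h2, rfl⟩

/-- squared Euclidean norm -/
def fq (x : ℝ × ℝ) : ℝ := x.1 ^ 2 + x.2 ^ 2

lemma continuous_fq : Continuous fq := by unfold fq; fun_prop

/-- the squared norm takes countably many values on the curve near `x` -/
def Cn (K : Set (ℝ × ℝ)) (x : ℝ × ℝ) : Prop := ∃ W ∈ 𝓝 x, (fq '' (W ∩ frontier K)).Countable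

lemma cn_step (hK : IsCompact K) (hs : StrictConvex ℝ K) {δ : ℝ}
    (H : ∀ ε, |ε| < δ → RP K (1, ε) (-ε, 1)) {x0 : ℝ × ℝ} {ε0 a b : ℝ} (h0 : |ε0| < δ)
    (ha : a ≠ 0) (hb : b ≠ 0) (hx : x0 ∈ frontier K)
    (h2 : x0 + a • ((1, ε0) : ℝ × ℝ) ∈ frontier K) (h4 : x0 + b • ((-ε0, 1) : ℝ × ℝ) ∈ frontier K)
    (c2 : Cn K (x0 + a • ((1, ε0) : ℝ × ℝ))) (c4 : Cn K (x0 + b • ((-ε0, 1) : ℝ × ℝ))) :
    Cn K x0 := by
  have hc := hK.isClosed
  obtain ⟨W2, w2, C2⟩ := c2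
  obtain ⟨W4, w4, C4⟩ := c4
  obtain ⟨D, hD, hit⟩ := exists_hit hc hs
  have nu : ∀ ε : ℝ, ((1, ε) : ℝ × ℝ) ≠ 0 := fun ε => by simp
  have nv : ∀ ε : ℝ, ((-ε, 1) : ℝ × ℝ) ≠ 0 := fun ε => by simp
  have cont : ∀ (e : ℝ → ℝ × ℝ), Continuous e → (∀ ε, e ε ≠ 0) → ∀ p : ℝ × ℝ × ℝ,
      p.2 ∈ frontier K → ch K (e p.1) p.2 ≠ 0 → ContinuousWithinAt
        (fun p : ℝ × ℝ × ℝ => ch K (e p.1) p.2) {p | p.2 ∈ frontier K} p := fun e he h p hp h1 =>
    ContinuousWithinAt.comp (f := fun p : ℝ × ℝ × ℝ => (e p.1, p.2)) (ch_cont hK hs (h _) hp h1)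
      (by fun_prop : Continuous fun p : ℝ × ℝ × ℝ => (e p.1, p.2)).continuousWithinAt
      fun _ h => h
  have near : ∀ (e : ℝ → ℝ × ℝ) (a : ℝ) (W : Set (ℝ × ℝ)), Continuous e → (∀ ε, e ε ≠ 0) → a ≠ 0 →
      x0 + a • e ε0 ∈ frontier K → W ∈ 𝓝 (x0 + a • e ε0) → ∀ᶠ p : ℝ × ℝ × ℝ in 𝓝 (ε0, x0),
        p.2 ∈ frontier K → ch K (e p.1) p.2 ≠ 0 ∧ p.2 + ch K (e p.1) p.2 • e p.1 ∈ W := by
    intro e a W he h ha m hW
    have e1 := ch_eq hc hs (h ε0) hx ha m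
    have k1 := cont e he h (ε0, x0) hx (e1 ▸ ha)
    have k2 : ContinuousWithinAt (fun p : ℝ × ℝ × ℝ => p.2 + ch K (e p.1) p.2 • e p.1)
        {p | p.2 ∈ frontier K} (ε0, x0) :=
      continuous_snd.continuousWithinAt.add (k1.smul (he.comp continuous_fst).continuousWithinAt)
    refine eventually_nhdsWithin_iff.1 ((k1.tendsto.eventually_ne (e1 ▸ ha)).and
      (k2.tendsto.eventually ?_))
    simp only [e1]
    exact hW
  have cu : Continuous fun ε : ℝ => ((1, ε) : ℝ × ℝ) := by fun_prop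
  have cv : Continuous fun ε : ℝ => ((-ε, 1) : ℝ × ℝ) := by fun_prop
  have ev := ((near _ a W2 cu nu ha h2 w2).and (near _ b W4 cv nv hb h4 w4)).and
    ((continuous_fst.abs.continuousAt (x := (ε0, x0))).eventually (gt_mem_nhds h0))
  obtain ⟨ρ, hρ, hb⟩ := Metric.eventually_nhds_iff_ball.1 ev
  refine ⟨Metric.ball x0 ρ, Metric.ball_mem_nhds _ hρ, (C2.union (((C2.image2 C4 (· + ·))).image2
    (hD.image fq) (· - ·))).mono ?_⟩
  rintro _ ⟨x, ⟨hxb, hxF⟩, rfl⟩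
  have P := fun ε (h : ε ∈ Metric.ball ε0 ρ) => hb (ε, x) (by
    rw [← ball_prod_same]; exact ⟨h, hxb⟩)
  set A : ℝ → ℝ := fun ε => ch K (1, ε) x with hA
  set B : ℝ → ℝ := fun ε => ch K (-ε, 1) x with hB
  have cs : ∀ (e : ℝ → ℝ × ℝ), Continuous e → (∀ ε, e ε ≠ 0) →
      (∀ ε ∈ Metric.ball ε0 ρ, ch K (e ε) x ≠ 0) →
      ContinuousOn (fun ε => ch K (e ε) x) (Metric.ball ε0 ρ) := fun e he h h1 ε hε =>
    ContinuousWithinAt.comp (f := fun ε : ℝ => (ε, x)) (cont e he h (ε, x) hxF (h1 ε hε))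
      (by fun_prop : Continuous fun ε : ℝ => (ε, x)).continuousWithinAt fun _ _ => hxF
  have cA : ContinuousOn A (Metric.ball ε0 ρ) := cs _ cu nu fun ε h => ((P ε h).1.1 hxF).1
  have cB : ContinuousOn B (Metric.ball ε0 ρ) := cs _ cv nv fun ε h => ((P ε h).1.2 hxF).1
  have pre : IsPreconnected (Metric.ball ε0 ρ) := (convex_ball ε0 ρ).isPreconnected
  have m0 : ε0 ∈ Metric.ball ε0 ρ := Metric.mem_ball_self hρ
  have q2 : ∀ ε ∈ Metric.ball ε0 ρ, fq (x + A ε • ((1, ε) : ℝ × ℝ)) ∈ fq '' (W2 ∩ frontier K) :=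
    fun ε h => ⟨_, ⟨((P ε h).1.1 hxF).2, ch_mem hxF⟩, rfl⟩
  have q4 : ∀ ε ∈ Metric.ball ε0 ρ, fq (x + B ε • ((-ε, 1) : ℝ × ℝ)) ∈ fq '' (W4 ∩ frontier K) :=
    fun ε h => ⟨_, ⟨((P ε h).1.2 hxF).2, ch_mem hxF⟩, rfl⟩
  have k2 := fun ε h => const_of_countable pre (continuous_fq.comp_continuousOn
    (continuousOn_const.add (cA.smul cu.continuousOn))) C2 q2 (s := ε) h m0
  set p3 : ℝ → ℝ × ℝ := fun ε => x + A ε • ((1, ε) : ℝ × ℝ) + B ε • ((-ε, 1) : ℝ × ℝ) with hp3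
  have flag : ∀ ε, fq x + fq (p3 ε) =
      fq (x + A ε • ((1, ε) : ℝ × ℝ)) + fq (x + B ε • ((-ε, 1) : ℝ × ℝ)) := fun ε => by
    simp only [hp3, fq, Prod.fst_add, Prod.snd_add, Prod.smul_fst, Prod.smul_snd, smul_eq_mul]
    ring
  by_cases hn : (p3 '' Metric.ball ε0 ρ).Nontrivial
  · obtain ⟨_, ⟨ε, hε, rfl⟩, hz⟩ := hit _ (by
      rintro _ ⟨ε, hε, rfl⟩
      exact H ε (P ε hε).2 x _ _ ((P ε hε).1.1 hxF).1 ((P ε hε).1.2 hxF).1 hxF (ch_mem hxF)
        (ch_mem hxF)) (pre.image _ ((continuousOn_const.add (cA.smul cu.continuousOn)).add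
          (cB.smul cv.continuousOn))) hn
    exact Or.inr ⟨_, ⟨_, q2 ε hε, _, q4 ε hε, rfl⟩, fq (p3 ε), ⟨_, hz, rfl⟩,
      sub_eq_iff_eq_add.2 (flag ε).symm⟩
  · left
    rw [not_nontrivial_iff] at hn
    obtain ⟨c, hc2⟩ : ∃ c, c = fq (x + A ε0 • ((1, ε0) : ℝ × ℝ)) := ⟨_, rfl⟩
    have poly : ∀ ε ∈ Metric.ball ε0 ρ, ((p3 ε0).1 - x.1 + ε * ((p3 ε0).2 - x.2)) *
        ((p3 ε0).1 + x.1 + ε * ((p3 ε0).2 + x.2)) = (c - fq x) * (1 + ε ^ 2) := by
      intro ε hε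
      have e1 : fq (x + A ε • ((1, ε) : ℝ × ℝ)) = c := (k2 ε hε).trans hc2.symm
      rw [← hn ⟨ε, hε, rfl⟩ ⟨ε0, m0, rfl⟩, ← e1]
      simp only [hp3, fq, Prod.fst_add, Prod.snd_add, Prod.smul_fst, Prod.smul_snd, smul_eq_mul]
      ring
    have y0 := poly ε0 m0
    have y1 := poly (ε0 + ρ / 2) (by simp [abs_of_pos hρ, hρ])
    have y2 := poly (ε0 - ρ / 2) (by simp [abs_of_pos hρ, hρ])
    generalize (p3 ε0).1 - x.1 = m1, (p3 ε0).2 - x.2 = m2, (p3 ε0).1 + x.1 = n1,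
      (p3 ε0).2 + x.2 = n2 at y0 y1 y2
    have z2 : m2 * n2 = c - fq x := by
      apply mul_left_cancel₀ (pow_pos (half_pos hρ) 2).ne'
      linear_combination (1 / 2) * y1 + (1 / 2) * y2 - y0
    have z1 : m1 * n2 + m2 * n1 = 0 := by
      apply mul_left_cancel₀ hρ.ne'
      linear_combination y1 - y2 - 2 * ε0 * ρ * z2
    have z0 : m1 * n1 = c - fq x := by linear_combination y0 - ε0 * z1 - ε0 ^ 2 * z2
    have z3 : (c - fq x) ^ 2 + (m1 * n2) ^ 2 = 0 := by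
      linear_combination (-(c - fq x)) * z0 - m1 * n1 * z2 + m1 * n2 * z1
    have z4 : c - fq x = 0 := by nlinarith [sq_nonneg (c - fq x), sq_nonneg (m1 * n2)]
    rw [← sub_eq_zero.1 z4, hc2]
    exact q2 ε0 m0

lemma RP.side (hK : IsCompact K) (hs : StrictConvex ℝ K) {e1 e2 p : ℝ × ℝ} (h : RP K e1 e2)
    (he : e2 ≠ 0) {a r : ℝ} (ha : a ≠ 0) (hp : p ∈ frontier K) (hpa : p + a • e1 ∈ frontier K)
    (hr : p + r • e2 ∈ K) : p + a • e1 + r • e2 ∈ K := by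
  have F := @hK.isClosed.frontier_subset
  by_cases r0 : r = 0
  · simpa [r0] using F hpa
  obtain ⟨s, s0, f⟩ := exit_point hK (smul_ne_zero r0 he) hr
  rw [smul_smul, add_assoc, ← add_smul] at f
  have n : r + s * r ≠ 0 := by
    rw [show r + s * r = (1 + s) * r by ring]
    exact mul_ne_zero (by linarith) r0
  have := hs.convex.add_smul_mem (F hpa) (F (h p a _ ha n hp hpa f)) (t := (1 + s)⁻¹)
    ⟨by positivity, inv_le_one_of_one_le₀ (by linarith)⟩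
  rwa [smul_smul, show (1 + s)⁻¹ * (r + s * r) = r by field_simp] at this

lemma narrow (hK : IsCompact K) (hs : StrictConvex ℝ K) (h : RP K (1, 0) (0, 1)) {x y : ℝ × ℝ}
    {a s : ℝ} (ha : a ≠ 0) (hx : x ∈ frontier K) (hxa : x + a • ((1, 0) : ℝ × ℝ) ∈ frontier K)
    (hy : y ∈ frontier K) (e : y.1 = x.1 + s * a) (s0 : 0 < s) (s1 : s < 1) :
    |ch K (1, 0) y| < |a| := by
  have F := @hK.isClosed.frontier_subset
  have n1 : ((1, 0) : ℝ × ℝ) ≠ 0 := by simp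
  have n2 : ((0, 1) : ℝ × ℝ) ≠ 0 := by simp
  have key : x + (y.2 - x.2) • ((0, 1) : ℝ × ℝ) ∈ K →
      x + a • ((1, 0) : ℝ × ℝ) + (y.2 - x.2) • ((0, 1) : ℝ × ℝ) ∈ K → False := fun k1 k2 => by
    have := between_interior hs (x := x + (y.2 - x.2) • ((0, 1) : ℝ × ℝ)) (smul_ne_zero ha n1)
      s0 s1 (by simpa using k1) (by rwa [one_smul, add_right_comm])
    refine hy.2 (Eq.subst (motive := fun z => z ∈ interior K) ?_ this)
    ext <;> simp [e]
  set t := ch K (1, 0) y with ht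
  have seg : ∀ θ ∈ Icc (0 : ℝ) 1, y + θ • t • ((1, 0) : ℝ × ℝ) ∈ K := fun θ hθ =>
    hs.convex.add_smul_mem (F hy) (F (ch_mem hy)) hθ
  have h1 : t / a < 1 - s := by
    by_contra hc
    have p : 0 < t / a := by linarith
    have t0 : t ≠ 0 := fun h0 => by simp [h0] at p
    have k := seg ((1 - s) / (t / a)) ⟨by apply div_nonneg <;> linarith,
      (div_le_one p).2 (not_lt.1 hc)⟩
    have k2 : x + a • ((1, 0) : ℝ × ℝ) + (y.2 - x.2) • ((0, 1) : ℝ × ℝ) ∈ K := by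
      refine Eq.subst (motive := fun z => z ∈ K) ?_ k
      ext
      · simp [e]; field_simp; ring
      · simp
    refine key ?_ k2
    have := h.side hK hs n2 (neg_ne_zero.2 ha) hxa (by rwa [neg_smul, add_neg_cancel_right]) k2
    rwa [neg_smul, add_neg_cancel_right] at this
  have h2 : -s < t / a := by
    by_contra hc
    have p : 0 < -(t / a) := by linarith
    have t0 : t ≠ 0 := fun h0 => by simp [h0] at p
    have k := seg (s / -(t / a)) ⟨by positivity, (div_le_one p).2 (by linarith)⟩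
    have k2 : x + (y.2 - x.2) • ((0, 1) : ℝ × ℝ) ∈ K := by
      refine Eq.subst (motive := fun z => z ∈ K) ?_ k
      ext
      · simp [e]; field_simp; ring
      · simp
    exact key k2 (h.side hK hs n2 ha hx hxa k2)
  rw [← div_lt_one (abs_pos.2 ha), ← abs_div, abs_lt]
  constructor <;> linarith

lemma bad_finite (hK : IsCompact K) (hs : StrictConvex ℝ K) {δ : ℝ} (hδ : 0 < δ)
    (H : ∀ ε, |ε| < δ → RP K (1, ε) (-ε, 1))
    (hT : ∀ x, Supp K (1, 0) x ∨ Supp K (-(1, 0)) x → Cn K x) :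
    {x ∈ frontier K | ¬ Cn K x}.Finite := by
  have hc := hK.isClosed
  have F := @hc.frontier_subset
  have n1 : ((1, 0) : ℝ × ℝ) ≠ 0 := by simp
  have n2 : ((0, 1) : ℝ × ℝ) ≠ 0 := by simp
  have H0 : RP K (1, 0) (0, 1) := by simpa using H 0 (by simpa using hδ)
  rcases {x ∈ frontier K | ¬ Cn K x}.eq_empty_or_nonempty with h | hne
  · rw [h]; exact finite_empty
  have hop : IsOpen {x | Cn K x} := isOpen_iff_mem_nhds.2 fun x ⟨W, h1, h2⟩ =>
    (eventually_eventually_nhds.2 h1).mono fun y hy => ⟨W, hy, h2⟩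
  have hY : IsCompact {x ∈ frontier K | ¬ Cn K x} :=
    hK.of_isClosed_subset (isClosed_frontier.inter hop.isClosed_compl) fun x h => F h.1
  have hch : ∀ x ∈ {x ∈ frontier K | ¬ Cn K x}, ch K (1, 0) x ≠ 0 := fun x hx h0 =>
    hx.2 (hT x (supp_of_line hK hs n1 hx.1 fun t ht => by_contra fun t0 =>
      t0 ((ch_eq hc hs n1 hx.1 t0 ht).symm.trans h0)))
  obtain ⟨x, hx, hmin⟩ := hY.exists_isMinOn hne (f := fun x => |ch K (1, 0) x|) fun x hx =>
    (ContinuousWithinAt.comp (f := fun x : ℝ × ℝ => (((1, 0) : ℝ × ℝ), x))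
      (ch_cont hK hs n1 hx.1 (hch x hx)) (by fun_prop : Continuous fun x : ℝ × ℝ =>
        (((1, 0) : ℝ × ℝ), x)).continuousWithinAt fun _ h => h.1).abs
  have ha := hch x hx
  have hxa := ch_mem (e := (1, 0)) hx.1
  set a := ch K (1, 0) x with hadef
  have good : ∀ y ∈ frontier K, ∀ s, y.1 = x.1 + s * a → 0 < s → s < 1 → Cn K y :=
    fun y hy s e s0 s1 => by_contra fun hn =>
      absurd (hmin ⟨hy, hn⟩) (not_le.2 (narrow hK hs H0 ha hx.1 hxa hy e s0 s1))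
  by_cases hb : ∃ b : ℝ, b ≠ 0 ∧ x + b • ((0, 1) : ℝ × ℝ) ∈ frontier K
  · exfalso
    obtain ⟨b, hb, hxb⟩ := hb
    have t1 : Tendsto (fun η : ℝ => -η * b / a) (𝓝[>] 0) (𝓝 0) := by
      have : Continuous fun η : ℝ => -η * b / a := by fun_prop
      simpa using (this.tendsto 0).mono_left (nhdsWithin_le_nhds (s := Ioi 0))
    have t2 : Tendsto (fun ε : ℝ => (((1, ε) : ℝ × ℝ), x)) (𝓝 0) (𝓝 ((1, 0), x)) :=
      (by fun_prop : Continuous fun ε : ℝ => (((1, ε) : ℝ × ℝ), x)).tendsto 0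
    have t3 : Tendsto (fun ε : ℝ => (((-ε, 1) : ℝ × ℝ), x)) (𝓝 0) (𝓝 ((0, 1), x)) := by
      simpa using (by fun_prop : Continuous fun ε : ℝ => (((-ε, 1) : ℝ × ℝ), x)).tendsto 0
    have t4 : ∀ᶠ ε : ℝ in 𝓝 0, |ε| < δ :=
      continuous_abs.continuousAt.eventually (gt_mem_nhds (by simpa using hδ))
    have hq : 0 < b ^ 2 / a ^ 2 := by positivity
    obtain ⟨η, ⟨⟨⟨⟨τ, j1, j2⟩, τ', j3, j4⟩, j5⟩, j6⟩, η0⟩ := (((t1.eventually (((t2.eventually
      (chord_near hK hs n1 ha hx.1 hxa one_half_pos one_half_lt_one)).and (t3.eventually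
      (chord_near hK hs n2 hb hx.1 hxb one_half_pos one_half_lt_one))).and t4)).and
      (nhdsWithin_le_nhds (gt_mem_nhds (show 0 < 1 / 2 / (b ^ 2 / a ^ 2) by positivity)))).and
      self_mem_nhdsWithin).exists
    have η1 : 0 < η := η0
    rw [abs_le] at j1 j3
    rw [lt_div_iff₀ hq] at j6
    have τ1 : τ < 1 := by
      by_contra hcon
      have τ0 : 0 < τ := by linarith
      have k := hs.convex.add_smul_mem (F hx.1) (F j2) (t := τ⁻¹)
        ⟨by positivity, inv_le_one_of_one_le₀ (not_lt.1 hcon)⟩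
      have := between_interior hs (x := x + a • ((1, 0) : ℝ × ℝ)) (smul_ne_zero hb n2) (p := -η)
        (q := 0) (r := 1) (by linarith) one_pos (by
          refine Eq.subst (motive := fun z => z ∈ K) ?_ k
          ext <;> simp <;> field_simp)
        (by simpa using F (H0 x a b ha hb hx.1 hxa hxb))
      exact hxa.2 (by simpa using this)
    refine hx.2 (cn_step hK hs H j5 (mul_ne_zero (by linarith) ha) (mul_ne_zero (by linarith) hb)
      hx.1 j2 j4 (good _ j2 τ (by simp) (by linarith) τ1)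
      (good _ j4 (τ' * (η * (b ^ 2 / a ^ 2))) (by simp; field_simp) ?_ ?_))
    · exact mul_pos (by linarith) (mul_pos η1 hq)
    · nlinarith [mul_pos η1 hq]
  · push Not at hb
    have s1 := supp_of_line hK hs n2 hx.1 fun t ht => by_contra fun t0 => hb t t0 ht
    have s2 := supp_of_line hK hs n2 hxa fun t ht => by_contra fun t0 => hb t t0 (by
      have := H0 _ (-a) t (neg_ne_zero.2 ha) t0 hxa
        (by rw [neg_smul, add_neg_cancel_right]; exact hx.1) ht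
      rwa [neg_smul, add_neg_cancel_right] at this)
    have ne : x + a • ((1, 0) : ℝ × ℝ) ≠ x := by simpa using ha
    refine (toFinite {x, x + a • ((1, 0) : ℝ × ℝ)}).subset fun y hy => by_contra fun hn => ?_
    simp only [mem_insert_iff, mem_singleton_iff, not_or] at hn
    have e : y.1 = x.1 + (y.1 - x.1) / a * a := by field_simp; ring
    rcases s1 with s1 | s1 <;> rcases s2 with s2 | s2
    · exact ne (s1.unique hs s2 n2)
    · have l1 := s1.lt hs n2 (F hy.1) hn.1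
      have l2 := s2.lt hs (neg_ne_zero.2 n2) (F hy.1) hn.2
      simp [dt] at l1 l2
      exact hy.2 (good y hy.1 _ e (div_pos_of_neg_of_neg (by linarith) (by linarith))
        ((div_lt_one_of_neg (by linarith)).2 (by linarith)))
    · have l1 := s1.lt hs (neg_ne_zero.2 n2) (F hy.1) hn.1
      have l2 := s2.lt hs n2 (F hy.1) hn.2
      simp [dt] at l1 l2
      exact hy.2 (good y hy.1 _ e (div_pos (by linarith) (by linarith))
        ((div_lt_one (by linarith)).2 (by linarith)))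
    · exact ne (s1.unique hs s2 (neg_ne_zero.2 n2))

theorem circle_of_rp (hK : IsCompact K) (hs : StrictConvex ℝ K) (hi : (interior K).Nonempty)
    (hF : IsPreconnected (frontier K)) {δ : ℝ} (hδ : 0 < δ)
    (H : ∀ ε, |ε| < δ → RP K (1, ε) (-ε, 1))
    (hT : ∀ x, Supp K (1, 0) x ∨ Supp K (-(1, 0)) x → Cn K x) :
    ∃ ρ : ℝ, 0 < ρ ∧ frontier K = {x | fq x = ρ ^ 2} := by
  have hfin := bad_finite hK hs hδ H hT
  have hcount : (fq '' frontier K).Countable := by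
    choose! W hW1 hW2 using fun x (h : x ∈ {x | Cn K x}) => h
    obtain ⟨t, ht1, ht2, ht3⟩ := TopologicalSpace.countable_cover_nhdsWithin (f := W)
      fun x hx => mem_nhdsWithin_of_mem_nhds (hW1 x hx)
    refine ((hfin.countable.image fq).union (ht2.biUnion fun x hx => hW2 x (ht1 hx))).mono ?_
    rintro _ ⟨x, hx, rfl⟩
    by_cases h : Cn K x
    · obtain ⟨y, hy, h'⟩ := mem_iUnion₂.1 (ht3 h)
      exact Or.inr (mem_biUnion hy ⟨x, ⟨h', hx⟩, rfl⟩)
    · exact Or.inl ⟨x, ⟨hx, h⟩, rfl⟩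
  have hconst : ∀ x ∈ frontier K, ∀ y ∈ frontier K, fq x = fq y := fun x hx y hy =>
    const_of_countable hF continuous_fq.continuousOn hcount (fun s h => ⟨s, h, rfl⟩) hx hy
  obtain ⟨o, ho⟩ := hi
  have ex : ∀ v : ℝ × ℝ, v ≠ 0 → ∃ s : ℝ, 0 < s ∧ o + s • v ∈ frontier K := fun v hv => by
    obtain ⟨s, s0, f⟩ := exit_point hK hv (interior_subset ho)
    refine ⟨s, lt_of_le_of_ne s0 ?_, f⟩
    rintro rfl
    exact f.2 (by simpa using ho)
  obtain ⟨s, s0, f1⟩ := ex (1, 0) (by simp)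
  obtain ⟨s', s0', f2⟩ := ex (-1, 0) (by simp)
  obtain ⟨R, hR⟩ : ∃ R, R = fq (o + s • ((1, 0) : ℝ × ℝ)) := ⟨_, rfl⟩
  have hR' : ∀ x ∈ frontier K, fq x = R := fun x hx => (hconst x hx _ f1).trans hR.symm
  have hlt : fq o < R := by
    have a1 := hR' _ f1
    have a2 := hR' _ f2
    simp only [fq, Prod.fst_add, Prod.snd_add, Prod.smul_fst, Prod.smul_snd, smul_eq_mul] at a1 a2 ⊢
    have : (s + s') * (R - (o.1 ^ 2 + o.2 ^ 2) - s * s') = 0 := by
      linear_combination (-s') * a1 - s * a2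
    have := (mul_eq_zero.1 this).resolve_left (by linarith)
    nlinarith [mul_pos s0 s0']
  have R0 : 0 < R := lt_of_le_of_lt (by unfold fq; positivity) hlt
  refine ⟨Real.sqrt R, Real.sqrt_pos.2 R0, ?_⟩
  rw [Real.sq_sqrt R0.le]
  refine Subset.antisymm hR' fun q hq => ?_
  have hq' : fq q = R := hq
  obtain ⟨r, r0, f⟩ := ex (q - o) (sub_ne_zero.2 fun e => by rw [e] at hq'; linarith)
  have a1 := hR' _ f
  have r1 : r = 1 := by
    simp only [fq, Prod.fst_add, Prod.snd_add, Prod.smul_fst, Prod.smul_snd, smul_eq_mul,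
      Prod.fst_sub, Prod.snd_sub] at a1 hq' hlt
    have : (r - 1) * (r * ((q.1 - o.1) ^ 2 + (q.2 - o.2) ^ 2) + (R - (o.1 ^ 2 + o.2 ^ 2))) = 0 := by
      linear_combination a1 - r * hq'
    have p : 0 < r * ((q.1 - o.1) ^ 2 + (q.2 - o.2) ^ 2) + (R - (o.1 ^ 2 + o.2 ^ 2)) := by
      have : 0 ≤ r * ((q.1 - o.1) ^ 2 + (q.2 - o.2) ^ 2) := by positivity
      linarith
    linarith [(mul_eq_zero.1 this).resolve_right p.ne']
  simpa [r1] using f

lemma arc_nhds (hK : IsCompact K) (hs : StrictConvex ℝ K) {Γ : ℝ → ℝ × ℝ} {n c : ℝ × ℝ} {μ : ℝ}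
    (hΓ : ∀ t, Γ t ∈ frontier K) (hd : HasStrictDerivAt Γ (μ • n) 0) (hμ : μ ≠ 0)
    (hnc : dt n c ≠ 0) (hc : Γ 0 + c ∈ frontier K) :
    ∃ W ∈ 𝓝 (Γ 0), W ∩ frontier K ⊆ range Γ := by
  have c0 : c ≠ 0 := fun h => hnc (by rw [h, dt_zero_right])
  have hpos := abs_pos.2 hnc
  have dX : HasStrictDerivAt (fun t => dt c (Γ t)) (dt c (μ • n)) 0 :=
    (HasStrictDerivAt.const_mul c.1 (d := fun t => (Γ t).2) hd.snd).sub
      (HasStrictDerivAt.const_mul c.2 (d := fun t => (Γ t).1) hd.fst)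
  have small : ∀ᶠ y in 𝓝 (Γ 0), |dt n y - dt n (Γ 0)| < |dt n c| / 4 :=
    (((continuous_dt_right n).sub continuous_const).abs.continuousAt).eventually
      (gt_mem_nhds (by simpa using hnc))
  have m1 := image_mem_map (m := fun t => dt c (Γ t))
    (hd.hasDerivAt.continuousAt.tendsto.eventually small)
  rw [dX.map_nhds_eq (by
    rw [dt_smul_right, dt_swap]; exact mul_ne_zero hμ (neg_ne_zero.2 hnc))] at m1
  have t2 : Tendsto (fun y : ℝ × ℝ => (c, y)) (𝓝 (Γ 0)) (𝓝 (c, Γ 0)) :=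
    (by fun_prop : Continuous fun y : ℝ × ℝ => (c, y)).tendsto _
  refine ⟨_, ((small.and ((continuous_dt_right c).continuousAt.eventually m1)).and (t2.eventually
    (chord_near hK hs c0 one_ne_zero (hΓ 0) (by simpa using hc) one_half_pos one_half_lt_one))), ?_⟩
  rintro y ⟨⟨⟨j1, t, j2, j3⟩, τ, j4, j5⟩, hy⟩
  obtain ⟨q, hq⟩ := exists_smul_of_dt_eq_zero c0 (z := Γ t - y) (by
    rw [dt_sub_right]; exact sub_eq_zero.2 j3)
  have e1 : Γ t = y + q • c := by rw [← hq]; abel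
  by_cases q0 : q = 0
  · exact ⟨t, by rw [e1, q0]; simp⟩
  exfalso
  rw [abs_le] at j4
  have e2 := three_points hK.isClosed hs c0 q0 (by linarith) hy (e1 ▸ hΓ t) j5
  have j6 : |dt n (Γ t) - dt n (Γ 0)| < |dt n c| / 4 := j2
  rw [e1, dt_add_right, dt_smul_right] at j6
  have j7 : |q * dt n c| < |dt n c| / 2 := by
    rw [abs_lt] at j1 j6 ⊢
    constructor <;> linarith [j1.1, j1.2, j6.1, j6.2]
  rw [abs_mul, abs_of_pos (show 0 < q by linarith)] at j7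
  nlinarith

end Pool.Agent.Lib.MP_171f82_an
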