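import Pool.Agent.Lib.MP_171f82_an.Basic

set_option autoImplicit false

open Set Filter Topology Asymptotics

namespace Pool.Agent.Lib.MP_171f82_an

lemma o_step {R S X1 : ℝ → ℝ} {a : ℝ} {n : ℕ}
    (hR : ∀ᶠ t in 𝓝 a, HasDerivAt R (X1 t * S t) t) (hX1 : ContinuousAt X1 a) (h0 : R a = 0)
    (hS : S =o[𝓝 a] fun t => (t - a) ^ n) : R =o[𝓝 a] fun t => (t - a) ^ (n + 1) := by
  obtain ⟨δ, hδ, hb⟩ := Metric.eventually_nhds_iff_ball.1 hR
  have hn : 𝓝[Metric.ball a δ] a = 𝓝 a := nhdsWithin_eq_nhds.2 (Metric.ball_mem_nhds a hδ)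
  have h1 : (fun t => X1 t * S t) =o[𝓝 a] fun t => (t - a) ^ n := by
    have := (hX1.tendsto.isBigO_one ℝ).mul_isLittleO hS
    simpa using this
  have := (convex_ball a δ).isLittleO_pow_succ_real (Metric.mem_ball_self hδ)
    (fun x hx => (hb x hx).hasDerivWithinAt) (n := n) (by rw [hn]; exact h1)
  rw [hn, h0] at this
  simpa using this

lemma gen_taylor {X X1 F0 F1 F2 F3 F4 F5 : ℝ → ℝ} {a : ℝ}
    (hX : ∀ᶠ t in 𝓝 a, HasDerivAt X (X1 t) t) (hX1 : ContinuousAt X1 a) (hX0 : X a = 0)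
    (h0 : ∀ᶠ t in 𝓝 a, HasDerivAt F0 (X1 t * F1 t) t)
    (h1 : ∀ᶠ t in 𝓝 a, HasDerivAt F1 (X1 t * F2 t) t)
    (h2 : ∀ᶠ t in 𝓝 a, HasDerivAt F2 (X1 t * F3 t) t)
    (h3 : ∀ᶠ t in 𝓝 a, HasDerivAt F3 (X1 t * F4 t) t)
    (h4 : ∀ᶠ t in 𝓝 a, HasDerivAt F4 (X1 t * F5 t) t)
    (h5 : ContinuousAt F5 a) (e0 : F0 a = 0) (e1 : F1 a = 0) :
    (fun t => F0 t - (F2 a / 2 * X t ^ 2 + F3 a / 6 * X t ^ 3 + F4 a / 24 * X t ^ 4 +
      F5 a / 120 * X t ^ 5)) =o[𝓝 a] fun t => (t - a) ^ 5 := by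
  have r5 : (fun t => F5 t - F5 a) =o[𝓝 a] fun t => (t - a) ^ 0 := by
    simp only [pow_zero]
    rw [isLittleO_one_iff]
    have := h5.tendsto.sub_const (F5 a)
    rwa [sub_self] at this
  have r4 : (fun t => F4 t - (F4 a + F5 a * X t)) =o[𝓝 a] fun t => (t - a) ^ (0 + 1) := by
    refine o_step ?_ hX1 (by simp [hX0]) r5
    filter_upwards [hX, h4] with t hx h
    refine HasDerivAt.congr_deriv (h.fun_sub ((hx.const_mul (F5 a)).const_add (F4 a))) ?_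
    ring
  have r3 : (fun t => F3 t - (F3 a + (F4 a * X t + F5 a / 2 * X t ^ 2))) =o[𝓝 a]
      fun t => (t - a) ^ (0 + 1 + 1) := by
    refine o_step ?_ hX1 (by simp [hX0]) r4
    filter_upwards [hX, h3] with t hx h
    refine HasDerivAt.congr_deriv (h.fun_sub (((hx.const_mul (F4 a)).fun_add
      ((hx.fun_pow 2).const_mul (F5 a / 2))).const_add (F3 a))) ?_
    push_cast; ring
  have r2 : (fun t => F2 t - (F2 a + (F3 a * X t + F4 a / 2 * X t ^ 2 + F5 a / 6 * X t ^ 3)))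
      =o[𝓝 a] fun t => (t - a) ^ (0 + 1 + 1 + 1) := by
    refine o_step ?_ hX1 (by simp [hX0]) r3
    filter_upwards [hX, h2] with t hx h
    refine HasDerivAt.congr_deriv (h.fun_sub ((((hx.const_mul (F3 a)).fun_add
      ((hx.fun_pow 2).const_mul (F4 a / 2))).fun_add
      ((hx.fun_pow 3).const_mul (F5 a / 6))).const_add (F2 a))) ?_
    push_cast; ring
  have r1 : (fun t => F1 t - (F2 a * X t + F3 a / 2 * X t ^ 2 + F4 a / 6 * X t ^ 3 +
      F5 a / 24 * X t ^ 4)) =o[𝓝 a] fun t => (t - a) ^ (0 + 1 + 1 + 1 + 1) := by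
    refine o_step ?_ hX1 (by simp [hX0, e1]) r2
    filter_upwards [hX, h1] with t hx h
    refine HasDerivAt.congr_deriv (h.fun_sub ((((hx.const_mul (F2 a)).fun_add
      ((hx.fun_pow 2).const_mul (F3 a / 2))).fun_add
      ((hx.fun_pow 3).const_mul (F4 a / 6))).fun_add ((hx.fun_pow 4).const_mul (F5 a / 24)))) ?_
    push_cast; ring
  refine o_step (n := 4) ?_ hX1 (by simp [hX0, e0]) r1
  filter_upwards [hX, h0] with t hx h
  refine HasDerivAt.congr_deriv (h.fun_sub (((((hx.fun_pow 2).const_mul (F2 a / 2)).fun_add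
    ((hx.fun_pow 3).const_mul (F3 a / 6))).fun_add
    ((hx.fun_pow 4).const_mul (F4 a / 24))).fun_add ((hx.fun_pow 5).const_mul (F5 a / 120)))) ?_
  push_cast; ring

lemma odd_vanish {H : ℝ → ℝ} {a L : ℝ} {n : ℕ} (hn : Odd n)
    (hlim : Tendsto (fun t => H t / (t - a) ^ n) (𝓝[≠] a) (𝓝 L))
    (hpair : ∀ δ > 0, ∃ t1 t2, a - δ < t1 ∧ t1 < a ∧ a < t2 ∧ t2 < a + δ ∧ H t1 = H t2) :
    L = 0 := by
  by_contra hL
  have hpos : 0 < L * L := mul_self_pos.2 hL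
  have h1 := (hlim.const_mul L).eventually (lt_mem_nhds hpos)
  rw [eventually_nhdsWithin_iff, Metric.eventually_nhds_iff] at h1
  obtain ⟨δ, hδ, hb⟩ := h1
  obtain ⟨t1, t2, a1, a2, a3, a4, e⟩ := hpair δ hδ
  have b1 := hb (y := t1) (by rw [Real.dist_eq, abs_lt]; constructor <;> linarith) a2.ne
  have b2 := hb (y := t2) (by rw [Real.dist_eq, abs_lt]; constructor <;> linarith) a3.ne'
  have c1 : (t1 - a) ^ n < 0 := hn.pow_neg (by linarith)
  have c2 : 0 < (t2 - a) ^ n := pow_pos (by linarith) n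
  rw [← mul_div_assoc] at b1 b2
  have d1 : L * H t1 < 0 := by
    by_contra hcon
    have := div_nonpos_of_nonneg_of_nonpos (not_lt.1 hcon) c1.le
    linarith
  have d2 : 0 < L * H t2 := by
    by_contra hcon
    have := div_nonpos_of_nonpos_of_nonneg (not_lt.1 hcon) c2.le
    linarith
  rw [e] at d1
  linarith

lemma exists_pair {Y : ℝ → ℝ} {a : ℝ} (hY : Continuous Y) (h0 : Y a = 0)
    (hpos : ∀ᶠ t in 𝓝[≠] a, 0 < Y t) (δ : ℝ) (hδ : 0 < δ) :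
    ∃ t1 t2, a - δ < t1 ∧ t1 < a ∧ a < t2 ∧ t2 < a + δ ∧ Y t1 = Y t2 := by
  rw [eventually_nhdsWithin_iff, Metric.eventually_nhds_iff] at hpos
  obtain ⟨ε, hε, hb⟩ := hpos
  set d := min δ ε / 2 with hd
  have hm : 0 < min δ ε := lt_min hδ hε
  have d0 : 0 < d := by positivity
  have d1 : d < δ := by have := min_le_left δ ε; linarith
  have d2 : d < ε := by have := min_le_right δ ε; linarith
  have p1 : 0 < Y (a - d) :=
    hb (by rw [Real.dist_eq, abs_lt]; constructor <;> linarith) (by simp [d0.ne'])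
  have p2 : 0 < Y (a + d) :=
    hb (by rw [Real.dist_eq, abs_lt]; constructor <;> linarith) (by simp [d0.ne'])
  have m0 : 0 < min (Y (a - d)) (Y (a + d)) := lt_min p1 p2
  obtain ⟨t1, ht1, e1⟩ := intermediate_value_Icc' (show a - d ≤ a by linarith) hY.continuousOn
    (show min (Y (a - d)) (Y (a + d)) ∈ Icc (Y a) (Y (a - d)) from
      ⟨by rw [h0]; exact m0.le, min_le_left _ _⟩)
  obtain ⟨t2, ht2, e2⟩ := intermediate_value_Icc (show a ≤ a + d by linarith) hY.continuousOn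
    (show min (Y (a - d)) (Y (a + d)) ∈ Icc (Y a) (Y (a + d)) from
      ⟨by rw [h0]; exact m0.le, min_le_right _ _⟩)
  have n1 : t1 ≠ a := by intro h; rw [h, h0] at e1; linarith
  have n2 : t2 ≠ a := by intro h; rw [h, h0] at e2; linarith
  exact ⟨t1, t2, by linarith [ht1.1], lt_of_le_of_ne ht1.2 n1, lt_of_le_of_ne ht2.1 n2.symm,
    by linarith [ht2.2], by rw [e1, e2]⟩

lemma compare_jets {X Y G : ℝ → ℝ} {a ξ f2 f3 f4 f5 g2 g3 g4 g5 : ℝ} (hξ : ξ ≠ 0)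
    (hX : HasDerivAt X ξ a) (hX0 : X a = 0) (hf2 : 0 < f2) (hYc : Continuous Y) (hY0 : Y a = 0)
    (hY : (fun t => Y t - (f2 * X t ^ 2 + f3 * X t ^ 3 + f4 * X t ^ 4 + f5 * X t ^ 5)) =o[𝓝 a]
      fun t => (t - a) ^ 5)
    (hG : (fun t => G t - (g2 * X t ^ 2 + g3 * X t ^ 3 + g4 * X t ^ 4 + g5 * X t ^ 5)) =o[𝓝 a]
      fun t => (t - a) ^ 5)
    (hrel : ∃ δ > 0, ∀ t1 t2, a - δ < t1 → t1 < a → a < t2 → t2 < a + δ → Y t1 = Y t2 →
      G t1 = G t2) :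
    g3 * f2 = g2 * f3 ∧ (g5 * f2 - g2 * f5) * f2 = 2 * (g4 * f2 - g2 * f4) * f3 := by
  have tq : Tendsto (fun t => X t / (t - a)) (𝓝[≠] a) (𝓝 ξ) := by
    have := hasDerivAt_iff_tendsto_slope.1 hX
    refine this.congr fun t => ?_
    rw [slope_def_field, hX0, sub_zero]
  have ts : Tendsto (fun t => t - a) (𝓝[≠] a) (𝓝 0) := by
    have : Tendsto (fun t => t - a) (𝓝 a) (𝓝 (a - a)) := tendsto_id.sub_const a
    rw [sub_self] at this
    exact this.mono_left nhdsWithin_le_nhds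
  have tY := hY.tendsto_div_nhds_zero.mono_left (nhdsWithin_le_nhds (s := {a}ᶜ))
  have tG := hG.tendsto_div_nhds_zero.mono_left (nhdsWithin_le_nhds (s := {a}ᶜ))
  have tv := tq.prodMk_nhds (ts.prodMk_nhds (tY.prodMk_nhds tG))
  have hne : ∀ᶠ t in 𝓝[≠] a, t - a ≠ 0 := by
    filter_upwards [self_mem_nhdsWithin] with t ht
    exact sub_ne_zero.2 ht
  have l2 : Tendsto (fun t => Y t / (t - a) ^ 2) (𝓝[≠] a) (𝓝 (f2 * ξ ^ 2)) := by
    have hc : Continuous (fun v : ℝ × ℝ × ℝ × ℝ => f2 * v.1 ^ 2 + f3 * v.1 ^ 3 * v.2.1 +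
        f4 * v.1 ^ 4 * v.2.1 ^ 2 + f5 * v.1 ^ 5 * v.2.1 ^ 3 + v.2.1 ^ 3 * v.2.2.1) := by fun_prop
    have h1 := (hc.tendsto _).comp tv
    simp only [ne_eq, OfNat.ofNat_ne_zero, not_false_eq_true, zero_pow, mul_zero, add_zero] at h1
    refine h1.congr' ?_
    filter_upwards [hne] with t ht
    simp only [Function.comp]
    field_simp
    ring
  have hpos : ∀ᶠ t in 𝓝[≠] a, 0 < Y t := by
    filter_upwards [l2.eventually (lt_mem_nhds (show 0 < f2 * ξ ^ 2 by positivity)), hne]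
      with t h1 h2
    have h3 : 0 < (t - a) ^ 2 := by positivity
    have := mul_pos h1 h3
    rwa [div_mul_cancel₀ _ h3.ne'] at this
  obtain ⟨δ0, hδ0, hr⟩ := hrel
  have hpair : ∀ δ > 0, ∃ t1 t2, a - δ < t1 ∧ t1 < a ∧ a < t2 ∧ t2 < a + δ ∧ Y t1 = Y t2 ∧
      G t1 = G t2 := by
    intro δ hδ
    obtain ⟨t1, t2, a1, a2, a3, a4, e⟩ := exists_pair hYc hY0 hpos (min δ δ0) (lt_min hδ hδ0)
    have m1 := min_le_left δ δ0
    have m2 := min_le_right δ δ0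
    exact ⟨t1, t2, by linarith, a2, a3, by linarith, e,
      hr t1 t2 (by linarith) a2 a3 (by linarith) e⟩
  have l3 : Tendsto (fun t => (f2 * G t - g2 * Y t) / (t - a) ^ 3) (𝓝[≠] a)
      (𝓝 ((g3 * f2 - g2 * f3) * ξ ^ 3)) := by
    have hc : Continuous (fun v : ℝ × ℝ × ℝ × ℝ => (g3 * f2 - g2 * f3) * v.1 ^ 3 +
        (g4 * f2 - g2 * f4) * v.1 ^ 4 * v.2.1 + (g5 * f2 - g2 * f5) * v.1 ^ 5 * v.2.1 ^ 2 +
        v.2.1 ^ 2 * (f2 * v.2.2.2 - g2 * v.2.2.1)) := by fun_prop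
    have h1 := (hc.tendsto _).comp tv
    simp only [ne_eq, OfNat.ofNat_ne_zero, not_false_eq_true, zero_pow, mul_zero, add_zero,
      sub_self] at h1
    refine h1.congr' ?_
    filter_upwards [hne] with t ht
    simp only [Function.comp]
    field_simp
    ring
  have e3 : g3 * f2 - g2 * f3 = 0 := by
    have := odd_vanish (by decide : Odd 3) l3 fun δ hδ => by
      obtain ⟨t1, t2, a1, a2, a3, a4, e1, e2⟩ := hpair δ hδ
      exact ⟨t1, t2, a1, a2, a3, a4, by simp only [e1, e2]⟩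
    exact (mul_eq_zero.1 this).resolve_right (pow_ne_zero 3 hξ)
  have hg3 : g3 = g2 * f3 / f2 := by field_simp; linarith
  have l5 : Tendsto (fun t => (f2 ^ 2 * (f2 * G t - g2 * Y t) - (g4 * f2 - g2 * f4) * Y t ^ 2) /
      (t - a) ^ 5) (𝓝[≠] a)
      (𝓝 ((f2 * ((g5 * f2 - g2 * f5) * f2 - 2 * (g4 * f2 - g2 * f4) * f3)) * ξ ^ 5)) := by
    have hc : Continuous (fun v : ℝ × ℝ × ℝ × ℝ =>
        (f2 * ((g5 * f2 - g2 * f5) * f2 - 2 * (g4 * f2 - g2 * f4) * f3)) * v.1 ^ 5 +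
        f2 ^ 2 * (f2 * v.2.2.2 - g2 * v.2.2.1) -
        (g4 * f2 - g2 * f4) * (v.1 ^ 6 * v.2.1 * ((f3 ^ 2 + 2 * f2 * f4) +
          (2 * f2 * f5 + 2 * f3 * f4) * (v.1 * v.2.1) + (f4 ^ 2 + 2 * f3 * f5) * (v.1 * v.2.1) ^ 2 +
          2 * f4 * f5 * (v.1 * v.2.1) ^ 3 + f5 ^ 2 * (v.1 * v.2.1) ^ 4) +
          v.2.2.1 * (2 * (f2 * (v.1 * v.2.1) ^ 2 + f3 * (v.1 * v.2.1) ^ 3 +
            f4 * (v.1 * v.2.1) ^ 4 + f5 * (v.1 * v.2.1) ^ 5) + v.2.1 ^ 5 * v.2.2.1))) := by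
      fun_prop
    have h1 := (hc.tendsto _).comp tv
    simp only [ne_eq, OfNat.ofNat_ne_zero, not_false_eq_true, zero_pow, mul_zero, add_zero,
      sub_self, zero_mul, sub_zero] at h1
    refine h1.congr' ?_
    filter_upwards [hne] with t ht
    simp only [Function.comp]
    have hf := hf2.ne'
    rw [hg3]
    field_simp
    ring
  have e5 := odd_vanish (by decide : Odd 5) l5 fun δ hδ => by
    obtain ⟨t1, t2, a1, a2, a3, a4, e1, e2⟩ := hpair δ hδ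
    exact ⟨t1, t2, a1, a2, a3, a4, by simp only [e1, e2]⟩
  have e6 := (mul_eq_zero.1 ((mul_eq_zero.1 e5).resolve_right (pow_ne_zero 5 hξ))).resolve_left
    hf2.ne'
  exact ⟨by linarith, by linarith⟩

end Pool.Agent.Lib.MP_171f82_an
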